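import Mathlib

/-! Extension of derivations along formally smooth algebras (task D1). -/

namespace MP60829e.PS

/-- the square zero extension of `M` by `M`, without algebra structures. -/
private def DExt_B (M : Type*) : Type _ := TrivSqZeroExt M M

private noncomputable instance DExt_ring (M : Type*) [Field M] : CommRing (DExt_B M) :=
  inferInstanceAs (CommRing (TrivSqZeroExt M M))

/-- first component. -/
private def DExt_fst (M : Type*) [Field M] : DExt_B M →+* M where
  toFun x := TrivSqZeroExt.fst x
  map_one' := TrivSqZeroExt.fst_one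
  map_mul' x y := TrivSqZeroExt.fst_mul x y
  map_zero' := TrivSqZeroExt.fst_zero
  map_add' x y := TrivSqZeroExt.fst_add x y

/-- second component. -/
private def DExt_snd {M : Type*} [Field M] (x : DExt_B M) : M := TrivSqZeroExt.snd x

private theorem DExt_snd_mul {M : Type*} [Field M] (x y : DExt_B M) :
    DExt_snd (x * y) = DExt_fst M x * DExt_snd y + DExt_fst M y * DExt_snd x := by
  refine (TrivSqZeroExt.snd_mul x y).trans ?_
  simp only [smul_eq_mul, MulOpposite.smul_eq_mul_unop, MulOpposite.unop_op]
  rw [mul_comm (TrivSqZeroExt.snd x)]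
  rfl

private theorem DExt_snd_add {M : Type*} [Field M] (x y : DExt_B M) :
    DExt_snd (x + y) = DExt_snd x + DExt_snd y := TrivSqZeroExt.snd_add x y

private theorem DExt_ext {M : Type*} [Field M] {x y : DExt_B M}
    (h1 : DExt_fst M x = DExt_fst M y) (h2 : DExt_snd x = DExt_snd y) : x = y :=
  TrivSqZeroExt.ext h1 h2

/-- pairs. -/
private def DExt_mk {M : Type*} [Field M] (a b : M) : DExt_B M := (a, b)

private theorem DExt_fst_mk {M : Type*} [Field M] (a b : M) : DExt_fst M (DExt_mk a b) = a := rfl

private theorem DExt_snd_mk {M : Type*} [Field M] (a b : M) : DExt_snd (DExt_mk a b) = b := rfl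

/-- the algebra structure given by a derivation. -/
private def DExt_phi {A M : Type*} [CommRing A] [Field M] [Algebra A M] (D : Derivation ℤ A M) :
    A →+* DExt_B M where
  toFun a := DExt_mk (algebraMap A M a) (D a)
  map_one' := by
    apply DExt_ext
    · rw [DExt_fst_mk, map_one, map_one]
    · rw [DExt_snd_mk, Derivation.map_one_eq_zero]
      exact (TrivSqZeroExt.snd_one).symm
  map_mul' x y := by
    apply DExt_ext
    · rw [DExt_fst_mk, map_mul (algebraMap A M), map_mul (DExt_fst M), DExt_fst_mk, DExt_fst_mk]
    · rw [DExt_snd_mul, DExt_snd_mk, DExt_snd_mk, DExt_snd_mk, DExt_fst_mk, DExt_fst_mk,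
        Derivation.leibniz, Algebra.smul_def, Algebra.smul_def]
  map_zero' := by
    apply DExt_ext
    · rw [DExt_fst_mk, map_zero, map_zero]
    · rw [DExt_snd_mk, map_zero]
      exact (TrivSqZeroExt.snd_zero).symm
  map_add' x y := by
    apply DExt_ext
    · rw [DExt_fst_mk, map_add (algebraMap A M), map_add (DExt_fst M), DExt_fst_mk, DExt_fst_mk]
    · rw [DExt_snd_add, DExt_snd_mk, DExt_snd_mk, DExt_snd_mk, map_add]

/-- D1. Derivations with values in a field `M` extend along a formally smooth `A → M`. -/
theorem exists_derivation_extension {A M : Type*} [CommRing A] [Field M] [Algebra A M]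
    [Algebra.FormallySmooth A M] (D : Derivation ℤ A M) :
    ∃ D' : Derivation ℤ M M, ∀ a : A, D' (algebraMap A M a) = D a := by
  let _ : Algebra A (DExt_B M) := (DExt_phi D).toAlgebra
  have halg : ∀ a : A, algebraMap A (DExt_B M) a = DExt_mk (algebraMap A M a) (D a) :=
    fun a => rfl
  let g : DExt_B M →ₐ[A] M :=
    { DExt_fst M with
      commutes' := fun a => rfl }
  have hg : Function.Surjective g := fun m => ⟨DExt_mk m 0, rfl⟩
  have hker : IsNilpotent (RingHom.ker (g : DExt_B M →+* M)) := by
    refine ⟨2, ?_⟩
    rw [pow_two, Ideal.zero_eq_bot, eq_bot_iff, Ideal.mul_le]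
    intro x hx y hy
    have hx' : DExt_fst M x = 0 := hx
    have hy' : DExt_fst M y = 0 := hy
    rw [Ideal.mem_bot]
    apply DExt_ext
    · rw [map_mul, hx', zero_mul, map_zero]
    · rw [DExt_snd_mul, hx', hy', zero_mul, zero_mul, add_zero]
      exact (TrivSqZeroExt.snd_zero).symm
  let s : M →ₐ[A] DExt_B M := Algebra.FormallySmooth.liftOfSurjective (AlgHom.id A M) g hg hker
  have hs : ∀ m, DExt_fst M (s m) = m := fun m =>
    Algebra.FormallySmooth.liftOfSurjective_apply (AlgHom.id A M) g hg hker m
  let L : M →+ M :=
    { toFun := fun m => DExt_snd (s m)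
      map_zero' := by
        rw [map_zero]
        exact TrivSqZeroExt.snd_zero
      map_add' := fun x y => by rw [map_add, DExt_snd_add] }
  refine ⟨Derivation.mk' L.toIntLinearMap ?_, ?_⟩
  · intro x y
    show DExt_snd (s (x * y)) = x • DExt_snd (s y) + y • DExt_snd (s x)
    rw [map_mul, DExt_snd_mul, hs, hs, smul_eq_mul, smul_eq_mul]
  · intro a
    show DExt_snd (s (algebraMap A M a)) = D a
    rw [AlgHom.commutes, halg, DExt_snd_mk]

/-- D1'. In characteristic zero every derivation of a subfield with values in `M` extends. -/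
theorem exists_derivation_extension_field {F M : Type*} [Field F] [CharZero F] [Field M]
    [Algebra F M] (D : Derivation ℤ F M) :
    ∃ D' : Derivation ℤ M M, ∀ a : F, D' (algebraMap F M a) = D a := by
  obtain ⟨s, hs⟩ := exists_isTranscendenceBasis F M
  have hchar : CharZero (IntermediateField.adjoin F (Set.range ((↑) : s → M))) :=
    charZero_of_injective_algebraMap
      (algebraMap F (IntermediateField.adjoin F (Set.range ((↑) : s → M)))).injective
  have halg : Algebra.IsAlgebraic (IntermediateField.adjoin F (Set.range ((↑) : s → M))) M :=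
    hs.isAlgebraic_field
  have hsep : Algebra.IsSeparable (IntermediateField.adjoin F (Set.range ((↑) : s → M))) M :=
    inferInstance
  have : Algebra.FormallySmooth F M :=
    Algebra.FormallySmooth.of_algebraicIndependent_of_isSeparable hs.1
  exact exists_derivation_extension D

end MP60829e.PS
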