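import Mathlib
import Pool.Agent.Lib.MP_60829e_nt.PS.DExt

/-! Derivations with prescribed values on an algebraically independent family (task D2). -/

namespace MP60829e.PS

/-- in characteristic zero a field extension is formally smooth -/
private theorem DDer_smooth {F M : Type*} [Field F] [CharZero F] [Field M] [Algebra F M] :
    Algebra.FormallySmooth F M := by
  obtain ⟨s, hs⟩ := exists_isTranscendenceBasis F M
  have hchar : CharZero (IntermediateField.adjoin F (Set.range ((↑) : s → M))) :=
    charZero_of_injective_algebraMap (algebraMap F _).injective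
  have halg : Algebra.IsAlgebraic (IntermediateField.adjoin F (Set.range ((↑) : s → M))) M := by
    have := hs.isAlgebraic_field
    exact this
  have : Algebra.IsSeparable (IntermediateField.adjoin F (Set.range ((↑) : s → M))) M :=
    inferInstance
  exact Algebra.FormallySmooth.of_algebraicIndependent_of_isSeparable hs.1

open scoped IntermediateField.algebraAdjoinAdjoin in
/-- D2. -/
theorem exists_derivation_of_algebraicIndependent {ι K M : Type*} [Field K] [CharZero K] [Field M]
    [Algebra K M] {b : ι → M} (hb : AlgebraicIndependent K b) (m : ι → M) :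
    ∃ D : Derivation K M M, ∀ i, D (b i) = m i := by
  have hchar : CharZero (IntermediateField.adjoin K (Set.range b)) :=
    charZero_of_injective_algebraMap (algebraMap K _).injective
  have h1 : Algebra.FormallySmooth (Algebra.adjoin K (Set.range b))
      (IntermediateField.adjoin K (Set.range b)) :=
    .of_isLocalization (nonZeroDivisors _)
  have h2 : Algebra.FormallySmooth (IntermediateField.adjoin K (Set.range b)) M := DDer_smooth
  have h3 : Algebra.FormallySmooth (Algebra.adjoin K (Set.range b)) M :=
    .comp _ (IntermediateField.adjoin K (Set.range b)) _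
  let _ : Module (MvPolynomial ι K) M := Module.compHom M (MvPolynomial.aeval b).toRingHom
  have hsm : ∀ (p : MvPolynomial ι K) (x : M), p • x = MvPolynomial.aeval b p * x := fun p x => rfl
  have : IsScalarTower K (MvPolynomial ι K) M := ⟨fun c p x => by
    rw [hsm, hsm, map_smul, Algebra.smul_mul_assoc]⟩
  let D1 : Derivation K (MvPolynomial ι K) M := MvPolynomial.mkDerivation K m
  let e := hb.aevalEquiv
  let f : Algebra.adjoin K (Set.range b) →+ M :=
    { toFun := fun a => D1 (e.symm a)
      map_zero' := by simp
      map_add' := fun x y => by simp }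
  have hval : ∀ a : Algebra.adjoin K (Set.range b),
      MvPolynomial.aeval b (e.symm a) = (a : M) := by
    intro a
    have h := hb.algebraMap_aevalEquiv (e.symm a)
    rw [← h]
    simp [e]
  let D0 : Derivation ℤ (Algebra.adjoin K (Set.range b)) M := Derivation.mk' f.toIntLinearMap (by
    intro x y
    show D1 (e.symm (x * y)) = x • D1 (e.symm y) + y • D1 (e.symm x)
    rw [map_mul, Derivation.leibniz, hsm, hsm, hval, hval]
    rfl)
  obtain ⟨D', hD'⟩ := exists_derivation_extension D0
  have hK : ∀ c : K, D' (algebraMap K M c) = 0 := by
    intro c
    have h := hD' (algebraMap K _ c)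
    have h5 : algebraMap (Algebra.adjoin K (Set.range b)) M (algebraMap K _ c) =
        algebraMap K M c := rfl
    rw [h5] at h
    rw [h]
    show D1 (e.symm (algebraMap K _ c)) = 0
    rw [AlgEquiv.commutes]
    exact D1.map_algebraMap c
  let g : M →ₗ[K] M :=
    { toFun := fun x => D' x
      map_add' := fun x y => map_add D' x y
      map_smul' := fun c x => by
        rw [Algebra.smul_def, Derivation.leibniz, hK, smul_zero, add_zero, RingHom.id_apply,
          smul_eq_mul, ← Algebra.smul_def] }
  refine ⟨Derivation.mk' g (fun x y => ?_), fun i => ?_⟩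
  · show D' (x * y) = x • D' y + y • D' x
    exact D'.leibniz x y
  · show D' (b i) = m i
    have h := hD' ⟨b i, Algebra.subset_adjoin (Set.mem_range_self i)⟩
    have h5 : algebraMap (Algebra.adjoin K (Set.range b)) M
        ⟨b i, Algebra.subset_adjoin (Set.mem_range_self i)⟩ = b i := rfl
    rw [h5] at h
    rw [h]
    show D1 (e.symm _) = m i
    have h6 : e (MvPolynomial.X i) = ⟨b i, Algebra.subset_adjoin (Set.mem_range_self i)⟩ := by
      apply Subtype.ext
      have h7 : algebraMap (Algebra.adjoin K (Set.range b)) M (hb.aevalEquiv (MvPolynomial.X i)) =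
          MvPolynomial.aeval b (MvPolynomial.X i) := hb.algebraMap_aevalEquiv (MvPolynomial.X i)
      rw [MvPolynomial.aeval_X] at h7
      exact h7
    rw [← h6, AlgEquiv.symm_apply_apply]
    exact MvPolynomial.mkDerivation_X K m i

/-- D2'. -/
theorem exists_derivation_of_transcendental {K M : Type*} [Field K] [CharZero K] [Field M]
    [Algebra K M] {e : M} (he : Transcendental K e) : ∃ D : Derivation K M M, D e = 1 := by
  have h1 : AlgebraicIndependent K (fun _ : Unit => e) := by
    rw [algebraicIndependent_unique_type_iff]
    exact he
  obtain ⟨D, hD⟩ := exists_derivation_of_algebraicIndependent h1 (fun _ => 1)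
  exact ⟨D, hD ()⟩

/-- D2''. -/
theorem mem_range_of_forall_derivation {K M : Type*} [Field K] [CharZero K] [IsAlgClosed K]
    [Field M] [Algebra K M] {a : M} (ha : ∀ D : Derivation K M M, D a = 0) :
    a ∈ Set.range (algebraMap K M) := by
  by_contra hx
  have htr : Transcendental K a := by
    intro halg
    apply hx
    have hint : IsIntegral K a := halg.isIntegral
    have := minpoly.mem_range_of_degree_eq_one K a
      (IsAlgClosed.degree_eq_one_of_irreducible K (minpoly.irreducible hint))
    simpa using this
  obtain ⟨D, hD⟩ := exists_derivation_of_transcendental htr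
  rw [ha D] at hD
  exact zero_ne_one hD

/-- D3. A derivation of `M` that vanishes on a subfield `F` vanishes on the elements algebraic
over `F`. -/
theorem derivation_eq_zero_of_isAlgebraic {F M : Type*} [Field F] [CharZero F] [Field M]
    [Algebra F M] {N : Type*} [AddCommGroup N] [Module M N] (D : Derivation ℤ M N)
    (hD : ∀ a : F, D (algebraMap F M a) = 0) {z : M} (hz : IsAlgebraic F z) : D z = 0 := by
  let _ : Module F N := Module.compHom N (algebraMap F M)
  have hsm : ∀ (c : F) (x : N), c • x = algebraMap F M c • x := fun c x => rfl
  have : IsScalarTower F M N := ⟨fun c x y => by rw [hsm, Algebra.smul_def, mul_smul]⟩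
  let g : M →ₗ[F] N :=
    { toFun := fun x => D x
      map_add' := fun x y => map_add D x y
      map_smul' := fun c x => by
        rw [Algebra.smul_def, Derivation.leibniz, hD, smul_zero, add_zero, RingHom.id_apply, hsm] }
  let D2 : Derivation F M N := Derivation.mk' g (fun x y => D.leibniz x y)
  have hint : IsIntegral F z := hz.isIntegral
  have h1 := Derivation.map_aeval D2 (minpoly F z) z
  rw [minpoly.aeval, map_zero] at h1
  have h2 : Polynomial.aeval z (Polynomial.derivative (minpoly F z)) ≠ 0 := by
    have hsep : (minpoly F z).Separable := (minpoly.irreducible hint).separable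
    exact hsep.aeval_derivative_ne_zero (minpoly.aeval F z)
  rcases smul_eq_zero.mp h1.symm with h3 | h3
  · exact absurd h3 h2
  · exact h3

end MP60829e.PS
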