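import Mathlib

/-! Ultrapowers of fields. -/

namespace MP60829e.PS

open Filter

/-- The ultrapower of `k`. -/
def UP {I : Type*} (φ : Ultrafilter I) (k : Type*) : Type _ := Germ (φ : Filter I) k

namespace UP

variable {I : Type*} (φ : Ultrafilter I) {k K : Type*} [Field k] [Field K]

noncomputable instance instField : Field (UP φ k) := inferInstanceAs (Field (Germ (φ : Filter I) k))

/-- The class of a family. -/
def mk : (I → k) →+* UP φ k := Germ.coeRingHom (φ : Filter I)

theorem mk_surjective : Function.Surjective (mk φ : (I → k) → UP φ k) := by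
  intro z
  induction z using Germ.inductionOn with
  | h f => exact ⟨f, rfl⟩

variable {φ} in
theorem mk_eq_mk {f g : I → k} : mk φ f = mk φ g ↔ ∀ᶠ i in (φ : Filter I), f i = g i :=
  Germ.coe_eq

variable {φ} in
theorem mk_eq_zero {f : I → k} : mk φ f = 0 ↔ ∀ᶠ i in (φ : Filter I), f i = 0 := by
  have h : (0 : UP φ k) = mk φ (0 : I → k) := (map_zero _).symm
  rw [h, mk_eq_mk]
  rfl

/-- Functoriality. -/
def map (f : k →+* K) : UP φ k →+* UP φ K where
  toFun := Germ.map f
  map_one' := congrArg (fun g : I → K => (g : Germ (φ : Filter I) K)) (funext fun _ => map_one f)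
  map_zero' := congrArg (fun g : I → K => (g : Germ (φ : Filter I) K)) (funext fun _ => map_zero f)
  map_mul' := by
    intro a b
    obtain ⟨a, rfl⟩ := mk_surjective φ a
    obtain ⟨b, rfl⟩ := mk_surjective φ b
    exact congrArg (fun g : I → K => (g : Germ (φ : Filter I) K))
      (funext fun i => map_mul f (a i) (b i))
  map_add' := by
    intro a b
    obtain ⟨a, rfl⟩ := mk_surjective φ a
    obtain ⟨b, rfl⟩ := mk_surjective φ b
    exact congrArg (fun g : I → K => (g : Germ (φ : Filter I) K))
      (funext fun i => map_add f (a i) (b i))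

theorem map_mk (f : k →+* K) (a : I → k) : map φ f (mk φ a) = mk φ (fun i => f (a i)) := rfl

noncomputable instance instAlgebraConst [Algebra k K] : Algebra k (UP φ K) :=
  ((mk φ).comp ((Pi.constRingHom I K).comp (algebraMap k K))).toAlgebra

noncomputable instance instAlgebraMap [Algebra k K] : Algebra (UP φ k) (UP φ K) :=
  (map φ (algebraMap k K)).toAlgebra

theorem algebraMap_const [Algebra k K] (c : k) :
    algebraMap k (UP φ K) c = mk φ (fun _ => algebraMap k K c) := rfl

theorem algebraMap_self (c : K) : algebraMap K (UP φ K) c = mk φ (fun _ => c) := rfl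

theorem algebraMap_mk [Algebra k K] (a : I → k) :
    algebraMap (UP φ k) (UP φ K) (mk φ a) = mk φ (fun i => algebraMap k K (a i)) := rfl

instance [Algebra k K] : IsScalarTower k (UP φ k) (UP φ K) :=
  IsScalarTower.of_algebraMap_eq fun _ => rfl

instance [Algebra k K] : IsScalarTower k K (UP φ K) :=
  IsScalarTower.of_algebraMap_eq fun _ => rfl

instance [CharZero k] : CharZero (UP φ k) :=
  charZero_of_injective_algebraMap (algebraMap k (UP φ k)).injective

end UP

end MP60829e.PS
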