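import Mathlib

/-! Definitions for the structure theorem of pairs. -/

namespace MP60829e.PS

open MvPolynomial

/-- `x` and `y` are algebraically dependent over `k`. -/
def Dep (k : Type*) {K : Type*} [Field k] [Field K] [Algebra k K] (x y : K) : Prop :=
  ∃ f : MvPolynomial (Fin 2) k, f ≠ 0 ∧ aeval ![x, y] f = 0

/-- Linear combination of `e`. -/
def lc {k K : Type*} [Field k] [Field K] [Algebra k K] {n : ℕ} (e : Fin n → K) (c : Fin n → k) :
    K := ∑ i, algebraMap k K (c i) * e i

end MP60829e.PS
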