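import Mathlib
import Pool.Agent.Lib.MP_60829e_nt.PS.SDefs
import Pool.Agent.Lib.MP_60829e_nt.S.Places

/-! Elementary properties of algebraic dependence of pairs (task S0). -/

namespace MP60829e.PS

open MvPolynomial

variable {k K : Type*} [Field k] [IsAlgClosed k] [Field K] [Algebra k K]

omit [IsAlgClosed k] in
private theorem sdep_iff_not_indep {x y : K} : Dep k x y ↔ ¬ AlgebraicIndependent k ![x, y] := by
  rw [algebraicIndependent_iff]
  unfold Dep
  push Not
  exact ⟨fun ⟨f, h1, h2⟩ => ⟨f, h2, h1⟩, fun ⟨f, h1, h2⟩ => ⟨f, h2, h1⟩⟩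

theorem Dep.symm {x y : K} (h : Dep k x y) : Dep k y x := by
  rw [sdep_iff_not_indep] at h ⊢
  intro hc
  apply h
  have h1 := (algebraicIndependent_equiv (R := k) (Equiv.swap (0 : Fin 2) 1)
    (f := ![y, x])).2 hc
  convert h1 using 1
  funext i
  fin_cases i <;> simp

theorem Dep.of_mem_range {x y : K} (h : x ∈ Set.range (algebraMap k K)) : Dep k x y := by
  obtain ⟨c, rfl⟩ := h
  refine ⟨X 0 - C c, ?_, by simp⟩
  intro hc
  have h1 := congrArg (coeff (Finsupp.single (0 : Fin 2) 1)) hc
  rw [coeff_sub, coeff_X, if_pos rfl, coeff_C, if_neg, coeff_zero, sub_zero] at h1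
  · exact one_ne_zero h1
  · intro h2
    have := congrArg (fun f => f (0 : Fin 2)) h2
    simp at this

theorem Dep.self (x : K) : Dep k x x := by
  refine ⟨X 0 - X 1, ?_, by simp⟩
  intro hc
  have h1 := congrArg (coeff (Finsupp.single (0 : Fin 2) 1)) hc
  rw [coeff_sub, coeff_X, if_pos rfl, coeff_X, if_neg, coeff_zero, sub_zero] at h1
  · exact one_ne_zero h1
  · intro h2
    have := congrArg (fun f => f (0 : Fin 2)) h2
    simp at this

omit [IsAlgClosed k] in
private theorem sdep_pair_iff {x y : K} (hx : Transcendental k x) :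
    AlgebraicIndependent k ![x, y] ↔
      Transcendental (IntermediateField.adjoin k ({x} : Set K)) y := by
  have h1 : AlgebraicIndependent k (fun _ : Unit => x) :=
    algebraicIndependent_unique_type_iff.2 hx
  have h2 := h1.option_iff_transcendental y
  rw [Set.range_const] at h2
  rw [IntermediateField.transcendental_adjoin_iff, ← h2]
  let e : Option Unit ≃ Fin 2 :=
    { toFun := fun o => o.elim 1 (fun _ => 0)
      invFun := fun i => if i = 0 then some () else none
      left_inv := by rintro (_ | _) <;> simp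
      right_inv := by intro i; fin_cases i <;> simp }
  rw [← algebraicIndependent_equiv (R := k) e (f := ![x, y])]
  have : (![x, y] ∘ e) = (fun o : Option Unit => o.elim y (fun _ => x)) := by
    funext o
    rcases o with _ | _ <;> simp [e]
  rw [this]

/-- S0a. -/
theorem dep_iff_isAlgebraic {x y : K} (hx : x ∉ Set.range (algebraMap k K)) :
    Dep k x y ↔ IsAlgebraic (IntermediateField.adjoin k ({x} : Set K)) y := by
  rw [sdep_iff_not_indep, sdep_pair_iff (MP60829e.S.transcendental_of_not_mem_range hx), Transcendental,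
    not_not]

omit [IsAlgClosed k] in
private theorem sdep_alg_trans {x y z : K}
    (h1 : IsAlgebraic (IntermediateField.adjoin k ({x} : Set K)) y)
    (h2 : IsAlgebraic (IntermediateField.adjoin k ({y} : Set K)) z) :
    IsAlgebraic (IntermediateField.adjoin k ({x} : Set K)) z := by
  set A := algebraicClosure (IntermediateField.adjoin k ({x} : Set K)) K with hA
  have hy : y ∈ A := mem_algebraicClosure_iff.2 h1
  have hle : IntermediateField.adjoin k ({y} : Set K) ≤ A.restrictScalars k := by
    rw [IntermediateField.adjoin_le_iff]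
    rintro w (rfl : w = y)
    exact hy
  let f : IntermediateField.adjoin k ({y} : Set K) →+* A :=
    { toFun := fun a => ⟨a.1, hle a.2⟩
      map_one' := rfl
      map_mul' := fun _ _ => rfl
      map_zero' := rfl
      map_add' := fun _ _ => rfl }
  have hf : Function.Injective f := f.injective
  have h3 : IsAlgebraic A z := by
    obtain ⟨p, hp, hpz⟩ := h2
    refine ⟨p.map f, (Polynomial.map_ne_zero_iff hf).2 hp, ?_⟩
    rw [Polynomial.aeval_def, Polynomial.eval₂_map]
    exact hpz
  exact h3.restrictScalars _

/-- S0b. -/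
theorem Dep.trans {x y z : K} (hy : y ∉ Set.range (algebraMap k K)) (hxy : Dep k x y)
    (hyz : Dep k y z) : Dep k x z := by
  by_cases hx : x ∈ Set.range (algebraMap k K)
  · exact Dep.of_mem_range hx
  · rw [dep_iff_isAlgebraic hx] at hxy ⊢
    rw [dep_iff_isAlgebraic hy] at hyz
    exact sdep_alg_trans hxy hyz

/-- S0c. The class of `x`. -/
theorem exists_class {x : K} (hx : x ∉ Set.range (algebraMap k K)) (E : Submodule k K) :
    ∃ V : Submodule k K, ∀ y, y ∈ V ↔ y ∈ E ∧ Dep k x y := by
  refine ⟨E ⊓ Subalgebra.toSubmodule ((algebraicClosure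
    (IntermediateField.adjoin k ({x} : Set K)) K).restrictScalars k).toSubalgebra, fun y => ?_⟩
  rw [Submodule.mem_inf, dep_iff_isAlgebraic hx, ← mem_algebraicClosure_iff]
  rfl

end MP60829e.PS
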