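import Mathlib

/-! Divisibility by an irreducible polynomial vanishing at a generic point of its curve
(task S1a). -/

namespace MP60829e.PS

open MvPolynomial

private lemma sdvd_pseudo {A : Type*} [CommRing A] [IsDomain A] {p : Polynomial A} (hp : p ≠ 0)
    (n : ℕ) : ∀ g : Polynomial A, g.natDegree < n → ∃ (m : ℕ) (q r : Polynomial A),
      Polynomial.C p.leadingCoeff ^ m * g = q * p + r ∧ r.degree < p.degree := by
  induction n with
  | zero => intro g hg; omega
  | succ n ih =>
    intro g hg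
    by_cases h : g.degree < p.degree
    · exact ⟨0, 0, g, by simp, h⟩
    have h' : p.degree ≤ g.degree := not_lt.1 h
    have hg0 : g ≠ 0 := by
      rintro rfl
      rw [Polynomial.degree_zero, le_bot_iff, Polynomial.degree_eq_bot] at h'
      exact hp h'
    have hnd : p.natDegree ≤ g.natDegree := Polynomial.natDegree_le_natDegree h'
    set t : Polynomial A := Polynomial.C g.leadingCoeff *
      Polynomial.X ^ (g.natDegree - p.natDegree) * p with ht
    set g' : Polynomial A := Polynomial.C p.leadingCoeff * g - t with hg'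
    have hlc : p.leadingCoeff ≠ 0 := Polynomial.leadingCoeff_ne_zero.2 hp
    have hlg : g.leadingCoeff ≠ 0 := Polynomial.leadingCoeff_ne_zero.2 hg0
    have hCg : Polynomial.C p.leadingCoeff * g ≠ 0 :=
      mul_ne_zero (Polynomial.C_ne_zero.2 hlc) hg0
    have hdeg : (Polynomial.C p.leadingCoeff * g).degree = g.degree := by
      rw [Polynomial.degree_mul, Polynomial.degree_C hlc, zero_add]
    have hdegt : t.degree = g.degree := by
      rw [ht, Polynomial.degree_mul, Polynomial.degree_mul, Polynomial.degree_C hlg, zero_add,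
        Polynomial.degree_X_pow, Polynomial.degree_eq_natDegree hp,
        Polynomial.degree_eq_natDegree hg0, ← Nat.cast_add, Nat.sub_add_cancel hnd]
    have hlct : (Polynomial.C p.leadingCoeff * g).leadingCoeff = t.leadingCoeff := by
      rw [ht, Polynomial.leadingCoeff_mul, Polynomial.leadingCoeff_mul,
        Polynomial.leadingCoeff_mul, Polynomial.leadingCoeff_C, Polynomial.leadingCoeff_C,
        Polynomial.leadingCoeff_X_pow, mul_one, mul_comm]
    have hlt : g'.degree < g.degree := by
      have := Polynomial.degree_sub_lt_left (hdeg.trans hdegt.symm) hCg hlct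
      rwa [hdeg] at this
    by_cases hg'0 : g' = 0
    · refine ⟨1, Polynomial.C g.leadingCoeff * Polynomial.X ^ (g.natDegree - p.natDegree), 0, ?_, ?_⟩
      · rw [pow_one, add_zero]
        exact sub_eq_zero.1 hg'0
      · rw [Polynomial.degree_zero, bot_lt_iff_ne_bot]
        exact fun h => hp (Polynomial.degree_eq_bot.1 h)
    have hlt' : g'.natDegree < n := by
      have := Polynomial.natDegree_lt_natDegree hg'0 hlt
      omega
    obtain ⟨m, q, r, h1, h2⟩ := ih g' hlt'
    refine ⟨m + 1, q + Polynomial.C p.leadingCoeff ^ m * (Polynomial.C g.leadingCoeff *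
      Polynomial.X ^ (g.natDegree - p.natDegree)), r, ?_, h2⟩
    have h3 : Polynomial.C p.leadingCoeff * g = g' + t := by rw [hg']; ring
    calc Polynomial.C p.leadingCoeff ^ (m + 1) * g
        = Polynomial.C p.leadingCoeff ^ m * (Polynomial.C p.leadingCoeff * g) := by ring
      _ = Polynomial.C p.leadingCoeff ^ m * g' + Polynomial.C p.leadingCoeff ^ m * t := by
          rw [h3]; ring
      _ = _ := by rw [h1, ht]; ring

private lemma sdvd_core {A K : Type*} [CommRing A] [IsDomain A] [Field K] (θ : A →+* K)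
    (hθ : Function.Injective θ) (y : K) {f₀ f : Polynomial A} (hp : Prime f₀)
    (h₀ : f₀.eval₂ θ y = 0) (h : f.eval₂ θ y = 0) : f₀ ∣ f := by
  classical
  have hconst : ∀ p : Polynomial A, p ≠ 0 → p.eval₂ θ y = 0 → p.natDegree ≠ 0 := by
    intro p hp0 hev hdeg
    rw [Polynomial.eq_C_of_natDegree_eq_zero hdeg, Polynomial.eval₂_C] at hev
    apply hp0
    rw [Polynomial.eq_C_of_natDegree_eq_zero hdeg, (map_eq_zero_iff θ hθ).1 hev, map_zero]
  have hex : ∃ n : ℕ, ∃ p : Polynomial A, p ≠ 0 ∧ p.eval₂ θ y = 0 ∧ p.natDegree = n :=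
    ⟨_, f₀, hp.ne_zero, h₀, rfl⟩
  obtain ⟨p, hp0, hpe, hpn⟩ := Nat.find_spec hex
  have hmin : ∀ r : Polynomial A, r.eval₂ θ y = 0 → r.degree < p.degree → r = 0 := by
    intro r hr hd
    by_contra hr0
    have h1 := Polynomial.natDegree_lt_natDegree hr0 hd
    rw [hpn] at h1
    exact Nat.find_min hex h1 ⟨r, hr0, hr, rfl⟩
  have hdiv : ∀ g : Polynomial A, g.eval₂ θ y = 0 → ∃ (a : A) (q : Polynomial A), a ≠ 0 ∧
      Polynomial.C a * g = q * p := by
    intro g hg
    obtain ⟨m, q, r, h1, h2⟩ := sdvd_pseudo hp0 (g.natDegree + 1) g (Nat.lt_succ_self _)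
    have hr : r = 0 := by
      refine hmin r ?_ h2
      have h3 := congrArg (Polynomial.eval₂ θ y) h1
      rw [Polynomial.eval₂_mul, Polynomial.eval₂_add, Polynomial.eval₂_mul, hg, hpe, mul_zero,
        mul_zero, zero_add] at h3
      exact h3.symm
    refine ⟨p.leadingCoeff ^ m, q, pow_ne_zero _ (Polynomial.leadingCoeff_ne_zero.2 hp0), ?_⟩
    rw [map_pow, h1, hr, add_zero]
  obtain ⟨a₀, q₀, ha₀, hq₀⟩ := hdiv f₀ h₀
  obtain ⟨a, q, ha, hq⟩ := hdiv f h
  have key : f₀ ∣ q₀ * (Polynomial.C a * f) := by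
    refine ⟨Polynomial.C a₀ * q, ?_⟩
    calc q₀ * (Polynomial.C a * f) = (q₀ * p) * q := by rw [hq]; ring
      _ = _ := by rw [← hq₀]; ring
  rcases hp.dvd_or_dvd key with h1 | h1
  · exfalso
    obtain ⟨s, hs⟩ := h1
    have h2 : f₀ * Polynomial.C a₀ = f₀ * (s * p) := by rw [mul_comm, hq₀, hs]; ring
    have h3 : Polynomial.C a₀ = s * p := mul_left_cancel₀ hp.ne_zero h2
    have h4 : s ≠ 0 := by
      rintro rfl
      rw [zero_mul, Polynomial.C_eq_zero] at h3
      exact ha₀ h3
    have h5 := congrArg Polynomial.natDegree h3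
    rw [Polynomial.natDegree_C, Polynomial.natDegree_mul h4 hp0] at h5
    exact hconst p hp0 hpe (by omega)
  rcases hp.dvd_or_dvd h1 with h2 | h2
  · exfalso
    have h3 := Polynomial.natDegree_le_of_dvd h2 (Polynomial.C_ne_zero.2 ha)
    rw [Polynomial.natDegree_C] at h3
    exact hconst f₀ hp.ne_zero h₀ (by omega)
  · exact h2

/-- S1a. -/
theorem dvd_of_common_zero {k K : Type*} [Field k] [Field K] [Algebra k K] {x y : K}
    (hx : Transcendental k x) {f₀ f : MvPolynomial (Fin 2) k} (hirr : Irreducible f₀)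
    (h₀ : aeval ![x, y] f₀ = 0) (h : aeval ![x, y] f = 0) : f₀ ∣ f := by
  let ε : MvPolynomial (Fin 2) k ≃ₐ[k] Polynomial (MvPolynomial (Fin 1) k) :=
    (renameEquiv k (Equiv.swap 0 1)).trans (finSuccEquiv k 1)
  let θ : MvPolynomial (Fin 1) k →ₐ[k] K := aeval fun _ => x
  have hθ : Function.Injective θ := by
    have : AlgebraicIndependent k (fun _ : Fin 1 => x) :=
      (algebraicIndependent_unique_type_iff (ι := Fin 1)).2 hx
    exact this
  have hev : ∀ g : MvPolynomial (Fin 2) k,
      (ε g).eval₂ (θ : MvPolynomial (Fin 1) k →+* K) y = aeval ![x, y] g := by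
    intro g
    let E : Polynomial (MvPolynomial (Fin 1) k) →ₐ[k] K :=
      { Polynomial.eval₂RingHom (θ : MvPolynomial (Fin 1) k →+* K) y with
        commutes' := by
          intro r
          change Polynomial.eval₂ _ _ _ = _
          rw [Polynomial.algebraMap_apply, Polynomial.eval₂_C]
          exact θ.commutes r }
    have h1 : E.comp (ε : MvPolynomial (Fin 2) k →ₐ[k] _) = aeval ![x, y] := by
      have e0 : ε (X 0) = Polynomial.C (X 0) := by
        change finSuccEquiv k 1 (rename (Equiv.swap (0 : Fin 2) 1) (X 0)) = _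
        rw [rename_X, Equiv.swap_apply_left]
        exact finSuccEquiv_X_succ (j := 0)
      have e1 : ε (X 1) = Polynomial.X := by
        change finSuccEquiv k 1 (rename (Equiv.swap (0 : Fin 2) 1) (X 1)) = _
        rw [rename_X, Equiv.swap_apply_right]
        exact finSuccEquiv_X_zero
      apply algHom_ext
      intro i
      fin_cases i
      · change Polynomial.eval₂ (θ : MvPolynomial (Fin 1) k →+* K) y (ε (X 0)) = aeval ![x, y] (X 0)
        rw [e0, Polynomial.eval₂_C, aeval_X]
        change θ (X 0) = x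
        rw [aeval_X]
      · change Polynomial.eval₂ (θ : MvPolynomial (Fin 1) k →+* K) y (ε (X 1)) = aeval ![x, y] (X 1)
        rw [e1, Polynomial.eval₂_X, aeval_X]
        rfl
    exact congrArg (fun φ : MvPolynomial (Fin 2) k →ₐ[k] K => φ g) h1
  have hprime : Prime (ε f₀) := (MulEquiv.prime_iff ε.toMulEquiv).2 hirr.prime
  have := sdvd_core (θ : MvPolynomial (Fin 1) k →+* K) hθ y hprime
    ((hev f₀).trans h₀) ((hev f).trans h)
  exact (map_dvd_iff ε.toMulEquiv).1 this

/-- S1b. A nonzero polynomial vanishing at a point has an irreducible factor vanishing there. -/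
theorem exists_irreducible_factor {k K : Type*} [Field k] [Field K] [Algebra k K] {x y : K}
    {f : MvPolynomial (Fin 2) k} (hf : f ≠ 0) (h : aeval ![x, y] f = 0) :
    ∃ f₀ : MvPolynomial (Fin 2) k, Irreducible f₀ ∧ aeval ![x, y] f₀ = 0 := by
  obtain ⟨s, hs, u, hu⟩ := WfDvdMonoid.exists_factors f hf
  rw [← hu, map_mul, mul_eq_zero] at h
  have hu0 : aeval ![x, y] (u : MvPolynomial (Fin 2) k) ≠ 0 :=
    (u.isUnit.map (aeval ![x, y] : MvPolynomial (Fin 2) k →ₐ[k] K)).ne_zero
  have h1 := h.resolve_right hu0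
  rw [map_multiset_prod, Multiset.prod_eq_zero_iff, Multiset.mem_map] at h1
  obtain ⟨f₀, hf₀, h2⟩ := h1
  exact ⟨f₀, hs f₀ hf₀, h2⟩

/-- S1c. Factors have smaller total degree. -/
theorem totalDegree_le_of_dvd' {k : Type*} [Field k] {f₀ f : MvPolynomial (Fin 2) k}
    (hf : f ≠ 0) (h : f₀ ∣ f) : f₀.totalDegree ≤ f.totalDegree := by
  obtain ⟨g, rfl⟩ := h
  have h0 : f₀ ≠ 0 := left_ne_zero_of_mul hf
  have h1 : g ≠ 0 := right_ne_zero_of_mul hf
  rw [totalDegree_mul_of_isDomain h0 h1]
  exact Nat.le_add_right _ _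

end MP60829e.PS
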