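import Mathlib
import Pool.Agent.Lib.MP_60829e_nt.PS.SDep
import Pool.Agent.Lib.MP_60829e_nt.PS.SDvd
import Pool.Agent.Lib.MP_60829e_nt.S.General
import Pool.Agent.Lib.MP_60829e_nt.S.Growth

/-! Uniform bound for the degree of the relation between two dependent elements (task S1). -/

namespace MP60829e.PS

open MvPolynomial MP60829e.S

/-- exponent vector of `X^i Y^j` -/
private noncomputable def sdegree_s (i j : ℕ) : Fin 2 →₀ ℕ := Finsupp.single 0 i + Finsupp.single 1 j

private lemma sdegree_s_zero (i j : ℕ) : sdegree_s i j 0 = i := by simp [sdegree_s]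

private lemma sdegree_s_one (i j : ℕ) : sdegree_s i j 1 = j := by simp [sdegree_s]

/-- a relation of bounded degree in a space of small dimension -/
private lemma sdegree_rel {k A : Type*} [Field k] [CommRing A] [Algebra k A]
    (V : Submodule k A) [FiniteDimensional k V] (a : ℕ) (x y : A)
    (hV : ∀ i ≤ a, ∀ j ≤ a, x ^ i * y ^ j ∈ V) (hdim : Module.finrank k V < (a + 1) ^ 2) :
    ∃ f : MvPolynomial (Fin 2) k, f ≠ 0 ∧ f.totalDegree ≤ 2 * a ∧ aeval ![x, y] f = 0 := by
  classical
  let v : Fin (a + 1) × Fin (a + 1) → V := fun p =>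
    ⟨x ^ (p.1 : ℕ) * y ^ (p.2 : ℕ), hV _ (by omega) _ (by omega)⟩
  have hnot : ¬ LinearIndependent k v := by
    intro h
    have := h.fintype_card_le_finrank
    rw [Fintype.card_prod, Fintype.card_fin] at this
    nlinarith
  rw [Fintype.not_linearIndependent_iff] at hnot
  obtain ⟨g, hg, p₀, hp₀⟩ := hnot
  refine ⟨∑ p : Fin (a + 1) × Fin (a + 1), monomial (sdegree_s p.1 p.2) (g p), ?_, ?_, ?_⟩
  · intro h
    apply hp₀
    have h1 := congrArg (coeff (sdegree_s p₀.1 p₀.2)) h
    rw [coeff_zero, coeff_sum, Finset.sum_eq_single p₀] at h1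
    · rwa [coeff_monomial, if_pos rfl] at h1
    · intro p _ hp
      rw [coeff_monomial, if_neg]
      intro h2
      apply hp
      have h3 := congrArg (fun s : Fin 2 →₀ ℕ => s 0) h2
      have h4 := congrArg (fun s : Fin 2 →₀ ℕ => s 1) h2
      simp only [sdegree_s_zero, sdegree_s_one] at h3 h4
      exact Prod.ext (Fin.ext h3) (Fin.ext h4)
    · intro h; exact absurd (Finset.mem_univ _) h
  · refine (totalDegree_finsetSum _ _).trans (Finset.sup_le fun p _ => ?_)
    refine (totalDegree_monomial_le _ _).trans ?_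
    rw [Finsupp.sum_fintype _ _ (by simp), Fin.sum_univ_two, sdegree_s_zero, sdegree_s_one]
    have h1 := p.1.2
    have h2 := p.2.2
    simp only [id]
    omega
  · have h1 := congrArg V.subtype hg
    rw [map_sum, map_zero] at h1
    rw [map_sum, ← h1]
    refine Finset.sum_congr rfl fun p _ => ?_
    rw [aeval_monomial, Finsupp.prod_fintype _ _ (by simp), Fin.prod_univ_two, sdegree_s_zero,
      sdegree_s_one, map_smul, Algebra.smul_def]
    rfl

/-- S1. -/
theorem degree_bound {k K : Type*} [Field k] [IsAlgClosed k] [CharZero k] [Field K] [Algebra k K]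
    (E : Submodule k K) [FiniteDimensional k E] :
    ∃ C : ℕ, 1 ≤ C ∧ ∀ x ∈ E, ∀ y ∈ E, Dep k x y →
      ∃ f : MvPolynomial (Fin 2) k, f ≠ 0 ∧ f.totalDegree ≤ C ∧ aeval ![x, y] f = 0 := by
  classical
  set U : Submodule k K := E ⊔ Submodule.span k {1} with hUdef
  have hEU : E ≤ U := le_sup_left
  have h1 : (1 : K) ∈ U := Submodule.mem_sup_right (Submodule.mem_span_singleton_self 1)
  have hUfg : U.FG := by
    refine Submodule.FG.sup ?_ (Submodule.fg_span_singleton 1)
    exact (Submodule.fg_iff_finiteDimensional E).2 inferInstance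
  set R : Subalgebra k K := Algebra.adjoin k (U : Set K) with hR
  have hUR : ∀ u ∈ U, u ∈ R := fun u hu => Algebra.subset_adjoin hu
  have hRft : Algebra.FiniteType k R := by
    obtain ⟨s, hs⟩ := hUfg
    have h2 : R = Algebra.adjoin k (s : Set K) := by
      rw [hR, ← hs, Algebra.adjoin_span]
    rw [h2]
    exact (Subalgebra.fg_iff_finiteType _).1 ⟨s, rfl⟩
  set UR : Submodule k R := U.comap R.val.toLinearMap with hURdef
  have hURmap : UR.map R.val.toLinearMap = U := by
    rw [hURdef, Submodule.map_comap_eq]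
    refine inf_eq_right.2 fun u hu => ⟨⟨u, hUR u hu⟩, rfl⟩
  have hURfg : UR.FG := by
    have hinj : Function.Injective R.val.toLinearMap := Subtype.val_injective
    refine Submodule.fg_of_fg_map_injective _ hinj ?_
    rw [hURmap]; exact hUfg
  obtain ⟨P, hP, hPU, ψ, hψ⟩ := curve_section UR hURfg
  have hdom : IsDomain (R ⧸ P) := Ideal.Quotient.isDomain P
  let K' := FractionRing (R ⧸ P)
  let π : R →ₐ[k] K' := (IsScalarTower.toAlgHom k (R ⧸ P) K').comp (Ideal.Quotient.mkₐ k P)
  have hπ0 : ∀ u ∈ UR, π u = 0 → u = 0 := by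
    intro u hu h0
    apply hPU u hu
    have h2 : algebraMap (R ⧸ P) K' (Ideal.Quotient.mk P u) = 0 := h0
    rw [FaithfulSMul.algebraMap_eq_zero_iff] at h2
    exact Ideal.Quotient.eq_zero_iff_mem.1 h2
  let φ : MvPolynomial (Fin 1) k →ₐ[k] R ⧸ P :=
    ψ.comp (MvPolynomial.aeval fun _ => Polynomial.X)
  have hφ : φ.toRingHom.Finite := by
    have hsurj : Function.Surjective (MvPolynomial.aeval (R := k)
        (fun _ : Fin 1 => (Polynomial.X : Polynomial k))) := by
      intro p
      induction p using Polynomial.induction_on' with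
      | add p q hp hq =>
        obtain ⟨a, rfl⟩ := hp
        obtain ⟨b, rfl⟩ := hq
        exact ⟨a + b, map_add _ _ _⟩
      | monomial n a =>
        refine ⟨MvPolynomial.C a * MvPolynomial.X 0 ^ n, ?_⟩
        rw [map_mul, map_pow, aeval_X, aeval_C, ← Polynomial.C_mul_X_pow_eq_monomial]
        rfl
    have h2 : φ.toRingHom = ψ.toRingHom.comp (MvPolynomial.aeval (R := k)
        (fun _ : Fin 1 => (Polynomial.X : Polynomial k))).toRingHom := rfl
    rw [h2]
    exact hψ.comp (RingHom.Finite.of_surjective _ hsurj)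
  let M : Submodule k (R ⧸ P) := UR.map (Ideal.Quotient.mkₐ k P).toLinearMap
  have hMfg : M.FG := hURfg.map _
  have h1M : (1 : R ⧸ P) ∈ M := ⟨1, h1, map_one (Ideal.Quotient.mkₐ k P)⟩
  obtain ⟨c, hc⟩ := growth φ hφ M hMfg
  refine ⟨2 * (2 * c) + 1, by omega, ?_⟩
  intro x hx y hy hdep
  by_cases hxk : x ∈ Set.range (algebraMap k K)
  · obtain ⟨b, rfl⟩ := hxk
    refine ⟨X 0 - C b, ?_, ?_, ?_⟩
    · intro h
      have := congrArg (eval ![b + 1, 0]) h
      simp at this
    · refine (totalDegree_sub _ _).trans (max_le ?_ ?_)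
      · rw [totalDegree_X]; omega
      · rw [totalDegree_C]; omega
    · rw [map_sub, aeval_X, aeval_C]
      simp
  have hxt' : ∀ (b : k), π ⟨x, hUR x (hEU hx)⟩ ≠ algebraMap k K' b := by
    intro b hb
    apply hxk
    refine ⟨b, ?_⟩
    have h2 : (⟨x, hUR x (hEU hx)⟩ : R) - algebraMap k R b = 0 := by
      apply hπ0
      · show x - algebraMap k K b ∈ U
        refine U.sub_mem (hEU hx) ?_
        rw [Algebra.algebraMap_eq_smul_one]
        exact U.smul_mem _ h1
      · rw [map_sub, AlgHom.commutes, hb, sub_self]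
    have h3 := congrArg (Subtype.val) h2
    have h4 : x - algebraMap k K b = 0 := h3
    exact (sub_eq_zero.1 h4).symm
  have hxt : Transcendental k (π ⟨x, hUR x (hEU hx)⟩) := by
    apply transcendental_of_not_mem_range
    rintro ⟨b, hb⟩
    exact hxt' b hb.symm
  -- images in `R ⧸ P`
  set xR : R := ⟨x, hUR x (hEU hx)⟩ with hxR
  set yR : R := ⟨y, hUR y (hEU hy)⟩ with hyR
  set q : R →ₐ[k] R ⧸ P := Ideal.Quotient.mkₐ k P with hq
  have hxM : q xR ∈ M := ⟨xR, hEU hx, rfl⟩
  have hyM : q yR ∈ M := ⟨yR, hEU hy, rfl⟩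
  have hMmono : ∀ i j, i ≤ j → M ^ i ≤ M ^ j := by
    intro i j hij
    exact pow_le_pow_right' (Submodule.one_le.2 h1M) hij
  have hfd : FiniteDimensional k ↥(M ^ (2 * (2 * c))) :=
    (Submodule.fg_iff_finiteDimensional _).1 (hMfg.pow _)
  obtain ⟨f, hf0, hfd, hfe⟩ := sdegree_rel (M ^ (2 * (2 * c))) (2 * c) (q xR) (q yR) (by
    intro i hi j hj
    refine hMmono (i + j) _ (by omega) ?_
    rw [pow_add]
    exact Submodule.mul_mem_mul (Submodule.pow_mem_pow _ hxM i) (Submodule.pow_mem_pow _ hyM j))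
    (by
      have := hc (2 * (2 * c))
      rw [pow_one] at this
      nlinarith)
  have hfe' : aeval ![π xR, π yR] f = 0 := by
    have h2 : (IsScalarTower.toAlgHom k (R ⧸ P) K').comp (aeval ![q xR, q yR]) =
        aeval ![π xR, π yR] := by
      apply algHom_ext
      intro i
      fin_cases i <;> simp [π, q]
    rw [← h2, AlgHom.comp_apply, hfe, map_zero]
  obtain ⟨F, hF0, hFe⟩ := hdep
  obtain ⟨f₀, hirr, hf₀⟩ := exists_irreducible_factor hF0 hFe
  have hf₀R : aeval ![xR, yR] f₀ = 0 := by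
    apply Subtype.ext
    have h2 : R.val.comp (aeval ![xR, yR]) = aeval ![x, y] := by
      apply algHom_ext
      intro i
      fin_cases i <;> simp [xR, yR]
    have h3 := congrArg (fun φ : MvPolynomial (Fin 2) k →ₐ[k] K => φ f₀) h2
    exact h3.trans hf₀
  have hf₀π : aeval ![π xR, π yR] f₀ = 0 := by
    have h2 : π.comp (aeval ![xR, yR]) = aeval ![π xR, π yR] := by
      apply algHom_ext
      intro i
      fin_cases i <;> simp
    rw [← h2, AlgHom.comp_apply, hf₀R, map_zero]
  have hdvd := dvd_of_common_zero hxt hirr hf₀π hfe'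
  exact ⟨f₀, hirr.ne_zero, (totalDegree_le_of_dvd' hf0 hdvd).trans (by omega), hf₀⟩

end MP60829e.PS
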