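import Mathlib
import Pool.Agent.Lib.MP_60829e_nt.PS.DDer

/-! Gluing of a derivation of `F` with the zero derivation of `K` on a field containing linearly
disjoint copies of `K` and `F` over `k` (task D4). -/

namespace MP60829e.PS

/-- Linear disjointness of `K` and `F` over `k` inside `M`. -/
def LinDisj (k F K M : Type*) [Field k] [Field F] [Field K] [Field M] [Algebra k K]
    [Algebra F M] [Algebra K M] : Prop :=
  ∀ (n : ℕ) (a : Fin n → K), LinearIndependent k a →
    LinearIndependent F (fun i => algebraMap K M (a i))

private theorem DGlue_finset {k F K M : Type*} [Field k] [Field F] [Field K] [Field M]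
    [Algebra k K] [Algebra F M] [Algebra K M] (hLD : LinDisj k F K M) {J : Type*} {a : J → K}
    (ha : LinearIndependent k a) : LinearIndependent F (fun j => algebraMap K M (a j)) := by
  rw [linearIndependent_iff_finset_linearIndependent]
  intro s
  have h1 : LinearIndependent k (fun i : Fin s.card => a (s.equivFin.symm i)) :=
    ha.comp (fun i : Fin s.card => (s.equivFin.symm i : J))
      (Subtype.val_injective.comp s.equivFin.symm.injective)
  have h2 := hLD s.card _ h1
  have h3 := h2.comp s.equivFin s.equivFin.injective
  have e : (fun i : Fin s.card => algebraMap K M (a (s.equivFin.symm i))) ∘ s.equivFin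
      = (fun j => algebraMap K M (a j)) ∘ (Subtype.val : s → J) := by
    funext j
    simp
  rw [e] at h3
  exact h3

/-- linear disjointness is symmetric. -/
private theorem DGlue_symm {k F K M : Type*} [Field k] [Field F] [Field K] [Field M]
    [Algebra k F] [Algebra k K] [Algebra k M] [Algebra F M] [Algebra K M]
    [IsScalarTower k F M] [IsScalarTower k K M] (hLD : LinDisj k F K M) {ι : Type*} {f : ι → F}
    (hf : LinearIndependent k f) : LinearIndependent K (fun i => algebraMap F M (f i)) := by
  classical
  rw [linearIndependent_iff']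
  intro s c hc
  let β := Module.Free.chooseBasis k K
  have hβ := DGlue_finset hLD β.linearIndependent
  -- the indices of the basis vectors which occur
  let J0 : Finset (Module.Free.ChooseBasisIndex k K) := s.biUnion fun i => (β.repr (c i)).support
  have hexp : ∀ i ∈ s, c i = ∑ j ∈ J0, (β.repr (c i) j) • β j := by
    intro i hi
    conv_lhs => rw [← β.linearCombination_repr (c i)]
    rw [Finsupp.linearCombination_apply, Finsupp.sum]
    apply Finset.sum_subset
    · exact Finset.subset_biUnion_of_mem (fun i => (β.repr (c i)).support) hi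
    · intro j _ hj
      rw [Finsupp.notMem_support_iff.1 hj, zero_smul]
  have h1 : ∑ j ∈ J0, (∑ i ∈ s, (β.repr (c i) j) • f i) • algebraMap K M (β j) = 0 := by
    rw [← hc]
    have h2 : ∀ i ∈ s, c i • algebraMap F M (f i)
        = ∑ j ∈ J0, ((β.repr (c i) j) • f i) • algebraMap K M (β j) := by
      intro i hi
      conv_lhs => rw [hexp i hi]
      rw [Finset.sum_smul]
      refine Finset.sum_congr rfl fun j _ => ?_
      rw [Algebra.smul_def, Algebra.smul_def, Algebra.smul_def, Algebra.smul_def, map_mul, map_mul,
        ← IsScalarTower.algebraMap_apply, ← IsScalarTower.algebraMap_apply]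
      ring
    rw [Finset.sum_congr rfl h2, Finset.sum_comm]
    refine Finset.sum_congr rfl fun j _ => ?_
    rw [Finset.sum_smul]
  have h3 : ∀ j ∈ J0, ∑ i ∈ s, (β.repr (c i) j) • f i = 0 :=
    linearIndependent_iff'.1 hβ J0 _ h1
  intro i hi
  rw [hexp i hi]
  apply Finset.sum_eq_zero
  intro j hj
  rw [linearIndependent_iff'.1 hf s _ (h3 j hj) i hi, zero_smul]

private theorem DGlue_indep {k F K M : Type*} [Field k] [Field F] [Field K] [Field M]
    [Algebra k F] [Algebra k K] [Algebra k M] [Algebra F M] [Algebra K M]
    [IsScalarTower k F M] [IsScalarTower k K M] (hLD : LinDisj k F K M) {ι : Type*} {b : ι → F}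
    (hb : AlgebraicIndependent k b) : AlgebraicIndependent K (fun i => algebraMap F M (b i)) := by
  have h1 : LinearIndependent k (fun m : ι →₀ ℕ => m.prod fun i e => b i ^ e) := by
    have h2 := (MvPolynomial.basisMonomials ι k).linearIndependent.map'
      (MvPolynomial.aeval b : MvPolynomial ι k →ₐ[k] F).toLinearMap
      (LinearMap.ker_eq_bot.2 hb)
    have e : (MvPolynomial.aeval b : MvPolynomial ι k →ₐ[k] F).toLinearMap
        ∘ (MvPolynomial.basisMonomials ι k) = fun m : ι →₀ ℕ => m.prod fun i e => b i ^ e := by
      funext m
      simp [MvPolynomial.aeval_monomial]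
    rw [e] at h2
    exact h2
  have h2 := DGlue_symm (M := M) hLD h1
  rw [algebraicIndependent_iff]
  intro p hp
  rw [MvPolynomial.aeval_def, MvPolynomial.eval₂_eq] at hp
  have h3 : ∑ m ∈ p.support, p.coeff m • algebraMap F M (m.prod fun i e => b i ^ e) = 0 := by
    rw [← hp]
    refine Finset.sum_congr rfl fun m _ => ?_
    rw [Algebra.smul_def, Finsupp.prod, map_prod]
    simp only [map_pow]
  have h4 := linearIndependent_iff'.1 h2 p.support _ h3
  ext m
  rw [MvPolynomial.coeff_zero]
  by_cases hm : m ∈ p.support
  · exact h4 m hm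
  · exact MvPolynomial.notMem_support_iff.1 hm

/-- D4. -/
theorem exists_glue {k F K M : Type*} [Field k] [CharZero k] [Field F] [Field K] [Field M]
    [Algebra k F] [Algebra k K] [Algebra k M] [Algebra F M] [Algebra K M]
    [IsScalarTower k F M] [IsScalarTower k K M] (hLD : LinDisj k F K M)
    (D : Derivation k F F) :
    ∃ δ : Derivation k M M, (∀ a : K, δ (algebraMap K M a) = 0) ∧
      ∀ c : F, δ (algebraMap F M c) = algebraMap F M (D c) := by
  classical
  have hK : CharZero K := charZero_of_injective_algebraMap (algebraMap k K).injective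
  obtain ⟨B, hB⟩ := exists_isTranscendenceBasis k F
  obtain ⟨δ₀, hδ₀⟩ := exists_derivation_of_algebraicIndependent (DGlue_indep (M := M) hLD hB.1)
    (fun b => algebraMap F M (D b))
  refine ⟨δ₀.restrictScalars k, fun a => δ₀.map_algebraMap a, ?_⟩
  let D' : Derivation k F M :=
    (δ₀.restrictScalars k).compAlgebraMap F - (Algebra.linearMap F M).compDer D
  have hD' : ∀ c : F, D' c = δ₀ (algebraMap F M c) - algebraMap F M (D c) := fun c => rfl
  have hE : ∀ c ∈ IntermediateField.adjoin k (Set.range ((↑) : B → F)), D' c = 0 := by
    intro c hc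
    induction hc using IntermediateField.adjoin_induction with
    | mem x hx =>
      obtain ⟨b, rfl⟩ := hx
      rw [hD', hδ₀, sub_self]
    | algebraMap x => exact D'.map_algebraMap x
    | add x y _ _ hx hy => rw [map_add, hx, hy, add_zero]
    | inv x _ hx => rw [Derivation.leibniz_inv, hx, smul_zero]
    | mul x y _ _ hx hy => rw [Derivation.leibniz, hx, hy, smul_zero, smul_zero, add_zero]
  have hchar : CharZero (IntermediateField.adjoin k (Set.range ((↑) : B → F))) :=
    charZero_of_injective_algebraMap
      (algebraMap k (IntermediateField.adjoin k (Set.range ((↑) : B → F)))).injective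
  have halg : Algebra.IsAlgebraic (IntermediateField.adjoin k (Set.range ((↑) : B → F))) F :=
    hB.isAlgebraic_field
  intro c
  have h0 := derivation_eq_zero_of_isAlgebraic
    (F := IntermediateField.adjoin k (Set.range ((↑) : B → F))) (D'.restrictScalars ℤ)
    (fun a => hE a a.2) (halg.isAlgebraic c)
  have h1 : D' c = 0 := h0
  rw [hD'] at h1
  exact sub_eq_zero.1 h1

end MP60829e.PS
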