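import Mathlib
import Pool.Agent.Lib.MP_60829e_nt.S.Defs
import Pool.Agent.Lib.MP_60829e_nt.PS.DGlue

/-! Setting of the rigidity theorem. -/

namespace MP60829e.PS

open MP60829e.S

/-- `M` is the compositum of linearly disjoint copies of the function field of one variable `K`
and of `F` over `k`; `δ` is a derivation of `M` which kills `K` and extends `D`. -/
structure GlueData {k F K M : Type*} [Field k] [Field F] [Field K] [Field M]
    [Algebra k F] [Algebra k K] [Algebra k M] [Algebra F M] [Algebra K M]
    (D : Derivation k F F) (δ : Derivation k M M) : Prop where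
  ld : LinDisj k F K M
  gen : IntermediateField.adjoin F (Set.range (algebraMap K M)) = ⊤
  curve : IsCurveField k K
  dK : ∀ a : K, δ (algebraMap K M a) = 0
  dF : ∀ c : F, δ (algebraMap F M c) = algebraMap F M (D c)

end MP60829e.PS
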