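import Mathlib
import Pool.Agent.Lib.MP_60829e_nt.PS.RDefs
import Pool.Agent.Lib.MP_60829e_nt.S.Places

/-! The compositum is a function field of one variable over `F` (task R0). -/

namespace MP60829e.PS

open MP60829e.S

private theorem rcurve_map_mem {k F K M : Type*} [Field k] [Field F] [Field K] [Field M]
    [Algebra k F] [Algebra k K] [Algebra k M] [Algebra F M] [Algebra K M]
    [IsScalarTower k F M] [IsScalarTower k K M] (t : K)
    {c : K} (hc : c ∈ IntermediateField.adjoin k ({t} : Set K)) :
    algebraMap K M c ∈ IntermediateField.adjoin F ({algebraMap K M t} : Set M) := by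
  have h1 : (IntermediateField.adjoin k ({t} : Set K)).map (IsScalarTower.toAlgHom k K M) ≤
      (IntermediateField.adjoin F ({algebraMap K M t} : Set M)).restrictScalars k := by
    rw [IntermediateField.adjoin_map, IntermediateField.adjoin_le_iff]
    rintro _ ⟨_, rfl, rfl⟩
    exact IntermediateField.subset_adjoin F _ rfl
  exact h1 ⟨c, hc, rfl⟩

/-- R0. -/
theorem isCurveField_of_gen {k F K M : Type*} [Field k] [Field F] [Field K] [Field M]
    [Algebra k F] [Algebra k K] [Algebra k M] [Algebra F M] [Algebra K M]
    [IsScalarTower k F M] [IsScalarTower k K M] (hK : IsCurveField k K)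
    (hgen : IntermediateField.adjoin F (Set.range (algebraMap K M)) = ⊤) :
    IsCurveField F M := by
  obtain ⟨t, ht⟩ := hK
  refine ⟨algebraMap K M t, ?_⟩
  set kt := IntermediateField.adjoin k ({t} : Set K) with hkt
  set L := IntermediateField.adjoin F ({algebraMap K M t} : Set M) with hL
  let b := Module.finBasis kt K
  let g : kt →+* L := ((algebraMap K M).comp (algebraMap kt K)).codRestrict L.toSubfield
    (fun c => rcurve_map_mem t c.2)
  have hint : ∀ y : K, IsIntegral L (algebraMap K M y) := by
    intro y
    have h1 : IsIntegral kt y := Algebra.IsIntegral.isIntegral y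
    exact h1.map_of_comp_eq g (algebraMap K M) rfl
  let S : Set M := Set.range fun i => algebraMap K M (b i)
  have hS : FiniteDimensional L (IntermediateField.adjoin L S) := by
    apply IntermediateField.finiteDimensional_adjoin
    rintro _ ⟨i, rfl⟩
    exact hint _
  have htop : IntermediateField.adjoin L S = ⊤ := by
    have h2 : (⊤ : IntermediateField F M) ≤ (IntermediateField.adjoin L S).restrictScalars F := by
      rw [← hgen, IntermediateField.adjoin_le_iff]
      rintro _ ⟨y, rfl⟩
      show algebraMap K M y ∈ IntermediateField.adjoin L S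
      rw [← b.sum_repr y, map_sum]
      apply sum_mem
      intro i _
      rw [Algebra.smul_def, map_mul]
      apply mul_mem
      · exact (IntermediateField.adjoin L S).algebraMap_mem
          (⟨_, rcurve_map_mem t (b.repr y i).2⟩ : L)
      · exact IntermediateField.subset_adjoin L S ⟨i, rfl⟩
    rw [eq_top_iff]
    intro x _
    exact h2 (IntermediateField.mem_top (F := F) (E := M))
  rw [htop] at hS
  exact (IntermediateField.topEquiv (F := L) (E := M)).toLinearEquiv.finiteDimensional

/-- R0'. Every element of `M` is a quotient of elements of the `F`-span of `K`. -/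
theorem exists_div_of_gen {F K M : Type*} [Field F] [Field K] [Field M]
    [Algebra F M] [Algebra K M]
    (hgen : IntermediateField.adjoin F (Set.range (algebraMap K M)) = ⊤) (z : M) :
    ∃ a ∈ Submodule.span F (Set.range (algebraMap K M)),
      ∃ b ∈ Submodule.span F (Set.range (algebraMap K M)), b ≠ 0 ∧ z = a / b := by
  have h0 : ∀ x : M, x ∈ Algebra.adjoin F (Set.range (algebraMap K M)) →
      x ∈ Submodule.span F (Set.range (algebraMap K M)) := by
    intro x hx
    rw [← Subalgebra.mem_toSubmodule, Algebra.adjoin_eq_span] at hx
    have h1 : (Submonoid.closure (Set.range (algebraMap K M)) : Set M) =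
        Set.range (algebraMap K M) := by
      have h2 : (MonoidHom.mrange (algebraMap K M : K →* M) : Set M) =
        Set.range (algebraMap K M) := MonoidHom.coe_mrange _
      rw [← h2, Submonoid.closure_eq]
    rwa [h1] at hx
  have hz : z ∈ IntermediateField.adjoin F (Set.range (algebraMap K M)) := by
    rw [hgen]
    exact IntermediateField.mem_top
  rw [IntermediateField.mem_adjoin_iff_div] at hz
  obtain ⟨r, hr, s, hs, rfl⟩ := hz
  by_cases hs0 : s = 0
  · refine ⟨0, zero_mem _, 1, Submodule.subset_span ⟨1, map_one _⟩, one_ne_zero, ?_⟩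
    rw [hs0, div_zero, zero_div]
  · exact ⟨r, h0 r hr, s, h0 s hs, hs0, rfl⟩

end MP60829e.PS
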