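import Mathlib
import Pool.Agent.Lib.MP_60829e_nt.S.Places

/-! Places of a function field of one variable over an algebraically closed field: residue field
and uniformizers (tasks V1, V2). -/

set_option linter.unusedSectionVars false

namespace MP60829e.PS

open MP60829e.S

private theorem vres_unit {L : Type*} [Field L] {O : ValuationSubring L} {z : L} (hz : z ∈ O)
    (hz' : z ∉ O.nonunits) : O.valuation z = 1 := by
  apply le_antisymm ((ValuationSubring.valuation_le_one_iff _ _).2 hz)
  rw [ValuationSubring.mem_nonunits_iff, not_lt] at hz'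
  exact hz'

section Generic

variable {B L : Type*} [CommRing B] [IsDedekindDomain B] [Field L] [Algebra B L]
  [IsFractionRing B L]

private theorem vres_unif_aux (O : ValuationSubring L) (hsub : ∀ b : B, algebraMap B L b ∈ O)
    (hp0 : center O hsub ≠ ⊥) :
    ∃ c : B, algebraMap B L c ≠ 0 ∧ algebraMap B L c ∈ O.nonunits ∧
      ∀ a : B, a ≠ 0 → ∃ (n : ℕ) (u : L), O.valuation u = 1 ∧
        algebraMap B L a = (algebraMap B L c) ^ n * u := by
  set p := center O hsub with hp
  have hdvr := IsLocalization.AtPrime.isDiscreteValuationRing_of_dedekind_domain B hp0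
    (Localization.AtPrime p)
  have hinj : Function.Injective (algebraMap B (Localization.AtPrime p)) :=
    IsLocalization.injective (Localization.AtPrime p) (Ideal.primeCompl_le_nonZeroDivisors p)
  obtain ⟨ϖ, hϖ⟩ := IsDiscreteValuationRing.exists_irreducible (Localization.AtPrime p)
  obtain ⟨c, s, hcs⟩ := IsLocalization.exists_mk'_eq p.primeCompl ϖ
  have hunit : ∀ t : p.primeCompl, IsUnit (algebraMap B (Localization.AtPrime p) t) := fun t =>
    IsLocalization.map_units _ t
  have hassoc : Associated ϖ (algebraMap B (Localization.AtPrime p) c) := by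
    have h1 : ϖ * algebraMap B (Localization.AtPrime p) s
        = algebraMap B (Localization.AtPrime p) c := by
      rw [← hcs]; exact IsLocalization.mk'_spec _ _ _
    exact ⟨(hunit s).unit, h1⟩
  have hirr : Irreducible (algebraMap B (Localization.AtPrime p) c) := hassoc.irreducible hϖ
  have hvB : ∀ t : B, t ∉ p → O.valuation (algebraMap B L t) = 1 := fun t ht =>
    vres_unit (hsub t) (fun h => ht (mem_center.2 h))
  have hc0 : algebraMap B L c ≠ 0 := by
    intro h0
    have h1 : c = 0 := by
      rwa [IsFractionRing.to_map_eq_zero_iff] at h0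
    rw [h1, map_zero] at hirr
    exact not_irreducible_zero hirr
  have hcn : algebraMap B L c ∈ O.nonunits := by
    by_contra hcon
    have h1 : c ∉ p := fun h => hcon (mem_center.1 h)
    exact hirr.not_isUnit (hunit ⟨c, h1⟩)
  refine ⟨c, hc0, hcn, ?_⟩
  intro a ha
  have ha' : algebraMap B (Localization.AtPrime p) a ≠ 0 := by
    rwa [Ne, map_eq_zero_iff _ hinj]
  obtain ⟨n, u, hu⟩ := IsDiscreteValuationRing.associated_pow_irreducible ha' hirr
  obtain ⟨b, t, hbt⟩ := IsLocalization.exists_mk'_eq p.primeCompl (u : Localization.AtPrime p)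
  -- `a * b = c ^ n * t`
  have h1 : a * b = c ^ n * t := by
    apply hinj
    rw [map_mul, map_mul, map_pow, ← hu, mul_assoc, ← hbt, IsLocalization.mk'_spec]
  have hb : b ∉ p := by
    intro hb
    have h2 : IsUnit (algebraMap B (Localization.AtPrime p) b) := by
      have h3 : algebraMap B (Localization.AtPrime p) b
          = u * algebraMap B (Localization.AtPrime p) t := by
        rw [← hbt, IsLocalization.mk'_spec]
      rw [h3]
      exact u.isUnit.mul (hunit t)
    rw [IsLocalization.AtPrime.isUnit_to_map_iff (Localization.AtPrime p) p] at h2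
    exact h2 hb
  have hvb := hvB b hb
  have hvt := hvB t t.2
  have hb0 : algebraMap B L b ≠ 0 := by
    intro h0
    rw [h0, map_zero] at hvb
    exact zero_ne_one hvb
  refine ⟨n, algebraMap B L t / algebraMap B L b, ?_, ?_⟩
  · rw [map_div₀, hvb, hvt, div_one]
  · rw [← mul_div_assoc, eq_div_iff hb0, ← map_mul, h1, map_mul, map_pow]

private theorem vres_div_aux (O : ValuationSubring L) (hsub : ∀ b : B, algebraMap B L b ∈ O)
    {z : L} (hz : z ∈ O) :
    ∃ a b : B, algebraMap B L b ∉ O.nonunits ∧ algebraMap B L b ≠ 0 ∧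
      z = algebraMap B L a / algebraMap B L b := by
  set p := center O hsub with hp
  have h0n : ∀ b : L, b ∉ O.nonunits → b ≠ 0 := by
    rintro b hb rfl
    exact hb (zero_mem _)
  obtain ⟨a, b, hb, rfl⟩ := IsFractionRing.div_surjective (A := B) z
  have hb0 : b ≠ 0 := nonZeroDivisors.ne_zero hb
  have hb0' : algebraMap B L b ≠ 0 := by
    rwa [Ne, IsFractionRing.to_map_eq_zero_iff]
  by_cases hp0 : p = ⊥
  · have hbn : algebraMap B L b ∉ O.nonunits := by
      intro h
      have : b ∈ p := mem_center.2 h
      rw [hp0, Ideal.mem_bot] at this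
      exact hb0 this
    exact ⟨a, b, hbn, hb0', rfl⟩
  have hdvr := IsLocalization.AtPrime.isDiscreteValuationRing_of_dedekind_domain B hp0
    (Localization.AtPrime p)
  have hinj : Function.Injective (algebraMap B (Localization.AtPrime p)) :=
    IsLocalization.injective (Localization.AtPrime p) (Ideal.primeCompl_le_nonZeroDivisors p)
  rcases ValuationRing.dvd_total (algebraMap B (Localization.AtPrime p) b)
    (algebraMap B (Localization.AtPrime p) a) with hdvd | hdvd
  · obtain ⟨c, hc⟩ := hdvd
    obtain ⟨c, s, rfl⟩ := IsLocalization.exists_mk'_eq p.primeCompl c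
    have h3 : a * s = b * c := by
      apply hinj
      rw [map_mul, map_mul, hc, mul_assoc, IsLocalization.mk'_spec]
    have hs : algebraMap B L s ∉ O.nonunits := fun hcon => s.2 (mem_center.2 hcon)
    refine ⟨c, s, hs, h0n _ hs, ?_⟩
    rw [div_eq_div_iff hb0' (h0n _ hs), ← map_mul, ← map_mul, h3, mul_comm b c]
  · obtain ⟨c, hc⟩ := hdvd
    obtain ⟨c, s, rfl⟩ := IsLocalization.exists_mk'_eq p.primeCompl c
    have h3 : b * s = a * c := by
      apply hinj
      rw [map_mul, map_mul, hc, mul_assoc, IsLocalization.mk'_spec]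
    have hs : algebraMap B L s ∉ O.nonunits := fun hcon => s.2 (mem_center.2 hcon)
    have hs0 := h0n _ hs
    have h4 : algebraMap B L b * algebraMap B L s = algebraMap B L a * algebraMap B L c := by
      rw [← map_mul, ← map_mul, h3]
    have hc0 : algebraMap B L c ≠ 0 := by
      intro h0
      rw [h0, mul_zero] at h4
      exact mul_ne_zero hb0' hs0 h4
    have h5 : algebraMap B L a / algebraMap B L b = algebraMap B L s / algebraMap B L c := by
      rw [div_eq_div_iff hb0' hc0]
      linear_combination -h4
    have hcn : algebraMap B L c ∉ O.nonunits := by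
      intro hcon
      apply hs
      have h6 : algebraMap B L s = algebraMap B L a / algebraMap B L b * algebraMap B L c := by
        rw [h5]
        field_simp
      rw [h6, ValuationSubring.mem_nonunits_iff, map_mul]
      rw [ValuationSubring.mem_nonunits_iff] at hcon
      calc _ ≤ 1 * O.valuation (algebraMap B L c) := by
              gcongr
              exact (ValuationSubring.valuation_le_one_iff _ _).2 hz
        _ < 1 := by rwa [one_mul]
    exact ⟨s, c, hcn, hc0, h5⟩

end Generic

variable {k L : Type*} [Field k] [IsAlgClosed k] [CharZero k] [Field L] [Algebra k L]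

omit [IsAlgClosed k] [CharZero k] in
private theorem vres_adjoin_le (O : ValuationSubring L) (hO : Over k O) {x : L} (hx : x ∈ O)
    {a : L} (ha : a ∈ Algebra.adjoin k ({x} : Set L)) : a ∈ O := by
  have h1 : Algebra.adjoin k ({x} : Set L) ≤
      { O.toSubring with algebraMap_mem' := hO : Subalgebra k L } := by
    apply Algebra.adjoin_le
    rintro _ rfl
    exact hx
  exact h1 ha

/-- V1. The residue field is `k`. -/
theorem exists_residue (hL : IsCurveField k L) (O : ValuationSubring L) (hO : Over k O)
    (hne : O ≠ ⊤) {z : L} (hz : z ∈ O) : ∃ c : k, z - algebraMap k L c ∈ O.nonunits := by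
  by_contra hcon
  push Not at hcon
  have hzr : z ∉ Set.range (algebraMap k L) := by
    rintro ⟨c, rfl⟩
    apply hcon c
    rw [sub_self]
    exact zero_mem _
  have hfin := hL.finiteDimensional hzr
  have hval : ∀ c : k, O.valuation (z - algebraMap k L c) = 1 := fun c =>
    vres_unit (sub_mem hz (hO c)) (hcon c)
  have hcst : ∀ c : k, c ≠ 0 → O.valuation (algebraMap k L c) = 1 := by
    intro c hc
    have h1 : O.valuation (algebraMap k L c) ≤ 1 :=
      (ValuationSubring.valuation_le_one_iff _ _).2 (hO c)
    have h2 : O.valuation (algebraMap k L c⁻¹) ≤ 1 :=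
      (ValuationSubring.valuation_le_one_iff _ _).2 (hO c⁻¹)
    have h3 : O.valuation (algebraMap k L c) * O.valuation (algebraMap k L c⁻¹) = 1 := by
      rw [← map_mul, ← map_mul, mul_inv_cancel₀ hc, map_one, map_one]
    apply le_antisymm h1
    calc (1 : O.ValueGroup) = O.valuation (algebraMap k L c) * O.valuation (algebraMap k L c⁻¹) :=
          h3.symm
      _ ≤ O.valuation (algebraMap k L c) * 1 := by gcongr
      _ = _ := mul_one _
  have hpol : ∀ q : Polynomial k, q ≠ 0 → O.valuation (Polynomial.aeval z q) = 1 := by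
    intro q hq
    have hs := (IsAlgClosed.splits q).eq_prod_roots
    rw [hs, map_mul, map_mul, Polynomial.aeval_C,
      hcst _ (Polynomial.leadingCoeff_ne_zero.2 hq), one_mul, map_multiset_prod,
      map_multiset_prod, Multiset.map_map, Multiset.map_map]
    apply Multiset.prod_eq_one
    intro v hv
    obtain ⟨c, -, rfl⟩ := Multiset.mem_map.1 hv
    simp only [Function.comp_apply, map_sub, Polynomial.aeval_X, Polynomial.aeval_C]
    exact hval c
  have hsub : ∀ a : L, a ∈ IntermediateField.adjoin k ({z} : Set L) → a ∈ O := by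
    intro a ha
    obtain ⟨r, s, rfl⟩ := (IntermediateField.mem_adjoin_simple_iff k a).1 ha
    rw [← ValuationSubring.valuation_le_one_iff, map_div₀]
    by_cases hs : s = 0
    · simp [hs]
    by_cases hr : r = 0
    · simp [hr]
    rw [hpol r hr, hpol s hs, div_one]
  apply hne
  rw [eq_top_iff]
  intro a _
  exact integralClosure_subset (A := IntermediateField.adjoin k ({z} : Set L))
    (fun b => hsub _ b.2) (Algebra.IsIntegral.isIntegral a)

/-- V1'. A constant in the maximal ideal is zero. -/
theorem const_eq_zero (O : ValuationSubring L) (hO : Over k O) {c : k}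
    (hc : algebraMap k L c ∈ O.nonunits) : c = 0 := by
  by_contra h0
  have h2 : O.valuation (algebraMap k L c⁻¹) ≤ 1 :=
    (ValuationSubring.valuation_le_one_iff _ _).2 (hO c⁻¹)
  have h3 : O.valuation (algebraMap k L c) * O.valuation (algebraMap k L c⁻¹) = 1 := by
    rw [← map_mul, ← map_mul, mul_inv_cancel₀ h0, map_one, map_one]
  rw [ValuationSubring.mem_nonunits_iff] at hc
  have h4 : O.valuation (algebraMap k L c) * O.valuation (algebraMap k L c⁻¹)
      ≤ O.valuation (algebraMap k L c) * 1 := by gcongr
  rw [h3, mul_one] at h4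
  exact absurd hc (not_lt.2 h4)

/-- V2. Uniformizer. -/
theorem exists_uniformizer (hL : IsCurveField k L) (O : ValuationSubring L) (hO : Over k O)
    (hne : O ≠ ⊤) :
    ∃ π : L, π ≠ 0 ∧ π ∈ O.nonunits ∧
      ∀ z : L, z ≠ 0 → ∃ (n : ℤ) (u : L), u ∈ O ∧ u⁻¹ ∈ O ∧ z = π ^ n * u := by
  obtain ⟨e, he⟩ : ∃ e, e ∉ O := by
    by_contra hcon
    push Not at hcon
    exact hne (eq_top_iff.2 fun a _ => hcon a)
  have he0 : e ≠ 0 := by
    rintro rfl
    exact he (zero_mem _)
  set x : L := e⁻¹ with hxdef
  have hx0 : x ≠ 0 := inv_ne_zero he0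
  have hxn : x ∈ O.nonunits := by
    rw [hxdef, ValuationSubring.inv_mem_nonunits_iff]
    exact Or.inr he
  have hxO : x ∈ O := O.nonunits_subset hxn
  have hxr : x ∉ Set.range (algebraMap k L) := by
    rintro ⟨c, hc⟩
    rw [← hc] at hxn
    have := const_eq_zero O hO hxn
    rw [this, map_zero] at hc
    exact hx0 hc.symm
  have hfin := hL.finiteDimensional hxr
  have hD := isDedekindDomain_integralClosure (k := k) x
  have hF := isFractionRing_integralClosure (k := k) x
  set A := Algebra.adjoin k ({x} : Set L) with hA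
  set B := integralClosure A L with hB
  have hxA : x ∈ A := Algebra.subset_adjoin rfl
  let xB : B := ⟨x, B.algebraMap_mem (⟨x, hxA⟩ : A)⟩
  have hxB : algebraMap B L xB = x := rfl
  have hsub : ∀ b : B, algebraMap B L b ∈ O := fun b =>
    integralClosure_subset (A := A) (fun a => vres_adjoin_le O hO hxO a.2) b.2
  have hp0 : center O hsub ≠ ⊥ := by
    intro h0
    have : xB ∈ center O hsub := mem_center.2 hxn
    rw [h0, Ideal.mem_bot] at this
    apply hx0
    rw [← hxB, this, map_zero]
  obtain ⟨c, hc0, hcn, hBel⟩ := vres_unif_aux O hsub hp0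
  refine ⟨algebraMap B L c, hc0, hcn, fun z hz => ?_⟩
  obtain ⟨a, b, hb, rfl⟩ := IsFractionRing.div_surjective (A := B) z
  have hb0 : b ≠ 0 := nonZeroDivisors.ne_zero hb
  have ha0 : a ≠ 0 := by
    rintro rfl
    apply hz
    rw [map_zero, zero_div]
  obtain ⟨n, u, hu, hau⟩ := hBel a ha0
  obtain ⟨m, v, hv, hbv⟩ := hBel b hb0
  have hw : O.valuation (u / v) = 1 := by rw [map_div₀, hu, hv, div_one]
  refine ⟨(n : ℤ) - m, u / v, ?_, ?_, ?_⟩
  · rw [← ValuationSubring.valuation_le_one_iff, hw]
  · rw [← ValuationSubring.valuation_le_one_iff, map_inv₀, hw, inv_one]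
  · have hv0 : v ≠ 0 := by
      rintro rfl
      rw [map_zero] at hv
      exact zero_ne_one hv
    rw [hau, hbv, zpow_sub₀ hc0, zpow_natCast, zpow_natCast]
    field_simp

/-- V2''. `O` is a localization of the integral closure of `k[x]`, for `x ∈ O`. -/
theorem exists_div_integral (hL : IsCurveField k L) (O : ValuationSubring L) (hO : Over k O)
    {x : L} (hx : x ∉ Set.range (algebraMap k L)) (hxO : x ∈ O) {z : L} (hz : z ∈ O) :
    ∃ a b : L, IsIntegral (Algebra.adjoin k ({x} : Set L)) a ∧
      IsIntegral (Algebra.adjoin k ({x} : Set L)) b ∧ b ∉ O.nonunits ∧ b ≠ 0 ∧ z = a / b := by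
  have hfin := hL.finiteDimensional hx
  have hD := isDedekindDomain_integralClosure (k := k) x
  have hF := isFractionRing_integralClosure (k := k) x
  set A := Algebra.adjoin k ({x} : Set L) with hA
  set B := integralClosure A L with hB
  have hsub : ∀ b : B, algebraMap B L b ∈ O := fun b =>
    integralClosure_subset (A := A) (fun a => vres_adjoin_le O hO hxO a.2) b.2
  obtain ⟨a, b, hb, hb0, hab⟩ := vres_div_aux O hsub hz
  exact ⟨algebraMap B L a, algebraMap B L b, a.2, b.2, hb, hb0, hab⟩

/-- V2'. Archimedean property. -/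
theorem exists_pow_mul_mem_nonunits (hL : IsCurveField k L) (O : ValuationSubring L)
    (hO : Over k O) {w : L} (hw0 : w ≠ 0) (hw : w ∈ O.nonunits) (g : L) :
    ∃ n : ℕ, ∀ m, n ≤ m → w ^ m * g ∈ O.nonunits := by
  by_cases hg : g = 0
  · refine ⟨0, fun m _ => ?_⟩
    rw [hg, mul_zero]
    exact zero_mem _
  have hne : O ≠ ⊤ := by
    rintro rfl
    rcases (ValuationSubring.mem_nonunits_iff_or _).1 hw with h | h
    · exact hw0 h
    · exact h (ValuationSubring.mem_top _)
  obtain ⟨π, hπ0, hπ, hall⟩ := exists_uniformizer hL O hO hne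
  have hv : ∀ u : L, u ∈ O → u⁻¹ ∈ O → u ≠ 0 → O.valuation u = 1 := by
    intro u h1 h2 h3
    refine vres_unit h1 fun h4 => ?_
    rcases (ValuationSubring.mem_nonunits_iff_or _).1 h4 with h | h
    · exact h3 h
    · exact h h2
  obtain ⟨m, u, hu, hu', hwu⟩ := hall w hw0
  obtain ⟨j, v, hvO, hvO', hgv⟩ := hall g hg
  have hu0 : u ≠ 0 := by
    rintro rfl
    rw [mul_zero] at hwu
    exact hw0 hwu
  have hv0 : v ≠ 0 := by
    rintro rfl
    rw [mul_zero] at hgv
    exact hg hgv
  have hvu := hv u hu hu' hu0
  have hvv := hv v hvO hvO' hv0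
  have hπ1 : O.valuation π < 1 := by rwa [ValuationSubring.mem_nonunits_iff] at hπ
  have hπv0 : 0 < O.valuation π := zero_lt_iff.2 ((Valuation.ne_zero_iff _).2 hπ0)
  have hwv : O.valuation w = O.valuation π ^ m := by
    rw [hwu, map_mul, map_zpow₀, hvu, mul_one]
  have hgv' : O.valuation g = O.valuation π ^ j := by
    rw [hgv, map_mul, map_zpow₀, hvv, mul_one]
  have hm : 1 ≤ m := by
    by_contra hcon
    have hm0 : m ≤ 0 := by omega
    rw [ValuationSubring.mem_nonunits_iff, hwv] at hw
    have : 1 ≤ O.valuation π ^ m := one_le_zpow_of_nonpos₀ hπv0 hπ1.le hm0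
    exact absurd hw (not_lt.2 this)
  refine ⟨j.natAbs + 1, fun N hN => ?_⟩
  rw [ValuationSubring.mem_nonunits_iff, map_mul, map_pow, hwv, hgv', ← zpow_natCast, ← zpow_mul,
    ← zpow_add₀ hπv0.ne']
  have hpos : 0 < m * N + j := by
    have h1 : (j.natAbs : ℤ) + 1 ≤ N := by exact_mod_cast hN
    have h2 : -j ≤ j.natAbs := by
      have := neg_le_abs j
      rwa [Int.abs_eq_natAbs] at this
    nlinarith
  exact zpow_lt_one₀ hπv0 hπ1 hpos

end MP60829e.PS
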