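import Mathlib
import Pool.Agent.Lib.MP_60829e_nt.PS.RCurve
import Pool.Agent.Lib.MP_60829e_nt.PS.VRes

/-! Non-constant places are preserved by the derivation (task R2). -/

namespace MP60829e.PS

open MP60829e.S

open Polynomial in
open scoped Pointwise in
/-- If `g(θ) = 0` then `g'(θ)` is in the conductor. -/
private theorem RConst_conductor {A E M : Type*} [CommRing A] [IsDomain A] [IsIntegrallyClosed A]
    [Field E] [Field M] [Algebra A E] [Algebra A M] [Algebra E M] [IsScalarTower A E M]
    [IsFractionRing A E] [FiniteDimensional E M] [Algebra.IsSeparable E M]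
    {θ : M} (hθ : Algebra.adjoin E {θ} = ⊤) (hint : IsIntegral A θ) {g : A[X]}
    (hg : aeval θ g = 0) {a : M} (ha : IsIntegral A a) :
    aeval θ (derivative g) * a ∈ Algebra.adjoin A {θ} := by
  have hinjA : Function.Injective (algebraMap A M) := by
    rw [IsScalarTower.algebraMap_eq A E M]
    exact (algebraMap E M).injective.comp (IsFractionRing.injective A E)
  have : FaithfulSMul A M := (faithfulSMul_iff_algebraMap_injective A M).2 hinjA
  obtain ⟨q, hq⟩ := minpoly.isIntegrallyClosed_dvd hint hg
  have h1 : aeval θ (derivative g) =
      aeval θ q * aeval θ (derivative (minpoly A θ)) := by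
    rw [hq, derivative_mul, map_add, map_mul, map_mul, minpoly.aeval, zero_mul, add_zero, mul_comm]
  have h2 : aeval θ (derivative (minpoly E θ)) = aeval θ (derivative (minpoly A θ)) := by
    rw [minpoly.isIntegrallyClosed_eq_field_fractions' E hint, derivative_map,
      aeval_map_algebraMap]
  have hne : aeval θ (derivative (minpoly E θ)) ≠ 0 :=
    (Algebra.IsSeparable.isSeparable E θ).aeval_derivative_ne_zero (minpoly.aeval _ _)
  have h3 : a ∈ (Algebra.traceForm E M).dualSubmodule
      (Subalgebra.toSubmodule (Algebra.adjoin A {θ})) := by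
    rw [LinearMap.BilinForm.mem_dualSubmodule]
    intro y hy
    have hy' : IsIntegral A y := by
      have hle : Algebra.adjoin A {θ} ≤ integralClosure A M := by
        rw [Algebra.adjoin_le_iff]
        rintro _ rfl
        exact hint
      exact hle hy
    have h4 := Algebra.isIntegral_trace (R := A) (L := E) (F := M) (ha.mul hy')
    obtain ⟨b, hb⟩ := IsIntegrallyClosed.isIntegral_iff.1 h4
    rw [Algebra.traceForm_apply, ← hb, Submodule.one_eq_range]
    exact ⟨b, rfl⟩
  rw [traceForm_dualSubmodule_adjoin A E hθ hint] at h3
  obtain ⟨y, hy, hya⟩ := h3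
  have h5 : aeval θ (derivative (minpoly A θ)) * a = y := by
    rw [← h2, ← hya]
    simp only [DistribSMul.toLinearMap_apply, smul_eq_mul]
    rw [← mul_assoc, mul_inv_cancel₀ hne, one_mul]
  rw [h1, mul_assoc, h5]
  refine mul_mem ?_ hy
  exact Polynomial.aeval_mem_adjoin_singleton A θ

private theorem RConst_pid {k K : Type*} [Field k] [Field K] [Algebra k K] (t : K) :
    IsIntegrallyClosed (Algebra.adjoin k ({t} : Set K)) := by
  have h1 : IsPrincipalIdealRing (Algebra.adjoin k ({t} : Set K)) := by
    let f : Polynomial k →ₐ[k] K := Polynomial.aeval t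
    have hf : f.range = Algebra.adjoin k ({t} : Set K) :=
      (Algebra.adjoin_singleton_eq_range_aeval k t).symm
    rw [← hf]
    exact IsPrincipalIdealRing.of_surjective f.rangeRestrict f.rangeRestrict_surjective
  infer_instance

open Polynomial in
open scoped IntermediateField.algebraAdjoinAdjoin in
/-- An integral primitive element. -/
private theorem RConst_primitive {k K : Type*} [Field k] [CharZero k] [Field K] [Algebra k K]
    (t : K) [FiniteDimensional (IntermediateField.adjoin k ({t} : Set K)) K] :
    ∃ θ : K, IsIntegral (Algebra.adjoin k ({t} : Set K)) θ ∧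
      IntermediateField.adjoin k ({t, θ} : Set K) = ⊤ ∧
      ∃ g : (Algebra.adjoin k ({t} : Set K))[X], aeval θ g = 0 ∧ aeval θ (derivative g) ≠ 0 := by
  have hch : CharZero (IntermediateField.adjoin k ({t} : Set K)) :=
    charZero_of_injective_algebraMap (algebraMap k _).injective
  have hic := RConst_pid (k := k) t
  obtain ⟨θ₀, hθ₀⟩ := Field.exists_primitive_element
    (IntermediateField.adjoin k ({t} : Set K)) K
  have halg : IsAlgebraic (Algebra.adjoin k ({t} : Set K)) θ₀ :=
    IntermediateField.isAlgebraic_adjoin_iff.1 (Algebra.IsAlgebraic.isAlgebraic θ₀)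
  obtain ⟨y, hy0, hy⟩ := halg.exists_integral_multiple
  have hyK : (y : K) ≠ 0 := fun h => hy0 (Subtype.ext h)
  have hsmul : y • θ₀ = (y : K) * θ₀ := rfl
  refine ⟨y • θ₀, hy, ?_, minpoly (Algebra.adjoin k ({t} : Set K)) (y • θ₀),
    minpoly.aeval _ _, ?_⟩
  · set θ : K := y • θ₀ with hθ
    rw [eq_top_iff]
    intro w _
    have hw : w ∈ IntermediateField.adjoin (IntermediateField.adjoin k ({t} : Set K))
        ({θ₀} : Set K) := by rw [hθ₀]; trivial
    have htE : t ∈ IntermediateField.adjoin k ({t, θ} : Set K) :=
      IntermediateField.subset_adjoin _ _ (by simp)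
    have hθE : θ ∈ IntermediateField.adjoin k ({t, θ} : Set K) :=
      IntermediateField.subset_adjoin _ _ (by simp)
    have hle : IntermediateField.adjoin k ({t} : Set K) ≤
        IntermediateField.adjoin k ({t, θ} : Set K) := by
      rw [IntermediateField.adjoin_le_iff]
      simpa using htE
    have hyE : (y : K) ∈ IntermediateField.adjoin k ({t, θ} : Set K) :=
      hle (IntermediateField.algebra_adjoin_le_adjoin k _ y.2)
    have hθ₀E : θ₀ ∈ IntermediateField.adjoin k ({t, θ} : Set K) := by
      have : θ₀ = (y : K)⁻¹ * θ := by
        rw [hsmul, ← mul_assoc, inv_mul_cancel₀ hyK, one_mul]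
      rw [this]
      exact mul_mem (inv_mem hyE) hθE
    induction hw using IntermediateField.adjoin_induction with
    | mem z hz =>
      rw [Set.mem_singleton_iff] at hz
      rw [hz]; exact hθ₀E
    | algebraMap c => exact hle c.2
    | add a b _ _ ha hb => exact add_mem (ha trivial) (hb trivial)
    | inv a _ ha => exact inv_mem (ha trivial)
    | mul a b _ _ ha hb => exact mul_mem (ha trivial) (hb trivial)
  · have h2 : aeval (y • θ₀) (derivative (minpoly (IntermediateField.adjoin k ({t} : Set K))
        (y • θ₀))) = aeval (y • θ₀)
          (derivative (minpoly (Algebra.adjoin k ({t} : Set K)) (y • θ₀))) := by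
      rw [minpoly.isIntegrallyClosed_eq_field_fractions'
        (IntermediateField.adjoin k ({t} : Set K)) hy, derivative_map, aeval_map_algebraMap]
    rw [← h2]
    exact (Algebra.IsSeparable.isSeparable (IntermediateField.adjoin k ({t} : Set K))
      (y • θ₀)).aeval_derivative_ne_zero (minpoly.aeval _ _)

open Polynomial in
open scoped IntermediateField.algebraAdjoinAdjoin in
/-- A nonzero element `c` of `K` such that `c a` is in the compositum ring for every `a`
integral over `F[t]`. -/
private theorem RConst_exists {k F K M : Type*} [Field k] [IsAlgClosed k] [CharZero k] [Field F]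
    [IsAlgClosed F] [CharZero F] [Field K]
    [Field M] [Algebra k F] [Algebra k K] [Algebra k M] [Algebra F M] [Algebra K M]
    [IsScalarTower k F M] [IsScalarTower k K M] (hK : IsCurveField k K) (hM : IsCurveField F M)
    (hgen : IntermediateField.adjoin F (Set.range (algebraMap K M)) = ⊤)
    {t : K} (ht : t ∉ Set.range (algebraMap k K)) {s : M} (hs : algebraMap K M t = s)
    (htM : s ∉ Set.range (algebraMap F M)) :
    ∃ c : K, c ≠ 0 ∧ ∀ a : M, IsIntegral (Algebra.adjoin F ({s} : Set M)) a →
      algebraMap K M c * a ∈ Algebra.adjoin F (Set.range (algebraMap K M)) := by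
  have hfdK := hK.finiteDimensional ht
  have hfdM := hM.finiteDimensional htM
  obtain ⟨θ, hθi, hθg, g, hg0, hg1⟩ := RConst_primitive (k := k) t
  have hch : CharZero (IntermediateField.adjoin F ({s} : Set M)) :=
    charZero_of_injective_algebraMap (algebraMap F _).injective
  have hic := RConst_pid (k := F) s
  -- the ring homomorphism `k[t] → F[t]`
  have hmem : ∀ x : Algebra.adjoin k ({t} : Set K),
      ((algebraMap K M).comp (Algebra.adjoin k ({t} : Set K)).val.toRingHom) x ∈
        Algebra.adjoin F ({s} : Set M) := by
    rintro ⟨x, hx⟩
    change algebraMap K M x ∈ _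
    induction hx using Algebra.adjoin_induction with
    | mem z hz =>
      rw [Set.mem_singleton_iff] at hz
      rw [hz, hs]
      exact Algebra.self_mem_adjoin_singleton _ _
    | algebraMap c =>
      rw [← IsScalarTower.algebraMap_apply k K M, IsScalarTower.algebraMap_apply k F M]
      exact Subalgebra.algebraMap_mem _ _
    | add a b _ _ ha hb => rw [map_add]; exact add_mem ha hb
    | mul a b _ _ ha hb => rw [map_mul]; exact mul_mem ha hb
  let φ : Algebra.adjoin k ({t} : Set K) →+* Algebra.adjoin F ({s} : Set M) :=
    ((algebraMap K M).comp (Algebra.adjoin k ({t} : Set K)).val.toRingHom).codRestrict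
      (Algebra.adjoin F ({s} : Set M)) hmem
  have hφ : (algebraMap (Algebra.adjoin F ({s} : Set M)) M).comp φ =
      (algebraMap K M).comp (algebraMap (Algebra.adjoin k ({t} : Set K)) K) := by
    ext x; rfl
  have hint : IsIntegral (Algebra.adjoin F ({s} : Set M)) (algebraMap K M θ) :=
    hθi.map_of_comp_eq φ (algebraMap K M) hφ
  have haev : ∀ p : (Algebra.adjoin k ({t} : Set K))[X],
      aeval (algebraMap K M θ) (p.map φ) = algebraMap K M (aeval θ p) := by
    intro p
    rw [aeval_def, eval₂_map, hφ, aeval_def, hom_eval₂]
  have htop : Algebra.adjoin (IntermediateField.adjoin F ({s} : Set M))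
      ({algebraMap K M θ} : Set M) = ⊤ := by
    rw [← IntermediateField.adjoin_simple_toSubalgebra_of_isAlgebraic
      (Algebra.IsAlgebraic.isAlgebraic _)]
    have h1 : IntermediateField.adjoin (IntermediateField.adjoin F ({s} : Set M))
        ({algebraMap K M θ} : Set M) = ⊤ := by
      have hKmem : ∀ w : K, algebraMap K M w ∈ IntermediateField.adjoin
          (IntermediateField.adjoin F ({s} : Set M))
          ({algebraMap K M θ} : Set M) := by
        intro w
        have hw : w ∈ IntermediateField.adjoin k ({t, θ} : Set K) := by rw [hθg]; trivial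
        induction hw using IntermediateField.adjoin_induction with
        | mem z hz =>
          rw [Set.mem_insert_iff, Set.mem_singleton_iff] at hz
          rcases hz with rfl | rfl
          · have : algebraMap K M z ∈ IntermediateField.adjoin F ({s} : Set M) :=
              IntermediateField.subset_adjoin _ _ (by simp [hs])
            exact IntermediateField.algebraMap_mem _
              (⟨algebraMap K M z, this⟩ : IntermediateField.adjoin F ({s} : Set M))
          · exact IntermediateField.subset_adjoin _ _ (by simp)
        | algebraMap c =>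
          rw [← IsScalarTower.algebraMap_apply k K M, IsScalarTower.algebraMap_apply k F M]
          have : algebraMap F M (algebraMap k F c) ∈
              IntermediateField.adjoin F ({s} : Set M) :=
            IntermediateField.algebraMap_mem _ _
          exact IntermediateField.algebraMap_mem _
            (⟨_, this⟩ : IntermediateField.adjoin F ({s} : Set M))
        | add a b _ _ ha hb => rw [map_add]; exact add_mem ha hb
        | inv a _ ha => rw [map_inv₀]; exact inv_mem ha
        | mul a b _ _ ha hb => rw [map_mul]; exact mul_mem ha hb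
      rw [eq_top_iff]
      intro w _
      have hw : w ∈ IntermediateField.adjoin F (Set.range (algebraMap K M)) := by
        rw [hgen]; trivial
      induction hw using IntermediateField.adjoin_induction with
      | mem z hz =>
        obtain ⟨a, rfl⟩ := hz
        exact hKmem a
      | algebraMap c =>
        have : algebraMap F M c ∈
            IntermediateField.adjoin F ({s} : Set M) :=
          IntermediateField.algebraMap_mem _ _
        exact IntermediateField.algebraMap_mem _
          (⟨_, this⟩ : IntermediateField.adjoin F ({s} : Set M))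
      | add a b _ _ ha hb => exact add_mem (ha trivial) (hb trivial)
      | inv a _ ha => exact inv_mem (ha trivial)
      | mul a b _ _ ha hb => exact mul_mem (ha trivial) (hb trivial)
    rw [h1]
    rfl
  refine ⟨aeval θ (derivative g), hg1, fun a ha => ?_⟩
  have hfr : IsFractionRing (Algebra.adjoin F ({s} : Set M))
      (IntermediateField.adjoin F ({s} : Set M)) := inferInstance
  have h2 := RConst_conductor (A := Algebra.adjoin F ({s} : Set M))
    (E := IntermediateField.adjoin F ({s} : Set M))
    htop hint (g := g.map φ) (by rw [haev, hg0, map_zero]) ha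
  rw [derivative_map, haev] at h2
  -- `F[t][θ] ⊆ F[K]`
  have hA : ∀ x : Algebra.adjoin F ({s} : Set M),
      (x : M) ∈ Algebra.adjoin F (Set.range (algebraMap K M)) := by
    intro x
    have hle : Algebra.adjoin F ({s} : Set M) ≤
        Algebra.adjoin F (Set.range (algebraMap K M)) := by
      apply Algebra.adjoin_mono
      rintro _ rfl
      exact ⟨t, hs⟩
    exact hle x.2
  generalize algebraMap K M (aeval θ (derivative g)) * a = w at h2 ⊢
  induction h2 using Algebra.adjoin_induction with
  | mem z hz =>
    rw [Set.mem_singleton_iff] at hz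
    rw [hz]
    exact Algebra.subset_adjoin ⟨θ, rfl⟩
  | algebraMap c => exact hA c
  | add a b _ _ ha hb => exact add_mem ha hb
  | mul a b _ _ ha hb => exact mul_mem ha hb

/-- R2. If `O` contains `K` then `δ` preserves `O`. -/
theorem der_mem_of_le {k F K M : Type*} [Field k] [IsAlgClosed k] [CharZero k] [Field F]
    [IsAlgClosed F] [CharZero F] [Field K]
    [Field M] [Algebra k F] [Algebra k K] [Algebra k M] [Algebra F M] [Algebra K M]
    [IsScalarTower k F M] [IsScalarTower k K M] {D : Derivation k F F} {δ : Derivation k M M}
    (G : GlueData (K := K) D δ) (O : ValuationSubring M) (hO : Over F O)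
    (hKO : ∀ a : K, algebraMap K M a ∈ O) {z : M} (hz : z ∈ O) : δ z ∈ O := by
  by_cases hne : ∃ t : K, t ∉ Set.range (algebraMap k K)
  · obtain ⟨t, ht⟩ := hne
    have hM : IsCurveField F M := isCurveField_of_gen G.curve G.gen
    have htM : algebraMap K M t ∉ Set.range (algebraMap F M) := by
      rintro ⟨c, hc⟩
      have hli : LinearIndependent k ![(1 : K), t] := by
        rw [LinearIndependent.pair_iff]
        intro a b hab
        have hb : b = 0 := by
          by_contra hb
          apply ht
          refine ⟨-(b⁻¹ * a), ?_⟩
          have h1 : algebraMap k K a + algebraMap k K b * t = 0 := by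
            rw [Algebra.smul_def, Algebra.smul_def, mul_one] at hab
            exact hab
          have hbK : algebraMap k K b ≠ 0 := by
            rw [Ne, map_eq_zero]; exact hb
          rw [map_neg, map_mul, map_inv₀]
          field_simp
          linear_combination -h1
        rw [hb, zero_smul, add_zero] at hab
        refine ⟨?_, hb⟩
        rw [Algebra.smul_def, mul_one] at hab
        exact (map_eq_zero _).1 hab
      have h2 := G.ld 2 ![(1 : K), t] hli
      have h3 := Fintype.linearIndependent_iff.1 h2 ![c, -1] (by
        rw [Fin.sum_univ_two]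
        simp only [Matrix.cons_val_zero, Matrix.cons_val_one, map_one]
        rw [Algebra.smul_def, mul_one, hc, neg_smul, one_smul, add_neg_cancel]) 1
      simp at h3
    obtain ⟨c, hc0, hc⟩ := RConst_exists (k := k) (F := F) G.curve hM G.gen ht rfl htM
    obtain ⟨a, b, ha, hb, hbn, hb0, hzab⟩ := exists_div_integral hM O hO htM (hKO t) hz
    have hcM : algebraMap K M c ≠ 0 := by
      rw [Ne, map_eq_zero]; exact hc0
    set R := Algebra.adjoin F (Set.range (algebraMap K M)) with hR
    have hRO : ∀ x ∈ R, x ∈ O := by
      intro x hx
      induction hx using Algebra.adjoin_induction with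
      | mem z hz =>
        obtain ⟨w, rfl⟩ := hz
        exact hKO w
      | algebraMap c => exact hO c
      | add a b _ _ ha hb => exact add_mem ha hb
      | mul a b _ _ ha hb => exact mul_mem ha hb
    have hRδ : ∀ x ∈ R, δ x ∈ R := by
      intro x hx
      induction hx using Algebra.adjoin_induction with
      | mem z hz =>
        obtain ⟨w, rfl⟩ := hz
        rw [G.dK w]
        exact zero_mem _
      | algebraMap c =>
        rw [G.dF c]
        exact Subalgebra.algebraMap_mem _ _
      | add a b _ _ ha hb => rw [map_add]; exact add_mem ha hb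
      | mul a b h1 h2 ha hb =>
        rw [Derivation.leibniz]
        exact add_mem (mul_mem h1 hb) (mul_mem h2 ha)
    set p := algebraMap K M c * a with hp
    set q := algebraMap K M c * b with hq
    have hq0 : q ≠ 0 := mul_ne_zero hcM hb0
    have hzpq : z = p / q := by
      rw [hzab, hp, hq]
      field_simp
    have hqi : q⁻¹ ∈ O := by
      rw [hq, mul_inv, ← map_inv₀]
      exact mul_mem (hKO _) (inv_mem_of_not_mem_nonunits hbn)
    have hpR : p ∈ R := hc a ha
    have hqR : q ∈ R := hc b hb
    rw [hzpq, Derivation.leibniz_div]
    simp only [smul_eq_mul]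
    exact mul_mem (pow_mem hqi 2) (sub_mem
      (mul_mem (hRO _ hqR) (hRO _ (hRδ _ hpR))) (mul_mem (hRO _ hpR) (hRO _ (hRδ _ hqR))))
  · push Not at hne
    have hz' : z ∈ (⊥ : IntermediateField F M) := by
      have h1 : IntermediateField.adjoin F (Set.range (algebraMap K M)) ≤ ⊥ := by
        rw [IntermediateField.adjoin_le_iff]
        rintro _ ⟨w, rfl⟩
        obtain ⟨c, rfl⟩ := hne w
        rw [← IsScalarTower.algebraMap_apply k K M, IsScalarTower.algebraMap_apply k F M]
        exact IntermediateField.algebraMap_mem _ _
      rw [G.gen] at h1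
      exact h1 trivial
    rw [IntermediateField.mem_bot] at hz'
    obtain ⟨c, rfl⟩ := hz'
    rw [G.dF c]
    exact hO _

end MP60829e.PS
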