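import Mathlib
import Pool.Agent.Lib.MP_60829e_nt.PS.RCurve
import Pool.Agent.Lib.MP_60829e_nt.PS.VRes

/-! Constant places: the logarithmic derivative is regular (task R1). -/

namespace MP60829e.PS

open MP60829e.S

/-- an element of the `F`-span of `K` written with `k`-independent coefficients -/
private theorem RGauss_repr {k F K M : Type*} [Field k] [Field F] [Field K]
    [Field M] [Algebra k F] [Algebra k K] [Algebra k M] [Algebra F M] [Algebra K M]
    [IsScalarTower k F M] [IsScalarTower k K M] {a : M}
    (ha : a ∈ Submodule.span F (Set.range (algebraMap K M))) :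
    ∃ (n : ℕ) (f : Fin n → F) (y : Fin n → K), LinearIndependent k f ∧
      a = ∑ j, algebraMap F M (f j) * algebraMap K M (y j) := by
  classical
  rw [Finsupp.mem_span_range_iff_exists_finsupp] at ha
  obtain ⟨c, hc⟩ := ha
  let W : Submodule k F := Submodule.span k (c '' (c.support : Set K))
  have hWf : FiniteDimensional k W :=
    FiniteDimensional.span_of_finite k ((c.support.finite_toSet).image c)
  let b := Module.finBasis k W
  have hcW : ∀ i ∈ c.support, c i ∈ W := fun i hi => Submodule.subset_span ⟨i, hi, rfl⟩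
  let m : K → Fin (Module.finrank k W) → k := fun i j =>
    if h : c i ∈ W then b.repr ⟨c i, h⟩ j else 0
  have hm : ∀ i ∈ c.support, c i = ∑ j, m i j • (b j : F) := by
    intro i hi
    have h1 := b.sum_repr ⟨c i, hcW i hi⟩
    have h2 := congrArg (fun w : W => (w : F)) h1
    simp only [Submodule.coe_sum, Submodule.coe_smul] at h2
    rw [← h2]
    apply Finset.sum_congr rfl
    intro j _
    simp only [m]
    rw [dif_pos (hcW i hi)]
  refine ⟨_, fun j => (b j : F), fun j => ∑ i ∈ c.support, m i j • i,
    b.linearIndependent.map' W.subtype (Submodule.ker_subtype W), ?_⟩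
  rw [← hc, Finsupp.sum]
  have h1 : ∀ i ∈ c.support, c i • algebraMap K M i =
      ∑ j, algebraMap F M (b j : F) * algebraMap K M (m i j • i) := by
    intro i hi
    rw [Algebra.smul_def]
    conv_lhs => rw [hm i hi]
    rw [map_sum, Finset.sum_mul]
    apply Finset.sum_congr rfl
    intro j _
    rw [Algebra.smul_def (m i j) (b j : F), Algebra.smul_def (m i j) i, map_mul, map_mul,
      ← IsScalarTower.algebraMap_apply, ← IsScalarTower.algebraMap_apply]
    ring
  rw [Finset.sum_congr rfl h1, Finset.sum_comm]
  apply Finset.sum_congr rfl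
  intro j _
  rw [map_sum, Finset.mul_sum]

private theorem RGauss_sub_mem_nonunits {M : Type*} [Field M] {O : ValuationSubring M} {x y : M}
    (hx : x ∈ O.nonunits) (hy : y ∈ O.nonunits) : x - y ∈ O.nonunits := by
  rw [ValuationSubring.mem_nonunits_iff] at hx hy ⊢
  exact lt_of_le_of_lt (Valuation.map_sub _ _ _) (max_lt hx hy)

private theorem RGauss_mul_mem_nonunits {M : Type*} [Field M] {O : ValuationSubring M} {x y : M}
    (hx : x ∈ O) (hy : y ∈ O.nonunits) : x * y ∈ O.nonunits := by
  rw [ValuationSubring.mem_nonunits_iff] at hy ⊢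
  rw [← ValuationSubring.valuation_le_one_iff] at hx
  rw [map_mul]
  exact mul_lt_one_of_nonneg_of_lt_one_right hx zero_le hy

private theorem RGauss_sum_mem_nonunits {M ι : Type*} [Field M] {O : ValuationSubring M}
    (s : Finset ι) (g : ι → M) (h : ∀ i ∈ s, g i ∈ O.nonunits) : ∑ i ∈ s, g i ∈ O.nonunits := by
  rw [ValuationSubring.mem_nonunits_iff]
  apply Valuation.map_sum_lt _ one_ne_zero
  intro i hi
  exact (ValuationSubring.mem_nonunits_iff O).1 (h i hi)

private theorem RGauss_one_not {M : Type*} [Field M] {O : ValuationSubring M} :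
    (1 : M) ∉ O.nonunits := by
  rw [ValuationSubring.mem_nonunits_iff, map_one]
  exact lt_irrefl _

/-- the case of the `F`-span of `K` -/
private theorem RGauss_span {k F K M : Type*} [Field k] [IsAlgClosed k] [CharZero k] [Field F]
    [Field K] [Field M] [Algebra k F] [Algebra k K] [Algebra k M] [Algebra F M] [Algebra K M]
    [IsScalarTower k F M] [IsScalarTower k K M] {D : Derivation k F F} {δ : Derivation k M M}
    (G : GlueData (K := K) D δ) (O : ValuationSubring M) (hO : Over F O)
    (hKO : ∃ a : K, algebraMap K M a ∉ O) {a : M}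
    (ha : a ∈ Submodule.span F (Set.range (algebraMap K M))) (ha0 : a ≠ 0) : δ a / a ∈ O := by
  classical
  obtain ⟨n, f, y, hf, hay⟩ := RGauss_repr (k := k) ha
  let O₀ : ValuationSubring K := O.comap (algebraMap K M)
  have hO₀ : Over k O₀ := by
    intro c
    rw [ValuationSubring.mem_comap, ← IsScalarTower.algebraMap_apply,
      IsScalarTower.algebraMap_apply k F M]
    exact hO _
  have hne : O₀ ≠ ⊤ := by
    obtain ⟨x, hx⟩ := hKO
    intro h
    apply hx
    have : x ∈ O₀ := by rw [h]; exact ValuationSubring.mem_top x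
    exact this
  -- the largest coefficient
  obtain ⟨j₀, hj₀, hmax⟩ : ∃ j₀, y j₀ ≠ 0 ∧ ∀ j, y j / y j₀ ∈ O₀ := by
    have hex : ∃ j, y j ≠ 0 := by
      by_contra hcon
      push Not at hcon
      apply ha0
      rw [hay]
      apply Finset.sum_eq_zero
      intro j _
      rw [hcon j, map_zero, mul_zero]
    obtain ⟨j₁, hj₁⟩ := hex
    obtain ⟨j₀, _, hj⟩ := Finset.exists_max_image Finset.univ (fun j => O₀.valuation (y j))
      ⟨j₁, Finset.mem_univ _⟩
    have h0 : y j₀ ≠ 0 := by
      intro h
      have h1 := hj j₁ (Finset.mem_univ _)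
      rw [h, map_zero, le_zero_iff, Valuation.zero_iff] at h1
      exact hj₁ h1
    refine ⟨j₀, h0, fun j => ?_⟩
    rw [← ValuationSubring.valuation_le_one_iff, map_div₀]
    have h2 : 0 < O₀.valuation (y j₀) := zero_lt_iff.2 ((Valuation.ne_zero_iff _).2 h0)
    exact (div_le_one₀ h2).2 (hj j (Finset.mem_univ _))
  have hexr : ∀ j, ∃ c : k, y j / y j₀ - algebraMap k K c ∈ O₀.nonunits := fun j =>
    exists_residue G.curve O₀ hO₀ hne (hmax j)
  choose r hr using hexr
  have hr1 : r j₀ = 1 := by
    have h1 := hr j₀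
    rw [div_self hj₀, ← map_one (algebraMap k K), ← map_sub] at h1
    have h2 := const_eq_zero O₀ hO₀ h1
    exact (sub_eq_zero.1 h2).symm
  -- transfer to `O`
  have htr : ∀ x : K, x ∈ O₀.nonunits → algebraMap K M x ∈ O.nonunits := by
    intro x hx
    by_contra hcon
    have h1 := inv_mem_of_not_mem_nonunits hcon
    rw [← map_inv₀] at h1
    have hx0 : x ≠ 0 := by
      rintro rfl
      apply hcon
      rw [map_zero, ValuationSubring.mem_nonunits_iff, map_zero]
      exact zero_lt_one
    have h2 : x⁻¹ ∈ O₀ := h1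
    have h3 := RGauss_mul_mem_nonunits h2 hx
    rw [inv_mul_cancel₀ hx0] at h3
    exact RGauss_one_not h3
  set c : F := ∑ j, r j • f j with hc
  have hc0 : c ≠ 0 := by
    intro h
    have h1 := Fintype.linearIndependent_iff.1 hf r h j₀
    rw [hr1] at h1
    exact one_ne_zero h1
  set w : M := ∑ j, algebraMap F M (f j) * algebraMap K M (y j / y j₀) with hw
  have hy0 : algebraMap K M (y j₀) ≠ 0 := by
    rw [Ne, map_eq_zero]; exact hj₀
  have haw : a = w * algebraMap K M (y j₀) := by
    rw [hay, hw, Finset.sum_mul]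
    apply Finset.sum_congr rfl
    intro j _
    rw [map_div₀]
    field_simp
  have hwc : w - algebraMap F M c ∈ O.nonunits := by
    have h1 : w - algebraMap F M c =
        ∑ j, algebraMap F M (f j) * algebraMap K M (y j / y j₀ - algebraMap k K (r j)) := by
      rw [hw, hc, map_sum, ← Finset.sum_sub_distrib]
      apply Finset.sum_congr rfl
      intro j _
      rw [Algebra.smul_def, map_mul, map_sub, ← IsScalarTower.algebraMap_apply,
        ← IsScalarTower.algebraMap_apply]
      ring
    rw [h1]
    apply RGauss_sum_mem_nonunits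
    intro j _
    exact RGauss_mul_mem_nonunits (hO _) (htr _ (hr j))
  have hwn : w ∉ O.nonunits := by
    intro h
    have h1 := RGauss_sub_mem_nonunits h hwc
    have h2 : w - (w - algebraMap F M c) = algebraMap F M c := by ring
    rw [h2] at h1
    have h3 := RGauss_mul_mem_nonunits (hO c⁻¹) h1
    rw [← map_mul, inv_mul_cancel₀ hc0, map_one] at h3
    exact RGauss_one_not h3
  have hwinv : w⁻¹ ∈ O := inv_mem_of_not_mem_nonunits hwn
  have hδ : δ a = (∑ j, algebraMap F M (D (f j)) * algebraMap K M (y j / y j₀)) *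
      algebraMap K M (y j₀) := by
    rw [hay, map_sum, Finset.sum_mul]
    apply Finset.sum_congr rfl
    intro j _
    rw [Derivation.leibniz, G.dK, G.dF, smul_zero, zero_add, smul_eq_mul, map_div₀]
    field_simp
  have hfin : δ a / a = (∑ j, algebraMap F M (D (f j)) * algebraMap K M (y j / y j₀)) * w⁻¹ := by
    rw [hδ, haw, mul_div_mul_right _ _ hy0, div_eq_mul_inv]
  rw [hfin]
  apply mul_mem _ hwinv
  apply sum_mem
  intro j _
  exact mul_mem (hO _) (hmax j)

/-- R1. If `O` does not contain `K` then `δ z / z ∈ O` for every `z`. -/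
theorem logder_mem {k F K M : Type*} [Field k] [IsAlgClosed k] [CharZero k] [Field F] [Field K]
    [Field M] [Algebra k F] [Algebra k K] [Algebra k M] [Algebra F M] [Algebra K M]
    [IsScalarTower k F M] [IsScalarTower k K M] {D : Derivation k F F} {δ : Derivation k M M}
    (G : GlueData (K := K) D δ) (O : ValuationSubring M) (hO : Over F O)
    (hKO : ∃ a : K, algebraMap K M a ∉ O) {z : M} (hz : z ≠ 0) : δ z / z ∈ O := by
  obtain ⟨a, ha, b, hb, hb0, rfl⟩ := exists_div_of_gen G.gen z
  have ha0 : a ≠ 0 := by
    rintro rfl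
    simp at hz
  have h1 := RGauss_span G O hO hKO ha ha0
  have h2 := RGauss_span G O hO hKO hb hb0
  have h3 : δ (a / b) / (a / b) = δ a / a - δ b / b := by
    have h4 : δ a = (a / b) * δ b + b * δ (a / b) := by
      have h5 : a = (a / b) * b := by field_simp
      conv_lhs => rw [h5]
      rw [Derivation.leibniz, smul_eq_mul, smul_eq_mul]
    rw [h4]
    field_simp
    ring
  rw [h3]
  exact sub_mem h1 h2

end MP60829e.PS
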