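import Mathlib
import Pool.Agent.Lib.MP_60829e_nt.PS.VRes

/-! Finiteness of the zeros, weak approximation, integral closures (tasks V3, V4, V5). -/

namespace MP60829e.PS

open MP60829e.S

variable {k L : Type*} [Field k] [IsAlgClosed k] [CharZero k] [Field L] [Algebra k L]

/-- V3. -/
theorem finite_nonunits (hL : IsCurveField k L) {w : L} (hw : w ≠ 0) :
    {O : ValuationSubring L | Over k O ∧ w ∈ O.nonunits}.Finite := by
  refine (hL.finite_places w⁻¹).subset ?_
  rintro O ⟨hO, hwO⟩
  refine ⟨hO, ?_⟩
  have h1 : (w⁻¹)⁻¹ ∈ O.nonunits := by rwa [inv_inv]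
  rcases O.inv_mem_nonunits_iff.1 h1 with h | h
  · exact absurd h (inv_ne_zero hw)
  · exact h

omit [IsAlgClosed k] [CharZero k] in
private theorem vapprox_adjoin {x : L} (O : ValuationSubring L) (hO : Over k O) (hx : x ∈ O)
    (a : Algebra.adjoin k ({x} : Set L)) : algebraMap (Algebra.adjoin k ({x} : Set L)) L a ∈ O := by
  have h1 : Algebra.adjoin k ({x} : Set L) ≤
      { O.toSubring with algebraMap_mem' := hO : Subalgebra k L} := by
    apply Algebra.adjoin_le
    rintro _ rfl
    exact hx
  exact h1 a.2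

omit [IsAlgClosed k] [CharZero k] in
private theorem vapprox_int {x a : L} (ha : IsIntegral (Algebra.adjoin k ({x} : Set L)) a)
    (O : ValuationSubring L) (hO : Over k O) (hx : x ∈ O) : a ∈ O :=
  integralClosure_subset (A := Algebra.adjoin k ({x} : Set L)) (vapprox_adjoin O hO hx) ha

/-- V4. An element which is regular where `w` is, is `1` at `O₁` and vanishes at the other
zeros of `w`. -/
theorem exists_approx (hL : IsCurveField k L) {w : L} (hw0 : w ≠ 0) (O₁ : ValuationSubring L)
    (hO₁ : Over k O₁) (h₁ : w ∈ O₁.nonunits) :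
    ∃ b : L, (∀ O : ValuationSubring L, Over k O → w ∈ O → b ∈ O) ∧ b - 1 ∈ O₁.nonunits ∧
      ∀ O : ValuationSubring L, Over k O → w ∈ O.nonunits → O ≠ O₁ → b ∈ O.nonunits := by
  classical
  have hw : w ∉ Set.range (algebraMap k L) := by
    rintro ⟨c, rfl⟩
    apply hw0
    rw [const_eq_zero O₁ hO₁ h₁, map_zero]
  have hfin := hL.finiteDimensional hw
  have hD := isDedekindDomain_integralClosure (k := k) w
  have hF := isFractionRing_integralClosure (k := k) w
  set A := Algebra.adjoin k ({w} : Set L) with hA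
  set B := integralClosure A L with hB
  have hwA : w ∈ A := Algebra.subset_adjoin rfl
  let wB : B := ⟨w, B.algebraMap_mem (⟨w, hwA⟩ : A)⟩
  have hwB : algebraMap B L wB = w := rfl
  have hwB0 : wB ≠ 0 := by
    intro h0
    apply hw0
    rw [← hwB, h0, map_zero]
  have hsub : ∀ O : ValuationSubring L, Over k O → w ∈ O → ∀ b : B, algebraMap B L b ∈ O :=
    fun O hO hwO b => vapprox_int b.2 O hO hwO
  have hsub1 := hsub O₁ hO₁ (O₁.nonunits_subset h₁)
  have hmax : ∀ (O : ValuationSubring L) (h : ∀ b : B, algebraMap B L b ∈ O),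
      w ∈ O.nonunits → (center O h).IsMaximal := by
    intro O h hwO
    have h0 : center O h ≠ ⊥ := by
      intro h0
      apply hwB0
      have : wB ∈ center O h := mem_center.2 hwO
      rw [h0] at this
      simpa using this
    exact Ring.DimensionLEOne.maximalOfPrime h0 (center_isPrime O h)
  -- separation of two zeros
  have hsep : ∀ O : ValuationSubring L, Over k O → w ∈ O.nonunits → O ≠ O₁ →
      ∃ b : B, algebraMap B L b ∈ O.nonunits ∧ b - 1 ∈ center O₁ hsub1 := by
    intro O hO hwO hne
    have hsubO := hsub O hO (O.nonunits_subset hwO)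
    have hne' : center O hsubO ≠ center O₁ hsub1 := by
      intro heq
      apply hne
      have h : ∀ b : B, algebraMap B L b ∈ O.nonunits ↔ algebraMap B L b ∈ O₁.nonunits := by
        intro b
        rw [← mem_center (h := hsubO), ← mem_center (h := hsub1), heq]
      apply le_antisymm
      · exact le_of_nonunits_inter_eq hsub1 h hwB0 h₁
      · exact le_of_nonunits_inter_eq hsubO (fun b => (h b).symm) hwB0 hwO
    have hco : center O hsubO ⊔ center O₁ hsub1 = ⊤ :=
      (hmax O hsubO hwO).coprime_of_ne (hmax O₁ hsub1 h₁) hne'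
    have h1 : (1 : B) ∈ center O hsubO ⊔ center O₁ hsub1 := by
      rw [hco]
      exact Submodule.mem_top
    obtain ⟨a, ha, c, hc, hac⟩ := Submodule.mem_sup.1 h1
    refine ⟨a, mem_center.1 ha, ?_⟩
    have h2 : a - 1 = -c := by
      rw [← hac]
      ring
    rw [h2]
    exact neg_mem hc
  choose! g hg1 hg2 using hsep
  set Z : Finset (ValuationSubring L) := (finite_nonunits hL hw0).toFinset.erase O₁ with hZ
  have hZmem : ∀ O, O ∈ Z ↔ O ≠ O₁ ∧ Over k O ∧ w ∈ O.nonunits := by
    intro O
    rw [hZ, Finset.mem_erase, Set.Finite.mem_toFinset]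
    rfl
  refine ⟨algebraMap B L (∏ O ∈ Z, g O), fun O hO hwO => hsub O hO hwO _, ?_, ?_⟩
  · have h3 : (∏ O ∈ Z, g O) - 1 ∈ center O₁ hsub1 := by
      rw [← Ideal.Quotient.eq, map_prod, map_one]
      refine Finset.prod_eq_one (fun O hO => ?_)
      obtain ⟨hne, hO1, hO2⟩ := (hZmem O).1 hO
      have h4 := hg2 O hO1 hO2 hne
      rw [← Ideal.Quotient.eq, map_one] at h4
      exact h4
    have h5 := mem_center.1 h3
    rwa [map_sub, map_one] at h5
  · intro O hO hwO hne
    have hsubO := hsub O hO (O.nonunits_subset hwO)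
    have h6 : O ∈ Z := (hZmem O).2 ⟨hne, hO, hwO⟩
    have h7 : g O ∈ center O hsubO := mem_center.2 (hg1 O hO hwO hne)
    exact mem_center.1 (Ideal.mem_of_dvd _ (Finset.dvd_prod_of_mem g h6) h7)

/-- V5. -/
theorem isIntegral_of_forall_mem {x a : L}
    (ha : ∀ O : ValuationSubring L, Over k O → x ∈ O → a ∈ O) :
    IsIntegral (Algebra.adjoin k ({x} : Set L)) a := by
  have hy : a ∈ (integralClosure (Algebra.adjoin k ({x} : Set L)) L).toSubring := by
    by_contra hcon
    obtain ⟨V, hV, hyV⟩ := Subring.exists_le_valuationSubring_of_isIntegrallyClosedIn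
      (R := (integralClosure (Algebra.adjoin k ({x} : Set L)) L).toSubring) hcon
    apply hyV
    refine ha V (fun c => hV ?_) (hV ?_)
    · exact (integralClosure (Algebra.adjoin k ({x} : Set L)) L).algebraMap_mem
        (algebraMap k (Algebra.adjoin k ({x} : Set L)) c)
    · exact (integralClosure (Algebra.adjoin k ({x} : Set L)) L).algebraMap_mem
        (⟨x, Algebra.subset_adjoin rfl⟩ : Algebra.adjoin k ({x} : Set L))
  exact hy

/-- V5'. -/
theorem mem_of_isIntegral {x a : L} (ha : IsIntegral (Algebra.adjoin k ({x} : Set L)) a)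
    (O : ValuationSubring L) (hO : Over k O) (hx : x ∈ O) : a ∈ O :=
  vapprox_int ha O hO hx

end MP60829e.PS
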