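import Mathlib
import Pool.Agent.Lib.MP_60829e_nt.S.Defs

/-! Functions regular outside the poles of `x`, functions vanishing at the poles of `x`. -/

namespace MP60829e.PS

open MP60829e.S

variable (k : Type*) {L : Type*} [Field k] [Field L] [Algebra k L]

/-- `a` is regular wherever `x` is. -/
def Fin' (x a : L) : Prop := ∀ O : ValuationSubring L, Over k O → x ∈ O → a ∈ O

/-- `z` vanishes at all poles of `x`. -/
def Van (x z : L) : Prop := ∀ O : ValuationSubring L, Over k O → x ∉ O → z ∈ O.nonunits

/-- `h` is a logarithmic differential divided by `dx` (in terms of the different of `k(x)`). -/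
def LogDiff (x h : L) : Prop :=
  (∀ O : ValuationSubring L, Over k O → x ∉ O → x * h ∈ O) ∧
  ∀ O : ValuationSubring L, Over k O → x ∈ O → ∀ c : k,
    x - algebraMap k L c ∈ O.nonunits → (x - algebraMap k L c) * h ∈ O.nonunits

end MP60829e.PS
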