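import Mathlib
import Pool.Agent.Lib.MP_60829e_nt.PS.VApprox
import Pool.Agent.Lib.MP_60829e_nt.PS.VDefs

/-! If `H¹` vanishes then the functions regular outside the poles of `x` are the polynomials in
one function (task V14). -/

namespace MP60829e.PS

open MP60829e.S

private theorem VSingle_sub {L : Type*} [Field L] {O : ValuationSubring L} {a b : L}
    (ha : a ∈ O.nonunits) (hb : b ∈ O.nonunits) : a - b ∈ O.nonunits := by
  rw [ValuationSubring.mem_nonunits_iff] at ha hb ⊢
  exact Valuation.map_sub_lt _ ha hb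

private theorem VSingle_le {L : Type*} [Field L] {O : ValuationSubring L} {a : L}
    (ha : a ∈ O.nonunits) : a ∈ O := by
  rw [ValuationSubring.mem_nonunits_iff] at ha
  exact (O.valuation_le_one_iff a).1 ha.le

private theorem VSingle_mul {L : Type*} [Field L] {O : ValuationSubring L} {a b : L}
    (ha : a ∈ O) (hb : b ∈ O.nonunits) : a * b ∈ O.nonunits := by
  rw [ValuationSubring.mem_nonunits_iff] at hb ⊢
  rw [map_mul]
  exact lt_of_le_of_lt (mul_le_of_le_one_left' ((O.valuation_le_one_iff a).2 ha)) hb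

private theorem VSingle_not {L : Type*} [Field L] {O : ValuationSubring L} {y : L}
    (hy0 : y ≠ 0) (hy : y ∈ O.nonunits) : y⁻¹ ∉ O := by
  intro h
  have h1 := VSingle_mul h hy
  rw [inv_mul_cancel₀ hy0, ValuationSubring.mem_nonunits_iff, map_one] at h1
  exact lt_irrefl _ h1

private theorem VSingle_div {L : Type*} [Field L] {O : ValuationSubring L} {π : L}
    (hπ0 : π ≠ 0) (hπ : π ∈ O.nonunits)
    (hu : ∀ z : L, z ≠ 0 → ∃ (n : ℤ) (u : L), u ∈ O ∧ u⁻¹ ∈ O ∧ z = π ^ n * u)
    {y : L} (hy : y ∈ O.nonunits) : π⁻¹ * y ∈ O := by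
  rcases eq_or_ne y 0 with rfl | hy0
  · rw [mul_zero]
    exact O.zero_mem
  obtain ⟨n, u, hu1, hu2, rfl⟩ := hu y hy0
  have hn : 1 ≤ n := by
    by_contra hcon
    apply VSingle_not hy0 hy
    obtain ⟨m, hm⟩ : ∃ m : ℕ, n = -(m : ℤ) := ⟨(-n).toNat, by omega⟩
    have h1 : (π ^ n * u)⁻¹ = π ^ m * u⁻¹ := by
      rw [hm, mul_inv, zpow_neg, inv_inv, zpow_natCast]
    rw [h1]
    exact O.mul_mem _ _ (pow_mem (VSingle_le hπ) m) hu2
  obtain ⟨m, hm⟩ : ∃ m : ℕ, n = (m : ℤ) + 1 := ⟨(n - 1).toNat, by omega⟩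
  have h1 : π⁻¹ * (π ^ n * u) = π ^ m * u := by
    rw [hm, zpow_add₀ hπ0, zpow_one, zpow_natCast]
    field_simp
  rw [h1]
  exact O.mul_mem _ _ (pow_mem (VSingle_le hπ) m) hu1

private theorem VSingle_pow_sub {L : Type*} [Field L] {O : ValuationSubring L} {t : L}
    (ht : t ∈ O) (ht1 : t - 1 ∈ O.nonunits) (n : ℕ) : t ^ n - 1 ∈ O.nonunits := by
  have h1 : t ^ n - 1 = (∑ i ∈ Finset.range n, t ^ i) * (t - 1) := (geom_sum_mul t n).symm
  rw [h1]
  exact VSingle_mul (sum_mem fun i _ => pow_mem ht i) ht1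

variable {k L : Type*} [Field k] [IsAlgClosed k] [CharZero k] [Field L] [Algebra k L]

/-- V14. -/
theorem exists_generator_of_split (hL : IsCurveField k L) {x : L}
    (hx : x ∉ Set.range (algebraMap k L))
    (hsp : ∀ z : L, ∃ a : L, Fin' k x a ∧ Van k x (z - a)) :
    ∃ u : L, ∀ a : L, Fin' k x a → ∃ P : Polynomial k, a = Polynomial.aeval u P := by
  obtain ⟨O₁, hO₁, hxO₁⟩ := exists_over_not_mem hx
  have hx0 : x ≠ 0 := by
    rintro rfl
    exact hx ⟨0, map_zero _⟩
  have hw0 : x⁻¹ ≠ 0 := inv_ne_zero hx0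
  have hw : ∀ O : ValuationSubring L, x ∉ O → x⁻¹ ∈ O.nonunits := by
    intro O hxO
    rw [ValuationSubring.inv_mem_nonunits_iff]
    exact Or.inr hxO
  -- `O₁` is the only pole of `x`
  have huniq : ∀ O : ValuationSubring L, Over k O → x ∉ O → O = O₁ := by
    intro O₂ hO₂ hxO₂
    by_contra hne
    obtain ⟨b, hb1, hb2, hb3⟩ := exists_approx hL hw0 O₁ hO₁ (hw O₁ hxO₁)
    obtain ⟨a, ha1, ha2⟩ := hsp b
    have haall : ∀ O : ValuationSubring L, Over k O → a ∈ O := by
      intro O hO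
      by_cases hxO : x ∈ O
      · exact ha1 O hO hxO
      · have h1 := VSingle_le (ha2 O hO hxO)
        have h2 := hb1 O hO (VSingle_le (hw O hxO))
        have h3 : a = b - (b - a) := by ring
        rw [h3]
        exact sub_mem h2 h1
    obtain ⟨c, rfl⟩ := mem_range_of_forall_mem haall
    have h1 : c - 1 = 0 := by
      apply const_eq_zero O₁ hO₁
      have h2 : algebraMap k L (c - 1) = (b - 1) - (b - algebraMap k L c) := by
        rw [map_sub, map_one]
        ring
      rw [h2]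
      exact VSingle_sub hb2 (ha2 O₁ hO₁ hxO₁)
    have h2 : c = 0 := by
      apply const_eq_zero O₂ hO₂
      have h3 : algebraMap k L c = b - (b - algebraMap k L c) := by ring
      rw [h3]
      exact VSingle_sub (hb3 O₂ hO₂ (hw O₂ hxO₂) hne) (ha2 O₂ hO₂ hxO₂)
    rw [h2, zero_sub, neg_eq_zero] at h1
    exact one_ne_zero h1
  have hne : O₁ ≠ ⊤ := by
    rintro rfl
    exact hxO₁ (ValuationSubring.mem_top x)
  obtain ⟨π, hπ0, hπ, hunif⟩ := exists_uniformizer hL O₁ hO₁ hne
  obtain ⟨u, hu1, hu2⟩ := hsp π⁻¹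
  refine ⟨u, ?_⟩
  have hm := hu2 O₁ hO₁ hxO₁
  have ht1 : π * u - 1 ∈ O₁.nonunits := by
    have h1 : π * u - 1 = (-π) * (π⁻¹ - u) := by
      field_simp
      ring
    rw [h1]
    exact VSingle_mul (neg_mem (VSingle_le hπ)) hm
  have ht : π * u ∈ O₁ := by
    have h1 : π * u = (π * u - 1) + 1 := by ring
    rw [h1]
    exact add_mem (VSingle_le ht1) (one_mem _)
  have key : ∀ n : ℕ, ∀ a : L, Fin' k x a → π ^ n * a ∈ O₁ →
      ∃ P : Polynomial k, a = Polynomial.aeval u P := by
    intro n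
    induction n with
    | zero =>
      intro a ha hpa
      rw [pow_zero, one_mul] at hpa
      have haall : ∀ O : ValuationSubring L, Over k O → a ∈ O := by
        intro O hO
        by_cases hxO : x ∈ O
        · exact ha O hO hxO
        · rw [huniq O hO hxO]
          exact hpa
      obtain ⟨c, rfl⟩ := mem_range_of_forall_mem haall
      exact ⟨Polynomial.C c, by rw [Polynomial.aeval_C]⟩
    | succ n ih =>
      intro a ha hpa
      obtain ⟨c, hc⟩ := exists_residue hL O₁ hO₁ hne hpa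
      have hFin : Fin' k x (a - algebraMap k L c * u ^ (n + 1)) := by
        intro O hO hxO
        exact sub_mem (ha O hO hxO) (O.mul_mem _ _ (hO c) (pow_mem (hu1 O hO hxO) _))
      have h1 : π ^ (n + 1) * (a - algebraMap k L c * u ^ (n + 1)) ∈ O₁.nonunits := by
        have h2 : π ^ (n + 1) * (a - algebraMap k L c * u ^ (n + 1)) =
            (π ^ (n + 1) * a - algebraMap k L c) -
              algebraMap k L c * ((π * u) ^ (n + 1) - 1) := by
          rw [mul_pow]
          ring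
        rw [h2]
        exact VSingle_sub hc (VSingle_mul (hO₁ c) (VSingle_pow_sub ht ht1 _))
      have h2 : π ^ n * (a - algebraMap k L c * u ^ (n + 1)) ∈ O₁ := by
        have h3 := VSingle_div hπ0 hπ hunif h1
        have h4 : π⁻¹ * (π ^ (n + 1) * (a - algebraMap k L c * u ^ (n + 1))) =
            π ^ n * (a - algebraMap k L c * u ^ (n + 1)) := by
          rw [pow_succ]
          field_simp
        rwa [h4] at h3
      obtain ⟨P, hP⟩ := ih _ hFin h2
      refine ⟨P + Polynomial.C c * Polynomial.X ^ (n + 1), ?_⟩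
      rw [map_add, ← hP, map_mul, Polynomial.aeval_C, map_pow, Polynomial.aeval_X]
      ring
  intro a ha
  obtain ⟨n, hn⟩ := exists_pow_mul_mem_nonunits hL O₁ hO₁ hπ0 hπ a
  exact key n a ha (VSingle_le (hn n le_rfl))

end MP60829e.PS
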