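import Mathlib
import Pool.Agent.Lib.MP_60829e_nt.PS.VApprox
import Pool.Agent.Lib.MP_60829e_nt.PS.VDefs
import Pool.Agent.Lib.MP_60829e_nt.S.Val

/-! The rational function field `Q = k(x)` inside `L` at infinity (tasks V8, V9). -/

namespace MP60829e.PS

open MP60829e.S

variable {k L : Type*} [Field k] [IsAlgClosed k] [CharZero k] [Field L] [Algebra k L]

section VQaux

variable {k L : Type*} [Field k] [Field L] [Algebra k L]

theorem VQ_mul_nonunits {O : ValuationSubring L} {a b : L} (ha : a ∈ O.nonunits) (hb : b ∈ O) :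
    a * b ∈ O.nonunits := by
  rw [ValuationSubring.mem_nonunits_iff] at ha ⊢
  rw [map_mul]
  have hb' := (O.valuation_le_one_iff b).2 hb
  calc O.valuation a * O.valuation b ≤ O.valuation a * 1 := by gcongr
    _ < 1 := by rwa [mul_one]

theorem VQ_inv_nonunits {O : ValuationSubring L} {x : L} (hx : x ∉ O) : x⁻¹ ∈ O.nonunits :=
  (ValuationSubring.inv_mem_nonunits_iff O).2 (Or.inr hx)

theorem VQ_ne_zero {O : ValuationSubring L} {x : L} (hx : x ∉ O) : x ≠ 0 := by
  rintro rfl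
  exact hx O.zero_mem

theorem VQ_inv_mem {O : ValuationSubring L} {x : L} (hx : x ∉ O) : x⁻¹ ∈ O :=
  ValuationSubring.nonunits_subset (VQ_inv_nonunits hx)

/-- a nonzero constant plus a nonunit is a unit -/
theorem VQ_unit {O : ValuationSubring L} (hO : Over k O) {c : k} (hc : c ≠ 0) {t : L}
    (ht : t ∈ O.nonunits) : O.valuation (algebraMap k L c + t) = 1 := by
  rw [ValuationSubring.mem_nonunits_iff] at ht
  rw [← val_const hO hc]
  refine Valuation.map_add_eq_of_lt_left _ ?_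
  rwa [val_const hO hc]

theorem VQ_poly (P : Polynomial k) {x : L} {O : ValuationSubring L} (hO : Over k O) (hx : x ∉ O) :
    ∃ s ∈ O, Polynomial.aeval x P =
      x ^ (P.natDegree : ℤ) * (algebraMap k L P.leadingCoeff + x⁻¹ * s) := by
  have hx0 := VQ_ne_zero hx
  refine ⟨∑ i ∈ Finset.range P.natDegree,
    algebraMap k L (P.coeff i) * (x⁻¹) ^ (P.natDegree - 1 - i), ?_, ?_⟩
  · exact sum_mem fun i _ => mul_mem (hO _) (pow_mem (VQ_inv_mem hx) _)
  · rw [Polynomial.aeval_eq_sum_range, Finset.sum_range_succ, mul_add, Finset.mul_sum,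
      Finset.mul_sum, add_comm, zpow_natCast]
    congr 1
    · rw [Polynomial.coeff_natDegree, Algebra.smul_def, mul_comm]
    · refine Finset.sum_congr rfl fun i hi => ?_
      rw [Finset.mem_range] at hi
      rw [Algebra.smul_def]
      obtain ⟨j, hj⟩ := Nat.exists_eq_add_of_lt hi
      have h1 : P.natDegree - 1 - i = j := by omega
      rw [h1, hj, inv_pow]
      field_simp
      ring

/-- Leading term at infinity. -/
theorem VQ_lead {x : L} {q : L} (hq : q ∈ IntermediateField.adjoin k ({x} : Set L))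
    (hq0 : q ≠ 0) :
    ∃ (n : ℤ) (c : k), c ≠ 0 ∧ ∀ O : ValuationSubring L, Over k O → x ∉ O →
      ∃ s ∈ O, q = x ^ n * (algebraMap k L c + x⁻¹ * s) := by
  obtain ⟨r, s, hrs⟩ := (IntermediateField.mem_adjoin_simple_iff k q).1 hq
  have hr0 : r ≠ 0 := by
    rintro rfl
    apply hq0
    rw [hrs, map_zero, zero_div]
  have hs0 : s ≠ 0 := by
    rintro rfl
    apply hq0
    rw [hrs, map_zero, div_zero]
  have hlr : r.leadingCoeff ≠ 0 := Polynomial.leadingCoeff_ne_zero.2 hr0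
  have hls : s.leadingCoeff ≠ 0 := Polynomial.leadingCoeff_ne_zero.2 hs0
  refine ⟨(r.natDegree : ℤ) - s.natDegree, r.leadingCoeff / s.leadingCoeff,
    div_ne_zero hlr hls, ?_⟩
  intro O hO hx
  have hx0 := VQ_ne_zero hx
  obtain ⟨a, ha, har⟩ := VQ_poly r hO hx
  obtain ⟨b, hb, hbs⟩ := VQ_poly s hO hx
  set u : L := algebraMap k L s.leadingCoeff + x⁻¹ * b with hu
  have hval : O.valuation u = 1 := VQ_unit hO hls (VQ_mul_nonunits (VQ_inv_nonunits hx) hb)
  have hu0 : u ≠ 0 := by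
    intro h0
    rw [h0, map_zero] at hval
    exact zero_ne_one hval
  have huO : u⁻¹ ∈ O := by
    rw [← O.valuation_le_one_iff, map_inv₀, hval, inv_one]
  have hc0 : algebraMap k L s.leadingCoeff ≠ 0 := by
    simpa using hs0
  refine ⟨(algebraMap k L s.leadingCoeff * a - algebraMap k L r.leadingCoeff * b) *
    (u⁻¹ * algebraMap k L (s.leadingCoeff)⁻¹), ?_, ?_⟩
  · exact mul_mem (sub_mem (mul_mem (hO _) ha) (mul_mem (hO _) hb)) (mul_mem huO (hO _))
  · rw [hrs, har, hbs, zpow_sub₀ hx0, map_div₀, map_inv₀]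
    have hb' : b = x * (u - algebraMap k L s.leadingCoeff) := by
      rw [hu]
      field_simp
      ring
    rw [hb']
    field_simp
    ring

theorem VQ_zpow_mem {O : ValuationSubring L} {x : L} (hx : x ∉ O) {n : ℤ} (hn : n ≤ 0) :
    x ^ n ∈ O := by
  obtain ⟨m, hm⟩ := Int.eq_ofNat_of_zero_le (neg_nonneg.2 hn)
  have hm' : n = -(m : ℤ) := by omega
  rw [hm']
  rw [zpow_neg, zpow_natCast, ← inv_pow]
  exact pow_mem (VQ_inv_mem hx) m

theorem VQ_mem_iff {O : ValuationSubring L} (hO : Over k O) {x : L} (hx : x ∉ O) {n : ℤ} {c : k}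
    (hc : c ≠ 0) {s : L} (hs : s ∈ O) :
    x ^ n * (algebraMap k L c + x⁻¹ * s) ∈ O ↔ n ≤ 0 := by
  have hx0 := VQ_ne_zero hx
  constructor
  · intro h
    by_contra hcon
    have hval : O.valuation (algebraMap k L c + x⁻¹ * s) = 1 :=
      VQ_unit hO hc (VQ_mul_nonunits (VQ_inv_nonunits hx) hs)
    rw [← O.valuation_le_one_iff, map_mul, hval, mul_one, O.valuation_le_one_iff] at h
    have h2 : x = x ^ n * x ^ (1 - n) := by
      rw [← zpow_add₀ hx0]
      simp
    apply hx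
    rw [h2]
    exact mul_mem h (VQ_zpow_mem hx (by omega))
  · intro h
    exact mul_mem (VQ_zpow_mem hx h) (add_mem (hO c) (mul_mem (VQ_inv_mem hx) hs))

end VQaux

/-- V9. All poles of `x` induce the same valuation ring of `k(x)`. -/
theorem mem_iff_mem_of_pole {x : L} {O₀ O₁ : ValuationSubring L} (hO₀ : Over k O₀)
    (hO₁ : Over k O₁) (h₀ : x ∉ O₀) (h₁ : x ∉ O₁) {q : L}
    (hq : q ∈ IntermediateField.adjoin k ({x} : Set L)) : q ∈ O₀ ↔ q ∈ O₁ := by
  by_cases hq0 : q = 0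
  · rw [hq0]
    exact ⟨fun _ => O₁.zero_mem, fun _ => O₀.zero_mem⟩
  · obtain ⟨n, c, hc, h⟩ := VQ_lead hq hq0
    obtain ⟨s, hs, hqs⟩ := h O₀ hO₀ h₀
    obtain ⟨t, ht, hqt⟩ := h O₁ hO₁ h₁
    have e1 : q ∈ O₀ ↔ n ≤ 0 := by
      rw [hqs]
      exact VQ_mem_iff hO₀ h₀ hc hs
    have e2 : q ∈ O₁ ↔ n ≤ 0 := by
      rw [hqt]
      exact VQ_mem_iff hO₁ h₁ hc ht
    rw [e1, e2]

omit [IsAlgClosed k] [CharZero k] in
private theorem laurent_aux {x : L} {O₀ : ValuationSubring L} (hO₀ : Over k O₀) (h₀ : x ∉ O₀)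
    (J : ℕ) (N : ℕ) : ∀ q : L, q ∈ IntermediateField.adjoin k ({x} : Set L) →
      (∃ s ∈ O₀, x ^ J * q = x ^ N * s) →
      ∃ ℓ ∈ Submodule.span k (Set.range fun j : ℤ => x ^ j), x ^ J * (q - ℓ) ∈ O₀ := by
  have hx0 := VQ_ne_zero h₀
  induction N with
  | zero =>
    rintro q _ ⟨s, hs, h⟩
    refine ⟨0, zero_mem _, ?_⟩
    rw [sub_zero, h, pow_zero, one_mul]
    exact hs
  | succ N ih =>
    rintro q hq ⟨s, hs, h⟩
    by_cases hq0 : q = 0
    · refine ⟨0, zero_mem _, ?_⟩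
      rw [sub_zero, hq0, mul_zero]
      exact O₀.zero_mem
    · obtain ⟨n, c, hc, hn⟩ := VQ_lead hq hq0
      obtain ⟨t, ht, hqt⟩ := hn O₀ hO₀ h₀
      -- `n + J ≤ N + 1`
      have hle : n + J - (N + 1) ≤ 0 := by
        rw [← VQ_mem_iff hO₀ h₀ hc ht]
        have e1 : x ^ (n + J - (N + 1 : ℤ)) * (algebraMap k L c + x⁻¹ * t) = s := by
          have e2 : x ^ (n + J - (N + 1 : ℤ)) * (algebraMap k L c + x⁻¹ * t) =
              (x ^ (N + 1))⁻¹ * (x ^ J * (x ^ n * (algebraMap k L c + x⁻¹ * t))) := by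
            rw [zpow_sub₀ hx0, zpow_add₀ hx0, zpow_natCast]
            have e3 : x ^ (N + 1 : ℤ) = x ^ (N + 1) := by
              exact_mod_cast zpow_natCast x (N + 1)
            rw [e3]
            field_simp
          rw [e2, ← hqt, h]
          field_simp
        rw [e1]
        exact hs
      -- subtract the leading term
      have hq' : q - algebraMap k L c * x ^ n ∈ IntermediateField.adjoin k ({x} : Set L) := by
        refine sub_mem hq (mul_mem (IntermediateField.algebraMap_mem _ c) (zpow_mem ?_ n))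
        exact IntermediateField.mem_adjoin_simple_self k x
      obtain ⟨ℓ, hℓ, h2⟩ := ih (q - algebraMap k L c * x ^ n) hq' (by
        refine ⟨x ^ (n + J - (N + 1 : ℤ)) * t, mul_mem (VQ_zpow_mem h₀ hle) ht, ?_⟩
        rw [hqt, zpow_sub₀ hx0, zpow_add₀ hx0, zpow_natCast]
        have e3 : x ^ (N + 1 : ℤ) = x ^ (N + 1) := by
          exact_mod_cast zpow_natCast x (N + 1)
        rw [e3, pow_succ]
        field_simp
        ring)
      refine ⟨ℓ + c • x ^ n, add_mem hℓ (Submodule.smul_mem _ c (Submodule.subset_span ⟨n, rfl⟩)), ?_⟩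
      rw [Algebra.smul_def]
      have e4 : q - (ℓ + algebraMap k L c * x ^ n) = q - algebraMap k L c * x ^ n - ℓ := by ring
      rw [e4]
      exact h2

/-- V8. Laurent expansion at infinity. -/
theorem exists_laurent {x : L} {O₀ : ValuationSubring L} (hO₀ : Over k O₀) (h₀ : x ∉ O₀) {q : L}
    (hq : q ∈ IntermediateField.adjoin k ({x} : Set L)) (J : ℕ) :
    ∃ ℓ ∈ Submodule.span k (Set.range fun j : ℤ => x ^ j), x ^ J * (q - ℓ) ∈ O₀ := by
  have hx0 := VQ_ne_zero h₀
  by_cases hq0 : q = 0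
  · refine ⟨0, zero_mem _, ?_⟩
    rw [sub_zero, hq0, mul_zero]
    exact O₀.zero_mem
  · obtain ⟨n, c, hc, hn⟩ := VQ_lead hq hq0
    obtain ⟨t, ht, hqt⟩ := hn O₀ hO₀ h₀
    refine laurent_aux hO₀ h₀ J (n + J).toNat q hq
      ⟨x ^ (n + J - ((n + J).toNat : ℤ)) * (algebraMap k L c + x⁻¹ * t), ?_, ?_⟩
    · rw [VQ_mem_iff hO₀ h₀ hc ht]
      omega
    · rw [hqt, zpow_sub₀ hx0, zpow_add₀ hx0, zpow_natCast, zpow_natCast]
      field_simp

end MP60829e.PS
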