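import Mathlib
import Pool.Agent.Lib.MP_60829e_nt.PS.VApprox

/-! The trace of an element which is `1` at one zero of `w` and vanishes at the others
(task V6). -/

namespace MP60829e.PS

open MP60829e.S

open Polynomial in
/-- An element of all valuation rings above `O` is integral over `O`. -/
private theorem vtrace_int {E K : Type*} [Field E] [Field K] [Algebra E K]
    (O : ValuationSubring E) [Algebra O K] [IsScalarTower O E K] (y : K)
    (h : ∀ V : ValuationSubring K, (∀ a ∈ O, algebraMap E K a ∈ V) → y ∈ V) :
    IsIntegral O y := by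
  have hy : y ∈ (integralClosure O K).toSubring := by
    by_contra hcon
    obtain ⟨V, hV, hyV⟩ := Subring.exists_le_valuationSubring_of_isIntegrallyClosedIn
      (R := (integralClosure O K).toSubring) hcon
    apply hyV
    refine h V fun a ha => hV ?_
    have : algebraMap E K a = algebraMap O K ⟨a, ha⟩ := by
      rw [IsScalarTower.algebraMap_apply O E K]
      rfl
    rw [this]
    exact (integralClosure O K).algebraMap_mem _
  exact hy

open Polynomial in
/-- If `(b - ρ)⁻¹` is integral then the minimal polynomial of `b` has a unit value at `ρ`. -/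
private theorem vtrace_unit {R K : Type*} [CommRing R] [IsDomain R] [IsIntegrallyClosed R]
    [Field K] [Algebra R K] [Module.IsTorsionFree R K] {b : K} {ρ : R} (hb : IsIntegral R b)
    (hne : b - algebraMap R K ρ ≠ 0) (hc : IsIntegral R (b - algebraMap R K ρ)⁻¹) :
    IsUnit ((minpoly R b).eval ρ) := by
  set c : K := (b - algebraMap R K ρ)⁻¹ with hcdef
  have hc0 : c ≠ 0 := inv_ne_zero hne
  letI : Invertible c := invertibleOfNonzero hc0
  have h1 : eval₂ (algebraMap R K) (⅟c) (reverse (minpoly R c)) = 0 := by
    rw [eval₂_reverse_eq_zero_iff]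
    exact minpoly.aeval R c
  have h2 : (⅟c : K) = b - algebraMap R K ρ := by
    rw [invOf_eq_inv, hcdef, inv_inv]
  rw [h2] at h1
  have h3 : aeval b ((reverse (minpoly R c)).comp (X - C ρ)) = 0 := by
    rw [aeval_comp, map_sub, aeval_X, aeval_C]
    exact h1
  have h4 : minpoly R b ∣ (reverse (minpoly R c)).comp (X - C ρ) :=
    minpoly.isIntegrallyClosed_dvd hb h3
  have h5 : ((reverse (minpoly R c)).comp (X - C ρ)).eval ρ = 1 := by
    rw [eval_comp, eval_sub, eval_X, eval_C, sub_self, ← coeff_zero_eq_eval_zero,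
      coeff_zero_reverse]
    exact (minpoly.monic hc).leadingCoeff
  have h6 : (minpoly R b).eval ρ ∣ 1 := by
    rw [← h5]
    exact eval_dvd h4
  exact isUnit_of_dvd_one h6

private theorem vtrace_sum {κ : Type*} [Field κ] [DecidableEq κ] (s : Multiset κ)
    (h : ∀ r ∈ s, r = 0 ∨ r = 1) : s.sum = (s.count 1 : κ) := by
  induction s using Multiset.induction_on with
  | empty => simp
  | cons a s ih =>
    have h1 := ih (fun r hr => h r (Multiset.mem_cons_of_mem hr))
    rw [Multiset.sum_cons, h1]
    rcases h a (Multiset.mem_cons_self a s) with h2 | h2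
    · rw [h2, Multiset.count_cons_of_ne one_ne_zero, zero_add]
    · rw [h2, Multiset.count_cons_self]
      push_cast
      ring

variable {k L : Type*} [Field k] [IsAlgClosed k] [CharZero k] [Field L] [Algebra k L]

/-- V6. Let `b` be regular where `w` is, `1` at the zero `O₁` of `w` and zero at the other zeros
of `w`. Then the trace of `b` over `k(w)` is regular at `O₁` and does not vanish there. -/
theorem trace_approx (hL : IsCurveField k L) {w : L} (hw : w ∉ Set.range (algebraMap k L))
    (O₁ : ValuationSubring L) (hO₁ : Over k O₁) (h₁ : w ∈ O₁.nonunits) {b : L}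
    (hb : ∀ O : ValuationSubring L, Over k O → w ∈ O → b ∈ O) (hb₁ : b - 1 ∈ O₁.nonunits)
    (hb₂ : ∀ O : ValuationSubring L, Over k O → w ∈ O.nonunits → O ≠ O₁ → b ∈ O.nonunits) :
    (Algebra.trace (IntermediateField.adjoin k ({w} : Set L)) L b : L) ∈ O₁ ∧
      (Algebra.trace (IntermediateField.adjoin k ({w} : Set L)) L b : L) ∉ O₁.nonunits := by
  classical
  have hfin := hL.finiteDimensional hw
  have hw0 : w ≠ 0 := by
    rintro rfl
    exact hw ⟨0, map_zero _⟩
  have hwO₁ : w ∈ O₁ := O₁.nonunits_subset h₁
  set Q := IntermediateField.adjoin k ({w} : Set L) with hQ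
  have hwQ : w ∈ Q := IntermediateField.mem_adjoin_simple_self k w
  -- the valuation ring of `Q`
  set O : ValuationSubring Q := O₁.comap (algebraMap Q L) with hOdef
  have hmemO : ∀ q : Q, q ∈ O ↔ (q : L) ∈ O₁ := fun q => Iff.rfl
  have hmemO' : ∀ q : Q, q ∈ O.nonunits ↔ (q : L) ∈ O₁.nonunits := by
    intro q
    rw [O.mem_nonunits_iff_or, O₁.mem_nonunits_iff_or, hmemO]
    constructor
    · rintro (h | h)
      · left
        rw [h]
        rfl
      · right
        exact h
    · rintro (h | h)
      · left
        exact Subtype.ext h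
      · right
        exact h
  letI : Algebra O L := ((algebraMap Q L).comp O.subtype).toAlgebra
  haveI : IsScalarTower O Q L := IsScalarTower.of_algebraMap_eq' rfl
  have hinjO : Function.Injective (algebraMap O L) := by
    intro x y hxy
    exact Subtype.ext ((algebraMap Q L).injective hxy)
  haveI : Module.IsTorsionFree O L := by
    rw [Module.isTorsionFree_iff_algebraMap_injective]
    exact hinjO
  -- valuation rings above `O`
  have hover : ∀ V : ValuationSubring L, (∀ a ∈ O, algebraMap Q L a ∈ V) →
      Over k V ∧ w ∈ V := by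
    intro V hV
    constructor
    · intro c
      have := hV (algebraMap k Q c) (hO₁ c)
      exact this
    · exact hV ⟨w, hwQ⟩ hwO₁
  -- `V` is everything if `w` is a unit of `V`
  have htop : ∀ V : ValuationSubring L, (∀ a ∈ O, algebraMap Q L a ∈ V) → w ∉ V.nonunits →
      ∀ z : L, z ∈ V := by
    intro V hV hwV z
    have hwinv : w⁻¹ ∈ V := inv_mem_of_not_mem_nonunits hwV
    have hQV : ∀ q : Q, algebraMap Q L q ∈ V := by
      intro q
      obtain ⟨n, hn⟩ := exists_pow_mul_mem_nonunits hL O₁ hO₁ hw0 h₁ (q : L)
      have h2 : w ^ n * (q : L) ∈ O₁ := O₁.nonunits_subset (hn n le_rfl)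
      have h3 := hV ((⟨w, hwQ⟩ : Q) ^ n * q) h2
      have h4 : algebraMap Q L q =
          (w⁻¹) ^ n * algebraMap Q L ((⟨w, hwQ⟩ : Q) ^ n * q) := by
        have h5 : algebraMap Q L ((⟨w, hwQ⟩ : Q) ^ n * q) = w ^ n * algebraMap Q L q := by
          rw [map_mul, map_pow]
          rfl
        rw [h5, ← mul_assoc, ← mul_pow, inv_mul_cancel₀ hw0, one_pow, one_mul]
      rw [h4]
      exact mul_mem (pow_mem hwinv n) h3
    exact integralClosure_subset (A := Q) hQV (Algebra.IsIntegral.isIntegral z)
  -- constants different from `0` and `1`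
  have hbint : IsIntegral O b := vtrace_int O b (fun V hV => hb V (hover V hV).1 (hover V hV).2)
  have hrho : ∀ c : k, c ≠ 0 → c ≠ 1 → ∀ V : ValuationSubring L,
      (∀ a ∈ O, algebraMap Q L a ∈ V) → (b - algebraMap k L c)⁻¹ ∈ V := by
    intro c hc0 hc1 V hV
    by_cases hwV : w ∈ V.nonunits
    · apply inv_mem_of_not_mem_nonunits
      intro hcon
      by_cases hVO : V = O₁
      · subst hVO
        have h2 := sub_mem hb₁ hcon
        have h3 : b - 1 - (b - algebraMap k L c) = algebraMap k L (c - 1) := by
          rw [map_sub, map_one]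
          ring
        rw [h3] at h2
        exact hc1 (sub_eq_zero.1 (const_eq_zero V (hover V hV).1 h2))
      · have h2 := sub_mem (hb₂ V (hover V hV).1 hwV hVO) hcon
        have h3 : b - (b - algebraMap k L c) = algebraMap k L c := by ring
        rw [h3] at h2
        exact hc0 (const_eq_zero V (hover V hV).1 h2)
    · exact htop V hV hwV _
  -- the residue field
  let cO : k →+* O := (algebraMap k Q).codRestrict O.toSubring hO₁
  have hcO : ∀ c : k, algebraMap O L (cO c) = algebraMap k L c := fun c => rfl
  let ψ : k →+* IsLocalRing.ResidueField O := (IsLocalRing.residue O).comp cO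
  have hne : O₁ ≠ ⊤ := by
    rintro rfl
    rcases (ValuationSubring.mem_nonunits_iff_or _).1 h₁ with h | h
    · exact hw0 h
    · exact h (ValuationSubring.mem_top _)
  have hres0 : ∀ z : O, IsLocalRing.residue O z = 0 ↔ algebraMap O L z ∈ O₁.nonunits := by
    intro z
    rw [IsLocalRing.residue_eq_zero_iff, ← ValuationSubring.coe_mem_nonunits_iff, hmemO']
    rfl
  have hψ : Function.Bijective ψ := by
    refine ⟨ψ.injective, fun y => ?_⟩
    obtain ⟨z, rfl⟩ := IsLocalRing.residue_surjective y
    obtain ⟨c, hc⟩ := exists_residue hL O₁ hO₁ hne (z := algebraMap O L z) z.2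
    refine ⟨c, ?_⟩
    have h2 : IsLocalRing.residue O (z - cO c) = 0 := by
      rw [hres0, map_sub]
      exact hc
    rw [map_sub, sub_eq_zero] at h2
    exact h2.symm
  let e : k ≃+* IsLocalRing.ResidueField O := RingEquiv.ofBijective ψ hψ
  haveI : CharZero (IsLocalRing.ResidueField O) := charZero_of_injective_ringHom ψ.injective
  -- the reduction of the minimal polynomial
  set P := minpoly O b with hP
  set P' := P.map (IsLocalRing.residue O) with hP'
  have hPm : P.Monic := minpoly.monic hbint
  have hPm' : P'.Monic := hPm.map _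
  have hroot : ∀ r ∈ P'.roots, r = 0 ∨ r = 1 := by
    intro r hr
    obtain ⟨c, rfl⟩ := hψ.2 r
    by_contra hcon
    push Not at hcon
    have hc0 : c ≠ 0 := by
      rintro rfl
      exact hcon.1 (map_zero ψ)
    have hc1 : c ≠ 1 := by
      rintro rfl
      exact hcon.2 (map_one ψ)
    have hne' : b - algebraMap O L (cO c) ≠ 0 := by
      intro h0
      rw [hcO, sub_eq_zero] at h0
      rw [h0, ← map_one (algebraMap k L), ← map_sub] at hb₁
      exact hc1 (sub_eq_zero.1 (const_eq_zero O₁ hO₁ hb₁))
    have hunit := vtrace_unit hbint hne'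
      (vtrace_int O _ (fun V hV => by rw [hcO]; exact hrho c hc0 hc1 V hV))
    have h2 : P'.eval (ψ c) = 0 := by
      rw [Polynomial.mem_roots hPm'.ne_zero] at hr
      exact hr
    rw [hP', Polynomial.eval_map] at h2
    have h3 : Polynomial.eval₂ (IsLocalRing.residue O) (ψ c) P =
        IsLocalRing.residue O (P.eval (cO c)) :=
      Polynomial.eval₂_at_apply (IsLocalRing.residue O) (cO c)
    rw [h3] at h2
    exact (hunit.map (IsLocalRing.residue O)).ne_zero h2
  -- `1` is a root
  have hbO₁ : b ∈ O₁ := hb O₁ hO₁ hwO₁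
  let j : O →+* O₁ := (algebraMap O L).codRestrict O₁.toSubring (fun z => z.2)
  let b₁ : O₁ := ⟨b, hbO₁⟩
  have hPb : Polynomial.eval₂ j b₁ P = 0 := by
    apply Subtype.ext
    have h2 := Polynomial.hom_eval₂ P j O₁.subtype b₁
    have h3 : Polynomial.eval₂ (O₁.subtype.comp j) (O₁.subtype b₁) P = 0 := minpoly.aeval O b
    rw [h3] at h2
    exact h2
  have hb₁res : IsLocalRing.residue O₁ b₁ = 1 := by
    rw [← map_one (IsLocalRing.residue O₁), ← sub_eq_zero, ← map_sub,
      IsLocalRing.residue_eq_zero_iff, ← ValuationSubring.coe_mem_nonunits_iff]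
    exact hb₁
  have hP1 : IsLocalRing.residue O₁ (j (P.eval 1)) = 0 := by
    have h2 := Polynomial.eval₂_at_apply (p := P) ((IsLocalRing.residue O₁).comp j) 1
    rw [map_one, ← hb₁res, ← Polynomial.hom_eval₂, hPb, map_zero] at h2
    exact h2.symm
  have hP1' : IsLocalRing.residue O (P.eval 1) = 0 := by
    rw [hres0]
    rw [IsLocalRing.residue_eq_zero_iff, ← ValuationSubring.coe_mem_nonunits_iff] at hP1
    exact hP1
  have hone : (1 : IsLocalRing.ResidueField O) ∈ P'.roots := by
    rw [Polynomial.mem_roots hPm'.ne_zero, Polynomial.IsRoot, hP', Polynomial.eval_map,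
      ← map_one (IsLocalRing.residue O), Polynomial.eval₂_at_apply]
    exact hP1'
  -- the trace of the reduction
  have hspl : P'.Splits := by
    have h2 : (P'.map (e.symm : IsLocalRing.ResidueField O →+* k)).Splits :=
      IsAlgClosed.splits _
    have h3 := h2.map (e : k →+* IsLocalRing.ResidueField O)
    rw [Polynomial.map_map] at h3
    have h4 : ((e : k →+* IsLocalRing.ResidueField O).comp
        (e.symm : IsLocalRing.ResidueField O →+* k)) = RingHom.id _ := by
      ext x
      exact e.apply_symm_apply x
    rwa [h4, Polynomial.map_id] at h3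
  have hnext : P'.nextCoeff ≠ 0 := by
    rw [hspl.nextCoeff_eq_neg_sum_roots_of_monic hPm', vtrace_sum _ hroot, neg_ne_zero,
      Nat.cast_ne_zero]
    exact (Multiset.count_pos.2 hone).ne'
  have hnext' : IsLocalRing.residue O P.nextCoeff ≠ 0 := by
    rw [← Polynomial.nextCoeff_map_of_leadingCoeff_ne_zero]
    · exact hnext
    · rw [hPm.leadingCoeff, map_one]
      exact one_ne_zero
  have hmin : minpoly Q b = P.map (algebraMap O Q) :=
    minpoly.isIntegrallyClosed_eq_field_fractions' Q hbint
  set N : ℕ := Module.finrank (IntermediateField.adjoin Q ({b} : Set L)) L with hN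
  have hN0 : N ≠ 0 := (Module.finrank_pos
    (R := IntermediateField.adjoin Q ({b} : Set L)) (M := L)).ne'
  have htr : Algebra.trace Q L b = algebraMap O Q ((N : O) * -P.nextCoeff) := by
    rw [trace_eq_finrank_mul_minpoly_nextCoeff, hmin,
      Polynomial.nextCoeff_map (IsFractionRing.injective O Q), map_mul, map_neg, map_natCast]
  have htr' : (Algebra.trace Q L b : L) = algebraMap O L ((N : O) * -P.nextCoeff) := by
    rw [htr]
    rfl
  rw [htr']
  refine ⟨((N : O) * -P.nextCoeff).2, ?_⟩
  rw [← hres0, map_mul, map_neg, map_natCast]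
  exact mul_ne_zero (Nat.cast_ne_zero.2 hN0) (neg_ne_zero.2 hnext')

end MP60829e.PS
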