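import Mathlib
import Pool.Agent.Lib.MP_60829e_nt.PS.VTrace
import Pool.Agent.Lib.MP_60829e_nt.PS.VQ

/-! Local consequences of the trace conditions (tasks V11, V12). -/

namespace MP60829e.PS

open MP60829e.S

section VCodiffAux

variable {L : Type*} [Field L]

private theorem VCodiff_mul_nonunits {O : ValuationSubring L} {a b : L} (ha : a ∈ O.nonunits)
    (hb : b ∈ O) : a * b ∈ O.nonunits := by
  rw [ValuationSubring.mem_nonunits_iff] at ha ⊢
  rw [← ValuationSubring.valuation_le_one_iff] at hb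
  rw [map_mul]
  exact mul_lt_one_of_lt_of_le ha hb

private theorem VCodiff_nonunits_mem {O : ValuationSubring L} {a : L} (ha : a ∈ O.nonunits) :
    a ∈ O := by
  rw [← ValuationSubring.valuation_le_one_iff]
  exact le_of_lt ((ValuationSubring.mem_nonunits_iff O).1 ha)

private theorem VCodiff_add_nonunits {O : ValuationSubring L} {a b : L} (ha : a ∈ O.nonunits)
    (hb : b ∈ O.nonunits) : a + b ∈ O.nonunits := by
  rw [ValuationSubring.mem_nonunits_iff] at ha hb ⊢
  exact lt_of_le_of_lt (Valuation.map_add _ _ _) (max_lt ha hb)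

private theorem VCodiff_not_one (O : ValuationSubring L) : (1 : L) ∉ O.nonunits := by
  rw [ValuationSubring.mem_nonunits_iff, map_one]
  exact lt_irrefl _

private theorem VCodiff_inv_not_mem {O : ValuationSubring L} {a : L} (h0 : a ≠ 0)
    (ha : a ∈ O.nonunits) : a⁻¹ ∉ O := by
  intro h
  have := VCodiff_mul_nonunits ha h
  rw [mul_inv_cancel₀ h0] at this
  exact VCodiff_not_one O this

private theorem VCodiff_inv_nonunits {O : ValuationSubring L} {a : L} (ha : a ∉ O) :
    a⁻¹ ∈ O.nonunits := by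
  by_contra h
  have := inv_mem_of_not_mem_nonunits h
  rw [inv_inv] at this
  exact ha this

private theorem VCodiff_pow_sub_one {O : ValuationSubring L} {b : L} (hb : b ∈ O)
    (hb1 : b - 1 ∈ O.nonunits) (n : ℕ) : b ^ n - 1 ∈ O.nonunits := by
  have h : b ^ n - 1 = (b - 1) * (∑ i ∈ Finset.range n, b ^ i) := by
    rw [mul_comm, geom_sum_mul]
  rw [h]
  exact VCodiff_mul_nonunits hb1 (sum_mem fun i _ => pow_mem hb i)

private theorem VCodiff_pow_nonunits {O : ValuationSubring L} {b : L}
    (hb : b ∈ O.nonunits) {n : ℕ} (hn : n ≠ 0) : b ^ n ∈ O.nonunits := by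
  obtain ⟨m, rfl⟩ := Nat.exists_eq_succ_of_ne_zero hn
  rw [pow_succ, mul_comm]
  exact VCodiff_mul_nonunits hb (pow_mem (VCodiff_nonunits_mem hb) m)

private theorem VCodiff_trace_congr {k : Type*} [Field k] [Algebra k L]
    {E F : IntermediateField k L} (h : E = F) (b : L) :
    (Algebra.trace E L b : L) = (Algebra.trace F L b : L) := by
  subst h; rfl

private theorem VCodiff_trace_smul {k : Type*} [Field k] [Algebra k L]
    {E : IntermediateField k L} {s : L} (hs : s ∈ E) (b : L) :
    (Algebra.trace E L (s * b) : L) = s * (Algebra.trace E L b : L) := by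
  have h : s * b = (⟨s, hs⟩ : E) • b := rfl
  rw [h, map_smul]
  rfl

end VCodiffAux

variable {k L : Type*} [Field k] [IsAlgClosed k] [CharZero k] [Field L] [Algebra k L]

/-- V11. Tame different at a finite place. -/
theorem codiff_finite (hL : IsCurveField k L) {x : L} (hx : x ∉ Set.range (algebraMap k L))
    {h : L} (h0 : h ≠ 0)
    (htr : ∀ a : L, Fin' k x a →
      (Algebra.trace (IntermediateField.adjoin k ({x} : Set L)) L (h * a) : L) ∈
        Algebra.adjoin k ({x} : Set L))
    (O : ValuationSubring L) (hO : Over k O) (c : k)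
    (hc : x - algebraMap k L c ∈ O.nonunits) :
    (x - algebraMap k L c) * h ∈ O.nonunits := by
  classical
  by_contra hcon
  set ϖ : L := x - algebraMap k L c with hϖ
  have hϖ0 : ϖ ≠ 0 := by
    intro h
    exact hx ⟨c, (sub_eq_zero.1 h).symm⟩
  have hxO : x ∈ O := by
    have : x = ϖ + algebraMap k L c := by rw [hϖ]; ring
    rw [this]
    exact add_mem (VCodiff_nonunits_mem hc) (hO c)
  set g : L := (ϖ * h)⁻¹ with hg
  have hg0 : g ≠ 0 := inv_ne_zero (mul_ne_zero hϖ0 h0)
  have hgO : g ∈ O := inv_mem_of_not_mem_nonunits hcon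
  obtain ⟨b, hb1, hb2, hb3⟩ := exists_approx hL hϖ0 O hO hc
  have hbO : b ∈ O := hb1 O hO (VCodiff_nonunits_mem hc)
  have hb0 : b ≠ 0 := by
    rintro rfl
    rw [zero_sub] at hb2
    have := VCodiff_mul_nonunits hb2 (neg_mem (one_mem O))
    rw [neg_mul_neg, one_mul] at this
    exact VCodiff_not_one O this
  have hS := finite_nonunits (k := k) hL (mul_ne_zero hϖ0 h0)
  -- good exponents
  have key : ∀ V : ValuationSubring L, ∃ r : k, ∃ n : ℕ, (Over k V → ϖ * h ∈ V.nonunits →
      x ∈ V → r ≠ c ∧ ∀ m, n ≤ m → (ϖ ∈ V.nonunits → b ^ m * g ∈ V) ∧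
        (ϖ ∉ V.nonunits → (x - algebraMap k L r) ^ m * g ∈ V)) := by
    intro V
    by_cases hV : Over k V ∧ ϖ * h ∈ V.nonunits ∧ x ∈ V
    swap
    · exact ⟨0, 0, fun h1 h2 h3 => (hV ⟨h1, h2, h3⟩).elim⟩
    obtain ⟨hV1, hV2, hV3⟩ := hV
    have hgV : g ∉ V := VCodiff_inv_not_mem (mul_ne_zero hϖ0 h0) hV2
    have hVtop : V ≠ ⊤ := by
      rintro rfl
      exact hgV (ValuationSubring.mem_top _)
    by_cases hϖV : ϖ ∈ V.nonunits
    · have hVO : V ≠ O := by
        rintro rfl
        exact hgV hgO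
      obtain ⟨n, hn⟩ := exists_pow_mul_mem_nonunits hL V hV1 hb0 (hb3 V hV1 hϖV hVO) g
      refine ⟨c + 1, n, fun _ _ _ => ⟨?_, fun m hm => ⟨fun _ => VCodiff_nonunits_mem (hn m hm),
        fun h => (h hϖV).elim⟩⟩⟩
      intro h
      exact one_ne_zero (add_eq_left.1 h)
    · obtain ⟨r, hr⟩ := exists_residue hL V hV1 hVtop hV3
      have hr0 : x - algebraMap k L r ≠ 0 := by
        intro h
        exact hx ⟨r, (sub_eq_zero.1 h).symm⟩
      obtain ⟨n, hn⟩ := exists_pow_mul_mem_nonunits hL V hV1 hr0 hr g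
      refine ⟨r, n, fun _ _ _ => ⟨?_, fun m hm => ⟨fun h => (hϖV h).elim,
        fun _ => VCodiff_nonunits_mem (hn m hm)⟩⟩⟩
      rintro rfl
      exact hϖV hr
  choose r n hrn using key
  set T := hS.toFinset with hT
  set T' := T.filter fun V => x ∈ V with hT'
  set N : ℕ := (∑ V ∈ T', n V) + 1 with hN
  have hNV : ∀ V ∈ T', n V ≤ N := fun V hV =>
    (Finset.single_le_sum (fun _ _ => Nat.zero_le _) hV).trans (Nat.le_succ _)
  set s : L := ∏ V ∈ T', (x - algebraMap k L (r V)) ^ N with hs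
  have hmemT : ∀ V : ValuationSubring L, V ∈ T' ↔ (Over k V ∧ ϖ * h ∈ V.nonunits) ∧ x ∈ V := by
    intro V
    rw [hT', Finset.mem_filter, hT, Set.Finite.mem_toFinset]
    rfl
  have hrc : ∀ V ∈ T', r V ≠ c := fun V hV =>
    (hrn V ((hmemT V).1 hV).1.1 ((hmemT V).1 hV).1.2 ((hmemT V).1 hV).2).1
  -- the element `a = s * b ^ N * g` is regular wherever `x` is
  have hfin : Fin' k x (s * b ^ N * g) := by
    intro V hV hxV
    have hxrV : ∀ c' : k, x - algebraMap k L c' ∈ V := fun c' => sub_mem hxV (hV c')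
    have hbV : b ∈ V := hb1 V hV (hxrV c)
    have hsV : s ∈ V := prod_mem fun W _ => pow_mem (hxrV _) _
    by_cases hVT : V ∈ T'
    · obtain ⟨⟨h1, h2⟩, h3⟩ := (hmemT V).1 hVT
      obtain ⟨-, hh⟩ := hrn V h1 h2 h3
      obtain ⟨hh1, hh2⟩ := hh N (hNV V hVT)
      by_cases hϖV : ϖ ∈ V.nonunits
      · rw [mul_assoc]
        exact mul_mem hsV (hh1 hϖV)
      · have hsplit : s = (x - algebraMap k L (r V)) ^ N *
            ∏ W ∈ T'.erase V, (x - algebraMap k L (r W)) ^ N := by
          rw [hs, Finset.mul_prod_erase T' (fun W => (x - algebraMap k L (r W)) ^ N) hVT]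
        have : s * b ^ N * g = ((∏ W ∈ T'.erase V, (x - algebraMap k L (r W)) ^ N) * b ^ N) *
            ((x - algebraMap k L (r V)) ^ N * g) := by
          rw [hsplit]; ring
        rw [this]
        exact mul_mem (mul_mem (prod_mem fun W _ => pow_mem (hxrV _) _) (pow_mem hbV _))
          (hh2 hϖV)
    · have hgV : g ∈ V := by
        apply inv_mem_of_not_mem_nonunits
        intro hh
        exact hVT ((hmemT V).2 ⟨⟨hV, hh⟩, hxV⟩)
      exact mul_mem (mul_mem hsV (pow_mem hbV _)) hgV
  have htr1 := htr _ hfin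
  -- `h * a = (s / ϖ) * b ^ N`
  have hxE : x ∈ IntermediateField.adjoin k ({x} : Set L) :=
    IntermediateField.mem_adjoin_simple_self k x
  have hxrE : ∀ c' : k, x - algebraMap k L c' ∈ IntermediateField.adjoin k ({x} : Set L) :=
    fun c' => sub_mem hxE (IntermediateField.algebraMap_mem _ c')
  have hsE : s ∈ IntermediateField.adjoin k ({x} : Set L) :=
    prod_mem fun W _ => pow_mem (hxrE _) _
  have heq : h * (s * b ^ N * g) = (s / ϖ) * b ^ N := by
    rw [hg]
    field_simp
  rw [heq, VCodiff_trace_smul (div_mem hsE (hxrE c))] at htr1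
  set t : L := (Algebra.trace (IntermediateField.adjoin k ({x} : Set L)) L (b ^ N) : L) with ht
  have hle : ∀ y ∈ Algebra.adjoin k ({x} : Set L), y ∈ O := by
    intro y hy
    induction hy using Algebra.adjoin_induction with
    | mem z hz => rw [Set.mem_singleton_iff.1 hz]; exact hxO
    | algebraMap c' => exact hO c'
    | add a b _ _ ha hb => exact add_mem ha hb
    | mul a b _ _ ha hb => exact mul_mem ha hb
  have h1 := hle _ htr1
  -- `s` is a unit of `O`
  have hunit : ∀ V ∈ T', (x - algebraMap k L (r V))⁻¹ ∈ O := by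
    intro V hV
    apply inv_mem_of_not_mem_nonunits
    intro hcon2
    have h2 := VCodiff_add_nonunits hc (VCodiff_mul_nonunits hcon2 (neg_mem (one_mem O)))
    have h3 : ϖ + (x - algebraMap k L (r V)) * -1 = algebraMap k L (r V - c) := by
      rw [hϖ, map_sub]; ring
    rw [h3] at h2
    exact hrc V hV (sub_eq_zero.1 (const_eq_zero O hO h2))
  have hxr0 : ∀ c' : k, x - algebraMap k L c' ≠ 0 := by
    intro c' h
    exact hx ⟨c', (sub_eq_zero.1 h).symm⟩
  have hsinv : s⁻¹ ∈ O := by
    rw [hs, ← Finset.prod_inv_distrib]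
    refine prod_mem fun W hW => ?_
    rw [← inv_pow]
    exact pow_mem (hunit W hW) _
  have hs0 : s ≠ 0 := Finset.prod_ne_zero_iff.2 fun W _ => pow_ne_zero _ (hxr0 _)
  have hteq : t = ϖ * (s⁻¹ * (s / ϖ * t)) := by
    field_simp
  have htO : t ∈ O.nonunits := by
    rw [hteq]
    exact VCodiff_mul_nonunits hc (mul_mem hsinv h1)
  -- contradiction with `trace_approx`
  have hadj : IntermediateField.adjoin k ({ϖ} : Set L) = IntermediateField.adjoin k ({x} : Set L) := by
    apply le_antisymm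
    · rw [IntermediateField.adjoin_le_iff, Set.singleton_subset_iff]
      exact hxrE c
    · rw [IntermediateField.adjoin_le_iff, Set.singleton_subset_iff]
      have h2 : x = ϖ + algebraMap k L c := by rw [hϖ]; ring
      have h3 : ϖ + algebraMap k L c ∈ IntermediateField.adjoin k ({ϖ} : Set L) :=
        add_mem (IntermediateField.mem_adjoin_simple_self k ϖ)
          (IntermediateField.algebraMap_mem _ c)
      rw [← h2] at h3
      exact h3
  have hϖr : ϖ ∉ Set.range (algebraMap k L) := by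
    rintro ⟨c', hc'⟩
    exact hxr0 (c + c') (by rw [map_add, hc', hϖ]; ring)
  have hfinal := trace_approx hL hϖr O hO hc (b := b ^ N)
    (fun V hV hϖV => pow_mem (hb1 V hV hϖV) _)
    (VCodiff_pow_sub_one hbO hb2 N)
    (fun V hV hϖV hne => VCodiff_pow_nonunits (hb3 V hV hϖV hne) (Nat.succ_ne_zero _))
  rw [VCodiff_trace_congr hadj] at hfinal
  exact hfinal.2 htO

/-- V12. Tame different at infinity. -/
theorem codiff_infinite (hL : IsCurveField k L) {x : L} (hx : x ∉ Set.range (algebraMap k L))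
    {h : L} (h0 : h ≠ 0)
    (htr : ∀ z : L, Van k x z → ∀ O : ValuationSubring L, Over k O → x ∉ O →
      x ^ 2 * (Algebra.trace (IntermediateField.adjoin k ({x} : Set L)) L (h * z) : L) ∈ O)
    (O : ValuationSubring L) (hO : Over k O) (hxO : x ∉ O) : x * h ∈ O := by
  classical
  by_contra hcon
  have hx0 : x ≠ 0 := by
    rintro rfl
    exact hxO (zero_mem O)
  set g : L := (x * h)⁻¹ with hg
  have hgO : g ∈ O.nonunits := VCodiff_inv_nonunits hcon
  have hw : x⁻¹ ∈ O.nonunits := VCodiff_inv_nonunits hxO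
  obtain ⟨b, hb1, hb2, hb3⟩ := exists_approx hL (inv_ne_zero hx0) O hO hw
  have hbO : b ∈ O := hb1 O hO (VCodiff_nonunits_mem hw)
  have hb0 : b ≠ 0 := by
    rintro rfl
    rw [zero_sub] at hb2
    have := VCodiff_mul_nonunits hb2 (neg_mem (one_mem O))
    rw [neg_mul_neg, one_mul] at this
    exact VCodiff_not_one O this
  have hS := hL.finite_places x
  have key : ∀ V : ValuationSubring L, ∃ n : ℕ, (Over k V → x ∉ V → V ≠ O → ∀ m, n ≤ m →
      b ^ m * g ∈ V.nonunits) := by
    intro V
    by_cases hV : Over k V ∧ x ∉ V ∧ V ≠ O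
    swap
    · exact ⟨0, fun h1 h2 h3 => (hV ⟨h1, h2, h3⟩).elim⟩
    obtain ⟨hV1, hV2, hV3⟩ := hV
    obtain ⟨n, hn⟩ := exists_pow_mul_mem_nonunits hL V hV1 hb0
      (hb3 V hV1 (VCodiff_inv_nonunits hV2) hV3) g
    exact ⟨n, fun _ _ _ => hn⟩
  choose n hn using key
  set T := hS.toFinset with hT
  set N : ℕ := (∑ V ∈ T, n V) + 1 with hN
  have hmemT : ∀ V : ValuationSubring L, V ∈ T ↔ (Over k V ∧ x ∉ V) := by
    intro V
    rw [hT, Set.Finite.mem_toFinset]
    rfl
  have hvan : Van k x (b ^ N * g) := by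
    intro V hV hxV
    by_cases hVO : V = O
    · subst hVO
      rw [mul_comm]
      exact VCodiff_mul_nonunits hgO (pow_mem hbO _)
    · exact hn V hV hxV hVO N
        ((Finset.single_le_sum (fun _ _ => Nat.zero_le _) ((hmemT V).2 ⟨hV, hxV⟩)).trans
          (Nat.le_succ _))
  have htr1 := htr _ hvan O hO hxO
  have hxE : x ∈ IntermediateField.adjoin k ({x} : Set L) :=
    IntermediateField.mem_adjoin_simple_self k x
  have heq : h * (b ^ N * g) = x⁻¹ * b ^ N := by
    rw [hg]
    field_simp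
  rw [heq, VCodiff_trace_smul (inv_mem hxE)] at htr1
  set t : L := (Algebra.trace (IntermediateField.adjoin k ({x} : Set L)) L (b ^ N) : L) with ht
  have hteq : t = x⁻¹ * (x ^ 2 * (x⁻¹ * t)) := by
    field_simp
  have htO : t ∈ O.nonunits := by
    rw [hteq]
    exact VCodiff_mul_nonunits hw htr1
  have hadj : IntermediateField.adjoin k ({x⁻¹} : Set L) =
      IntermediateField.adjoin k ({x} : Set L) := by
    apply le_antisymm
    · rw [IntermediateField.adjoin_le_iff, Set.singleton_subset_iff]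
      exact inv_mem hxE
    · rw [IntermediateField.adjoin_le_iff, Set.singleton_subset_iff]
      have h3 := inv_mem (IntermediateField.mem_adjoin_simple_self k x⁻¹)
      rw [inv_inv] at h3
      exact h3
  have hwr : x⁻¹ ∉ Set.range (algebraMap k L) := by
    rintro ⟨c', hc'⟩
    exact hx ⟨c'⁻¹, by rw [map_inv₀, hc', inv_inv]⟩
  have hfinal := trace_approx hL hwr O hO hw (b := b ^ N)
    (fun V hV hϖV => pow_mem (hb1 V hV hϖV) _)
    (VCodiff_pow_sub_one hbO hb2 N)
    (fun V hV hϖV hne => VCodiff_pow_nonunits (hb3 V hV hϖV hne) (Nat.succ_ne_zero _))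
  rw [VCodiff_trace_congr hadj] at hfinal
  exact hfinal.2 htO

end MP60829e.PS
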