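import Mathlib
import Pool.Agent.Lib.MP_60829e_nt.PS.VQ

/-! The residue functional at infinity on `k(x)` (task V7). -/

namespace MP60829e.PS

open MP60829e.S

variable {k L : Type*} [Field k] [IsAlgClosed k] [CharZero k] [Field L] [Algebra k L]

/-- V7. The residue functional at infinity (coefficient of `x⁻¹`). -/
theorem exists_res {x : L} {O₀ : ValuationSubring L} (hO₀ : Over k O₀) (h₀ : x ∉ O₀) :
    ∃ res : IntermediateField.adjoin k ({x} : Set L) →ₗ[k] k,
      (∀ q : IntermediateField.adjoin k ({x} : Set L),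
        (q : L) ∈ Algebra.adjoin k ({x} : Set L) → res q = 0) ∧
      (∀ q : IntermediateField.adjoin k ({x} : Set L), (q : L) = x⁻¹ → res q = 1) ∧
      ∀ q : IntermediateField.adjoin k ({x} : Set L), x ^ 2 * (q : L) ∈ O₀ → res q = 0 := by
  have hx0 := VQ_ne_zero h₀
  set Q := IntermediateField.adjoin k ({x} : Set L) with hQ
  have hxQ : x ∈ Q := IntermediateField.mem_adjoin_simple_self k x
  let e : Q := ⟨x⁻¹, inv_mem hxQ⟩
  let P₁ : Submodule k Q := (Subalgebra.toSubmodule (Algebra.adjoin k ({x} : Set L))).comap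
    Q.val.toLinearMap
  let P₂ : Submodule k Q :=
    { carrier := {q | x ^ 2 * (q : L) ∈ O₀}
      add_mem' := by
        intro a b ha hb
        show x ^ 2 * ((a + b : Q) : L) ∈ O₀
        have h1 : x ^ 2 * ((a + b : Q) : L) = x ^ 2 * (a : L) + x ^ 2 * (b : L) := by
          push_cast
          ring
        rw [h1]
        exact add_mem ha hb
      zero_mem' := by
        show x ^ 2 * ((0 : Q) : L) ∈ O₀
        rw [ZeroMemClass.coe_zero, mul_zero]
        exact O₀.zero_mem
      smul_mem' := by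
        intro c a ha
        show x ^ 2 * ((c • a : Q) : L) ∈ O₀
        have h1 : x ^ 2 * ((c • a : Q) : L) = algebraMap k L c * (x ^ 2 * (a : L)) := by
          rw [IntermediateField.coe_smul, Algebra.smul_def]
          ring
        rw [h1]
        exact mul_mem (hO₀ c) ha }
  have he : e ∉ P₁ ⊔ P₂ := by
    intro h
    obtain ⟨y, hy, z, hz, hyz⟩ := Submodule.mem_sup.1 h
    have hy' : (y : L) ∈ Algebra.adjoin k ({x} : Set L) := hy
    have hz' : x ^ 2 * (z : L) ∈ O₀ := hz
    have hyz' : (y : L) + z = x⁻¹ := congrArg (fun q : Q => (q : L)) hyz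
    rw [Algebra.adjoin_singleton_eq_range_aeval, AlgHom.mem_range] at hy'
    obtain ⟨P, hP⟩ := hy'
    have hzL : (z : L) = x⁻¹ - Polynomial.aeval x P := by
      rw [hP, ← hyz']
      ring
    rw [hzL] at hz'
    by_cases hP0 : P = 0
    · rw [hP0, map_zero, sub_zero] at hz'
      apply h₀
      have : x = x ^ 2 * x⁻¹ := by field_simp
      rw [this]
      exact hz'
    · obtain ⟨s, hs, hPs⟩ := VQ_poly P hO₀ h₀
      have h1 : x ^ 2 * (x⁻¹ - Polynomial.aeval x P) =
          -(x ^ ((P.natDegree : ℤ) + 2) * (algebraMap k L P.leadingCoeff +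
            x⁻¹ * (s - x ^ (-(P.natDegree : ℤ))))) := by
        rw [hPs, zpow_add₀ hx0, zpow_neg]
        have h2 : x ^ (2 : ℤ) = x ^ 2 := by exact_mod_cast zpow_natCast x 2
        rw [h2, zpow_natCast]
        field_simp
        ring
      rw [h1] at hz'
      have h3 : x ^ ((P.natDegree : ℤ) + 2) * (algebraMap k L P.leadingCoeff +
            x⁻¹ * (s - x ^ (-(P.natDegree : ℤ)))) ∈ O₀ := by
        have := neg_mem hz'
        rwa [neg_neg] at this
      rw [VQ_mem_iff hO₀ h₀ (Polynomial.leadingCoeff_ne_zero.2 hP0)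
        (sub_mem hs (VQ_zpow_mem h₀ (by omega)))] at h3
      omega
  obtain ⟨f, hf, hle⟩ := Submodule.exists_le_ker_of_notMem he
  refine ⟨(f e)⁻¹ • f, ?_, ?_, ?_⟩
  · intro q hq
    have h1 : q ∈ LinearMap.ker f := hle (Submodule.mem_sup_left (show q ∈ P₁ from hq))
    rw [LinearMap.smul_apply, LinearMap.mem_ker.1 h1, smul_zero]
  · intro q hq
    have h1 : q = e := Subtype.ext hq
    rw [h1, LinearMap.smul_apply, smul_eq_mul, inv_mul_cancel₀ hf]
  · intro q hq
    have h1 : q ∈ LinearMap.ker f := hle (Submodule.mem_sup_right (show q ∈ P₂ from hq))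
    rw [LinearMap.smul_apply, LinearMap.mem_ker.1 h1, smul_zero]

/-- V8'. The functional of V7 is nonzero on some multiple: if `x² q ∉ O₀` then
`res (x ^ (-m) q) ≠ 0` for some `m : ℕ`. -/
theorem exists_res_ne_zero {x : L} {O₀ : ValuationSubring L} (hO₀ : Over k O₀) (h₀ : x ∉ O₀)
    (res : IntermediateField.adjoin k ({x} : Set L) →ₗ[k] k)
    (h1 : ∀ q : IntermediateField.adjoin k ({x} : Set L), (q : L) = x⁻¹ → res q = 1)
    (h2 : ∀ q : IntermediateField.adjoin k ({x} : Set L), x ^ 2 * (q : L) ∈ O₀ → res q = 0)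
    {q : L} (hq : q ∈ IntermediateField.adjoin k ({x} : Set L)) (hq2 : x ^ 2 * q ∉ O₀) :
    ∃ (m : ℕ) (q' : IntermediateField.adjoin k ({x} : Set L)),
      (q' : L) = (x ^ m)⁻¹ * q ∧ res q' ≠ 0 := by
  have hx0 := VQ_ne_zero h₀
  have hxQ : x ∈ IntermediateField.adjoin k ({x} : Set L) :=
    IntermediateField.mem_adjoin_simple_self k x
  have hq0 : q ≠ 0 := by
    rintro rfl
    apply hq2
    rw [mul_zero]
    exact O₀.zero_mem
  obtain ⟨n, c, hc, hn⟩ := VQ_lead hq hq0
  obtain ⟨t, ht, hqt⟩ := hn O₀ hO₀ h₀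
  have hn1 : ¬ (n + 2 ≤ 0) := by
    intro hle
    apply hq2
    have h3 : x ^ 2 * q = x ^ (n + 2) * (algebraMap k L c + x⁻¹ * t) := by
      rw [hqt, zpow_add₀ hx0]
      have h4 : x ^ (2 : ℤ) = x ^ 2 := by exact_mod_cast zpow_natCast x 2
      rw [h4]
      ring
    rw [h3]
    exact (VQ_mem_iff hO₀ h₀ hc ht).2 hle
  obtain ⟨m, hm⟩ := Int.eq_ofNat_of_zero_le (show 0 ≤ n + 1 by omega)
  let e : IntermediateField.adjoin k ({x} : Set L) := ⟨x⁻¹, inv_mem hxQ⟩
  let q' : IntermediateField.adjoin k ({x} : Set L) := ⟨(x ^ m)⁻¹ * q, mul_mem (inv_mem (pow_mem hxQ m)) hq⟩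
  have hq'L : (q' : L) = algebraMap k L c * x⁻¹ + x⁻¹ * x⁻¹ * t := by
    show (x ^ m)⁻¹ * q = _
    have h5 : x ^ n = x ^ m * x⁻¹ := by
      have h6 : n = (m : ℤ) + (-1) := by omega
      rw [h6, zpow_add₀ hx0, zpow_natCast, zpow_neg_one]
    rw [hqt, h5]
    field_simp
  refine ⟨m, q', rfl, ?_⟩
  have h6 : res (q' - c • e) = 0 := by
    apply h2
    have h7 : ((q' - c • e : IntermediateField.adjoin k ({x} : Set L)) : L) = x⁻¹ * x⁻¹ * t := by
      have h8 : ((q' - c • e : IntermediateField.adjoin k ({x} : Set L)) : L) = (q' : L) - algebraMap k L c * x⁻¹ := by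
        rw [← Algebra.smul_def]
        rfl
      rw [h8, hq'L]
      ring
    rw [h7]
    have h9 : x ^ 2 * (x⁻¹ * x⁻¹ * t) = t := by field_simp
    rw [h9]
    exact ht
  have h10 : res q' = c := by
    rw [map_sub, map_smul, h1 e rfl, smul_eq_mul, mul_one, sub_eq_zero] at h6
    exact h6
  rw [h10]
  exact hc

end MP60829e.PS
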