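import Mathlib
import Pool.Agent.Lib.MP_60829e_nt.PS.VQR

/-! Functionals on `k(x)` vanishing on `k[x]` and near infinity are given by residues
(task V10a). -/

namespace MP60829e.PS

open MP60829e.S

variable {k L : Type*} [Field k] [IsAlgClosed k] [CharZero k] [Field L] [Algebra k L]

/-- the products with high powers of `x⁻¹` vanish at all poles of `x` -/
theorem VFun_pow (hL : IsCurveField k L) (x w : L) :
    ∃ J : ℕ, ∀ O : ValuationSubring L, Over k O → x ∉ O → ∀ m, J ≤ m →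
      (x⁻¹) ^ m * w ∈ O.nonunits := by
  have hfin := hL.finite_places x
  have h1 : ∀ O : ValuationSubring L, ∃ n : ℕ, Over k O → x ∉ O → ∀ m, n ≤ m →
      (x⁻¹) ^ m * w ∈ O.nonunits := by
    intro O
    by_cases h : Over k O ∧ x ∉ O
    · obtain ⟨n, hn⟩ := exists_pow_mul_mem_nonunits hL O h.1 (inv_ne_zero (VQ_ne_zero h.2))
        (VQ_inv_nonunits h.2) w
      exact ⟨n, fun _ _ => hn⟩
    · exact ⟨0, fun h2 h3 => absurd ⟨h2, h3⟩ h⟩
  choose n hn using h1
  refine ⟨hfin.toFinset.sup n, fun O hO hx m hm => hn O hO hx m (le_trans ?_ hm)⟩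
  exact Finset.le_sup (f := n) (hfin.mem_toFinset.2 ⟨hO, hx⟩)

omit [IsAlgClosed k] [CharZero k] in
theorem VFun_res {Q : Type*} [Field Q] [Algebra k Q] (res : Q →ₗ[k] k) {ξ : Q} (hξ0 : ξ ≠ 0)
    (hres : ∀ j : ℤ, res (ξ ^ j) = if j = -1 then 1 else 0) (cf : ℕ → k) (J : ℕ) (j : ℤ) :
    res (ξ ^ j * ∑ i ∈ Finset.range J, cf i • ξ ^ i) =
      ∑ i ∈ Finset.range J, if (i : ℤ) = -j - 1 then cf i else 0 := by
  rw [Finset.mul_sum, map_sum]
  refine Finset.sum_congr rfl fun i _ => ?_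
  rw [mul_smul_comm, map_smul]
  have h2 : ξ ^ j * ξ ^ i = ξ ^ (j + i) := by
    rw [zpow_add₀ hξ0, zpow_natCast]
  rw [h2, hres]
  by_cases h3 : (i : ℤ) = -j - 1
  · rw [if_pos h3, if_pos (by omega), smul_eq_mul, mul_one]
  · rw [if_neg h3, if_neg (by omega), smul_zero]

/-- V10a. -/
theorem exists_residue_density (hL : IsCurveField k L) {x : L} {O₀ : ValuationSubring L}
    (hO₀ : Over k O₀) (h₀ : x ∉ O₀) (ψ : L →ₗ[k] k) (hψA : ∀ a : L, Fin' k x a → ψ a = 0)
    (hψV : ∀ z : L, Van k x z → ψ z = 0)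
    (res : IntermediateField.adjoin k ({x} : Set L) →ₗ[k] k)
    (hr0 : ∀ q : IntermediateField.adjoin k ({x} : Set L),
      (q : L) ∈ Algebra.adjoin k ({x} : Set L) → res q = 0)
    (hr1 : ∀ q : IntermediateField.adjoin k ({x} : Set L), (q : L) = x⁻¹ → res q = 1)
    (hr2 : ∀ q : IntermediateField.adjoin k ({x} : Set L), x ^ 2 * (q : L) ∈ O₀ → res q = 0)
    {w : L} (hw : Fin' k x w) :
    ∃ h : IntermediateField.adjoin k ({x} : Set L),
      ∀ q : IntermediateField.adjoin k ({x} : Set L), ψ ((q : L) * w) = res (q * h) := by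
  have hx0 := VQ_ne_zero h₀
  obtain ⟨J, hJ⟩ := VFun_pow hL x w
  let ξ : IntermediateField.adjoin k ({x} : Set L) :=
    ⟨x, IntermediateField.mem_adjoin_simple_self k x⟩
  have hξ0 : ξ ≠ 0 := fun h => hx0 (congrArg Subtype.val h)
  have hξz : ∀ j : ℤ, ((ξ ^ j : IntermediateField.adjoin k ({x} : Set L)) : L) = x ^ j := by
    intro j
    push_cast
    rfl
  obtain ⟨cf, hcf⟩ : ∃ cf : ℕ → k, ∀ i : ℕ, cf i = ψ (x ^ (-((i : ℤ) + 1)) * w) :=
    ⟨_, fun _ => rfl⟩
  obtain ⟨h, hh⟩ : ∃ h : IntermediateField.adjoin k ({x} : Set L),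
    h = ∑ i ∈ Finset.range J, cf i • ξ ^ i := ⟨_, rfl⟩
  have hhL : (h : L) = ∑ i ∈ Finset.range J, algebraMap k L (cf i) * x ^ i := by
    rw [hh]
    push_cast
    refine Finset.sum_congr rfl fun i _ => ?_
    rw [Algebra.smul_def]
  refine ⟨h, ?_⟩
  -- the difference
  let D : IntermediateField.adjoin k ({x} : Set L) →ₗ[k] k :=
    ψ.comp ((LinearMap.mulRight k w).comp
      (IntermediateField.adjoin k ({x} : Set L)).val.toLinearMap) -
      res.comp (LinearMap.mulRight k h)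
  have hD : ∀ q, D q = ψ ((q : L) * w) - res (q * h) := fun q => rfl
  suffices hmain : ∀ q, D q = 0 by
    intro q
    have := hmain q
    rw [hD, sub_eq_zero] at this
    exact this
  -- the residues of the powers
  have hres : ∀ j : ℤ, res (ξ ^ j) = if j = -1 then 1 else 0 := by
    intro j
    split_ifs with hj
    · apply hr1
      rw [hξz, hj, zpow_neg_one]
    · rcases le_or_gt 0 j with h0 | h0
      · apply hr0
        obtain ⟨m, rfl⟩ := Int.eq_ofNat_of_zero_le h0
        rw [hξz]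
        have : x ^ ((m : ℕ) : ℤ) = x ^ m := zpow_natCast x m
        rw [this]
        exact Subalgebra.pow_mem _ (Algebra.self_mem_adjoin_singleton k x) m
      · apply hr2
        rw [hξz]
        have h1 : x ^ 2 * x ^ j = x ^ (2 + j) := by
          rw [zpow_add₀ hx0]
          have h2 : x ^ (2 : ℤ) = x ^ 2 := by exact_mod_cast zpow_natCast x 2
          rw [h2]
        rw [h1]
        exact VQ_zpow_mem h₀ (by omega)
  have hpow : ∀ j : ℤ, D (ξ ^ j) = 0 := by
    intro j
    rw [hD, hξz, hh, VFun_res res hξ0 hres cf J j]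
    rcases le_or_gt 0 j with h0 | h0
    · have h2 : ψ (x ^ j * w) = 0 := by
        apply hψA
        intro O hO hx
        obtain ⟨m, rfl⟩ := Int.eq_ofNat_of_zero_le h0
        have : x ^ ((m : ℕ) : ℤ) = x ^ m := zpow_natCast x m
        rw [this]
        exact mul_mem (pow_mem hx m) (hw O hO hx)
      rw [h2, Finset.sum_eq_zero, sub_self]
      intro i _
      rw [if_neg (by omega)]
    · obtain ⟨m, hm⟩ := Int.eq_ofNat_of_zero_le (show 0 ≤ -j - 1 by omega)
      rw [hm]
      simp only [Nat.cast_inj]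
      rw [Finset.sum_ite_eq' (Finset.range J) m]
      split_ifs with hmJ
      · have h5 : -((m : ℤ) + 1) = j := by omega
        rw [hcf, h5, sub_self]
      · rw [sub_zero]
        apply hψV
        intro O hO hx
        have h3 : x ^ j = (x⁻¹) ^ (m + 1) := by
          have h4 : j = -((m + 1 : ℕ) : ℤ) := by
            push_cast
            omega
          rw [h4, zpow_neg, zpow_natCast, inv_pow]
        rw [h3]
        refine hJ O hO hx (m + 1) ?_
        rw [Finset.mem_range] at hmJ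
        omega
  have hspan : ∀ ℓ ∈ Submodule.span k (Set.range fun j : ℤ => x ^ j),
      ∃ hℓ : ℓ ∈ IntermediateField.adjoin k ({x} : Set L), D ⟨ℓ, hℓ⟩ = 0 := by
    intro ℓ hℓ
    induction hℓ using Submodule.span_induction with
    | mem y hy =>
      obtain ⟨j, rfl⟩ := hy
      refine ⟨zpow_mem (IntermediateField.mem_adjoin_simple_self k x) j, ?_⟩
      have := hpow j
      have h2 : ξ ^ j = ⟨x ^ j, zpow_mem (IntermediateField.mem_adjoin_simple_self k x) j⟩ :=
        Subtype.ext (hξz j)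
      rw [h2] at this
      exact this
    | zero => exact ⟨zero_mem _, map_zero D⟩
    | add a b _ _ ha hb =>
      obtain ⟨ha, ha'⟩ := ha
      obtain ⟨hb, hb'⟩ := hb
      refine ⟨add_mem ha hb, ?_⟩
      have : (⟨a + b, add_mem ha hb⟩ : IntermediateField.adjoin k ({x} : Set L)) =
        ⟨a, ha⟩ + ⟨b, hb⟩ := rfl
      rw [this, map_add, ha', hb', add_zero]
    | smul c a _ ha =>
      obtain ⟨ha, ha'⟩ := ha
      refine ⟨IntermediateField.smul_mem _ ha, ?_⟩
      have : (⟨c • a, IntermediateField.smul_mem _ ha⟩ : IntermediateField.adjoin k ({x} : Set L)) =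
        c • ⟨a, ha⟩ := rfl
      rw [this, map_smul, ha', smul_zero]
  intro q
  obtain ⟨ℓ, hℓ, hρ⟩ := exists_laurent hO₀ h₀ q.2 (J + 1)
  obtain ⟨hℓQ, hDℓ⟩ := hspan ℓ hℓ
  set ρ : IntermediateField.adjoin k ({x} : Set L) := q - ⟨ℓ, hℓQ⟩ with hρdef
  have hρL : (ρ : L) = q - ℓ := rfl
  have hq : q = ⟨ℓ, hℓQ⟩ + ρ := by
    rw [hρdef]
    ring
  rw [hq, map_add, hDℓ, zero_add, hD]
  have hρO : ∀ O : ValuationSubring L, Over k O → x ∉ O → x ^ (J + 1) * (ρ : L) ∈ O := by
    intro O hO hx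
    rw [hρL]
    refine (mem_iff_mem_of_pole hO₀ hO h₀ hx ?_).1 hρ
    exact mul_mem (pow_mem (IntermediateField.mem_adjoin_simple_self k x) _)
      (sub_mem q.2 hℓQ)
  have h1 : ψ ((ρ : L) * w) = 0 := by
    apply hψV
    intro O hO hx
    have h2 : (ρ : L) * w = ((x⁻¹) ^ (J + 1) * w) * (x ^ (J + 1) * (ρ : L)) := by
      rw [inv_pow]
      field_simp
    rw [h2]
    exact VQ_mul_nonunits (hJ O hO hx (J + 1) (Nat.le_succ J)) (hρO O hO hx)
  have h2 : res (ρ * h) = 0 := by
    apply hr2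
    have h3 : x ^ 2 * ((ρ * h : IntermediateField.adjoin k ({x} : Set L)) : L) =
        ∑ i ∈ Finset.range J, algebraMap k L (cf i) *
          (x ^ (-((J : ℤ) - 1 - i)) * (x ^ (J + 1) * (ρ : L))) := by
      have h4 : ((ρ * h : IntermediateField.adjoin k ({x} : Set L)) : L) = (ρ : L) * (h : L) := rfl
      rw [h4, hhL, Finset.mul_sum, Finset.mul_sum]
      refine Finset.sum_congr rfl fun i _ => ?_
      have h5 : x ^ (-((J : ℤ) - 1 - i)) = x ^ 1 * x ^ i * (x ^ J)⁻¹ := by
        have h6 : -((J : ℤ) - 1 - i) = ((1 + i : ℕ) : ℤ) - ((J : ℕ) : ℤ) := by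
          push_cast
          ring
        rw [h6, zpow_sub₀ hx0, zpow_natCast, zpow_natCast, pow_add, div_eq_mul_inv]
      rw [h5]
      field_simp
      ring
    rw [h3]
    refine sum_mem fun i hi => mul_mem (hO₀ _) (mul_mem ?_ (hρO O₀ hO₀ h₀))
    rw [Finset.mem_range] at hi
    exact VQ_zpow_mem h₀ (by omega)
  rw [h1, h2, sub_zero]

end MP60829e.PS
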