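import Mathlib
import Pool.Agent.Lib.MP_60829e_nt.PS.VFun
import Pool.Agent.Lib.MP_60829e_nt.S.Rigid

/-! Serre duality for `k[x] ⊆ L` in elementary form (task V10). -/

namespace MP60829e.PS

open MP60829e.S

variable {k L : Type*} [Field k] [IsAlgClosed k] [CharZero k] [Field L] [Algebra k L]

section VDualaux

variable {x : L} {O₀ : ValuationSubring L}

omit [IsAlgClosed k] [CharZero k] in
/-- the residue of `c x⁻¹ + x⁻² t` -/
theorem VDual_res (hO₀ : Over k O₀) (h₀ : x ∉ O₀)
    (res : IntermediateField.adjoin k ({x} : Set L) →ₗ[k] k)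
    (hr1 : ∀ q : IntermediateField.adjoin k ({x} : Set L), (q : L) = x⁻¹ → res q = 1)
    (hr2 : ∀ q : IntermediateField.adjoin k ({x} : Set L), x ^ 2 * (q : L) ∈ O₀ → res q = 0)
    {c : k} {t : L} (ht : t ∈ O₀) (q : IntermediateField.adjoin k ({x} : Set L))
    (hq : (q : L) = x⁻¹ * (algebraMap k L c + x⁻¹ * t)) : res q = c := by
  have hx0 := VQ_ne_zero h₀
  let e : IntermediateField.adjoin k ({x} : Set L) :=
    ⟨x⁻¹, inv_mem (IntermediateField.mem_adjoin_simple_self k x)⟩
  have h6 : res (q - c • e) = 0 := by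
    apply hr2
    have h7 : ((q - c • e : IntermediateField.adjoin k ({x} : Set L)) : L) = x⁻¹ * x⁻¹ * t := by
      have h8 : ((q - c • e : IntermediateField.adjoin k ({x} : Set L)) : L) =
          (q : L) - algebraMap k L c * x⁻¹ := by
        rw [← Algebra.smul_def]
        rfl
      rw [h8, hq]
      ring
    rw [h7]
    have h9 : x ^ 2 * (x⁻¹ * x⁻¹ * t) = t := by field_simp
    rw [h9]
    exact ht
  rw [map_sub, map_smul, hr1 e rfl, smul_eq_mul, mul_one, sub_eq_zero] at h6
  exact h6

omit [IsAlgClosed k] [CharZero k] in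
/-- an element of `k(x)` whose products with all elements have residue zero is zero -/
theorem VDual_unique (h₀ : x ∉ O₀)
    (res : IntermediateField.adjoin k ({x} : Set L) →ₗ[k] k)
    (hr1 : ∀ q : IntermediateField.adjoin k ({x} : Set L), (q : L) = x⁻¹ → res q = 1)
    {t : IntermediateField.adjoin k ({x} : Set L)} (ht : ∀ q, res (q * t) = 0) : t = 0 := by
  by_contra hne
  let e : IntermediateField.adjoin k ({x} : Set L) :=
    ⟨x⁻¹, inv_mem (IntermediateField.mem_adjoin_simple_self k x)⟩
  have h1 := ht (e * t⁻¹)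
  rw [mul_assoc, inv_mul_cancel₀ hne, mul_one, hr1 e rfl] at h1
  exact one_ne_zero h1

omit [IsAlgClosed k] [CharZero k] in
/-- the polynomial part of a Laurent polynomial -/
theorem VDual_split (hO₀ : Over k O₀) (h₀ : x ∉ O₀) (ℓ : L)
    (hℓ : ℓ ∈ Submodule.span k (Set.range fun j : ℤ => x ^ j)) :
    ∃ p ∈ Algebra.adjoin k ({x} : Set L), x * (ℓ - p) ∈ O₀ := by
  have hx0 := VQ_ne_zero h₀
  induction hℓ using Submodule.span_induction with
  | mem y hy =>
    obtain ⟨j, rfl⟩ := hy
    rcases le_or_gt 0 j with h0 | h0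
    · obtain ⟨m, rfl⟩ := Int.eq_ofNat_of_zero_le h0
      refine ⟨x ^ m, Subalgebra.pow_mem _ (Algebra.self_mem_adjoin_singleton k x) m, ?_⟩
      have : x ^ ((m : ℕ) : ℤ) = x ^ m := zpow_natCast x m
      show x * (x ^ ((m : ℕ) : ℤ) - x ^ m) ∈ O₀
      rw [this, sub_self, mul_zero]
      exact O₀.zero_mem
    · refine ⟨0, zero_mem _, ?_⟩
      show x * (x ^ j - 0) ∈ O₀
      have h1 : x * (x ^ j - 0) = x ^ (j + 1) := by
        rw [zpow_add_one₀ hx0]
        ring
      rw [h1]
      exact VQ_zpow_mem h₀ (by omega)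
  | zero =>
    refine ⟨0, zero_mem _, ?_⟩
    rw [sub_zero, mul_zero]
    exact O₀.zero_mem
  | add a b _ _ ha hb =>
    obtain ⟨p, hp, ha⟩ := ha
    obtain ⟨p', hp', hb⟩ := hb
    refine ⟨p + p', add_mem hp hp', ?_⟩
    have h1 : x * (a + b - (p + p')) = x * (a - p) + x * (b - p') := by ring
    rw [h1]
    exact add_mem ha hb
  | smul c a _ ha =>
    obtain ⟨p, hp, ha⟩ := ha
    refine ⟨c • p, Subalgebra.smul_mem _ hp c, ?_⟩
    have h1 : x * (c • a - c • p) = algebraMap k L c * (x * (a - p)) := by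
      rw [Algebra.smul_def, Algebra.smul_def]
      ring
    rw [h1]
    exact mul_mem (hO₀ c) ha

/-- an element of `k(x)` whose products with polynomials have residue zero is a polynomial -/
theorem VDual_poly (hO₀ : Over k O₀) (h₀ : x ∉ O₀)
    (res : IntermediateField.adjoin k ({x} : Set L) →ₗ[k] k)
    (hr0 : ∀ q : IntermediateField.adjoin k ({x} : Set L),
      (q : L) ∈ Algebra.adjoin k ({x} : Set L) → res q = 0)
    (hr1 : ∀ q : IntermediateField.adjoin k ({x} : Set L), (q : L) = x⁻¹ → res q = 1)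
    (hr2 : ∀ q : IntermediateField.adjoin k ({x} : Set L), x ^ 2 * (q : L) ∈ O₀ → res q = 0)
    (q : IntermediateField.adjoin k ({x} : Set L))
    (hq : ∀ p : IntermediateField.adjoin k ({x} : Set L),
      (p : L) ∈ Algebra.adjoin k ({x} : Set L) → res (p * q) = 0) :
    (q : L) ∈ Algebra.adjoin k ({x} : Set L) := by
  have hx0 := VQ_ne_zero h₀
  obtain ⟨ℓ, hℓ, h1⟩ := exists_laurent hO₀ h₀ q.2 1
  obtain ⟨p, hp, h2⟩ := VDual_split hO₀ h₀ ℓ hℓ
  have hle : ∀ y ∈ Algebra.adjoin k ({x} : Set L), y ∈ IntermediateField.adjoin k ({x} : Set L) :=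
    fun y hy => IntermediateField.algebra_adjoin_le_adjoin k ({x} : Set L) hy
  let p' : IntermediateField.adjoin k ({x} : Set L) := ⟨p, hle p hp⟩
  by_cases h0 : (q : L) - p = 0
  · rw [sub_eq_zero] at h0
    rw [h0]
    exact hp
  exfalso
  have hτ : x * ((q : L) - p) ∈ O₀ := by
    have h3 : x * ((q : L) - p) = x ^ 1 * ((q : L) - ℓ) + x * (ℓ - p) := by ring
    rw [h3]
    exact add_mem h1 h2
  obtain ⟨n, c, hc, hn⟩ := VQ_lead (sub_mem q.2 (hle p hp)) h0
  obtain ⟨t, ht, hqt⟩ := hn O₀ hO₀ h₀
  have hn1 : n + 1 ≤ 0 := by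
    rw [← VQ_mem_iff hO₀ h₀ hc ht]
    have h4 : x ^ (n + 1) * (algebraMap k L c + x⁻¹ * t) = x * ((q : L) - p) := by
      rw [hqt, zpow_add_one₀ hx0]
      ring
    rw [h4]
    exact hτ
  obtain ⟨m, hm⟩ := Int.eq_ofNat_of_zero_le (show 0 ≤ -1 - n by omega)
  let y : IntermediateField.adjoin k ({x} : Set L) :=
    ⟨x ^ m, pow_mem (IntermediateField.mem_adjoin_simple_self k x) m⟩
  have hy : (y : L) ∈ Algebra.adjoin k ({x} : Set L) :=
    Subalgebra.pow_mem _ (Algebra.self_mem_adjoin_singleton k x) m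
  have e1 : res (y * (q - p')) = c := by
    apply VDual_res hO₀ h₀ res hr1 hr2 ht
    show x ^ m * ((q : L) - p) = _
    have h5 : x ^ n = x⁻¹ * (x ^ m)⁻¹ := by
      have h6 : n = (-1) - (m : ℤ) := by omega
      rw [h6, zpow_sub₀ hx0, zpow_natCast, zpow_neg_one, div_eq_mul_inv]
    rw [hqt, h5]
    field_simp
  have e2 : res (y * (q - p')) = 0 := by
    rw [mul_sub, map_sub, hq y hy]
    have h7 : ((y * p' : IntermediateField.adjoin k ({x} : Set L)) : L) ∈
        Algebra.adjoin k ({x} : Set L) := Subalgebra.mul_mem _ hy hp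
    rw [hr0 _ h7, sub_zero]
  exact hc (e1.symm.trans e2)

end VDualaux

/-- V10. If some `z₀` is not the sum of a function regular outside the poles of `x` and of a
function vanishing at the poles of `x`, then there is a nonzero `h` whose products with the
functions regular outside the poles of `x` have polynomial trace and whose products with the
functions vanishing at the poles of `x` have trace in `x⁻² 𝒪_∞`. -/
theorem exists_dual (hL : IsCurveField k L) {x : L} (hx : x ∉ Set.range (algebraMap k L))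
    {z₀ : L} (hz₀ : ¬ ∃ a : L, Fin' k x a ∧ Van k x (z₀ - a)) :
    ∃ h : L, h ≠ 0 ∧
      (∀ a : L, Fin' k x a →
        (Algebra.trace (IntermediateField.adjoin k ({x} : Set L)) L (h * a) : L) ∈
          Algebra.adjoin k ({x} : Set L)) ∧
      ∀ z : L, Van k x z → ∀ O : ValuationSubring L, Over k O → x ∉ O →
        x ^ 2 * (Algebra.trace (IntermediateField.adjoin k ({x} : Set L)) L (h * z) : L) ∈ O := by
  have hfin := hL.finiteDimensional hx
  obtain ⟨O₀, hO₀, h₀⟩ := exists_over_not_mem (k := k) hx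
  have hx0 := VQ_ne_zero h₀
  obtain ⟨res, hr0, hr1, hr2⟩ := exists_res (k := k) hO₀ h₀
  -- the functional
  let PA : Submodule k L :=
    { carrier := {a | Fin' k x a}
      add_mem' := fun {a b} ha hb O hO hxO => add_mem (ha O hO hxO) (hb O hO hxO)
      zero_mem' := fun O _ _ => O.zero_mem
      smul_mem' := fun c a ha O hO hxO => by
        rw [Algebra.smul_def]
        exact mul_mem (hO c) (ha O hO hxO) }
  let PV : Submodule k L :=
    { carrier := {z | Van k x z}
      add_mem' := fun {a b} ha hb O hO hxO => add_mem (ha O hO hxO) (hb O hO hxO)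
      zero_mem' := fun O _ _ => O.nonunits.zero_mem
      smul_mem' := fun c a ha O hO hxO => by
        rw [Algebra.smul_def, mul_comm]
        exact VQ_mul_nonunits (ha O hO hxO) (hO c) }
  have hz₀' : z₀ ∉ PA ⊔ PV := by
    intro h
    obtain ⟨a, ha, z, hz, haz⟩ := Submodule.mem_sup.1 h
    refine hz₀ ⟨a, ha, ?_⟩
    have : z₀ - a = z := by rw [← haz]; ring
    rw [this]
    exact hz
  obtain ⟨ψ, hψ, hle⟩ := Submodule.exists_le_ker_of_notMem hz₀'
  have hψA : ∀ a : L, Fin' k x a → ψ a = 0 := fun a ha =>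
    LinearMap.mem_ker.1 (hle (Submodule.mem_sup_left (show a ∈ PA from ha)))
  have hψV : ∀ z : L, Van k x z → ψ z = 0 := fun z hz =>
    LinearMap.mem_ker.1 (hle (Submodule.mem_sup_right (show z ∈ PV from hz)))
  -- the density of every element
  have hT : ∀ z : L, ∃ t : IntermediateField.adjoin k ({x} : Set L),
      ∀ q : IntermediateField.adjoin k ({x} : Set L), ψ ((q : L) * z) = res (q * t) := by
    intro z
    have halg : IsAlgebraic (Algebra.adjoin k ({x} : Set L)) z :=
      IntermediateField.isAlgebraic_adjoin_iff.1 (Algebra.IsAlgebraic.isAlgebraic z)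
    obtain ⟨y, hy0, hy⟩ := IsAlgebraic.exists_integral_multiple halg
    have hyL : (y : L) ≠ 0 := fun h => hy0 (Subtype.ext h)
    let d : IntermediateField.adjoin k ({x} : Set L) :=
      ⟨y, IntermediateField.algebra_adjoin_le_adjoin k ({x} : Set L) y.2⟩
    have hd0 : d ≠ 0 := fun h => hyL (congrArg Subtype.val h)
    have hw : Fin' k x ((y : L) * z) := by
      intro O hO hxO
      have h1 : (y : L) * z = y • z := rfl
      rw [h1]
      exact mem_of_isIntegral (k := k) hy O hO hxO
    obtain ⟨t, ht⟩ := exists_residue_density hL hO₀ h₀ ψ hψA hψV res hr0 hr1 hr2 hw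
    refine ⟨d⁻¹ * t, fun q => ?_⟩
    have h2 := ht (q * d⁻¹)
    have h3 : ((q * d⁻¹ : IntermediateField.adjoin k ({x} : Set L)) : L) * ((y : L) * z) =
        (q : L) * z := by
      have h4 : ((q * d⁻¹ : IntermediateField.adjoin k ({x} : Set L)) : L) =
        (q : L) * (y : L)⁻¹ := rfl
      rw [h4]
      field_simp
    rw [h3, mul_assoc] at h2
    exact h2
  choose T hT using hT
  have huniq : ∀ s t : IntermediateField.adjoin k ({x} : Set L),
      (∀ q, res (q * s) = res (q * t)) → s = t := by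
    intro s t h
    rw [← sub_eq_zero]
    refine VDual_unique h₀ res hr1 fun q => ?_
    rw [mul_sub, map_sub, h q, sub_self]
  let TL : L →ₗ[IntermediateField.adjoin k ({x} : Set L)] IntermediateField.adjoin k ({x} : Set L) :=
    { toFun := T
      map_add' := fun a b => huniq _ _ fun q => by
        rw [← hT, mul_add, map_add, mul_add, map_add, hT, hT]
      map_smul' := fun c a => huniq _ _ fun q => by
        rw [← hT, RingHom.id_apply, smul_eq_mul, ← mul_assoc, ← hT]
        congr 1
        rw [Algebra.smul_def, ← mul_assoc]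
        rfl }
  have hTL : ∀ z, TL z = T z := fun z => rfl
  -- the trace form
  have hB := traceForm_nondegenerate (IntermediateField.adjoin k ({x} : Set L)) L
  set h : L := (LinearMap.BilinForm.toDual _ hB).symm TL with hh
  have hTr : ∀ z, Algebra.trace (IntermediateField.adjoin k ({x} : Set L)) L (h * z) = T z := by
    intro z
    have h1 := LinearMap.BilinForm.apply_toDual_symm_apply (hB := hB) TL z
    rw [← hh, Algebra.traceForm_apply] at h1
    exact h1
  refine ⟨h, ?_, ?_, ?_⟩
  · intro h0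
    apply hψ
    have h1 := hT z₀ 1
    have h2 : T z₀ = 0 := by
      rw [← hTr, h0, zero_mul, map_zero]
    rw [h2, mul_zero, map_zero] at h1
    have h3 : ((1 : IntermediateField.adjoin k ({x} : Set L)) : L) * z₀ = z₀ := by
      rw [OneMemClass.coe_one, one_mul]
    rw [h3] at h1
    exact h1
  · intro a ha
    rw [hTr]
    refine VDual_poly hO₀ h₀ res hr0 hr1 hr2 (T a) fun p hp => ?_
    rw [← hT]
    apply hψA
    intro O hO hxO
    refine mul_mem ?_ (ha O hO hxO)
    have h1 : Algebra.adjoin k ({x} : Set L) ≤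
        { O.toSubring with algebraMap_mem' := hO : Subalgebra k L} := by
      apply Algebra.adjoin_le
      rintro _ rfl
      exact hxO
    exact h1 hp
  · intro z hz O hO hxO
    rw [hTr]
    have hmem : x ^ 2 * (T z : L) ∈ IntermediateField.adjoin k ({x} : Set L) :=
      mul_mem (pow_mem (IntermediateField.mem_adjoin_simple_self k x) 2) (T z).2
    rw [← mem_iff_mem_of_pole hO₀ hO h₀ hxO hmem]
    by_contra hcon
    obtain ⟨m, q', hq', hne⟩ := exists_res_ne_zero hO₀ h₀ res hr1 hr2 (T z).2 hcon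
    apply hne
    let y : IntermediateField.adjoin k ({x} : Set L) :=
      ⟨(x ^ m)⁻¹, inv_mem (pow_mem (IntermediateField.mem_adjoin_simple_self k x) m)⟩
    have h1 : q' = y * T z := Subtype.ext hq'
    rw [h1, ← hT]
    apply hψV
    intro O' hO' hxO'
    rw [mul_comm]
    refine VQ_mul_nonunits (hz O' hO' hxO') ?_
    show (x ^ m)⁻¹ ∈ O'
    rw [← inv_pow]
    exact pow_mem (VQ_inv_mem hxO') m

end MP60829e.PS
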