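import Mathlib
import Pool.Agent.Lib.MP_60829e_nt.PS.VDual
import Pool.Agent.Lib.MP_60829e_nt.PS.VCodiff

/-! Vanishing of `H¹` when there are no logarithmic differentials (task V13). -/

namespace MP60829e.PS

open MP60829e.S

variable {k L : Type*} [Field k] [IsAlgClosed k] [CharZero k] [Field L] [Algebra k L]

/-- V13. -/
theorem split_of_no_logDiff (hL : IsCurveField k L) {x : L}
    (hx : x ∉ Set.range (algebraMap k L)) (hno : ∀ h : L, LogDiff k x h → h = 0) (z : L) :
    ∃ a : L, Fin' k x a ∧ Van k x (z - a) := by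
  by_contra hcon
  obtain ⟨h, h0, h1, h2⟩ := exists_dual hL hx hcon
  refine h0 (hno h ⟨fun O hO hxO => codiff_infinite hL hx h0 h2 O hO hxO, ?_⟩)
  intro O hO _ c hc
  exact codiff_finite hL hx h0 h1 O hO c hc

end MP60829e.PS
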