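import Mathlib
import Pool.Agent.Lib.MP_60829e_nt.PS.VSplit
import Pool.Agent.Lib.MP_60829e_nt.PS.VSingle
import Pool.Agent.Lib.MP_60829e_nt.PS.DDer

/-! A nonzero vector field along a map of curves, with the pole condition at infinity and trace
zero, exists only over the affine line (task V15). -/

namespace MP60829e.PS

open MP60829e.S

/-- `h Δ x` is regular everywhere. -/
private theorem VDelta_mem {k L M : Type*} [Field k] [IsAlgClosed k] [CharZero k] [Field L]
    [Field M] [Algebra k L] [Algebra k M] [Algebra L M] [IsScalarTower k L M]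
    [FiniteDimensional L M] (hL : IsCurveField k L) {x : L}
    (hx : x ∉ Set.range (algebraMap k L)) (Δ : Derivation k L M)
    (h1 : ∀ O : ValuationSubring M, Over k O → ∀ z : L, algebraMap L M z ∈ O → Δ z ∈ O)
    (h2 : ∀ O : ValuationSubring M, Over k O → algebraMap L M x ∉ O → ∀ z : L, z ≠ 0 →
      Δ z / algebraMap L M z ∈ O)
    (h : L) (hh : LogDiff k x h) (V : ValuationSubring M) (hV : Over k V) :
    algebraMap L M h * Δ x ∈ V := by
  have hinj : Function.Injective (algebraMap L M) := (algebraMap L M).injective
  have hx0 : x ≠ 0 := by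
    rintro rfl
    exact hx ⟨0, map_zero _⟩
  set O : ValuationSubring L := V.comap (algebraMap L M) with hOdef
  have hmemO : ∀ z : L, z ∈ O ↔ algebraMap L M z ∈ V := fun z => ValuationSubring.mem_comap
  have hO : Over k O := by
    intro c
    rw [hmemO, ← IsScalarTower.algebraMap_apply]
    exact hV c
  by_cases hxO : x ∈ O
  · by_cases hne : O = ⊤
    · -- `V = ⊤`
      apply integralClosure_subset (A := L) (O := V)
      · intro a
        rw [← hmemO, hne]
        trivial
      · exact Algebra.IsIntegral.isIntegral _
    · obtain ⟨c, hc⟩ := exists_residue hL O hO hne hxO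
      set ϖ : L := x - algebraMap k L c with hϖ
      have hϖ0 : ϖ ≠ 0 := by
        intro h0
        apply hx
        exact ⟨c, (sub_eq_zero.mp h0).symm⟩
      obtain ⟨π, hπ0, hπ, hfac⟩ := exists_uniformizer hL O hO hne
      have hπO : π ∈ O := O.nonunits_le hπ
      obtain ⟨e, u, hu, hu', hϖe⟩ := hfac ϖ hϖ0
      have hu0 : u ≠ 0 := by
        rintro rfl
        rw [mul_zero] at hϖe
        exact hϖ0 hϖe
      have hΔ : Δ x = Δ ϖ := by
        rw [hϖ, map_sub, Derivation.map_algebraMap, sub_zero]
      -- the factor ϖ h / π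
      have hq : ϖ * h / π ∈ O := by
        by_cases hh0 : h = 0
        · rw [hh0, mul_zero, zero_div]; exact zero_mem _
        · have hn := hh.2 O hO hxO c hc
          have hne0 : ϖ * h ≠ 0 := mul_ne_zero hϖ0 hh0
          obtain ⟨j, w, hw, hw', hj⟩ := hfac (ϖ * h) hne0
          have hw0 : w ≠ 0 := by
            rintro rfl
            rw [mul_zero] at hj
            exact hne0 hj
          have hj1 : 1 ≤ j := by
            by_contra hcon
            push Not at hcon
            have hj0 : 0 ≤ -j := by omega
            obtain ⟨m, hm⟩ := Int.eq_ofNat_of_zero_le hj0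
            -- (ϖ h)⁻¹ = π ^ m * w⁻¹ ∈ O
            have hinv : (ϖ * h)⁻¹ ∈ O := by
              rw [hj, mul_inv, ← zpow_neg, hm, zpow_natCast]
              exact mul_mem (pow_mem hπO m) hw'
            have := (O.mem_nonunits_iff_or).1 hn
            rcases this with h3 | h3
            · exact hne0 h3
            · exact h3 hinv
          have : ϖ * h / π = π ^ (j - 1) * w := by
            rw [hj, zpow_sub_one₀ hπ0]
            field_simp
          rw [this]
          have hj0 : 0 ≤ j - 1 := by omega
          obtain ⟨m, hm⟩ := Int.eq_ofNat_of_zero_le hj0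
          rw [hm, zpow_natCast]
          exact mul_mem (pow_mem hπO m) hw
      -- Δ ϖ
      have hD : Δ ϖ = algebraMap L M ϖ *
          ((e : M) * (Δ π / algebraMap L M π) + Δ u / algebraMap L M u) := by
        have hπM : algebraMap L M π ≠ 0 := by
          rw [Ne, map_eq_zero]; exact hπ0
        have huM : algebraMap L M u ≠ 0 := by
          rw [Ne, map_eq_zero]; exact hu0
        rw [hϖe, Derivation.leibniz, Derivation.leibniz_zpow]
        simp only [Algebra.smul_def, map_mul, map_zpow₀]
        rw [eq_intCast (algebraMap ℤ M) e, zpow_sub_one₀ hπM]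
        field_simp
        ring
      have hkey : algebraMap L M h * Δ x = algebraMap L M (ϖ * h / π) *
          ((e : M) * Δ π + algebraMap L M π * (algebraMap L M u⁻¹ * Δ u)) := by
        have hπM : algebraMap L M π ≠ 0 := by
          rw [Ne, map_eq_zero]; exact hπ0
        have huM : algebraMap L M u ≠ 0 := by
          rw [Ne, map_eq_zero]; exact hu0
        rw [hΔ, hD, map_div₀, map_mul, map_inv₀]
        field_simp
      rw [hkey]
      refine mul_mem ((hmemO _).1 hq) (add_mem (mul_mem ?_ ?_) (mul_mem ?_ (mul_mem ?_ ?_)))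
      · exact intCast_mem V e
      · exact h1 V hV π ((hmemO _).1 hπO)
      · exact (hmemO _).1 hπO
      · exact (hmemO _).1 hu'
      · exact h1 V hV u ((hmemO _).1 hu)
  · have hxV : algebraMap L M x ∉ V := fun hc => hxO ((hmemO x).2 hc)
    have e1 := h2 V hV hxV x hx0
    have e2 := (hmemO _).1 (hh.1 O hO hxO)
    have hxM : algebraMap L M x ≠ 0 := by
      rw [Ne, map_eq_zero]; exact hx0
    have : algebraMap L M h * Δ x = algebraMap L M (x * h) * (Δ x / algebraMap L M x) := by
      rw [map_mul]
      field_simp
    rw [this]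
    exact mul_mem e2 e1

private theorem VDelta_eq_zero {k L M : Type*} [Field k] [IsAlgClosed k] [CharZero k] [Field L]
    [Field M] [Algebra k L] [Algebra k M] [Algebra L M] [IsScalarTower k L M]
    (hL : IsCurveField k L) {x : L}
    (hx : x ∉ Set.range (algebraMap k L)) (Δ : Derivation k L M) (h0 : Δ x = 0) : Δ = 0 := by
  have hfd := hL.finiteDimensional hx
  have hch : CharZero (IntermediateField.adjoin k ({x} : Set L)) :=
    charZero_of_injective_algebraMap (algebraMap k _).injective
  ext z
  have hD : ∀ a : IntermediateField.adjoin k ({x} : Set L),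
      (Δ.restrictScalars ℤ) (algebraMap _ L a) = 0 := by
    rintro ⟨a, ha⟩
    rw [Derivation.restrictScalars_apply]
    change Δ a = 0
    induction ha using IntermediateField.adjoin_induction with
    | mem y hy =>
      rw [Set.mem_singleton_iff] at hy
      rw [hy, h0]
    | algebraMap c => exact Δ.map_algebraMap c
    | add y z _ _ hy hz => rw [map_add, hy, hz, add_zero]
    | inv y _ hy => rw [Derivation.leibniz_inv, hy, smul_zero]
    | mul y z _ _ hy hz => rw [Derivation.leibniz, hy, hz, smul_zero, smul_zero, add_zero]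
  have := derivation_eq_zero_of_isAlgebraic (F := IntermediateField.adjoin k ({x} : Set L))
    (Δ.restrictScalars ℤ) hD (z := z) (Algebra.IsAlgebraic.isAlgebraic z)
  rwa [Derivation.restrictScalars_apply] at this

/-- V15a. Logarithmic differentials kill such a vector field. -/
theorem logDiff_eq_zero {k L M : Type*} [Field k] [IsAlgClosed k] [CharZero k] [Field L]
    [Field M] [Algebra k L] [Algebra k M] [Algebra L M] [IsScalarTower k L M]
    [FiniteDimensional L M] (hL : IsCurveField k L) {x : L}
    (hx : x ∉ Set.range (algebraMap k L)) (Δ : Derivation k L M)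
    (h1 : ∀ O : ValuationSubring M, Over k O → ∀ z : L, algebraMap L M z ∈ O → Δ z ∈ O)
    (h2 : ∀ O : ValuationSubring M, Over k O → algebraMap L M x ∉ O → ∀ z : L, z ≠ 0 →
      Δ z / algebraMap L M z ∈ O)
    (h3 : ∀ z : L, Algebra.trace L M (Δ z) = 0) (hne : Δ ≠ 0) (h : L) (hh : LogDiff k x h) :
    h = 0 := by
  by_contra hh0
  obtain ⟨c, hc⟩ := mem_range_of_forall_mem (k := k)
    (fun V hV => VDelta_mem hL hx Δ h1 h2 h hh V hV)
  have hhM : algebraMap L M h ≠ 0 := by
    rw [Ne, map_eq_zero]; exact hh0
  have hξ : Δ x = algebraMap L M (algebraMap k L c / h) := by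
    rw [map_div₀, ← IsScalarTower.algebraMap_apply, hc]
    field_simp
  have h4 := h3 x
  rw [hξ, Algebra.trace_algebraMap] at h4
  have hch : CharZero L := charZero_of_injective_algebraMap (algebraMap k L).injective
  have h5 : algebraMap k L c / h = 0 := by
    rw [nsmul_eq_mul] at h4
    rcases mul_eq_zero.mp h4 with h6 | h6
    · exfalso
      have : Module.finrank L M ≠ 0 := Module.finrank_pos.ne'
      exact this (by exact_mod_cast h6)
    · exact h6
  have h6 : Δ x = 0 := by rw [hξ, h5, map_zero]
  exact hne (VDelta_eq_zero hL hx Δ h6)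

/-- V15. -/
theorem exists_generator_of_delta {k L M : Type*} [Field k] [IsAlgClosed k] [CharZero k]
    [Field L] [Field M] [Algebra k L] [Algebra k M] [Algebra L M] [IsScalarTower k L M]
    [FiniteDimensional L M] (hL : IsCurveField k L) {x : L}
    (hx : x ∉ Set.range (algebraMap k L)) (Δ : Derivation k L M)
    (h1 : ∀ O : ValuationSubring M, Over k O → ∀ z : L, algebraMap L M z ∈ O → Δ z ∈ O)
    (h2 : ∀ O : ValuationSubring M, Over k O → algebraMap L M x ∉ O → ∀ z : L, z ≠ 0 →
      Δ z / algebraMap L M z ∈ O)
    (h3 : ∀ z : L, Algebra.trace L M (Δ z) = 0) (hne : Δ ≠ 0) :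
    ∃ u : L, ∀ a : L, Fin' k x a → ∃ P : Polynomial k, a = Polynomial.aeval u P :=
  exists_generator_of_split hL hx (split_of_no_logDiff hL hx
    (logDiff_eq_zero hL hx Δ h1 h2 h3 hne))

end MP60829e.PS
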