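import Mathlib
import Pool.Agent.Lib.MP_60829e_nt.PS.RGauss
import Pool.Agent.Lib.MP_60829e_nt.PS.RConst
import Pool.Agent.Lib.MP_60829e_nt.PS.VDelta
import Pool.Agent.Lib.MP_60829e_nt.S.Rigid

/-! Rigidity (task R3). -/

namespace MP60829e.PS

open MP60829e.S

section RRigidAux

variable {F M : Type*} [Field F] [Field M] [Algebra F M]

/-- integrality of `y` over `F[x]` inside an intermediate field -/
private theorem rrigid_isIntegral (L : IntermediateField F M) {x y : L}
    (hy : IsIntegral (Algebra.adjoin F ({(x : M)} : Set M)) (y : M)) :
    IsIntegral (Algebra.adjoin F ({x} : Set L)) y := by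
  obtain ⟨p, hp, hpy⟩ := hy
  -- every element of `F[x]` comes from `L`
  have hA : ∀ a : Algebra.adjoin F ({(x : M)} : Set M),
      ∃ b : Algebra.adjoin F ({x} : Set L), ((b : L) : M) = (a : M) := by
    rintro ⟨a, ha⟩
    rw [Algebra.adjoin_singleton_eq_range_aeval] at ha
    obtain ⟨q, hq⟩ := ha
    refine ⟨⟨Polynomial.aeval x q, ?_⟩, ?_⟩
    · rw [Algebra.adjoin_singleton_eq_range_aeval]
      exact ⟨q, rfl⟩
    · have h1 := Polynomial.aeval_algHom_apply L.val x q
      exact h1.symm.trans hq
  -- choose a monic polynomial
  let f : Algebra.adjoin F ({x} : Set L) →+* Algebra.adjoin F ({(x : M)} : Set M) :=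
    { toFun := fun b => ⟨((b : L) : M), by
        obtain ⟨b, hb⟩ := b
        rw [Algebra.adjoin_singleton_eq_range_aeval] at hb
        obtain ⟨q, hq⟩ := hb
        rw [Algebra.adjoin_singleton_eq_range_aeval]
        refine ⟨q, ?_⟩
        have h1 := Polynomial.aeval_algHom_apply L.val x q
        exact h1.trans (congrArg L.val hq)⟩
      map_one' := by ext; simp
      map_mul' := by intro a b; ext; simp
      map_zero' := by ext; simp
      map_add' := by intro a b; ext; simp }
  have hf : Function.Surjective f := by
    intro a
    obtain ⟨b, hb⟩ := hA a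
    refine ⟨b, ?_⟩
    ext
    exact hb
  obtain ⟨q, hq, hqd, hqm⟩ := Polynomial.lifts_and_degree_eq_and_monic
    ((Polynomial.lifts_iff_coeff_lifts p).2 fun n => hf _) hp
  refine ⟨q, hqm, ?_⟩
  apply Subtype.val_injective
  have h1 : ((Polynomial.eval₂ (algebraMap (Algebra.adjoin F ({x} : Set L)) L) y q : L) : M) =
      Polynomial.eval₂ (algebraMap (Algebra.adjoin F ({(x : M)} : Set M)) M) (y : M)
        (q.map f) := by
    rw [Polynomial.eval₂_map]
    have := Polynomial.hom_eval₂ q (algebraMap (Algebra.adjoin F ({x} : Set L)) L)
      (algebraMap L M) y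
    exact this
  rw [h1, hq, hpy]
  rfl

/-- `F(x, y)` is a curve field -/
private theorem rrigid_isCurveField {x y : M}
    (hy : IsIntegral (Algebra.adjoin F ({x} : Set M)) y) :
    IsCurveField F (IntermediateField.adjoin F ({x, y} : Set M)) := by
  set L := IntermediateField.adjoin F ({x, y} : Set M) with hL
  have hxL : x ∈ L := IntermediateField.subset_adjoin F _ (by simp)
  have hyL : y ∈ L := IntermediateField.subset_adjoin F _ (by simp)
  set xL : L := ⟨x, hxL⟩ with hxLd
  set yL : L := ⟨y, hyL⟩ with hyLd
  have hint : IsIntegral (Algebra.adjoin F ({xL} : Set L)) yL := rrigid_isIntegral L hy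
  set E := IntermediateField.adjoin F ({xL} : Set L) with hE
  have hint2 : IsIntegral E yL := by
    let φ : Algebra.adjoin F ({xL} : Set L) →+* E :=
      (Subalgebra.inclusion (IntermediateField.algebra_adjoin_le_adjoin F ({xL} : Set L))).toRingHom
    exact IsIntegral.map_of_comp_eq φ (RingHom.id L) (by ext a; rfl) hint
  refine ⟨xL, ?_⟩
  show FiniteDimensional E L
  have h1 : FiniteDimensional E (IntermediateField.adjoin E ({yL} : Set L)) :=
    IntermediateField.adjoin.finiteDimensional hint2
  have h2 : IntermediateField.adjoin E ({yL} : Set L) = ⊤ := by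
    rw [eq_top_iff]
    intro z _
    have hz : z ∈ (IntermediateField.adjoin E ({yL} : Set L)).restrictScalars F := by
      have htop : IntermediateField.adjoin F ({xL, yL} : Set L) = ⊤ := by
        have hinj : Function.Injective (IntermediateField.map (L.val)) :=
          IntermediateField.map_injective _
        apply hinj
        rw [IntermediateField.adjoin_map, ← AlgHom.fieldRange_eq_map,
          IntermediateField.fieldRange_val]
        have : L.val '' ({xL, yL} : Set L) = {x, y} := by
          rw [Set.image_pair]
          rfl
        rw [this]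
      have hle : IntermediateField.adjoin F ({xL, yL} : Set L) ≤
          (IntermediateField.adjoin E ({yL} : Set L)).restrictScalars F := by
        rw [IntermediateField.adjoin_le_iff]
        intro w hw
        simp only [Set.mem_insert_iff, Set.mem_singleton_iff] at hw
        rcases hw with rfl | rfl
        · have hxE : xL ∈ E := IntermediateField.mem_adjoin_simple_self F xL
          exact (IntermediateField.adjoin E ({yL} : Set L)).algebraMap_mem ⟨xL, hxE⟩
        · exact IntermediateField.mem_adjoin_simple_self E yL
      rw [htop] at hle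
      exact hle trivial
    exact hz
  rw [h2] at h1
  exact (IntermediateField.topEquiv (F := E) (E := L)).toLinearEquiv.finiteDimensional

end RRigidAux

/-- R3. -/
theorem rigid {k F K M : Type*} [Field k] [IsAlgClosed k] [CharZero k] [Field F]
    [IsAlgClosed F] [CharZero F] [Field K]
    [Field M] [Algebra k F] [Algebra k K] [Algebra k M] [Algebra F M] [Algebra K M]
    [IsScalarTower k F M] [IsScalarTower k K M] {D : Derivation k F F} {δ : Derivation k M M}
    (G : GlueData (K := K) D δ) {x y : M}
    (hx : x ∈ Submodule.span F (Set.range (algebraMap K M)))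
    (hxF : x ∉ Set.range (algebraMap F M))
    (hy : IsIntegral (Algebra.adjoin F ({x} : Set M)) y) :
    (∀ z ∈ IntermediateField.adjoin F ({x, y} : Set M),
      δ z ∈ IntermediateField.adjoin F ({x, y} : Set M)) ∨
    ∃ u ∈ IntermediateField.adjoin F ({x, y} : Set M), ∃ P R : Polynomial F,
      x = Polynomial.aeval u P ∧ y = Polynomial.aeval u R := by
  have hMc : IsCurveField F M := isCurveField_of_gen G.curve G.gen
  have hLc : IsCurveField F (IntermediateField.adjoin F ({x, y} : Set M)) :=
    rrigid_isCurveField hy
  set L := IntermediateField.adjoin F ({x, y} : Set M) with hL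
  have hxL : x ∈ L := IntermediateField.subset_adjoin F _ (by simp)
  have hyL : y ∈ L := IntermediateField.subset_adjoin F _ (by simp)
  haveI : FiniteDimensional L M := hMc.finiteDimensional_of_mem hxF L hxL
  haveI : CharZero L := charZero_of_injective_algebraMap (algebraMap F L).injective
  haveI : CharZero M := charZero_of_injective_algebraMap (algebraMap F M).injective
  set n : L := (Module.finrank L M : L) with hn
  have hn0 : n ≠ 0 := by
    rw [hn]; exact_mod_cast (Module.finrank_pos (R := L) (M := M)).ne'
  -- the derivation preserves all places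
  have hδO : ∀ O : ValuationSubring M, Over F O → ∀ z ∈ O, δ z ∈ O := by
    intro O hO z hz
    by_cases hKO : ∀ a : K, algebraMap K M a ∈ O
    · exact der_mem_of_le G O hO hKO hz
    · rw [not_forall] at hKO
      rcases eq_or_ne z 0 with rfl | hz0
      · rw [map_zero]; exact O.zero_mem
      · have := logder_mem G O hO hKO hz0
        have h1 : δ z = δ z / z * z := by field_simp
        rw [h1]
        exact O.mul_mem _ _ this hz
  -- poles of `x` are not over `K`
  have hpole : ∀ V : ValuationSubring M, Over F V → x ∉ V → ∃ a : K, algebraMap K M a ∉ V := by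
    intro V hV hxV
    by_contra hcon
    rw [not_exists] at hcon
    apply hxV
    have hcon' : ∀ a : K, algebraMap K M a ∈ V := fun a => not_not.mp (hcon a)
    have key : ∀ w ∈ Submodule.span F (Set.range (algebraMap K M)), w ∈ V := by
      intro w hw
      induction hw using Submodule.span_induction with
      | mem w hw =>
        obtain ⟨a, rfl⟩ := hw
        exact hcon' a
      | zero => exact V.zero_mem
      | add a b _ _ ha hb => exact V.add_mem _ _ ha hb
      | smul c a _ ha =>
        rw [Algebra.smul_def]
        exact V.mul_mem _ _ (hV c) ha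
    exact key x hx
  have hninv : ∀ V : ValuationSubring M, Over F V → algebraMap L M n⁻¹ ∈ V := by
    intro V hV
    have := hV ((Module.finrank L M : F)⁻¹)
    rw [map_inv₀, map_natCast] at this
    rw [map_inv₀, hn, map_natCast]
    exact this
  -- the derivation Δ
  let Δ₀ : L →ₗ[F] M :=
    { toFun := fun z => δ (z : M) - algebraMap L M (n⁻¹ * Algebra.trace L M (δ (z : M)))
      map_add' := by
        intro z w
        rw [IntermediateField.coe_add, map_add, map_add, mul_add, map_add]
        ring
      map_smul' := by
        intro c z
        have h1 : ((c • z : L) : M) = algebraMap F M c * (z : M) := by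
          rw [IntermediateField.coe_smul, Algebra.smul_def]
        have h2 : δ ((c • z : L) : M) =
            algebraMap F M c * δ (z : M) + (z : M) * algebraMap F M (D c) := by
          rw [h1, Derivation.leibniz, G.dF, smul_eq_mul, smul_eq_mul]
        have h3 : Algebra.trace L M (δ ((c • z : L) : M)) =
            algebraMap F L c * Algebra.trace L M (δ (z : M)) +
              n * (z * algebraMap F L (D c)) := by
          rw [h2, map_add]
          congr 1
          · have : algebraMap F M c * δ (z : M) = algebraMap F L c • δ (z : M) := by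
              rw [Algebra.smul_def, ← IsScalarTower.algebraMap_apply]
            rw [this, map_smul, smul_eq_mul]
          · have : (z : M) * algebraMap F M (D c) =
                algebraMap L M (z * algebraMap F L (D c)) := by
              rw [map_mul, ← IsScalarTower.algebraMap_apply]
              rfl
            rw [this, Algebra.trace_algebraMap, nsmul_eq_mul, ← hn]
        rw [h3, h2, RingHom.id_apply, Algebra.smul_def]
        have h4 : n⁻¹ * (algebraMap F L c * Algebra.trace L M (δ (z : M)) +
              n * (z * algebraMap F L (D c))) =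
            algebraMap F L c * (n⁻¹ * Algebra.trace L M (δ (z : M))) +
              z * algebraMap F L (D c) := by
          field_simp
        rw [h4, map_add, map_mul, map_mul _ z, ← IsScalarTower.algebraMap_apply,
          ← IsScalarTower.algebraMap_apply]
        have h5 : algebraMap L M z = (z : M) := rfl
        rw [h5]
        ring }
  have hleib : ∀ z w : L, Δ₀ (z * w) = z • Δ₀ w + w • Δ₀ z := by
    intro z w
    have h1 : δ ((z * w : L) : M) = (z : M) * δ (w : M) + (w : M) * δ (z : M) := by
      rw [IntermediateField.coe_mul, Derivation.leibniz, smul_eq_mul, smul_eq_mul]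
    have h2 : ∀ (s : L) (m : M), Algebra.trace L M ((s : M) * m) = s * Algebra.trace L M m := by
      intro s m
      have : (s : M) * m = s • m := by
        rw [Algebra.smul_def]; rfl
      rw [this, map_smul, smul_eq_mul]
    show δ ((z * w : L) : M) -
        algebraMap L M (n⁻¹ * Algebra.trace L M (δ ((z * w : L) : M))) =
      z • (δ (w : M) - algebraMap L M (n⁻¹ * Algebra.trace L M (δ (w : M)))) +
      w • (δ (z : M) - algebraMap L M (n⁻¹ * Algebra.trace L M (δ (z : M))))
    rw [h1, map_add, h2, h2, Algebra.smul_def, Algebra.smul_def]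
    have h3 : ∀ s : L, algebraMap L M s = (s : M) := fun s => rfl
    have h4 : algebraMap L M (n⁻¹ * (z * Algebra.trace L M (δ (w : M)) +
        w * Algebra.trace L M (δ (z : M)))) =
        (z : M) * algebraMap L M (n⁻¹ * Algebra.trace L M (δ (w : M))) +
        (w : M) * algebraMap L M (n⁻¹ * Algebra.trace L M (δ (z : M))) := by
      rw [← h3 z, ← h3 w, ← map_mul, ← map_mul, ← map_add]
      congr 1
      ring
    rw [h4]
    simp only [h3]
    ring
  let Δ : Derivation F L M := Derivation.mk' Δ₀ hleib
  have hΔ : ∀ z : L, Δ z = δ (z : M) - algebraMap L M (n⁻¹ * Algebra.trace L M (δ (z : M))) :=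
    fun z => rfl
  have hOver : ∀ (V V' : ValuationSubring M), Over F V →
      (∀ a ∈ V.comap (algebraMap L M), algebraMap L M a ∈ V') → Over F V' := by
    intro V V' hV hV' c
    have h1 : algebraMap F L c ∈ V.comap (algebraMap L M) := by
      rw [ValuationSubring.mem_comap, ← IsScalarTower.algebraMap_apply]
      exact hV c
    have := hV' _ h1
    rwa [← IsScalarTower.algebraMap_apply] at this
  have h1 : ∀ V : ValuationSubring M, Over F V → ∀ z : L, algebraMap L M z ∈ V → Δ z ∈ V := by
    intro V hV z hz
    have hz' : (z : M) ∈ V := hz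
    rw [hΔ]
    refine sub_mem (hδO V hV _ hz') ?_
    rw [map_mul]
    refine V.mul_mem _ _ (hninv V hV) ?_
    have := trace_mem (V.comap (algebraMap L M)) (δ (z : M)) (fun V' hV' => by
      refine hδO V' (hOver V V' hV hV') _ ?_
      exact hV' z (by rw [ValuationSubring.mem_comap]; exact hz))
    rwa [ValuationSubring.mem_comap] at this
  have h2 : ∀ V : ValuationSubring M, Over F V → algebraMap L M (⟨x, hxL⟩ : L) ∉ V →
      ∀ z : L, z ≠ 0 → Δ z / algebraMap L M z ∈ V := by
    intro V hV hxV z hz0
    have hxV' : x ∉ V := hxV
    have hzM : (z : M) ≠ 0 := by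
      intro h0
      apply hz0
      exact Subtype.ext h0
    have hdec : Δ z / algebraMap L M z = δ (z : M) / (z : M) -
        algebraMap L M n⁻¹ * algebraMap L M (Algebra.trace L M (δ (z : M) / (z : M))) := by
      have e1 : Algebra.trace L M (δ (z : M)) = z * Algebra.trace L M (δ (z : M) / (z : M)) := by
        rw [← smul_eq_mul, ← map_smul, Algebra.smul_def]
        congr 1
        show δ (z : M) = (z : M) * (δ (z : M) / (z : M))
        field_simp
      rw [hΔ, e1, sub_div, map_mul, map_mul]
      have e2 : algebraMap L M z = (z : M) := rfl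
      rw [e2]
      field_simp
    rw [hdec]
    refine sub_mem (logder_mem G V hV (hpole V hV hxV') hzM) ?_
    refine V.mul_mem _ _ (hninv V hV) ?_
    have := trace_mem (V.comap (algebraMap L M)) (δ (z : M) / (z : M)) (fun V' hV' => by
      have hV'F := hOver V V' hV hV'
      by_cases hxV2 : x ∈ V'
      · -- V' contains L, hence everything
        have hO : Over F (V.comap (algebraMap L M)) := by
          intro c
          rw [ValuationSubring.mem_comap, ← IsScalarTower.algebraMap_apply]
          exact hV c
        have hx0 : (⟨x, hxL⟩ : L)⁻¹ ≠ 0 := by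
          apply inv_ne_zero
          intro h0
          apply hxV
          rw [h0, map_zero]
          exact V.zero_mem
        have hxn : (⟨x, hxL⟩ : L)⁻¹ ∈ (V.comap (algebraMap L M)).nonunits := by
          rw [ValuationSubring.inv_mem_nonunits_iff]
          right
          rw [ValuationSubring.mem_comap]
          exact hxV
        have hLV : ∀ g : L, algebraMap L M g ∈ V' := by
          intro g
          obtain ⟨m, hm⟩ := exists_pow_mul_mem_nonunits hLc (V.comap (algebraMap L M)) hO hx0
            hxn g
          have h3 := hm m le_rfl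
          have h4 := hV' _ (ValuationSubring.nonunits_subset h3)
          have hxM : x ≠ 0 := by
            intro h0
            apply hxV'
            rw [h0]; exact V.zero_mem
          have h5 : algebraMap L M g = x ^ m * algebraMap L M ((⟨x, hxL⟩ : L)⁻¹ ^ m * g) := by
            rw [map_mul, map_pow, map_inv₀]
            have : algebraMap L M (⟨x, hxL⟩ : L) = x := rfl
            rw [this, inv_pow, ← mul_assoc, mul_inv_cancel₀ (pow_ne_zero m hxM), one_mul]
          rw [h5]
          exact V'.mul_mem _ _ (pow_mem hxV2 m) h4
        exact integralClosure_subset (A := L) hLV (Algebra.IsIntegral.isIntegral _)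
      · exact logder_mem G V' hV'F (hpole V' hV'F hxV2) hzM)
    rwa [ValuationSubring.mem_comap] at this
  have h3 : ∀ z : L, Algebra.trace L M (Δ z) = 0 := by
    intro z
    rw [hΔ, map_sub, Algebra.trace_algebraMap, nsmul_eq_mul, ← hn]
    field_simp
    ring
  by_cases hΔ0 : Δ = 0
  · left
    intro z hz
    have h4 := congrArg (fun d : Derivation F L M => d (⟨z, hz⟩ : L)) hΔ0
    simp only [Derivation.zero_apply] at h4
    rw [hΔ, sub_eq_zero] at h4
    have h5 : δ z = algebraMap L M (n⁻¹ * Algebra.trace L M (δ z)) := h4
    rw [h5]
    exact (n⁻¹ * Algebra.trace L M (δ z)).2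
  · right
    have hxL' : (⟨x, hxL⟩ : L) ∉ Set.range (algebraMap F L) := by
      rintro ⟨c, hc⟩
      apply hxF
      refine ⟨c, ?_⟩
      rw [IsScalarTower.algebraMap_apply F L M, hc]
      rfl
    obtain ⟨u, hu⟩ := exists_generator_of_delta hLc hxL' Δ h1 h2 h3 hΔ0
    obtain ⟨P, hP⟩ := hu ⟨x, hxL⟩ (fun O _ hx => hx)
    obtain ⟨R, hR⟩ := hu ⟨y, hyL⟩ (fun O hO hx =>
      mem_of_isIntegral (rrigid_isIntegral L (x := ⟨x, hxL⟩) (y := ⟨y, hyL⟩) hy) O hO hx)
    refine ⟨(u : M), u.2, P, R, ?_, ?_⟩
    · have := congrArg (algebraMap L M) hP
      rw [← Polynomial.aeval_algebraMap_apply] at this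
      exact this
    · have := congrArg (algebraMap L M) hR
      rw [← Polynomial.aeval_algebraMap_apply] at this
      exact this

end MP60829e.PS
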