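import Mathlib

/-! Preparation of a pair (tasks S5a, S5b). -/

namespace MP60829e.PS

open MvPolynomial

private theorem sprep_aeval2 {R A : Type*} [CommRing R] [CommRing A] [Algebra R A]
    (f : MvPolynomial (Fin 2) R) (u v : A) :
    aeval ![u, v] f = ∑ m ∈ f.support, algebraMap R A (coeff m f) * (u ^ (m 0) * v ^ (m 1)) := by
  rw [aeval_def, eval₂_eq']
  refine Finset.sum_congr rfl fun m _ => ?_
  rw [Fin.prod_univ_two]
  rfl

private theorem sprep_sum {m : Fin 2 →₀ ℕ} : (m.sum fun _ e => e) = m 0 + m 1 := by
  rw [Finsupp.sum_fintype _ _ (fun _ => rfl), Fin.sum_univ_two]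

private theorem sprep_deg {R : Type*} [CommRing R] {f : MvPolynomial (Fin 2) R} {m : Fin 2 →₀ ℕ}
    (hm : m ∈ f.support) : m 0 + m 1 ≤ f.totalDegree := by
  have := le_totalDegree hm
  rwa [sprep_sum] at this

private theorem sprep_lin {A : Type*} [CommRing A] (a s : A) (i j : ℕ) :
    ((Polynomial.C a - Polynomial.C s * Polynomial.X) ^ i * Polynomial.X ^ j).natDegree ≤ i + j ∧
    ((Polynomial.C a - Polynomial.C s * Polynomial.X) ^ i * Polynomial.X ^ j).coeff (i + j) =
      (-s) ^ i := by
  have h1 : (Polynomial.C a - Polynomial.C s * Polynomial.X).natDegree ≤ 1 := by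
    compute_degree
  constructor
  · refine Polynomial.natDegree_mul_le_of_le ?_ (Polynomial.natDegree_X_pow_le j)
    have := Polynomial.natDegree_pow_le_of_le i h1
    simpa using this
  · rw [Polynomial.coeff_mul_X_pow]
    have := Polynomial.coeff_pow_of_natDegree_le (m := i) h1
    rw [mul_one] at this
    rw [this]
    simp

/-- S5a. After a linear change of variables `y` is integral over `F[x]`. -/
theorem exists_good_shift {k F M : Type*} [Field k] [Infinite k] [Field F] [Field M]
    [Algebra k F] [Algebra F M] {x y : M} {C : ℕ} {f : MvPolynomial (Fin 2) F} (hf0 : f ≠ 0)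
    (hfC : f.totalDegree ≤ C) (hf : aeval ![x, y] f = 0) (S : Set k) (hS : S.Finite) :
    ∃ s : k, s ∉ S ∧
      IsIntegral (Algebra.adjoin F ({x + algebraMap F M (algebraMap k F s) * y} : Set M)) y ∧
      ∃ f' : MvPolynomial (Fin 2) F, f' ≠ 0 ∧ f'.totalDegree ≤ C ∧
        aeval ![x + algebraMap F M (algebraMap k F s) * y, y] f' = 0 := by
  classical
  set q := f.totalDegree with hq
  set T : Finset (Fin 2 →₀ ℕ) := f.support.filter (fun m => m 0 + m 1 = q) with hT
  set g : Polynomial F := ∑ m ∈ T, Polynomial.monomial (m 0) (coeff m f * (-1) ^ (m 0)) with hg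
  have hgeval : ∀ s' : F, g.eval s' = ∑ m ∈ T, coeff m f * (-s') ^ (m 0) := by
    intro s'
    rw [hg, Polynomial.eval_finsetSum]
    refine Finset.sum_congr rfl fun m _ => ?_
    rw [Polynomial.eval_monomial, mul_assoc, ← mul_pow, neg_one_mul]
  have hg0 : g ≠ 0 := by
    have hne : f.support.Nonempty := support_nonempty.2 hf0
    obtain ⟨ms, hms, hmeq⟩ := Finset.exists_mem_eq_sup f.support hne (fun m => m.sum fun _ e => e)
    have hms' : ms 0 + ms 1 = q := by
      rw [hq, totalDegree, hmeq, sprep_sum]
    intro h0
    have hco : g.coeff (ms 0) = coeff ms f * (-1) ^ (ms 0) := by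
      rw [hg, Polynomial.finsetSum_coeff, Finset.sum_eq_single ms]
      · rw [Polynomial.coeff_monomial, if_pos rfl]
      · intro m hm hne
        rw [Polynomial.coeff_monomial, if_neg]
        intro h
        apply hne
        rw [hT, Finset.mem_filter] at hm
        ext i
        fin_cases i
        · exact h
        · change m 1 = ms 1
          omega
      · intro h
        exact absurd (Finset.mem_filter.2 ⟨hms, hms'⟩) h
    rw [h0, Polynomial.coeff_zero] at hco
    have h1 : coeff ms f ≠ 0 := mem_support_iff.1 hms
    have h2 : ((-1 : F)) ^ (ms 0) ≠ 0 := pow_ne_zero _ (by simp)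
    exact mul_ne_zero h1 h2 hco.symm
  -- choose s
  have hfin : (S ∪ (algebraMap k F) ⁻¹' (g.roots.toFinset : Set F)).Finite := by
    refine hS.union (Set.Finite.preimage ?_ (Finset.finite_toSet _))
    exact (algebraMap k F).injective.injOn
  obtain ⟨s, hs⟩ := hfin.exists_notMem
  rw [Set.mem_union, not_or] at hs
  set s' : F := algebraMap k F s with hs'
  have hc0 : ∑ m ∈ T, coeff m f * (-s') ^ (m 0) ≠ 0 := by
    rw [← hgeval]
    intro h
    apply hs.2
    simp only [Set.mem_preimage, Finset.mem_coe, Multiset.mem_toFinset, Polynomial.mem_roots hg0]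
    exact h
  set c0 : F := ∑ m ∈ T, coeff m f * (-s') ^ (m 0) with hc0def
  set x' : M := x + algebraMap F M s' * y with hx'
  refine ⟨s, hs.1, ?_, ?_⟩
  · -- integrality
    set A := Algebra.adjoin F ({x'} : Set M) with hA
    let a : A := ⟨x', Algebra.subset_adjoin (Set.mem_singleton _)⟩
    set P : Polynomial A := aeval ![Polynomial.C a - Polynomial.C (algebraMap F A s') *
      Polynomial.X, Polynomial.X] f with hP
    have hPsum := sprep_aeval2 f (Polynomial.C a - Polynomial.C (algebraMap F A s') *
      Polynomial.X) (Polynomial.X : Polynomial A)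
    rw [← hP] at hPsum
    have halg : ∀ c : F, algebraMap F (Polynomial A) c = Polynomial.C (algebraMap F A c) :=
      fun c => rfl
    have hPdeg : P.natDegree ≤ q := by
      rw [hPsum]
      refine Polynomial.natDegree_sum_le_of_forall_le _ _ fun m hm => ?_
      rw [halg]
      refine (Polynomial.natDegree_C_mul_le _ _).trans ?_
      exact (sprep_lin a (algebraMap F A s') (m 0) (m 1)).1.trans (sprep_deg hm)
    have hPco : P.coeff q = algebraMap F A c0 := by
      rw [hPsum, Polynomial.finsetSum_coeff, hc0def, map_sum, hT, Finset.sum_filter]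
      refine Finset.sum_congr rfl fun m hm => ?_
      rw [halg, Polynomial.coeff_C_mul]
      split_ifs with h
      · have h2 := (sprep_lin a (algebraMap F A s') (m 0) (m 1)).2
        rw [h] at h2
        rw [h2, map_mul, map_pow, map_neg]
      · have h2 := (sprep_lin a (algebraMap F A s') (m 0) (m 1)).1
        have h3 := sprep_deg hm
        rw [Polynomial.coeff_eq_zero_of_natDegree_lt (by omega), mul_zero]
    have hPeval : Polynomial.eval₂ (algebraMap A M) y P = 0 := by
      have h1 : Polynomial.eval₂ (algebraMap A M) y P = (Polynomial.aeval y) P := rfl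
      have h2 : (Polynomial.aeval y : Polynomial A →ₐ[A] M) P =
          ((Polynomial.aeval y : Polynomial A →ₐ[A] M).restrictScalars F) P := rfl
      rw [h1, h2, hP, comp_aeval_apply]
      have h3 : (fun i => ((Polynomial.aeval y : Polynomial A →ₐ[A] M).restrictScalars F)
          ((![Polynomial.C a - Polynomial.C (algebraMap F A s') * Polynomial.X,
            Polynomial.X] : Fin 2 → Polynomial A) i)) = ![x, y] := by
        funext i
        fin_cases i
        · change (Polynomial.aeval y) (Polynomial.C a - Polynomial.C (algebraMap F A s') *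
            Polynomial.X) = x
          rw [map_sub, map_mul, Polynomial.aeval_C, Polynomial.aeval_C, Polynomial.aeval_X]
          change x' - algebraMap F M s' * y = x
          rw [hx']; ring
        · change (Polynomial.aeval y) (Polynomial.X : Polynomial A) = y
          rw [Polynomial.aeval_X]
      rw [h3]
      exact hf
    refine ⟨Polynomial.C (algebraMap F A c0⁻¹) * P, ?_, ?_⟩
    · refine Polynomial.monic_of_natDegree_le_of_coeff_eq_one q
        ((Polynomial.natDegree_C_mul_le _ _).trans hPdeg) ?_
      rw [Polynomial.coeff_C_mul, hPco, ← map_mul, inv_mul_cancel₀ hc0, map_one]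
    · rw [Polynomial.eval₂_mul, hPeval, mul_zero]
  · -- the new relation
    set f' : MvPolynomial (Fin 2) F := aeval ![X 0 - MvPolynomial.C s' * X 1, X 1] f with hf'
    refine ⟨f', ?_, ?_, ?_⟩
    · intro h0
      apply hf0
      have h1 : aeval ![X 0 + MvPolynomial.C s' * X 1, X 1] f' = f := by
        rw [hf', comp_aeval_apply]
        have h3 : (fun i => (aeval ![X 0 + MvPolynomial.C s' * X 1, X 1] :
            MvPolynomial (Fin 2) F →ₐ[F] MvPolynomial (Fin 2) F)
            ((![X 0 - MvPolynomial.C s' * X 1, X 1] : Fin 2 → MvPolynomial (Fin 2) F) i)) =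
            X := by
          funext i
          fin_cases i
          · change aeval ![X 0 + MvPolynomial.C s' * X 1, X 1]
              (X 0 - MvPolynomial.C s' * X 1 : MvPolynomial (Fin 2) F) = X 0
            rw [map_sub, map_mul, aeval_X, aeval_X, aeval_C]
            change (X 0 + MvPolynomial.C s' * X 1) - MvPolynomial.C s' * X 1 = X 0
            ring
          · change aeval ![X 0 + MvPolynomial.C s' * X 1, X 1]
              (X 1 : MvPolynomial (Fin 2) F) = X 1
            rw [aeval_X]
            rfl
        rw [h3]
        exact aeval_X_left_apply f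
      rw [← h1, h0, map_zero]
    · rw [hf', sprep_aeval2]
      refine totalDegree_finsetSum_le fun m hm => ?_
      have d0 : (X 0 - MvPolynomial.C s' * X 1 : MvPolynomial (Fin 2) F).totalDegree ≤ 1 := by
        refine (totalDegree_sub _ _).trans (max_le ?_ ?_)
        · rw [totalDegree_X]
        · refine (totalDegree_mul _ _).trans ?_
          rw [totalDegree_C, totalDegree_X]
      have d1 : ((X 0 - MvPolynomial.C s' * X 1 : MvPolynomial (Fin 2) F) ^ (m 0)).totalDegree ≤
          m 0 := by
        refine (totalDegree_pow _ _).trans ?_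
        calc m 0 * _ ≤ m 0 * 1 := Nat.mul_le_mul_left _ d0
          _ = m 0 := mul_one _
      have d2 : ((X 1 : MvPolynomial (Fin 2) F) ^ (m 1)).totalDegree ≤ m 1 := by
        refine (totalDegree_pow _ _).trans ?_
        rw [totalDegree_X, mul_one]
      have d3 : (algebraMap F (MvPolynomial (Fin 2) F) (coeff m f)).totalDegree = 0 := by
        rw [algebraMap_eq, totalDegree_C]
      refine (totalDegree_mul _ _).trans ?_
      rw [d3, zero_add]
      refine (totalDegree_mul _ _).trans ?_
      have := sprep_deg hm
      omega
    · rw [hf', comp_aeval_apply]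
      have h3 : (fun i => (aeval ![x', y] : MvPolynomial (Fin 2) F →ₐ[F] M)
          ((![X 0 - MvPolynomial.C s' * X 1, X 1] : Fin 2 → MvPolynomial (Fin 2) F) i)) =
          ![x, y] := by
        funext i
        fin_cases i
        · change aeval ![x', y] (X 0 - MvPolynomial.C s' * X 1 : MvPolynomial (Fin 2) F) = x
          rw [map_sub, map_mul, aeval_X, aeval_X, aeval_C]
          change x' - algebraMap F M s' * y = x
          rw [hx']; ring
        · change aeval ![x', y] (X 1 : MvPolynomial (Fin 2) F) = y
          rw [aeval_X]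
          rfl
      rw [h3]
      exact hf

/-- S5b. -/
theorem finrank_le_of_relation {F L : Type*} [Field F] [Field L] [Algebra F L] {x y : L}
    (hgen : IntermediateField.adjoin F ({x, y} : Set L) = ⊤) (hx : Transcendental F x) {C : ℕ}
    {f : MvPolynomial (Fin 2) F} (hf0 : f ≠ 0) (hfC : f.totalDegree ≤ C)
    (hf : aeval ![x, y] f = 0) :
    FiniteDimensional (IntermediateField.adjoin F ({x} : Set L)) L ∧
      Module.finrank (IntermediateField.adjoin F ({x} : Set L)) L ≤ C := by
  classical
  set K := IntermediateField.adjoin F ({x} : Set L) with hK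
  let gx : K := ⟨x, IntermediateField.subset_adjoin F _ (Set.mem_singleton _)⟩
  set P : Polynomial K := aeval ![Polynomial.C gx, Polynomial.X] f with hP
  have hPsum := sprep_aeval2 f (Polynomial.C gx) (Polynomial.X : Polynomial K)
  rw [← hP] at hPsum
  have halg : ∀ c : F, algebraMap F (Polynomial K) c = Polynomial.C (algebraMap F K c) :=
    fun c => rfl
  have hterm : ∀ m : Fin 2 →₀ ℕ, algebraMap F (Polynomial K) (coeff m f) *
      (Polynomial.C gx ^ (m 0) * Polynomial.X ^ (m 1)) =
      Polynomial.C (algebraMap F K (coeff m f) * gx ^ (m 0)) * Polynomial.X ^ (m 1) := by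
    intro m
    rw [halg, Polynomial.C_mul, Polynomial.C_pow, mul_assoc]
  have hPdeg : P.natDegree ≤ C := by
    rw [hPsum]
    refine Polynomial.natDegree_sum_le_of_forall_le _ _ fun m hm => ?_
    rw [hterm]
    refine (Polynomial.natDegree_C_mul_X_pow_le _ _).trans ?_
    have := sprep_deg hm
    omega
  have hP0 : P ≠ 0 := by
    intro h0
    obtain ⟨ms, hms⟩ := support_nonempty.2 hf0
    set p : Polynomial F := ∑ m ∈ f.support.filter (fun m => m 1 = ms 1),
      Polynomial.monomial (m 0) (coeff m f) with hp
    have hp0 : p ≠ 0 := by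
      intro h
      have hco : p.coeff (ms 0) = coeff ms f := by
        rw [hp, Polynomial.finsetSum_coeff, Finset.sum_eq_single ms]
        · rw [Polynomial.coeff_monomial, if_pos rfl]
        · intro m hm hne
          rw [Polynomial.coeff_monomial, if_neg]
          intro h
          apply hne
          rw [Finset.mem_filter] at hm
          ext i
          fin_cases i
          · exact h
          · exact hm.2
        · intro h
          exact (h (Finset.mem_filter.2 ⟨hms, rfl⟩)).elim
      rw [h, Polynomial.coeff_zero] at hco
      exact mem_support_iff.1 hms hco.symm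
    have hco : P.coeff (ms 1) = Polynomial.aeval gx p := by
      rw [hPsum, Polynomial.finsetSum_coeff, hp, map_sum, Finset.sum_filter]
      refine Finset.sum_congr rfl fun m _ => ?_
      rw [hterm, Polynomial.coeff_C_mul, Polynomial.coeff_X_pow, Polynomial.aeval_monomial]
      by_cases h : ms 1 = m 1
      · rw [if_pos h, if_pos h.symm, mul_one]
      · rw [if_neg h, if_neg (fun h' => h h'.symm), mul_zero]
    rw [h0, Polynomial.coeff_zero] at hco
    apply hx
    refine ⟨p, hp0, ?_⟩
    have h1 : Polynomial.aeval x p = algebraMap K L (Polynomial.aeval gx p) := by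
      rw [← Polynomial.aeval_algebraMap_apply]
      rfl
    rw [h1, ← hco, map_zero]
  have hPeval : Polynomial.aeval y P = 0 := by
    have h2 : (Polynomial.aeval y : Polynomial K →ₐ[K] L) P =
        ((Polynomial.aeval y : Polynomial K →ₐ[K] L).restrictScalars F) P := rfl
    rw [h2, hP, comp_aeval_apply]
    have h3 : (fun i => ((Polynomial.aeval y : Polynomial K →ₐ[K] L).restrictScalars F)
        ((![Polynomial.C gx, Polynomial.X] : Fin 2 → Polynomial K) i)) = ![x, y] := by
      funext i
      fin_cases i
      · change (Polynomial.aeval y) (Polynomial.C gx) = x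
        rw [Polynomial.aeval_C]
        rfl
      · change (Polynomial.aeval y) (Polynomial.X : Polynomial K) = y
        rw [Polynomial.aeval_X]
    rw [h3]
    exact hf
  have hyalg : IsAlgebraic K y := ⟨P, hP0, hPeval⟩
  have hyint : IsIntegral K y := hyalg.isIntegral
  have htop : IntermediateField.adjoin K ({y} : Set L) = ⊤ := by
    apply IntermediateField.restrictScalars_injective F
    rw [hK, IntermediateField.adjoin_adjoin_left, IntermediateField.restrictScalars_top, ← hgen]
    congr 1
  have hfd : FiniteDimensional K (IntermediateField.adjoin K ({y} : Set L)) :=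
    IntermediateField.adjoin.finiteDimensional hyint
  have hfr := IntermediateField.adjoin.finrank hyint
  rw [htop] at hfd hfr
  rw [IntermediateField.finrank_top'] at hfr
  refine ⟨?_, ?_⟩
  · exact Module.Finite.equiv (IntermediateField.topEquiv (F := K) (E := L)).toLinearEquiv
  · rw [hfr]
    exact (Polynomial.natDegree_le_natDegree (minpoly.degree_le_of_ne_zero K y hP0 hPeval)).trans hPdeg

end MP60829e.PS
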