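import Mathlib
import Pool.Agent.Lib.MP_60829e_nt.PS.VQ
import Pool.Agent.Lib.MP_60829e_nt.S.Rigid

/-! An element whose poles are bounded by those of `x` satisfies with `x` a relation of total
degree at most `[L : k(x)]` (task V16). -/

namespace MP60829e.PS

open MP60829e.S

variable {k L : Type*} [Field k] [IsAlgClosed k] [CharZero k] [Field L] [Algebra k L]

open scoped IntermediateField.algebraAdjoinAdjoin in
omit [IsAlgClosed k] [CharZero k] in
private theorem VChar_coeff (z : L) (E : IntermediateField k L)
    (hE : E = IntermediateField.adjoin k ({z} : Set L)) {w : L}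
    (hw : IsIntegral (Algebra.adjoin k ({z} : Set L)) w) (j : ℕ) :
    ∃ p : Polynomial k, algebraMap E L ((minpoly E w).coeff j) = Polynomial.aeval z p := by
  subst hE
  have h1 : IsPrincipalIdealRing (Algebra.adjoin k ({z} : Set L)) := by
    let f : Polynomial k →ₐ[k] L := Polynomial.aeval z
    have hf : f.range = Algebra.adjoin k ({z} : Set L) :=
      (Algebra.adjoin_singleton_eq_range_aeval k z).symm
    rw [← hf]
    exact IsPrincipalIdealRing.of_surjective f.rangeRestrict f.rangeRestrict_surjective
  have h2 : IsDedekindDomain (Algebra.adjoin k ({z} : Set L)) := inferInstance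
  have h3 := minpoly.isIntegrallyClosed_eq_field_fractions'
    (K := IntermediateField.adjoin k ({z} : Set L)) hw
  rw [h3, Polynomial.coeff_map]
  have h4 : ((minpoly (Algebra.adjoin k ({z} : Set L)) w).coeff j : L) ∈
      (Polynomial.aeval z : Polynomial k →ₐ[k] L).range := by
    rw [← Algebra.adjoin_singleton_eq_range_aeval]
    exact ((minpoly (Algebra.adjoin k ({z} : Set L)) w).coeff j).2
  obtain ⟨p, hp⟩ := h4
  exact ⟨p, hp.symm⟩

omit [IsAlgClosed k] [CharZero k] in
private theorem VChar_deg {x : L} (hx : Transcendental k x) {P R : Polynomial k} {i : ℕ}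
    (h : Polynomial.aeval x P = Polynomial.aeval x⁻¹ R * x ^ i) : P.natDegree ≤ i := by
  have hx0 : x ≠ 0 := by
    rintro rfl
    exact hx isAlgebraic_zero
  let _ : Invertible x⁻¹ := invertibleOfNonzero (inv_ne_zero hx0)
  have h1 := Polynomial.eval₂_reverse_mul_pow (algebraMap k L) x⁻¹ R
  have h2 : (⅟ x⁻¹ : L) = x := by
    rw [invOf_eq_inv, inv_inv]
  rw [h2] at h1
  have h3 : Polynomial.aeval x (R.reverse) = Polynomial.aeval x⁻¹ R * x ^ R.natDegree := by
    rw [Polynomial.aeval_def, Polynomial.aeval_def, ← h1, mul_assoc, ← mul_pow,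
      inv_mul_cancel₀ hx0, one_pow, mul_one]
  have h4 : Polynomial.X ^ R.natDegree * P = Polynomial.X ^ i * R.reverse := by
    have h5 : Polynomial.aeval x (Polynomial.X ^ R.natDegree * P - Polynomial.X ^ i * R.reverse)
        = 0 := by
      rw [map_sub, map_mul, map_mul, map_pow, map_pow, Polynomial.aeval_X, h3, h]
      ring
    by_contra hcon
    exact hx ⟨_, sub_ne_zero.2 hcon, h5⟩
  by_cases hP : P = 0
  · rw [hP, Polynomial.natDegree_zero]
    exact Nat.zero_le _
  · have h6 : (Polynomial.X ^ R.natDegree * P).natDegree = R.natDegree + P.natDegree := by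
      rw [Polynomial.natDegree_mul (pow_ne_zero _ Polynomial.X_ne_zero) hP,
        Polynomial.natDegree_X_pow]
    have h7 : (Polynomial.X ^ i * R.reverse).natDegree ≤ i + R.natDegree := by
      refine Polynomial.natDegree_mul_le.trans ?_
      rw [Polynomial.natDegree_X_pow]
      exact Nat.add_le_add_left (Polynomial.reverse_natDegree_le R) i
    rw [h4] at h6
    omega

omit [IsAlgClosed k] [CharZero k] in
private theorem VChar_totalDegree (P : Polynomial k) :
    (Polynomial.aeval (MvPolynomial.X 0 : MvPolynomial (Fin 2) k) P).totalDegree ≤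
      P.natDegree := by
  rw [Polynomial.aeval_eq_sum_range]
  refine (MvPolynomial.totalDegree_finsetSum _ _).trans ?_
  apply Finset.sup_le
  intro i hi
  refine (MvPolynomial.totalDegree_smul_le _ _).trans ?_
  rw [MvPolynomial.totalDegree_X_pow]
  exact Nat.lt_succ_iff.1 (Finset.mem_range.1 hi)

/-- V16. -/
theorem exists_relation_of_bounded (hL : IsCurveField k L) {x : L}
    (hx : x ∉ Set.range (algebraMap k L)) {w : L} (hw1 : Fin' k x w)
    (hw2 : ∀ O : ValuationSubring L, Over k O → x ∉ O → w / x ∈ O) :
    ∃ H : MvPolynomial (Fin 2) k, H ≠ 0 ∧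
      H.totalDegree ≤ Module.finrank (IntermediateField.adjoin k ({x} : Set L)) L ∧
      MvPolynomial.aeval ![x, w] H = 0 := by
  have htr := transcendental_of_not_mem_range hx
  have hx0 : x ≠ 0 := by
    rintro rfl
    exact hx ⟨0, map_zero _⟩
  have hfin := hL.finiteDimensional hx
  set E : IntermediateField k L := IntermediateField.adjoin k ({x} : Set L) with hE
  have hxE : x ∈ E := IntermediateField.subset_adjoin k _ rfl
  have hE' : E = IntermediateField.adjoin k ({x⁻¹} : Set L) := by
    rw [hE]
    apply le_antisymm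
    · rw [IntermediateField.adjoin_le_iff]
      intro y hy
      rw [Set.mem_singleton_iff] at hy
      rw [hy]
      have h1 : x⁻¹ ∈ IntermediateField.adjoin k ({x⁻¹} : Set L) :=
        IntermediateField.subset_adjoin k _ rfl
      have h2 := inv_mem h1
      rwa [inv_inv] at h2
    · rw [IntermediateField.adjoin_le_iff]
      intro y hy
      rw [Set.mem_singleton_iff] at hy
      rw [hy]
      exact inv_mem hxE
  have hwi : IsIntegral (Algebra.adjoin k ({x} : Set L)) w := isIntegral_of_forall_mem hw1
  have hwi' : IsIntegral (Algebra.adjoin k ({x⁻¹} : Set L)) (w / x) := by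
    apply isIntegral_of_forall_mem
    intro O hO hxO
    by_cases h : x ∈ O
    · rw [div_eq_mul_inv]
      exact mul_mem (hw1 O hO h) hxO
    · exact hw2 O hO h
  set m := minpoly E w with hm
  set g := minpoly E (w / x) with hg
  have hwE : IsIntegral E w := Algebra.IsIntegral.isIntegral w
  have hgE : IsIntegral E (w / x) := Algebra.IsIntegral.isIntegral _
  have hgm : g.Monic := minpoly.monic hgE
  set xE : E := ⟨x, hxE⟩ with hxEd
  have hxE0 : xE ≠ 0 := by
    intro h0
    exact hx0 (congrArg Subtype.val h0)
  have hxa : algebraMap E L xE = x := rfl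
  have hmg : g.scaleRoots xE = m := by
    apply minpoly.unique
    · exact (Polynomial.monic_scaleRoots_iff _).2 hgm
    · have h1 := Polynomial.scaleRoots_aeval_eq_zero (r := xE) (minpoly.aeval E (w / x))
      rw [hxa, mul_div_cancel₀ _ hx0] at h1
      exact h1
    · intro q hq hqw
      have h1 := Polynomial.scaleRoots_aeval_eq_zero (r := xE⁻¹) hqw
      rw [map_inv₀, hxa, inv_mul_eq_div] at h1
      have h2 := minpoly.min E (w / x) ((Polynomial.monic_scaleRoots_iff xE⁻¹).2 hq) h1
      rw [Polynomial.degree_scaleRoots] at h2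
      rw [Polynomial.degree_scaleRoots]
      exact h2
  have hdeg : m.natDegree = g.natDegree := by
    rw [← hmg, Polynomial.natDegree_scaleRoots]
  choose P hP using fun j => VChar_coeff x E hE hwi j
  choose R hR using fun j => VChar_coeff x⁻¹ E hE' hwi' j
  have hPd : ∀ j, (P j).natDegree ≤ m.natDegree - j := by
    intro j
    apply VChar_deg htr (R := R j)
    rw [← hP, ← hR, ← hm, ← hg, ← hmg, Polynomial.coeff_scaleRoots, map_mul, map_pow, hxa,
      Polynomial.natDegree_scaleRoots]
  set H : MvPolynomial (Fin 2) k := ∑ j ∈ Finset.range (m.natDegree + 1),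
    Polynomial.aeval (MvPolynomial.X 0 : MvPolynomial (Fin 2) k) (P j) * MvPolynomial.X 1 ^ j
    with hH
  refine ⟨H, ?_, ?_, ?_⟩
  · intro h0
    have h1 : MvPolynomial.aeval ![Polynomial.C x, (Polynomial.X : Polynomial L)] H =
        m.map (algebraMap E L) := by
      rw [hH, map_sum, Polynomial.as_sum_range_C_mul_X_pow (m.map (algebraMap E L)),
        Polynomial.natDegree_map]
      apply Finset.sum_congr rfl
      intro j _
      rw [map_mul, map_pow, MvPolynomial.aeval_X, ← Polynomial.aeval_algHom_apply,
        MvPolynomial.aeval_X, Polynomial.coeff_map, hP j]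
      have h2 : (![Polynomial.C x, (Polynomial.X : Polynomial L)] 0) =
          algebraMap L (Polynomial L) x := rfl
      have h3 : (![Polynomial.C x, (Polynomial.X : Polynomial L)] 1) = Polynomial.X := rfl
      rw [h2, h3, Polynomial.aeval_algebraMap_apply]
      rfl
    rw [h0, map_zero] at h1
    exact (((minpoly.monic hwE).map (algebraMap E L)).ne_zero) h1.symm
  · have h0 : m.natDegree ≤ Module.finrank E L := minpoly.natDegree_le (A := E) w
    refine le_trans ?_ h0
    rw [hH]
    refine (MvPolynomial.totalDegree_finsetSum _ _).trans ?_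
    apply Finset.sup_le
    intro j hj
    have hj' : j ≤ m.natDegree := Nat.lt_succ_iff.1 (Finset.mem_range.1 hj)
    refine (MvPolynomial.totalDegree_mul _ _).trans ?_
    rw [MvPolynomial.totalDegree_X_pow]
    have h1 := VChar_totalDegree (P j)
    have h2 := hPd j
    omega
  · rw [hH, map_sum]
    have h1 := minpoly.aeval E w
    rw [← hm, Polynomial.aeval_eq_sum_range] at h1
    rw [← h1]
    apply Finset.sum_congr rfl
    intro j _
    rw [map_mul, map_pow, MvPolynomial.aeval_X, ← Polynomial.aeval_algHom_apply,
      MvPolynomial.aeval_X, Algebra.smul_def, hP j]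
    rfl

end MP60829e.PS
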