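import Mathlib
import Pool.Agent.Lib.MP_60829e_nt.PS.SPrep
import Pool.Agent.Lib.MP_60829e_nt.PS.VChar

/-! Relation of bounded degree for the elements of `F(x, y)` with poles bounded by `x`
(task S5c). -/

namespace MP60829e.PS

open MvPolynomial MP60829e.S

private theorem SBound_surj {F M : Type*} [Field F] [Field M] [Algebra F M] (z : M) :
    Function.Surjective (Polynomial.aeval
      (⟨z, Algebra.subset_adjoin rfl⟩ : Algebra.adjoin F ({z} : Set M)) :
        Polynomial F →ₐ[F] Algebra.adjoin F ({z} : Set M)) := by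
  rintro ⟨a, ha⟩
  have ha' := ha
  rw [Algebra.adjoin_singleton_eq_range_aeval] at ha'
  obtain ⟨p, hp⟩ := ha'
  refine ⟨p, ?_⟩
  apply Subtype.ext
  rw [Polynomial.aeval_subalgebra_coe]
  exact hp

private theorem SBound_transfer {F L M : Type*} [Field F] [Field L] [Field M] [Algebra F L]
    [Algebra F M] (ι : L →ₐ[F] M) {z w : L}
    (h : IsIntegral (Algebra.adjoin F ({ι z} : Set M)) (ι w)) :
    IsIntegral (Algebra.adjoin F ({z} : Set L)) w := by
  obtain ⟨p, hp, hpw⟩ := h
  set f : Polynomial F →ₐ[F] Algebra.adjoin F ({ι z} : Set M) := Polynomial.aeval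
      (⟨ι z, Algebra.subset_adjoin rfl⟩ : Algebra.adjoin F ({ι z} : Set M)) with hf
  have hsurj : Function.Surjective f := SBound_surj (ι z)
  have hl : p ∈ Polynomial.lifts (f : Polynomial F →+* Algebra.adjoin F ({ι z} : Set M)) := by
    rw [Polynomial.mem_lifts]
    exact Polynomial.map_surjective _ hsurj p
  obtain ⟨q, hq1, -, hq3⟩ := Polynomial.lifts_and_natDegree_eq_and_monic hl hp
  set g : Polynomial F →ₐ[F] Algebra.adjoin F ({z} : Set L) := Polynomial.aeval
      (⟨z, Algebra.subset_adjoin rfl⟩ : Algebra.adjoin F ({z} : Set L)) with hg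
  refine ⟨q.map (g : Polynomial F →+* Algebra.adjoin F ({z} : Set L)), hq3.map _, ?_⟩
  rw [Polynomial.eval₂_map]
  have h1 := Polynomial.hom_eval₂ q ((algebraMap (Algebra.adjoin F ({z} : Set L)) L).comp
    (g : Polynomial F →+* Algebra.adjoin F ({z} : Set L))) (ι : L →+* M) w
  apply (ι : L →+* M).injective
  rw [map_zero]
  refine h1.trans ?_
  rw [← hq1, Polynomial.eval₂_map] at hpw
  refine Eq.trans ?_ hpw
  have h2 : (ι : L →+* M).comp ((algebraMap (Algebra.adjoin F ({z} : Set L)) L).comp
      (g : Polynomial F →+* Algebra.adjoin F ({z} : Set L))) =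
      (algebraMap (Algebra.adjoin F ({ι z} : Set M)) M).comp
      (f : Polynomial F →+* Algebra.adjoin F ({ι z} : Set M)) := ?_
  · rw [h2]
    rfl
  apply Polynomial.ringHom_ext
  · intro a
    simp only [RingHom.comp_apply, RingHom.coe_coe]
    rw [hf, hg, Polynomial.aeval_C, Polynomial.aeval_C]
    show ι (algebraMap F L a) = algebraMap F M a
    exact ι.commutes a
  · simp only [RingHom.comp_apply, RingHom.coe_coe]
    rw [hf, hg, Polynomial.aeval_X, Polynomial.aeval_X]
    rfl

/-- S5c. -/
theorem exists_relation_in {F M : Type*} [Field F] [IsAlgClosed F] [CharZero F] [Field M]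
    [Algebra F M] {x y w : M} (hx : x ∉ Set.range (algebraMap F M)) {C : ℕ}
    {f : MvPolynomial (Fin 2) F} (hf0 : f ≠ 0) (hfC : f.totalDegree ≤ C)
    (hf : aeval ![x, y] f = 0) (hw : w ∈ IntermediateField.adjoin F ({x, y} : Set M))
    (hw1 : ∀ O : ValuationSubring M, Over F O → x ∈ O → w ∈ O)
    (hw2 : ∀ O : ValuationSubring M, Over F O → x ∉ O → w / x ∈ O) :
    ∃ H : MvPolynomial (Fin 2) F, H ≠ 0 ∧ H.totalDegree ≤ C ∧ aeval ![x, w] H = 0 := by
  set L : IntermediateField F M := IntermediateField.adjoin F ({x, y} : Set M) with hL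
  have hxL : x ∈ L := IntermediateField.subset_adjoin F _ (by simp)
  have hyL : y ∈ L := IntermediateField.subset_adjoin F _ (by simp)
  set x' : L := ⟨x, hxL⟩ with hx'
  set y' : L := ⟨y, hyL⟩ with hy'
  set w' : L := ⟨w, hw⟩ with hw'
  have hx'r : x' ∉ Set.range (algebraMap F L) := by
    rintro ⟨c, hc⟩
    apply hx
    refine ⟨c, ?_⟩
    have := congrArg (L.val) hc
    simpa using this
  have hvec : ∀ a b : L, (fun i => L.val (![a, b] i)) = ![(a : M), (b : M)] := by
    intro a b
    funext i
    fin_cases i <;> rfl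
  have hae : ∀ (a b : L) (H : MvPolynomial (Fin 2) F),
      L.val (aeval ![a, b] H) = aeval ![(a : M), (b : M)] H := by
    intro a b H
    rw [← hvec a b, ← MvPolynomial.comp_aeval_apply]
  have hf' : aeval ![x', y'] f = 0 := by
    have h1 := hae x' y' f
    have h2 : L.val (aeval ![x', y'] f) = L.val 0 := by
      rw [h1, map_zero]
      exact hf
    exact (L.val : L →+* M).injective h2
  have hgen : IntermediateField.adjoin F ({x', y'} : Set L) = ⊤ := by
    have hinj : Function.Injective (IntermediateField.map (L.val)) :=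
      IntermediateField.map_injective _
    apply hinj
    rw [IntermediateField.adjoin_map, ← AlgHom.fieldRange_eq_map, IntermediateField.fieldRange_val]
    have : L.val '' ({x', y'} : Set L) = {x, y} := by
      rw [Set.image_pair]
      rfl
    rw [this]
  obtain ⟨hfin, hrank⟩ := finrank_le_of_relation hgen (transcendental_of_not_mem_range hx'r)
    hf0 hfC hf'
  have hcurve : IsCurveField F L := ⟨x', hfin⟩
  have hx0 : x ≠ 0 := by
    rintro rfl
    exact hx ⟨0, map_zero _⟩
  have hi1 : IsIntegral (Algebra.adjoin F ({x} : Set M)) w := isIntegral_of_forall_mem hw1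
  have hi2 : IsIntegral (Algebra.adjoin F ({x⁻¹} : Set M)) (w / x) := by
    apply isIntegral_of_forall_mem
    intro O hO hxO
    by_cases h : x ∈ O
    · rw [div_eq_mul_inv]
      exact mul_mem (hw1 O hO h) hxO
    · exact hw2 O hO h
  have hi1' : IsIntegral (Algebra.adjoin F ({x'} : Set L)) w' := by
    apply SBound_transfer L.val
    exact hi1
  have hi2' : IsIntegral (Algebra.adjoin F ({x'⁻¹} : Set L)) (w' / x') := by
    apply SBound_transfer L.val
    rw [map_inv₀, map_div₀]
    exact hi2
  obtain ⟨H, hH0, hHd, hHa⟩ := exists_relation_of_bounded hcurve hx'r (w := w')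
    (fun O hO hxO => mem_of_isIntegral hi1' O hO hxO) (fun O hO hxO => by
      apply mem_of_isIntegral hi2' O hO
      rcases O.mem_or_inv_mem x' with h | h
      · exact absurd h hxO
      · exact h)
  refine ⟨H, hH0, hHd.trans hrank, ?_⟩
  have h1 := hae x' w' H
  rw [hHa, map_zero] at h1
  exact h1.symm

end MP60829e.PS
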