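import Mathlib
import Pool.Agent.Lib.MP_60829e_nt.PS.SDefs
import Pool.Agent.Lib.MP_60829e_nt.PS.DGlue

/-! Linear combinations (task S0'). -/

namespace MP60829e.PS

variable {k K : Type*} [Field k] [Field K] [Algebra k K] {n : ℕ}

theorem lc_add (e : Fin n → K) (c d : Fin n → k) : lc e (c + d) = lc e c + lc e d := by
  simp only [lc, Pi.add_apply, map_add, add_mul, Finset.sum_add_distrib]

theorem lc_smul (e : Fin n → K) (a : k) (c : Fin n → k) :
    lc e (a • c) = algebraMap k K a * lc e c := by
  simp only [lc, Pi.smul_apply, smul_eq_mul, map_mul, Finset.mul_sum, mul_assoc]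

theorem mem_span_iff_exists_lc {e : Fin n → K} {x : K} :
    x ∈ Submodule.span k (Set.range e) ↔ ∃ c : Fin n → k, x = lc e c := by
  rw [Submodule.mem_span_range_iff_exists_fun]
  simp only [lc, Algebra.smul_def, eq_comm]

/-- A constant linear combination is trivial. -/
theorem eq_zero_of_lc_mem_range {e : Fin n → K}
    (he : LinearIndependent k (Fin.cons (1 : K) e : Fin (n + 1) → K)) {c : Fin n → k}
    (hc : lc e c ∈ Set.range (algebraMap k K)) : c = 0 := by
  obtain ⟨a, ha⟩ := hc
  have h := Fintype.linearIndependent_iff.1 he (Fin.cons (-a) c) (by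
    rw [Fin.sum_univ_succ]
    simp only [Fin.cons_zero, Fin.cons_succ, Algebra.smul_def, map_neg, mul_one]
    have h1 : ∑ i, algebraMap k K (c i) * e i = lc e c := rfl
    rw [h1, ha, neg_add_cancel])
  funext i
  have h2 := h i.succ
  rwa [Fin.cons_succ] at h2

/-- Linear disjointness transports the independence of `1, e`. -/
theorem LinDisj.cons_one {F M : Type*} [Field F] [Field M] [Algebra F M]
    [Algebra K M] (hLD : LinDisj k F K M) {e : Fin n → K}
    (he : LinearIndependent k (Fin.cons (1 : K) e : Fin (n + 1) → K)) :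
    LinearIndependent F
      (Fin.cons (1 : M) (fun i => algebraMap K M (e i)) : Fin (n + 1) → M) := by
  have h := hLD (n + 1) _ he
  convert h using 1
  funext i
  refine Fin.cases ?_ (fun j => ?_) i
  · simp
  · simp

end MP60829e.PS
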