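import Mathlib
import Pool.Agent.Lib.MP_60829e_nt.PS.SLc
import Pool.Agent.Lib.MP_60829e_nt.PS.DDer

/-! Descent along derivations (task S4). -/

namespace MP60829e.PS

/-- S4. A nonzero subspace stable under all derivations contains a nonzero standard vector. -/
theorem exists_standard {k F : Type*} [Field k] [IsAlgClosed k] [CharZero k] [Field F]
    [Algebra k F] {n : ℕ} (W : Submodule F (Fin n → F)) (hW : W ≠ ⊥)
    (hD : ∀ D : Derivation k F F, ∀ w ∈ W, (fun i => D (w i)) ∈ W) :
    ∃ c : Fin n → k, c ≠ 0 ∧ (fun i => algebraMap k F (c i)) ∈ W := by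
  classical
  let P : ℕ → Prop := fun m => ∃ w ∈ W, w ≠ 0 ∧
    (Finset.univ.filter (fun i => w i ≠ 0)).card = m
  have hex : ∃ m, P m := by
    obtain ⟨w, hw, hw0⟩ := Submodule.exists_mem_ne_zero_of_ne_bot hW
    exact ⟨_, w, hw, hw0, rfl⟩
  obtain ⟨w, hw, hw0, hcard⟩ := Nat.find_spec hex
  have hmin : ∀ v ∈ W, (Finset.univ.filter (fun i => v i ≠ 0)).card < Nat.find hex → v = 0 := by
    intro v hv hlt
    by_contra hv0
    exact Nat.find_min hex hlt ⟨v, hv, hv0, rfl⟩
  obtain ⟨i0, hi0⟩ := Function.ne_iff.mp hw0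
  simp only [Pi.zero_apply] at hi0
  set w' : Fin n → F := (w i0)⁻¹ • w with hw'def
  have hw'W : w' ∈ W := W.smul_mem _ hw
  have hw'i0 : w' i0 = 1 := by
    simp [hw'def, inv_mul_cancel₀ hi0]
  have hsupp : ∀ i, w' i ≠ 0 → w i ≠ 0 := by
    intro i hi h
    apply hi
    simp [hw'def, h]
  have hzero : ∀ (D : Derivation k F F) (i : Fin n), D (w' i) = 0 := by
    intro D i
    have hv := hD D w' hw'W
    have hlt : (Finset.univ.filter (fun i => (fun i => D (w' i)) i ≠ 0)).card < Nat.find hex := by
      rw [← hcard]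
      apply Finset.card_lt_card
      rw [Finset.ssubset_iff_of_subset]
      · refine ⟨i0, by simp [hi0], ?_⟩
        simp [hw'i0]
      · intro j hj
        simp only [Finset.mem_filter, Finset.mem_univ, true_and] at hj ⊢
        intro h
        apply hj
        have h2 : w' j = 0 := by simp [hw'def, h]
        rw [h2, map_zero]
    have := hmin _ hv hlt
    exact congrFun this i
  have hmem : ∀ i, w' i ∈ Set.range (algebraMap k F) := fun i =>
    mem_range_of_forall_derivation (fun D => hzero D i)
  choose c hc using hmem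
  refine ⟨c, ?_, ?_⟩
  · intro h
    have h1 := hc i0
    rw [h, hw'i0] at h1
    simp at h1
  · have : (fun i => algebraMap k F (c i)) = w' := funext hc
    rw [this]
    exact hw'W

end MP60829e.PS
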