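import Mathlib
import Pool.Agent.Lib.MP_60829e_nt.PS.SLc
import Pool.Agent.Lib.MP_60829e_nt.PS.SDescent
import Pool.Agent.Lib.MP_60829e_nt.PS.RRigid
import Pool.Agent.Lib.MP_60829e_nt.PS.SBound

/-! The generic member of a family of dependent pairs (task S5). -/

namespace MP60829e.PS

open MvPolynomial MP60829e.S

private theorem sgeneric_lc_zero {F M : Type*} [Field F] [Field M] [Algebra F M] {n : ℕ}
    (e : Fin n → M) : lc e (0 : Fin n → F) = 0 := by
  simp [lc]

/-- The coordinates of the elements of `L` with poles bounded by `x`. -/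
private def sgenericW {F M : Type*} [Field F] [Field M] [Algebra F M] {n : ℕ} (e : Fin n → M)
    (L : IntermediateField F M) (x : M) : Submodule F (Fin n → F) where
  carrier := {w | lc e w ∈ L ∧ ∀ O : ValuationSubring M, Over F O →
    (x ∈ O → lc e w ∈ O) ∧ (x ∉ O → lc e w / x ∈ O)}
  add_mem' := by
    rintro a b ⟨ha, ha'⟩ ⟨hb, hb'⟩
    refine ⟨by rw [lc_add]; exact add_mem ha hb, fun O hO => ⟨fun hx => ?_, fun hx => ?_⟩⟩
    · rw [lc_add]; exact add_mem ((ha' O hO).1 hx) ((hb' O hO).1 hx)
    · rw [lc_add, add_div]; exact add_mem ((ha' O hO).2 hx) ((hb' O hO).2 hx)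
  zero_mem' := by
    refine ⟨by rw [sgeneric_lc_zero]; exact zero_mem _, fun O hO => ⟨fun hx => ?_, fun hx => ?_⟩⟩
    · rw [sgeneric_lc_zero]; exact zero_mem _
    · rw [sgeneric_lc_zero, zero_div]; exact zero_mem _
  smul_mem' := by
    rintro a b ⟨hb, hb'⟩
    refine ⟨by rw [lc_smul]; exact mul_mem (L.algebraMap_mem a) hb,
      fun O hO => ⟨fun hx => ?_, fun hx => ?_⟩⟩
    · rw [lc_smul]; exact mul_mem (hO a) ((hb' O hO).1 hx)
    · rw [lc_smul, mul_div_assoc]; exact mul_mem (hO a) ((hb' O hO).2 hx)

private theorem sgeneric_der_lc {k F K M : Type*} [Field k] [Field F] [Field K] [Field M]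
    [Algebra k F] [Algebra k K] [Algebra k M] [Algebra F M] [Algebra K M]
    {D : Derivation k F F} {δ : Derivation k M M}
    (hK : ∀ a : K, δ (algebraMap K M a) = 0)
    (hF : ∀ c : F, δ (algebraMap F M c) = algebraMap F M (D c)) {n : ℕ} (e : Fin n → K)
    (w : Fin n → F) :
    δ (lc (fun i => algebraMap K M (e i)) w)
      = lc (fun i => algebraMap K M (e i)) (fun i => D (w i)) := by
  unfold lc
  rw [map_sum]
  refine Finset.sum_congr rfl fun i _ => ?_
  rw [Derivation.leibniz, hK, hF, smul_zero, zero_add, smul_eq_mul, mul_comm]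

/-- S5. A dependent pair of `F`-combinations of `e` in the compositum is parametrised by
polynomials, or its class contains a nonzero standard element. -/
theorem generic {k F K M : Type*} [Field k] [IsAlgClosed k] [CharZero k] [Field F]
    [IsAlgClosed F] [CharZero F] [Field K] [Field M]
    [Algebra k F] [Algebra k K] [Algebra k M] [Algebra F M] [Algebra K M]
    [IsScalarTower k F M] [IsScalarTower k K M] (hLD : LinDisj k F K M)
    (hgen : IntermediateField.adjoin F (Set.range (algebraMap K M)) = ⊤)
    (hK : IsCurveField k K) {n : ℕ} (e : Fin n → K)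
    (he : LinearIndependent k (Fin.cons (1 : K) e : Fin (n + 1) → K))
    (c d : Fin n → F) (hc : c ≠ 0) (C : ℕ) (f : MvPolynomial (Fin 2) F) (hf0 : f ≠ 0)
    (hfC : f.totalDegree ≤ C)
    (hf : aeval ![lc (fun i => algebraMap K M (e i)) c, lc (fun i => algebraMap K M (e i)) d] f
      = 0) :
    (∃ u ∈ IntermediateField.adjoin F ({lc (fun i => algebraMap K M (e i)) c,
        lc (fun i => algebraMap K M (e i)) d} : Set M), ∃ P R : Polynomial F,
      lc (fun i => algebraMap K M (e i)) c = Polynomial.aeval u P ∧
      lc (fun i => algebraMap K M (e i)) d = Polynomial.aeval u R) ∨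
    ∃ (s : k) (c₀ : Fin n → k), c₀ ≠ 0 ∧ ∃ H : MvPolynomial (Fin 2) F, H ≠ 0 ∧
      H.totalDegree ≤ C ∧
      aeval ![lc (fun i => algebraMap K M (e i)) (fun i => c i + algebraMap k F s * d i),
        lc (fun i => algebraMap K M (e i)) (fun i => algebraMap k F (c₀ i))] H = 0 ∧
      (fun i => c i + algebraMap k F s * d i) ≠ 0 := by
  set e' : Fin n → M := fun i => algebraMap K M (e i) with he'
  set x : M := lc e' c with hx
  set y : M := lc e' d with hy
  have hS : ({s : k | (fun i => c i + algebraMap k F s * d i) = 0} : Set k).Finite := by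
    apply Set.Subsingleton.finite
    intro s hs t ht
    by_contra hst
    apply hc
    have hs' : ∀ i, c i + algebraMap k F s * d i = 0 := fun i => congrFun hs i
    have ht' : ∀ i, c i + algebraMap k F t * d i = 0 := fun i => congrFun ht i
    have hne : algebraMap k F s - algebraMap k F t ≠ 0 := by
      rw [← map_sub]
      exact (map_ne_zero _).2 (sub_ne_zero.2 hst)
    funext i
    have h1 : (algebraMap k F s - algebraMap k F t) * d i = 0 := by
      linear_combination hs' i - ht' i
    have h2 : d i = 0 := (mul_eq_zero.1 h1).resolve_left hne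
    have h3 := hs' i
    rw [h2, mul_zero, add_zero] at h3
    exact h3
  have : Infinite k := CharZero.infinite k
  obtain ⟨s, hsS, hint, f', hf'0, hf'C, hf'⟩ := exists_good_shift (k := k) (x := x) (y := y)
    hf0 hfC hf _ hS
  set cs : Fin n → F := fun i => c i + algebraMap k F s * d i with hcs
  have hcs0 : cs ≠ 0 := hsS
  have hcs_eq : cs = c + (algebraMap k F s) • d := by
    funext i; rfl
  set x' : M := x + algebraMap F M (algebraMap k F s) * y with hx'
  have hx'lc : x' = lc e' cs := by
    rw [hcs_eq, lc_add, lc_smul]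
  have hx'F : x' ∉ Set.range (algebraMap F M) := by
    intro h
    rw [hx'lc] at h
    exact hcs0 (eq_zero_of_lc_mem_range (LinDisj.cons_one hLD he) h)
  have hx'0 : x' ≠ 0 := by
    intro h
    exact hx'F ⟨0, by rw [h, map_zero]⟩
  have hx'span : x' ∈ Submodule.span F (Set.range (algebraMap K M)) := by
    rw [hx'lc]
    unfold lc
    refine Submodule.sum_mem _ fun i _ => ?_
    rw [← Algebra.smul_def]
    exact Submodule.smul_mem _ _ (Submodule.subset_span ⟨e i, rfl⟩)
  set L : IntermediateField F M := IntermediateField.adjoin F ({x', y} : Set M) with hL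
  have hLeq : L = IntermediateField.adjoin F ({x, y} : Set M) := by
    apply le_antisymm
    · rw [hL, IntermediateField.adjoin_le_iff]
      have h1 : x ∈ IntermediateField.adjoin F ({x, y} : Set M) :=
        IntermediateField.subset_adjoin F _ (by simp)
      have h2 : y ∈ IntermediateField.adjoin F ({x, y} : Set M) :=
        IntermediateField.subset_adjoin F _ (by simp)
      rintro z (rfl | rfl)
      · exact add_mem h1 (mul_mem (IntermediateField.algebraMap_mem _ _) h2)
      · exact h2
    · rw [IntermediateField.adjoin_le_iff]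
      have h1 : x' ∈ L := IntermediateField.subset_adjoin F _ (by simp)
      have h2 : y ∈ L := IntermediateField.subset_adjoin F _ (by simp)
      rintro z (rfl | rfl)
      · have h3 : x = x' - algebraMap F M (algebraMap k F s) * y := by rw [hx']; ring
        rw [h3]
        exact sub_mem h1 (mul_mem (IntermediateField.algebraMap_mem _ _) h2)
      · exact h2
  by_cases hA : ∃ u ∈ L, ∃ P R : Polynomial F, x' = Polynomial.aeval u P ∧
      y = Polynomial.aeval u R
  · left
    obtain ⟨u, hu, P, R, hP, hR⟩ := hA
    refine ⟨u, by rw [← hLeq]; exact hu, P - Polynomial.C (algebraMap k F s) * R, R, ?_, hR⟩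
    rw [map_sub, map_mul, Polynomial.aeval_C, ← hP, ← hR, hx']
    ring
  · right
    have hstab : ∀ (D : Derivation k F F) (δ : Derivation k M M),
        GlueData (K := K) D δ → ∀ z ∈ L, δ z ∈ L := by
      intro D δ G
      exact (rigid G hx'span hx'F hint).resolve_right hA
    have hWne : sgenericW e' L x' ≠ ⊥ := by
      intro h
      have h1 : cs ∈ sgenericW e' L x' := by
        refine ⟨?_, fun O hO => ⟨fun h => ?_, fun h => ?_⟩⟩
        · rw [← hx'lc]; exact IntermediateField.subset_adjoin F _ (by simp)
        · rw [← hx'lc]; exact h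
        · rw [← hx'lc, div_self hx'0]; exact one_mem _
      rw [h, Submodule.mem_bot] at h1
      exact hcs0 h1
    have hWD : ∀ D : Derivation k F F, ∀ w ∈ sgenericW e' L x',
        (fun i => D (w i)) ∈ sgenericW e' L x' := by
      intro D w hw
      obtain ⟨δ, hδK, hδF⟩ := exists_glue hLD D
      have G : GlueData (K := K) D δ := ⟨hLD, hgen, hK, hδK, hδF⟩
      have hδw : δ (lc e' w) = lc e' (fun i => D (w i)) := sgeneric_der_lc hδK hδF e w
      refine ⟨?_, fun O hO => ⟨fun h => ?_, fun h => ?_⟩⟩
      · rw [← hδw]; exact hstab D δ G _ hw.1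
      · rw [← hδw]
        by_cases hKO : ∀ a : K, algebraMap K M a ∈ O
        · exact der_mem_of_le G O hO hKO ((hw.2 O hO).1 h)
        · push Not at hKO
          by_cases hz : lc e' w = 0
          · rw [hz, map_zero]; exact zero_mem _
          · have h1 := logder_mem G O hO hKO hz
            have h2 : δ (lc e' w) = (δ (lc e' w) / lc e' w) * lc e' w := by
              field_simp
            rw [h2]
            exact mul_mem h1 ((hw.2 O hO).1 h)
      · rw [← hδw]
        have hKO : ∃ a : K, algebraMap K M a ∉ O := by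
          by_contra hcon
          push Not at hcon
          apply h
          have h1 : Submodule.span F (Set.range (algebraMap K M)) ≤
              (Subalgebra.toSubmodule
                ({ O.toSubring with algebraMap_mem' := hO } : Subalgebra F M)) := by
            rw [Submodule.span_le]
            rintro _ ⟨a, rfl⟩
            exact hcon a
          exact h1 hx'span
        by_cases hz : lc e' w = 0
        · rw [hz, map_zero, zero_div]; exact zero_mem _
        · have h1 := logder_mem G O hO hKO hz
          have h2 : δ (lc e' w) / x' = (δ (lc e' w) / lc e' w) * (lc e' w / x') := by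
            field_simp
          rw [h2]
          exact mul_mem h1 ((hw.2 O hO).2 h)
    obtain ⟨c₀, hc₀, hc₀W⟩ := exists_standard (sgenericW e' L x') hWne hWD
    obtain ⟨H, hH0, hHC, hH⟩ := exists_relation_in (x := x') (y := y)
      (w := lc e' (fun i => algebraMap k F (c₀ i))) hx'F hf'0 hf'C hf' hc₀W.1
      (fun O hO h => (hc₀W.2 O hO).1 h) (fun O hO h => (hc₀W.2 O hO).2 h)
    refine ⟨s, c₀, hc₀, H, hH0, hHC, ?_, hcs0⟩
    rw [← hx'lc]
    exact hH

end MP60829e.PS
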