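import Mathlib
import Pool.Agent.Lib.MP_60829e_nt.PS.SGeneric

/-! The generic member of a family of dependent pairs, in a big field (task S5'). -/

namespace MP60829e.PS

open MvPolynomial MP60829e.S

private theorem sgb_lc {F M : Type*} [Field F] [Field M] [Algebra F M] (M₁ : IntermediateField F M)
    {n : ℕ} (e : Fin n → M₁) (c : Fin n → F) :
    ((lc e c : M₁) : M) = lc (fun i => (e i : M)) c := by
  unfold lc
  push_cast
  rfl

private theorem sgb_aeval {F M : Type*} [Field F] [Field M] [Algebra F M]
    (M₁ : IntermediateField F M) (x y : M₁) (f : MvPolynomial (Fin 2) F) :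
    ((aeval ![x, y] f : M₁) : M) = aeval ![(x : M), (y : M)] f := by
  have h1 := MvPolynomial.aeval_algebraMap_apply (B := M) ![x, y] f
  have h2 : (algebraMap M₁ M ∘ ![x, y]) = ![(x : M), (y : M)] := by
    funext i
    fin_cases i <;> rfl
  rw [h2] at h1
  exact h1.symm

/-- S5'. The same without assuming that `M` is generated by `K` and `F`: a dependent pair is parametrised by
polynomials, or its class contains a nonzero standard element. -/
theorem generic_big {k F K M : Type*} [Field k] [IsAlgClosed k] [CharZero k] [Field F]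
    [IsAlgClosed F] [CharZero F] [Field K] [Field M]
    [Algebra k F] [Algebra k K] [Algebra k M] [Algebra F M] [Algebra K M]
    [IsScalarTower k F M] [IsScalarTower k K M] (hLD : LinDisj k F K M)
    (hK : IsCurveField k K) {n : ℕ} (e : Fin n → K)
    (he : LinearIndependent k (Fin.cons (1 : K) e : Fin (n + 1) → K))
    (c d : Fin n → F) (hc : c ≠ 0) (C : ℕ) (f : MvPolynomial (Fin 2) F) (hf0 : f ≠ 0)
    (hfC : f.totalDegree ≤ C)
    (hf : aeval ![lc (fun i => algebraMap K M (e i)) c, lc (fun i => algebraMap K M (e i)) d] f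
      = 0) :
    (∃ u ∈ IntermediateField.adjoin F ({lc (fun i => algebraMap K M (e i)) c,
        lc (fun i => algebraMap K M (e i)) d} : Set M), ∃ P R : Polynomial F,
      lc (fun i => algebraMap K M (e i)) c = Polynomial.aeval u P ∧
      lc (fun i => algebraMap K M (e i)) d = Polynomial.aeval u R) ∨
    ∃ (s : k) (c₀ : Fin n → k), c₀ ≠ 0 ∧ ∃ H : MvPolynomial (Fin 2) F, H ≠ 0 ∧
      H.totalDegree ≤ C ∧
      aeval ![lc (fun i => algebraMap K M (e i)) (fun i => c i + algebraMap k F s * d i),
        lc (fun i => algebraMap K M (e i)) (fun i => algebraMap k F (c₀ i))] H = 0 ∧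
      (fun i => c i + algebraMap k F s * d i) ≠ 0 := by
  set M₁ := IntermediateField.adjoin F (Set.range (algebraMap K M)) with hM₁
  have hmem : ∀ a : K, algebraMap K M a ∈ M₁ := fun a =>
    IntermediateField.subset_adjoin F _ ⟨a, rfl⟩
  let algK : Algebra K M₁ := ((algebraMap K M).codRestrict M₁.toSubfield.toSubring hmem).toAlgebra
  have hval : ∀ a : K, ((algebraMap K M₁ a : M₁) : M) = algebraMap K M a := fun a => rfl
  have : IsScalarTower k K M₁ := by
    refine IsScalarTower.of_algebraMap_eq fun a => Subtype.ext ?_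
    rw [hval, ← IsScalarTower.algebraMap_apply]
    rfl
  have hLD1 : LinDisj k F K M₁ := by
    intro m a ha
    have h1 := hLD m a ha
    exact LinearIndependent.of_comp (M₁.val.toLinearMap) h1
  have hgen : IntermediateField.adjoin F (Set.range (algebraMap K M₁)) = ⊤ := by
    apply IntermediateField.lift_injective M₁
    have h1 : Subtype.val '' Set.range (algebraMap K M₁) = Set.range (algebraMap K M) := by
      rw [← Set.range_comp]
      rfl
    rw [IntermediateField.lift_adjoin, IntermediateField.lift_top, h1]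
  have hlc : ∀ c : Fin n → F, ((lc (fun i => algebraMap K M₁ (e i)) c : M₁) : M)
      = lc (fun i => algebraMap K M (e i)) c := fun c => sgb_lc M₁ _ c
  have hf1 : aeval ![lc (fun i => algebraMap K M₁ (e i)) c,
      lc (fun i => algebraMap K M₁ (e i)) d] f = 0 := by
    apply Subtype.ext
    rw [sgb_aeval, hlc, hlc, hf]
    rfl
  rcases generic hLD1 hgen hK e he c d hc C f hf0 hfC hf1 with ⟨u, hu, P, R, hP, hR⟩ |
    ⟨s, c₀, hc₀, H, hH0, hHC, hH, hne⟩
  · refine Or.inl ⟨(u : M), ?_, P, R, ?_, ?_⟩
    · have h1 : (u : M) ∈ IntermediateField.lift (IntermediateField.adjoin F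
        ({lc (fun i => algebraMap K M₁ (e i)) c, lc (fun i => algebraMap K M₁ (e i)) d}
          : Set M₁)) := by
        exact ⟨u, hu, rfl⟩
      rw [IntermediateField.lift_adjoin] at h1
      rw [Set.image_pair, hlc, hlc] at h1
      exact h1
    · rw [← hlc, hP]
      exact (Polynomial.aeval_algebraMap_apply M u P).symm
    · rw [← hlc, hR]
      exact (Polynomial.aeval_algebraMap_apply M u R).symm
  · refine Or.inr ⟨s, c₀, hc₀, H, hH0, hHC, ?_, hne⟩
    rw [← hlc, ← hlc, ← sgb_aeval, hH]
    rfl

end MP60829e.PS
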