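import Mathlib
import Pool.Agent.Lib.MP_60829e_nt.PS.SLc
import Pool.Agent.Lib.MP_60829e_nt.PS.SDep
import Pool.Agent.Lib.MP_60829e_nt.S.General

/-! Curve section (task S2). -/

namespace MP60829e.PS

open MvPolynomial MP60829e.S

private lemma ssection_total_linear {k : Type*} [Field k] {n : ℕ} (c₀ : k) (c : Fin n → k) :
    (C c₀ + ∑ i, C (c i) * X i : MvPolynomial (Fin n) k).totalDegree ≤ 1 := by
  refine (totalDegree_add _ _).trans (max_le (by simp) ?_)
  refine (totalDegree_finsetSum _ _).trans (Finset.sup_le fun i _ => ?_)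
  refine (totalDegree_mul _ _).trans ?_
  simp

private lemma ssection_aeval_total {k : Type*} [Field k] {n : ℕ} (c d : Fin n → k)
    (g : MvPolynomial (Fin 2) k) :
    (aeval (![∑ i, C (c i) * X i, ∑ i, C (d i) * X i] : Fin 2 → MvPolynomial (Fin n) k)
      g).totalDegree ≤ g.totalDegree := by
  have key : ∀ (j : Fin 2), ((![∑ i, C (c i) * X i, ∑ i, C (d i) * X i] :
      Fin 2 → MvPolynomial (Fin n) k) j).totalDegree ≤ 1 := by
    intro j
    fin_cases j
    · have := ssection_total_linear (0 : k) c
      simpa using this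
    · have := ssection_total_linear (0 : k) d
      simpa using this
  rw [aeval_def, eval₂_eq']
  refine (totalDegree_finsetSum _ _).trans (Finset.sup_le fun s hs => ?_)
  refine (totalDegree_mul _ _).trans ?_
  rw [algebraMap_eq, totalDegree_C, zero_add]
  refine (totalDegree_finsetProd _ _).trans ?_
  calc ∑ i, ((![∑ i, C (c i) * X i, ∑ i, C (d i) * X i] :
      Fin 2 → MvPolynomial (Fin n) k) i ^ (s i)).totalDegree
      ≤ ∑ i, s i * 1 := Finset.sum_le_sum fun i _ =>
        (totalDegree_pow _ _).trans (Nat.mul_le_mul_left _ (key i))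
    _ = ∑ i, s i := by simp
    _ ≤ g.totalDegree := by
        refine le_trans (le_of_eq ?_) (le_totalDegree hs)
        rw [Finsupp.sum_fintype _ _ (by simp)]

private lemma ssection_alg {k K : Type*} [Field k] [Field K] [Algebra k K] {x y : K}
    (hy : IsAlgebraic (IntermediateField.adjoin k ({x} : Set K)) y) (g : MvPolynomial (Fin 2) k) :
    IsAlgebraic (IntermediateField.adjoin k ({x} : Set K)) (aeval ![x, y] g) := by
  induction g using MvPolynomial.induction_on with
  | C a =>
    rw [algHom_C, IsScalarTower.algebraMap_apply k (IntermediateField.adjoin k ({x} : Set K)) K]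
    exact isAlgebraic_algebraMap _
  | add p q hp hq => rw [map_add]; exact hp.add hq
  | mul_X p i hp =>
    rw [map_mul, aeval_X]
    refine hp.mul ?_
    fin_cases i
    · exact isAlgebraic_algebraMap
        (⟨x, IntermediateField.subset_adjoin k _ rfl⟩ : IntermediateField.adjoin k ({x} : Set K))
    · exact hy

open scoped IntermediateField.algebraAdjoinAdjoin in
private lemma ssection_alg' {k K : Type*} [Field k] [Field K] [Algebra k K] {x w : K}
    (hw : IsAlgebraic (IntermediateField.adjoin k ({x} : Set K)) w) :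
    IsAlgebraic (Algebra.adjoin k ({x} : Set K)) w :=
  (IsFractionRing.isAlgebraic_iff (Algebra.adjoin k ({x} : Set K))
    (IntermediateField.adjoin k ({x} : Set K)) K).2 hw

/-- S2. -/
theorem exists_section.{u, v} {k : Type u} {K : Type v} [Field k] [IsAlgClosed k] [CharZero k] [Field K]
    [Algebra k K] {n : ℕ} (e : Fin n → K)
    (he : LinearIndependent k (Fin.cons (1 : K) e : Fin (n + 1) → K)) (N : ℕ) :
    ∃ (K' : Type v) (_ : Field K') (_ : Algebra k K') (e' : Fin n → K'),
      IsCurveField k K' ∧ LinearIndependent k (Fin.cons (1 : K') e' : Fin (n + 1) → K') ∧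
      (∀ (c d : Fin n → k) (g : MvPolynomial (Fin 2) k), g.totalDegree ≤ N →
        aeval ![lc e' c, lc e' d] g = 0 → aeval ![lc e c, lc e d] g = 0) ∧
      (∀ (c d : Fin n → k) (g : MvPolynomial (Fin 2) k),
        aeval ![lc e c, lc e d] g = 0 → aeval ![lc e' c, lc e' d] g = 0) ∧
      (∀ c d : Fin n → k, c ≠ 0 → Dep k (lc e c) (lc e d) → ∀ g : MvPolynomial (Fin 2) k,
        aeval ![lc e' c, lc e' d] g = 0 → aeval ![lc e c, lc e d] g = 0) := by
  classical
  set R : Subalgebra k K := Algebra.adjoin k (Set.range e) with hR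
  have hRft : Algebra.FiniteType k R := by
    refine (Subalgebra.fg_iff_finiteType _).1 ⟨Finset.univ.image e, ?_⟩
    rw [Finset.coe_image, Finset.coe_univ, Set.image_univ]
  let eR : Fin n → R := fun i => ⟨e i, Algebra.subset_adjoin ⟨i, rfl⟩⟩
  let ev : MvPolynomial (Fin n) k →ₐ[k] R := aeval eR
  set m := max N 1 with hm
  let U : Submodule k R := (restrictTotalDegree (Fin n) k m).map ev.toLinearMap
  have hU : U.FG := Submodule.FG.map _ (Module.Finite.iff_fg.1 inferInstance)
  obtain ⟨P, hP, hPU, ψ, hψ⟩ := curve_section U hU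
  have hdom : IsDomain (R ⧸ P) := Ideal.Quotient.isDomain P
  let K' := FractionRing (R ⧸ P)
  have hK' : IsCurveField k K' := isCurveField_fractionRing ψ hψ K'
  let π : R →ₐ[k] K' := (IsScalarTower.toAlgHom k (R ⧸ P) K').comp (Ideal.Quotient.mkₐ k P)
  have hπ0 : ∀ p : MvPolynomial (Fin n) k, p.totalDegree ≤ m → π (ev p) = 0 → ev p = 0 := by
    intro p hp h0
    apply hPU _ ⟨p, (mem_restrictTotalDegree _ _ _).2 hp, rfl⟩
    have h2 : algebraMap (R ⧸ P) K' (Ideal.Quotient.mk P (ev p)) = 0 := h0
    rw [FaithfulSMul.algebraMap_eq_zero_iff] at h2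
    exact Ideal.Quotient.eq_zero_iff_mem.1 h2
  let e' : Fin n → K' := fun i => π (eR i)
  have hlcR : ∀ c : Fin n → k, ((∑ i, algebraMap k R (c i) * eR i : R) : K) = lc e c := by
    intro c
    rw [lc, ← Subalgebra.coe_val, map_sum]
    refine Finset.sum_congr rfl fun i _ => ?_
    rw [map_mul]
    rfl
  have hlc' : ∀ c : Fin n → k, π (∑ i, algebraMap k R (c i) * eR i) = lc e' c := by
    intro c
    rw [lc, map_sum]
    refine Finset.sum_congr rfl fun i _ => ?_
    rw [map_mul, AlgHom.commutes]
  -- evaluation of `g`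
  have hgK : ∀ (c d : Fin n → k) (g : MvPolynomial (Fin 2) k),
      (ev (aeval ![∑ i, C (c i) * X i, ∑ i, C (d i) * X i] g) : K) =
        aeval ![lc e c, lc e d] g := by
    intro c d g
    have h1 : ((R.val.comp ev).comp (aeval ![∑ i, C (c i) * X i, ∑ i, C (d i) * X i])) =
        (aeval ![lc e c, lc e d] : MvPolynomial (Fin 2) k →ₐ[k] K) := by
      apply algHom_ext
      intro i
      fin_cases i
      · simp [ev, eR, lc]
      · simp [ev, eR, lc]
    exact congrArg (fun φ : MvPolynomial (Fin 2) k →ₐ[k] K => φ g) h1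
  have hgK' : ∀ (c d : Fin n → k) (g : MvPolynomial (Fin 2) k),
      π (ev (aeval ![∑ i, C (c i) * X i, ∑ i, C (d i) * X i] g)) =
        aeval ![lc e' c, lc e' d] g := by
    intro c d g
    have h1 : ((π.comp ev).comp (aeval ![∑ i, C (c i) * X i, ∑ i, C (d i) * X i])) =
        (aeval ![lc e' c, lc e' d] : MvPolynomial (Fin 2) k →ₐ[k] K') := by
      apply algHom_ext
      intro i
      fin_cases i
      · simp [ev, e', lc, map_sum]
      · simp [ev, e', lc, map_sum]
    exact congrArg (fun φ : MvPolynomial (Fin 2) k →ₐ[k] K' => φ g) h1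
  have he' : LinearIndependent k (Fin.cons (1 : K') e' : Fin (n + 1) → K') := by
    rw [Fintype.linearIndependent_iff] at he ⊢
    intro g hg
    apply he
    rw [Fin.sum_univ_succ] at hg ⊢
    simp only [Fin.cons_zero, Fin.cons_succ] at hg ⊢
    have h1 : π (ev (C (g 0) + ∑ i : Fin n, C (g i.succ) * X i)) = 0 := by
      rw [← hg]
      simp only [ev, map_add, map_sum, map_mul, aeval_X, algHom_C, AlgHom.commutes, e',
        Algebra.smul_def, mul_one]
    have h2 := hπ0 _ ((ssection_total_linear (g 0) (fun i => g i.succ)).trans (le_max_right _ _)) h1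
    have h3 := congrArg (R.val) h2
    rw [map_zero] at h3
    rw [← h3]
    simp only [ev, map_add, map_sum, map_mul, aeval_X, algHom_C, AlgHom.commutes, eR,
      Algebra.smul_def, mul_one]
    rfl
  refine ⟨K', inferInstance, inferInstance, e', hK', he', ?_, ?_, ?_⟩
  · intro c d g hg h0
    rw [← hgK]
    rw [← hgK'] at h0
    rw [hπ0 _ ((ssection_aeval_total c d g).trans (hg.trans (le_max_left _ _))) h0]
    rfl
  · intro c d g h0
    rw [← hgK] at h0
    rw [← hgK']
    have : ev (aeval ![∑ i, C (c i) * X i, ∑ i, C (d i) * X i] g) = 0 := Subtype.ext h0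
    rw [this, map_zero]
  · intro c d hc hdep g h0
    have hx : lc e c ∉ Set.range (algebraMap k K) := fun h => hc (eq_zero_of_lc_mem_range he h)
    have hx' : lc e' c ∉ Set.range (algebraMap k K') :=
      fun h => hc (eq_zero_of_lc_mem_range he' h)
    have hxt := transcendental_of_not_mem_range hx'
    by_contra hw
    rw [dep_iff_isAlgebraic hx] at hdep
    set x := lc e c with hxdef
    set y := lc e d with hydef
    have halg := ssection_alg hdep g
    have halgA : IsAlgebraic (Algebra.adjoin k ({x} : Set K)) (aeval ![x, y] g) :=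
      ssection_alg' halg
    obtain ⟨t, ht, r, hr, hrt⟩ :=
      halgA.exists_nonzero_eq_adjoin_mul (mem_nonZeroDivisors_of_ne_zero hw)
    -- everything lies in `R`
    set wR : R := ev (aeval ![∑ i, C (c i) * X i, ∑ i, C (d i) * X i] g) with hwR
    set xR : R := ∑ i, algebraMap k R (c i) * eR i with hxR
    have hAR : ∀ a : Algebra.adjoin k ({x} : Set K), (a : K) ∈ R := by
      intro a
      refine Algebra.adjoin_le (S := R) ?_ a.2
      rintro _ rfl
      rw [hxdef, ← hlcR c]
      exact xR.2
    have htR : t ∈ R := by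
      refine Algebra.adjoin_induction (p := fun z _ => z ∈ R) ?_ ?_ ?_ ?_ ht
      · rintro _ rfl
        rw [← hgK]
        exact wR.2
      · intro a; exact hAR a
      · intro a b _ _ ha hb; exact add_mem ha hb
      · intro a b _ _ ha hb; exact mul_mem ha hb
    obtain ⟨p, hp⟩ : ∃ p : Polynomial k, Polynomial.aeval x p = (r : K) := by
      have h1 : ∀ z ∈ Algebra.adjoin k ({x} : Set K), z ∈ (Polynomial.aeval (R := k) x).range := by
        intro z hz
        rwa [Algebra.adjoin_singleton_eq_range_aeval] at hz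
      exact h1 _ r.2
    have hp0 : p ≠ 0 := by
      rintro rfl
      apply hr
      apply Subtype.ext
      rw [← hp, map_zero]
      rfl
    have hpR : Polynomial.aeval xR p = wR * ⟨t, htR⟩ := by
      apply Subtype.ext
      have h1 : ((Polynomial.aeval xR p : R) : K) = Polynomial.aeval x p := by
        rw [← Subalgebra.coe_val, ← Polynomial.aeval_algHom_apply]
        congr 1
        rw [Subalgebra.coe_val, hlcR]
      rw [h1, hp]
      change _ = (wR : K) * t
      rw [hwR, hgK, hrt]
      rfl
    have hfin : Polynomial.aeval (lc e' c) p = 0 := by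
      rw [← hlc' c, ← hxR, Polynomial.aeval_algHom_apply, hpR, map_mul, hwR, hgK', h0, zero_mul]
    exact hxt ⟨p, hp0, hfin⟩

end MP60829e.PS
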