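import Mathlib
import Pool.Agent.Lib.MP_60829e_nt.PS.UDefs

/-! The ultrapower of an algebraically closed field is algebraically closed (task U1). -/

namespace MP60829e.PS

namespace UP

/-- U1. -/
instance instIsAlgClosed {I : Type*} (φ : Ultrafilter I) (k : Type*) [Field k] [IsAlgClosed k] :
    IsAlgClosed (UP φ k) := by
  apply IsAlgClosed.of_exists_root
  intro p hp hirr
  set d := p.natDegree with hd
  have hd0 : d ≠ 0 := hirr.natDegree_pos.ne'
  choose c hc using fun j : ℕ => mk_surjective φ (p.coeff j)
  -- the polynomials with coefficients in `k`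
  let S : I → Polynomial k := fun i => ∑ j : Fin d, Polynomial.C (c j i) * Polynomial.X ^ (j : ℕ)
  have hdeg : ∀ i, (Polynomial.X ^ d + S i).degree ≠ 0 := by
    intro i
    have h1 : (S i).degree < (Polynomial.X ^ d : Polynomial k).degree := by
      rw [Polynomial.degree_X_pow]
      exact Polynomial.degree_sum_fin_lt _
    rw [Polynomial.degree_add_eq_left_of_degree_lt h1, Polynomial.degree_X_pow]
    exact_mod_cast hd0
  choose r hr using fun i => IsAlgClosed.exists_root _ (hdeg i)
  refine ⟨mk φ r, ?_⟩
  have h1 : ∀ i, r i ^ d + ∑ j : Fin d, c j i * r i ^ (j : ℕ) = 0 := by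
    intro i
    have h2 := hr i
    rw [Polynomial.IsRoot.def, Polynomial.eval_add, Polynomial.eval_pow, Polynomial.eval_X] at h2
    simp only [S, Polynomial.eval_finsetSum, Polynomial.eval_mul, Polynomial.eval_C,
      Polynomial.eval_pow, Polynomial.eval_X] at h2
    exact h2
  have h3 : p.eval (mk φ r) = mk φ (r ^ d + ∑ j : Fin d, c j * r ^ (j : ℕ)) := by
    rw [Polynomial.eval_eq_sum_range, ← hd, Finset.sum_range_succ, map_add, map_pow, map_sum]
    have h4 : p.coeff d = 1 := hp.coeff_natDegree
    rw [h4, one_mul, add_comm]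
    congr 1
    rw [← Fin.sum_univ_eq_sum_range (fun j => p.coeff j * (mk φ r) ^ j) d]
    refine Finset.sum_congr rfl fun j _ => ?_
    rw [map_mul, map_pow, hc]
  rw [h3]
  have h5 : r ^ d + ∑ j : Fin d, c j * r ^ (j : ℕ) = 0 := by
    funext i
    have := h1 i
    simpa using this
  rw [h5, map_zero]

end UP

end MP60829e.PS
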