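import Mathlib
import Pool.Agent.Lib.MP_60829e_nt.PS.UDefs
import Pool.Agent.Lib.MP_60829e_nt.PS.DGlue

/-! Linear disjointness of `K` and the ultrapower of `k` (task U2). -/

namespace MP60829e.PS

namespace UP

private theorem ulin_sum {I : Type*} (φ : Ultrafilter I) {k K : Type*} [Field k] [Field K]
    [Algebra k K] {n : ℕ} (e : Fin n → K) (c : I → Fin n → k) :
    mk φ (fun i => ∑ j, algebraMap k K (c i j) * e j) =
      ∑ j, algebraMap (UP φ k) (UP φ K) (mk φ (fun i => c i j)) * algebraMap K (UP φ K) (e j) := by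
  have h : (fun i => ∑ j, algebraMap k K (c i j) * e j) =
      ∑ j, (fun i => algebraMap k K (c i j)) * (fun _ => e j) := by
    funext i
    rw [Finset.sum_apply]
    rfl
  rw [h, map_sum]
  apply Finset.sum_congr rfl
  intro j _
  rw [map_mul, algebraMap_mk, algebraMap_self]

/-- U2. -/
theorem linDisj {I : Type*} (φ : Ultrafilter I) (k K : Type*) [Field k] [Field K] [Algebra k K] :
    LinDisj k (UP φ k) K (UP φ K) := by
  intro n a ha
  rw [Fintype.linearIndependent_iff]
  intro c hc
  choose d hd using fun j => mk_surjective φ (c j)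
  have h1 : mk φ (fun i => ∑ j, algebraMap k K (d j i) * a j) = 0 := by
    rw [ulin_sum φ a (fun i j => d j i), ← hc]
    apply Finset.sum_congr rfl
    intro j _
    rw [hd j, Algebra.smul_def]
  rw [mk_eq_zero] at h1
  intro j
  rw [← hd j, mk_eq_zero]
  filter_upwards [h1] with i hi
  rw [Fintype.linearIndependent_iff] at ha
  apply ha (fun j => d j i) _ j
  rw [← hi]
  apply Finset.sum_congr rfl
  intro j _
  rw [Algebra.smul_def]

/-- U2'. Every element of the span of standard elements. -/
theorem mem_span_of_rep {I : Type*} (φ : Ultrafilter I) {k K : Type*} [Field k] [Field K]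
    [Algebra k K] {n : ℕ} (e : Fin n → K) (c : I → Fin n → k) :
    mk φ (fun i => ∑ j, algebraMap k K (c i j) * e j) =
      ∑ j, algebraMap (UP φ k) (UP φ K) (mk φ (fun i => c i j)) * algebraMap K (UP φ K) (e j) :=
  ulin_sum φ e c

end UP

end MP60829e.PS
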