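import Mathlib
import Pool.Agent.Lib.MP_60829e_nt.PS.UDefs

/-! Polynomials over ultrapowers and families of polynomials of bounded degree (task U3). -/

namespace MP60829e.PS

namespace UP

variable {I : Type*} (φ : Ultrafilter I) {k K : Type*} [Field k] [Field K] [Algebra k K]

/-- `ps` represents `p`. -/
def Rep {σ : Type*} (p : MvPolynomial σ (UP φ k)) (ps : I → MvPolynomial σ k) : Prop :=
  ∃ T : Finset (σ →₀ ℕ), p.support ⊆ T ∧ (∀ i, (ps i).support ⊆ T) ∧
    ∀ m, MvPolynomial.coeff m p = mk φ (fun i => MvPolynomial.coeff m (ps i))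

/-- U3a. -/
theorem exists_rep {σ : Type*} (p : MvPolynomial σ (UP φ k)) :
    ∃ ps : I → MvPolynomial σ k, Rep φ p ps ∧ ∀ i, (ps i).totalDegree ≤ p.totalDegree := by
  classical
  choose c hc using fun m : σ →₀ ℕ => mk_surjective φ (MvPolynomial.coeff m p)
  have hcoeff : ∀ i m, MvPolynomial.coeff m
      (∑ m ∈ p.support, MvPolynomial.monomial m (c m i)) = if m ∈ p.support then c m i else 0 := by
    intro i m
    rw [MvPolynomial.coeff_sum]
    simp only [MvPolynomial.coeff_monomial]
    rw [Finset.sum_ite_eq' p.support m (fun m => c m i)]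
  have hsupp : ∀ i, (∑ m ∈ p.support, MvPolynomial.monomial m (c m i)).support ⊆ p.support := by
    intro i m hm
    rw [MvPolynomial.mem_support_iff, hcoeff] at hm
    by_contra h
    exact hm (if_neg h)
  refine ⟨fun i => ∑ m ∈ p.support, MvPolynomial.monomial m (c m i),
    ⟨p.support, subset_rfl, hsupp, ?_⟩, ?_⟩
  · intro m
    simp only [hcoeff]
    by_cases h : m ∈ p.support
    · simp only [if_pos h]
      exact (hc m).symm
    · simp only [if_neg h]
      rw [MvPolynomial.notMem_support_iff.1 h]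
      exact (map_zero (mk φ)).symm
  · intro i
    exact Finset.sup_mono (hsupp i)

/-- U3b. -/
theorem exists_poly {σ : Type*} [Finite σ] (ps : I → MvPolynomial σ k) (C : ℕ)
    (hC : ∀ i, (ps i).totalDegree ≤ C) :
    ∃ p : MvPolynomial σ (UP φ k), Rep φ p ps ∧ p.totalDegree ≤ C := by
  classical
  set T : Finset (σ →₀ ℕ) := (Finsupp.finite_of_degree_le (σ := σ) C).toFinset with hT
  have hmemT : ∀ m, m ∈ T ↔ m.degree ≤ C := by
    intro m
    simp [hT]
  have hps : ∀ i, (ps i).support ⊆ T := by
    intro i m hm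
    rw [hmemT]
    have h1 := MvPolynomial.le_totalDegree hm
    have h2 : m.degree = m.sum fun _ e => e := rfl
    rw [h2]
    exact h1.trans (hC i)
  set p : MvPolynomial σ (UP φ k) := ∑ m ∈ T, MvPolynomial.monomial m
    (mk φ (fun i => MvPolynomial.coeff m (ps i))) with hp
  have hcoeff : ∀ m, MvPolynomial.coeff m p =
      if m ∈ T then mk φ (fun i => MvPolynomial.coeff m (ps i)) else 0 := by
    intro m
    rw [hp, MvPolynomial.coeff_sum]
    simp only [MvPolynomial.coeff_monomial]
    rw [Finset.sum_ite_eq' T m (fun m => mk φ (fun i => MvPolynomial.coeff m (ps i)))]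
  have hsupp : p.support ⊆ T := by
    intro m hm
    rw [MvPolynomial.mem_support_iff, hcoeff] at hm
    by_contra h
    exact hm (if_neg h)
  refine ⟨p, ⟨T, hsupp, hps, ?_⟩, ?_⟩
  · intro m
    rw [hcoeff]
    by_cases h : m ∈ T
    · rw [if_pos h]
    · rw [if_neg h]
      have h0 : (fun i => MvPolynomial.coeff m (ps i)) = (0 : I → k) := by
        funext i
        exact MvPolynomial.notMem_support_iff.1 fun hm => h (hps i hm)
      rw [h0, map_zero]
  · refine Finset.sup_le fun m hm => ?_
    exact (hmemT m).1 (hsupp hm)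

private theorem upoly_mk_sum {ι : Type*} (s : Finset ι) (f : ι → I → K) :
    mk φ (fun i => ∑ j ∈ s, f j i) = ∑ j ∈ s, mk φ (f j) := by
  rw [← map_sum]
  congr 1
  funext i
  rw [Finset.sum_apply]

private theorem upoly_mk_prod {ι : Type*} (s : Finset ι) (f : ι → I → K) :
    mk φ (fun i => ∏ j ∈ s, f j i) = ∏ j ∈ s, mk φ (f j) := by
  rw [← map_prod]
  congr 1
  funext i
  rw [Finset.prod_apply]

private theorem upoly_aeval_eq {σ R A : Type*} [CommRing R] [CommRing A] [Algebra R A]
    (T : Finset (σ →₀ ℕ)) (q : MvPolynomial σ R) (hq : q.support ⊆ T) (z : σ → A) :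
    MvPolynomial.aeval z q =
      ∑ m ∈ T, algebraMap R A (MvPolynomial.coeff m q) * ∏ j ∈ m.support, z j ^ m j := by
  rw [MvPolynomial.aeval_def, MvPolynomial.eval₂_eq]
  refine Finset.sum_subset hq fun m _ hm => ?_
  rw [MvPolynomial.notMem_support_iff.1 hm, map_zero, zero_mul]

/-- U3c. -/
theorem Rep.aeval {σ : Type*} {p : MvPolynomial σ (UP φ k)}
    {ps : I → MvPolynomial σ k} (h : Rep φ p ps) (x : I → σ → K) :
    MvPolynomial.aeval (fun j => mk φ (fun i => x i j)) p =
      mk φ (fun i => MvPolynomial.aeval (x i) (ps i)) := by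
  classical
  obtain ⟨T, hT1, hT2, hc⟩ := h
  rw [upoly_aeval_eq T p hT1]
  have h2 : (fun i => MvPolynomial.aeval (x i) (ps i)) = fun i =>
      ∑ m ∈ T, algebraMap k K (MvPolynomial.coeff m (ps i)) * ∏ j ∈ m.support, x i j ^ m j := by
    funext i
    exact upoly_aeval_eq T (ps i) (hT2 i) (x i)
  rw [h2, upoly_mk_sum]
  refine Finset.sum_congr rfl fun m _ => ?_
  rw [hc m, algebraMap_mk]
  have h3 : (fun i => algebraMap k K (MvPolynomial.coeff m (ps i)) * ∏ j ∈ m.support, x i j ^ m j) =
      (fun i => algebraMap k K (MvPolynomial.coeff m (ps i))) *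
        (fun i => ∏ j ∈ m.support, x i j ^ m j) := rfl
  rw [h3, map_mul, upoly_mk_prod]
  congr 1

/-- U3d. -/
theorem Rep.ne_zero_iff {σ : Type*} {p : MvPolynomial σ (UP φ k)}
    {ps : I → MvPolynomial σ k} (h : Rep φ p ps) :
    p ≠ 0 ↔ ∀ᶠ i in (φ : Filter I), ps i ≠ 0 := by
  obtain ⟨T, hT1, hT2, hc⟩ := h
  have h1 : p = 0 ↔ ∀ᶠ i in (φ : Filter I), ps i = 0 := by
    constructor
    · intro hp
      have h2 : ∀ m ∈ T, ∀ᶠ i in (φ : Filter I), MvPolynomial.coeff m (ps i) = 0 := by
        intro m _
        rw [← mk_eq_zero, ← hc m, hp, MvPolynomial.coeff_zero]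
      have h3 := (Filter.eventually_all_finset T).2 h2
      filter_upwards [h3] with i hi
      ext m
      rw [MvPolynomial.coeff_zero]
      by_cases hm : m ∈ T
      · exact hi m hm
      · exact MvPolynomial.notMem_support_iff.1 fun h => hm (hT2 i h)
    · intro hp
      ext m
      rw [MvPolynomial.coeff_zero, hc m, mk_eq_zero]
      filter_upwards [hp] with i hi
      rw [hi, MvPolynomial.coeff_zero]
  rw [Ne, h1, ← Ultrafilter.eventually_not]

/-- U3e. The same for polynomials in one variable. -/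
theorem exists_rep_poly (P : Polynomial (UP φ k)) :
    ∃ Ps : I → Polynomial k, (∀ i, (Ps i).natDegree ≤ P.natDegree) ∧
      ∀ u : I → K, Polynomial.aeval (mk φ u) P = mk φ (fun i => Polynomial.aeval (u i) (Ps i)) := by
  classical
  choose c hc using fun m : ℕ => mk_surjective φ (P.coeff m)
  refine ⟨fun i => ∑ j ∈ Finset.range (P.natDegree + 1), Polynomial.monomial j (c j i), ?_, ?_⟩
  · intro i
    refine Polynomial.natDegree_sum_le_of_forall_le _ _ fun j hj => ?_
    refine (Polynomial.natDegree_monomial_le _).trans ?_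
    have := Finset.mem_range.1 hj
    omega
  · intro u
    rw [Polynomial.aeval_eq_sum_range]
    have h2 : (fun i => Polynomial.aeval (u i)
        (∑ j ∈ Finset.range (P.natDegree + 1), Polynomial.monomial j (c j i))) = fun i =>
        ∑ j ∈ Finset.range (P.natDegree + 1), algebraMap k K (c j i) * u i ^ j := by
      funext i
      rw [map_sum]
      refine Finset.sum_congr rfl fun j _ => ?_
      rw [Polynomial.aeval_monomial]
    rw [h2, upoly_mk_sum]
    refine Finset.sum_congr rfl fun j _ => ?_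
    rw [Algebra.smul_def, ← hc j, algebraMap_mk]
    have h3 : (fun i => algebraMap k K (c j i) * u i ^ j) =
        (fun i => algebraMap k K (c j i)) * (u ^ j) := rfl
    rw [h3, map_mul, map_pow]

end UP

end MP60829e.PS
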