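import Mathlib
import Pool.Agent.Lib.MP_60829e_nt.PS.SDegree
import Pool.Agent.Lib.MP_60829e_nt.PS.SSection
import Pool.Agent.Lib.MP_60829e_nt.PS.SGenericBig
import Pool.Agent.Lib.MP_60829e_nt.PS.UClosed
import Pool.Agent.Lib.MP_60829e_nt.PS.ULin
import Pool.Agent.Lib.MP_60829e_nt.PS.UPoly

/-! There is no infinite family of inequivalent pairs which are not parametrised by polynomials
(task S6). -/

namespace MP60829e.PS

open MvPolynomial MP60829e.S Filter

private theorem sfinA_homog {k E : Type*} [Field k] [Field E] [Algebra k E] (A B : E)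
    (hB : B ≠ 0) (P : Polynomial k) :
    B ^ P.natDegree * Polynomial.aeval (A / B) P =
      ∑ j ∈ Finset.range (P.natDegree + 1),
        algebraMap k E (P.coeff j) * (A ^ j * B ^ (P.natDegree - j)) := by
  rw [Polynomial.aeval_eq_sum_range, Finset.mul_sum]
  refine Finset.sum_congr rfl fun j hj => ?_
  have hj' : j ≤ P.natDegree := Nat.lt_succ_iff.1 (Finset.mem_range.1 hj)
  rw [Algebra.smul_def, div_pow]
  have h1 : B ^ P.natDegree = B ^ j * B ^ (P.natDegree - j) := by
    rw [← pow_add, Nat.add_sub_cancel' hj']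
  rw [h1]
  have h2 : B ^ j ≠ 0 := pow_ne_zero _ hB
  field_simp

private noncomputable def sfinAH {k : Type*} [Field k] (a b : MvPolynomial (Fin 2) k)
    (P : Polynomial k) : MvPolynomial (Fin 2) k :=
  ∑ j ∈ Finset.range (P.natDegree + 1), C (P.coeff j) * (a ^ j * b ^ (P.natDegree - j))

private theorem sfinA_aeval {k E : Type*} [Field k] [Field E] [Algebra k E]
    (a b : MvPolynomial (Fin 2) k) (P : Polynomial k) (z : Fin 2 → E) (hz : aeval z b ≠ 0) :
    aeval z b ^ P.natDegree * Polynomial.aeval (aeval z a / aeval z b) P =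
      aeval z (sfinAH a b P) := by
  rw [sfinA_homog _ _ hz, sfinAH, map_sum]
  refine Finset.sum_congr rfl fun j _ => ?_
  simp only [map_mul, map_pow, aeval_C]

private theorem sfinA_transfer {k K K' : Type*} [Field k] [Field K] [Field K'] [Algebra k K]
    [Algebra k K'] {x : Fin 2 → K} {x' : Fin 2 → K'}
    (h5 : ∀ g : MvPolynomial (Fin 2) k, aeval x' g = 0 → aeval x g = 0)
    (a b g : MvPolynomial (Fin 2) k) (hb' : aeval x' b ≠ 0) (hb : aeval x b ≠ 0)
    (P : Polynomial k) (hg : aeval x' g = Polynomial.aeval (aeval x' a / aeval x' b) P) :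
    aeval x g = Polynomial.aeval (aeval x a / aeval x b) P := by
  have h1 : aeval x' (b ^ P.natDegree * g - sfinAH a b P) = 0 := by
    rw [map_sub, map_mul, map_pow, hg, sfinA_aeval a b P x' hb', sub_self]
  have h2 := h5 _ h1
  rw [map_sub, map_mul, map_pow, ← sfinA_aeval a b P x hb, ← mul_sub] at h2
  rcases mul_eq_zero.1 h2 with h3 | h3
  · exact absurd h3 (pow_ne_zero _ hb)
  · exact sub_eq_zero.1 h3

private theorem sfinA_div {I : Type*} (φ : Ultrafilter I) {K : Type*} [Field K] (f g : I → K) :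
    UP.mk φ f / UP.mk φ g = UP.mk φ (fun i => f i / g i) := rfl

/-- S6. -/
theorem no_infinite_family {k K : Type*} [Field k] [IsAlgClosed k] [CharZero k] [Field K]
    [Algebra k K] {n : ℕ} (e : Fin n → K)
    (he : LinearIndependent k (Fin.cons (1 : K) e : Fin (n + 1) → K))
    {I : Type*} [Infinite I] (c d : I → Fin n → k) (hc : ∀ i, c i ≠ 0)
    (hdep : ∀ i, Dep k (lc e (c i)) (lc e (d i)))
    (hpar : ∀ i, ¬ ∃ (u : K) (P R : Polynomial k), lc e (c i) = Polynomial.aeval u P ∧
      lc e (d i) = Polynomial.aeval u R)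
    (hdist : ∀ i j, i ≠ j → ¬ Dep k (lc e (c i)) (lc e (c j))) : False := by
  classical
  have : FiniteDimensional k (Submodule.span k (Set.range e)) :=
    FiniteDimensional.span_of_finite _ (Set.finite_range e)
  obtain ⟨C, -, hC⟩ := degree_bound (k := k) (Submodule.span k (Set.range e))
  have hmem : ∀ c : Fin n → k, lc e c ∈ Submodule.span k (Set.range e) :=
    fun c => mem_span_iff_exists_lc.2 ⟨c, rfl⟩
  have hf : ∀ i, ∃ f : MvPolynomial (Fin 2) k, f ≠ 0 ∧ f.totalDegree ≤ C ∧
      aeval ![lc e (c i), lc e (d i)] f = 0 := fun i => hC _ (hmem _) _ (hmem _) (hdep i)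
  choose f hf0 hfC hfe using hf
  obtain ⟨K', _, _, e', hK', he', hsec1, hsec2, hsec3⟩ := exists_section e he C
  let φ : Ultrafilter I := Filter.hyperfilter I
  let cs : Fin n → UP φ k := fun j => UP.mk φ (fun i => c i j)
  let ds : Fin n → UP φ k := fun j => UP.mk φ (fun i => d i j)
  obtain ⟨F, hFrep, hFC⟩ := UP.exists_poly φ f C hfC
  have hF0 : F ≠ 0 := (hFrep.ne_zero_iff φ).2 (Eventually.of_forall hf0)
  have hlc : ∀ b : I → Fin n → k,
      lc (fun j => algebraMap K' (UP φ K') (e' j)) (fun j => UP.mk φ (fun i => b i j)) =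
        UP.mk φ (fun i => lc e' (b i)) := fun b => (UP.mem_span_of_rep φ e' b).symm
  have hvec : ∀ b b' : I → Fin n → k,
      (![lc (fun j => algebraMap K' (UP φ K') (e' j)) (fun j => UP.mk φ (fun i => b i j)),
        lc (fun j => algebraMap K' (UP φ K') (e' j)) (fun j => UP.mk φ (fun i => b' i j))] :
          Fin 2 → UP φ K') =
        fun l => UP.mk φ (fun i => (![lc e' (b i), lc e' (b' i)] : Fin 2 → K') l) := by
    intro b b'
    funext l
    fin_cases l
    · exact hlc b
    · exact hlc b'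
  have hFe : aeval ![lc (fun j => algebraMap K' (UP φ K') (e' j)) cs,
      lc (fun j => algebraMap K' (UP φ K') (e' j)) ds] F = 0 := by
    rw [hvec c d, hFrep.aeval φ (fun i => ![lc e' (c i), lc e' (d i)])]
    rw [UP.mk_eq_zero]
    exact Eventually.of_forall fun i => hsec2 _ _ _ (hfe i)
  have hcs : cs ≠ 0 := by
    intro h0
    have h1 : ∀ j, ∀ᶠ i in (φ : Filter I), c i j = 0 := fun j =>
      UP.mk_eq_zero.1 (congrFun h0 j)
    have h2 : ∀ᶠ i in (φ : Filter I), ∀ j, c i j = 0 := eventually_all.2 h1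
    obtain ⟨i, hi⟩ := h2.exists
    exact hc i (funext hi)
  rcases generic_big (k := k) (F := UP φ k) (K := K') (M := UP φ K') (UP.linDisj φ k K') hK' e' he'
    cs ds hcs C F hF0 hFC hFe with ⟨u, hu, P, R, hP, hR⟩ | ⟨s, c₀, hc₀, H, hH0, hHC, hHe, hne⟩
  · -- first alternative
    have hrange : ({lc (fun j => algebraMap K' (UP φ K') (e' j)) cs,
        lc (fun j => algebraMap K' (UP φ K') (e' j)) ds} : Set (UP φ K')) =
        Set.range (![lc (fun j => algebraMap K' (UP φ K') (e' j)) cs,
          lc (fun j => algebraMap K' (UP φ K') (e' j)) ds] : Fin 2 → UP φ K') := by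
      simp [Matrix.range_cons, Set.pair_comm]
    rw [hrange, IntermediateField.mem_adjoin_range_iff] at hu
    obtain ⟨a, b, hab⟩ := hu
    obtain ⟨as, has, -⟩ := UP.exists_rep φ a
    obtain ⟨bs, hbs, -⟩ := UP.exists_rep φ b
    obtain ⟨Ps, -, hPs⟩ := UP.exists_rep_poly (K := K') φ P
    obtain ⟨Rs, -, hRs⟩ := UP.exists_rep_poly (K := K') φ R
    rw [hvec c d, has.aeval φ (fun i => ![lc e' (c i), lc e' (d i)]),
      hbs.aeval φ (fun i => ![lc e' (c i), lc e' (d i)]), sfinA_div] at hab
    rw [hab, hPs] at hP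
    rw [hab, hRs] at hR
    have hP' : ∀ᶠ i in (φ : Filter I), lc e' (c i) = Polynomial.aeval
        (aeval ![lc e' (c i), lc e' (d i)] (as i) / aeval ![lc e' (c i), lc e' (d i)] (bs i))
          (Ps i) := by
      have h1 := (hlc c).symm.trans hP
      exact UP.mk_eq_mk.1 h1
    have hR' : ∀ᶠ i in (φ : Filter I), lc e' (d i) = Polynomial.aeval
        (aeval ![lc e' (c i), lc e' (d i)] (as i) / aeval ![lc e' (c i), lc e' (d i)] (bs i))
          (Rs i) := by
      have h1 := (hlc d).symm.trans hR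
      exact UP.mk_eq_mk.1 h1
    obtain ⟨i, hPi, hRi⟩ := (hP'.and hR').exists
    apply hpar i
    by_cases hb0 : aeval ![lc e' (c i), lc e' (d i)] (bs i) = 0
    · -- the parametrisation is constant, impossible
      exfalso
      rw [hb0, div_zero] at hPi
      have h2 : lc e' (c i) ∈ Set.range (algebraMap k K') := by
        refine ⟨(Ps i).coeff 0, ?_⟩
        rw [hPi, Polynomial.aeval_def, Polynomial.eval₂_at_zero]
      exact hc i (eq_zero_of_lc_mem_range he' h2)
    · have hb1 : aeval ![lc e (c i), lc e (d i)] (bs i) ≠ 0 := fun h0 => hb0 (hsec2 _ _ _ h0)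
      have h5 := hsec3 (c i) (d i) (hc i) (hdep i)
      refine ⟨aeval ![lc e (c i), lc e (d i)] (as i) / aeval ![lc e (c i), lc e (d i)] (bs i),
        Ps i, Rs i, ?_, ?_⟩
      · have := sfinA_transfer h5 (as i) (bs i) (X 0) hb0 hb1 (Ps i) (by simpa using hPi)
        simpa using this
      · have := sfinA_transfer h5 (as i) (bs i) (X 1) hb0 hb1 (Rs i) (by simpa using hRi)
        simpa using this
  · -- second alternative
    obtain ⟨Hs, hHs, hHsC⟩ := UP.exists_rep φ H
    let cd : I → Fin n → k := fun i j => c i j + s * d i j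
    have e1 : (fun j => cs j + algebraMap k (UP φ k) s * ds j) =
        fun j => UP.mk φ (fun i => cd i j) := by
      funext j
      change UP.mk φ (fun i => c i j) + UP.mk φ (fun _ => algebraMap k k s) *
        UP.mk φ (fun i => d i j) = _
      rw [← map_mul, ← map_add]
      rfl
    have e2 : (fun j => algebraMap k (UP φ k) (c₀ j)) =
        fun j => UP.mk φ (fun _ : I => c₀ j) := by
      funext j
      rfl
    rw [e1, e2, hvec cd (fun _ => c₀), hHs.aeval φ (fun i => ![lc e' (cd i), lc e' c₀]),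
      UP.mk_eq_zero] at hHe
    rw [e1] at hne
    have hH0' := (hHs.ne_zero_iff φ).1 hH0
    have hne' : ∀ᶠ i in (φ : Filter I), cd i ≠ 0 := by
      have h1 : ∃ j, UP.mk φ (fun i => cd i j) ≠ 0 := by
        by_contra hcon
        push Not at hcon
        exact hne (funext hcon)
      obtain ⟨j, hj⟩ := h1
      have h2 : ¬ ∀ᶠ i in (φ : Filter I), cd i j = 0 := fun h => hj (UP.mk_eq_zero.2 h)
      have h3 : ∀ᶠ i in (φ : Filter I), ¬ cd i j = 0 := Ultrafilter.eventually_not.2 h2
      filter_upwards [h3] with i hi h0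
      exact hi (congrFun h0 j)
    have hev : ∀ᶠ i in (φ : Filter I), Dep k (lc e (c i)) (lc e c₀) := by
      filter_upwards [hHe, hH0', hne'] with i h1 h2 h3
      have h4 : Dep k (lc e (cd i)) (lc e c₀) :=
        ⟨Hs i, h2, hsec1 _ _ _ ((hHsC i).trans hHC) h1⟩
      have hci : lc e (c i) ∉ Set.range (algebraMap k K) := fun h =>
        hc i (eq_zero_of_lc_mem_range he h)
      have hcdi : lc e (cd i) ∉ Set.range (algebraMap k K) := fun h =>
        h3 (eq_zero_of_lc_mem_range he h)
      obtain ⟨V, hV⟩ := exists_class (k := k) hci (Submodule.span k (Set.range e))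
      have h5 : lc e (c i) ∈ V := (hV _).2 ⟨hmem _, Dep.self _⟩
      have h6 : lc e (d i) ∈ V := (hV _).2 ⟨hmem _, hdep i⟩
      have h7 : lc e (cd i) = lc e (c i) + s • lc e (d i) := by
        have h8 : cd i = c i + s • d i := rfl
        rw [h8, lc_add, lc_smul, Algebra.smul_def]
      have h9 : lc e (cd i) ∈ V := by
        rw [h7]
        exact V.add_mem h5 (V.smul_mem _ h6)
      exact Dep.trans hcdi ((hV _).1 h9).2 h4
    have hinf : {i | Dep k (lc e (c i)) (lc e c₀)}.Infinite := fun hfin =>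
      Filter.notMem_hyperfilter_of_finite hfin hev
    obtain ⟨i, hi, j, hj, hij⟩ := hinf.nontrivial
    have hc₀' : lc e c₀ ∉ Set.range (algebraMap k K) := fun h =>
      hc₀ (eq_zero_of_lc_mem_range he h)
    exact hdist i j hij (Dep.trans hc₀' hi (Dep.symm hj))

end MP60829e.PS
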