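import Mathlib
import Pool.Agent.Lib.MP_60829e_nt.PS.SFinA

/-! Finiteness of the classes which are not parametrised by polynomials (task S7). -/

namespace MP60829e.PS

open MvPolynomial

/-- S7. -/
theorem finite_classes {k K : Type*} [Field k] [IsAlgClosed k] [CharZero k] [Field K]
    [Algebra k K] {n : ℕ} (e : Fin n → K)
    (he : LinearIndependent k (Fin.cons (1 : K) e : Fin (n + 1) → K)) :
    ∃ 𝒱 : Set (Submodule k K), 𝒱.Finite ∧
      (∀ V ∈ 𝒱, V ≤ Submodule.span k (Set.range e) ∧ ∀ x ∈ V, ∀ y ∈ V, Dep k x y) ∧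
      ∀ x ∈ Submodule.span k (Set.range e), ∀ y ∈ Submodule.span k (Set.range e), Dep k x y →
        (∃ V ∈ 𝒱, x ∈ V ∧ y ∈ V) ∨
        ∃ (u : K) (P R : Polynomial k), x = Polynomial.aeval u P ∧ y = Polynomial.aeval u R := by
  classical
  set E : Submodule k K := Submodule.span k (Set.range e) with hE
  have hmem : ∀ c : Fin n → k, lc e c ∈ E := fun c => mem_span_iff_exists_lc.2 ⟨c, rfl⟩
  have hnc : ∀ c : Fin n → k, c ≠ 0 → lc e c ∉ Set.range (algebraMap k K) := fun c hc h =>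
    hc (eq_zero_of_lc_mem_range he h)
  -- the bad classes
  let 𝒱 : Set (Submodule k K) := {V | ∃ c d : Fin n → k, c ≠ 0 ∧ Dep k (lc e c) (lc e d) ∧
    (¬ ∃ (u : K) (P R : Polynomial k), lc e c = Polynomial.aeval u P ∧
      lc e d = Polynomial.aeval u R) ∧ ∀ y, y ∈ V ↔ y ∈ E ∧ Dep k (lc e c) y}
  refine ⟨𝒱, ?_, ?_, ?_⟩
  · by_contra hinf
    have : Infinite 𝒱 := Set.infinite_coe_iff.2 hinf
    choose c d hc hdep hpar hV using fun V : 𝒱 => V.2
    refine no_infinite_family e he (I := 𝒱) c d hc hdep hpar ?_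
    intro V V' hne hD
    apply hne
    apply Subtype.ext
    ext y
    rw [hV V y, hV V' y]
    constructor
    · rintro ⟨h1, h2⟩
      exact ⟨h1, Dep.trans (hnc _ (hc V)) (Dep.symm hD) h2⟩
    · rintro ⟨h1, h2⟩
      exact ⟨h1, Dep.trans (hnc _ (hc V')) hD h2⟩
  · rintro V ⟨c, d, hc, hdep, hpar, hV⟩
    refine ⟨fun y hy => ((hV y).1 hy).1, ?_⟩
    intro x hx y hy
    exact Dep.trans (hnc c hc) (Dep.symm ((hV x).1 hx).2) ((hV y).1 hy).2
  · intro x hx y hy hxy
    obtain ⟨c, rfl⟩ := mem_span_iff_exists_lc.1 hx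
    obtain ⟨d, rfl⟩ := mem_span_iff_exists_lc.1 hy
    by_cases hc : c = 0
    · right
      refine ⟨lc e d, 0, Polynomial.X, ?_, by simp⟩
      subst hc
      simp [lc]
    by_cases hpar : ∃ (u : K) (P R : Polynomial k), lc e c = Polynomial.aeval u P ∧
      lc e d = Polynomial.aeval u R
    · exact Or.inr hpar
    · left
      obtain ⟨V, hV⟩ := exists_class (k := k) (hnc c hc) E
      exact ⟨V, ⟨c, d, hc, hxy, hpar, hV⟩, (hV _).2 ⟨hmem _, Dep.self _⟩, (hV _).2 ⟨hmem _, hxy⟩⟩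

end MP60829e.PS
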