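import Mathlib
import Pool.Agent.Lib.MP_60829e_nt.PS.SLc
import Pool.Agent.Lib.MP_60829e_nt.PS.SDep
import Pool.Agent.Lib.MP_60829e_nt.PS.DGlue
import Pool.Agent.Lib.MP_60829e_nt.S.Places

/-! The generic combination is independent of everything (task Z1). -/

namespace MP60829e.PS

open MvPolynomial

/-- A derivation that kills `F` and `x` kills the elements algebraic over `F(x)`. -/
private theorem szeroa_kill {F M N : Type*} [Field F] [CharZero F] [Field M] [Algebra F M]
    [AddCommGroup N] [Module M N] (D : Derivation ℤ M N)
    (hD : ∀ a : F, D (algebraMap F M a) = 0) {x : M} (hx : D x = 0) {z : M}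
    (hz : IsAlgebraic (IntermediateField.adjoin F ({x} : Set M)) z) : D z = 0 := by
  have : CharZero (IntermediateField.adjoin F ({x} : Set M)) :=
    charZero_of_injective_algebraMap (algebraMap F _).injective
  refine derivation_eq_zero_of_isAlgebraic (F := IntermediateField.adjoin F ({x} : Set M)) D ?_ hz
  rintro ⟨a, ha⟩
  show D a = 0
  induction ha using IntermediateField.adjoin_induction with
  | mem y hy => rw [Set.mem_singleton_iff] at hy; rw [hy]; exact hx
  | algebraMap a => exact hD a
  | add a b _ _ ha hb => rw [map_add, ha, hb, add_zero]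
  | inv a _ ha => rw [Derivation.leibniz_inv, ha, smul_zero]
  | mul a b _ _ ha hb => rw [Derivation.leibniz, ha, hb, smul_zero, smul_zero, add_zero]

/-- The slope `dy/dx`. -/
private theorem szeroa_slope {F M : Type*} [Field F] [CharZero F] [Field M] [Algebra F M]
    {x y : M} (hx : Transcendental F x)
    (hy : IsAlgebraic (IntermediateField.adjoin F ({x} : Set M)) y) :
    ∃ g ∈ IntermediateField.adjoin F ({x, y} : Set M),
      (∀ η : Derivation F M M, η y = g * η x) ∧
      ∀ (D : Derivation ℤ F F) (δ : Derivation ℤ M M),
        (∀ c : F, δ (algebraMap F M c) = algebraMap F M (D c)) →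
        δ y - g * δ x ∈ IntermediateField.adjoin F ({x, y} : Set M) := by
  set L : IntermediateField F M := IntermediateField.adjoin F ({x, y} : Set M) with hL
  have hxL : x ∈ L := IntermediateField.subset_adjoin F _ (by simp)
  have hyL : y ∈ L := IntermediateField.subset_adjoin F _ (by simp)
  have : CharZero L := charZero_of_injective_algebraMap (algebraMap F L).injective
  have hxT : Transcendental F (⟨x, hxL⟩ : L) :=
    (transcendental_algebraMap_iff (S := L) (algebraMap L M).injective).1 hx
  obtain ⟨d, hd⟩ := exists_derivation_of_transcendental hxT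
  obtain ⟨d', hd'⟩ := exists_derivation_extension_field
    ((Algebra.linearMap L M).compDer (d.restrictScalars ℤ))
  have hd'L : ∀ z : L, d' (z : M) = (d z : M) := fun z => hd' z
  have hd'F : ∀ c : F, d' (algebraMap F M c) = 0 := by
    intro c
    have h := hd'L (algebraMap F L c)
    rw [Derivation.map_algebraMap] at h
    simpa using h
  have hd'x : d' x = 1 := by
    have h := hd'L ⟨x, hxL⟩
    rw [hd] at h
    simpa using h
  have hd'y : d' y = (d ⟨y, hyL⟩ : M) := hd'L ⟨y, hyL⟩
  refine ⟨(d ⟨y, hyL⟩ : M), (d ⟨y, hyL⟩).2, ?_, ?_⟩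
  · intro η
    have h := szeroa_kill (F := F) (η.restrictScalars ℤ - η x • d') (x := x) ?_ ?_ hy
    · simp only [Derivation.sub_apply, Derivation.smul_apply, smul_eq_mul, hd'y] at h
      have h2 : (η.restrictScalars ℤ) y = η y := rfl
      rw [h2] at h
      linear_combination h
    · intro a
      simp only [Derivation.sub_apply, Derivation.smul_apply, smul_eq_mul, hd'F, mul_zero,
        sub_zero]
      exact η.map_algebraMap a
    · simp only [Derivation.sub_apply, Derivation.smul_apply, smul_eq_mul, hd'x, mul_one]
      exact sub_self _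
  · intro D δ hδ
    obtain ⟨D₁, hD₁⟩ := exists_derivation_extension_field ((Algebra.linearMap F L).compDer D)
    have hD₁F : ∀ c : F, D₁ (algebraMap F L c) = algebraMap F L (D c) := fun c => hD₁ c
    obtain ⟨D₂, hD₂⟩ := exists_derivation_extension_field ((Algebra.linearMap L M).compDer D₁)
    have hD₂L : ∀ z : L, D₂ (z : M) = (D₁ z : M) := fun z => hD₂ z
    have hD₂F : ∀ c : F, D₂ (algebraMap F M c) = algebraMap F M (D c) := by
      intro c
      have h := hD₂L (algebraMap F L c)
      rw [hD₁F] at h
      exact h
    have hD₂x : D₂ x = (D₁ ⟨x, hxL⟩ : M) := hD₂L ⟨x, hxL⟩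
    have hD₂y : D₂ y = (D₁ ⟨y, hyL⟩ : M) := hD₂L ⟨y, hyL⟩
    have h := szeroa_kill (F := F) (δ - D₂ - (δ x - D₂ x) • d') (x := x) ?_ ?_ hy
    · simp only [Derivation.sub_apply, Derivation.smul_apply, smul_eq_mul, hd'y] at h
      have h3 : δ y - (d ⟨y, hyL⟩ : M) * δ x = D₂ y - (d ⟨y, hyL⟩ : M) * D₂ x := by
        linear_combination h
      rw [h3, hD₂x, hD₂y]
      exact sub_mem (D₁ ⟨y, hyL⟩).2 (mul_mem (d ⟨y, hyL⟩).2 (D₁ ⟨x, hxL⟩).2)
    · intro a
      simp only [Derivation.sub_apply, Derivation.smul_apply, smul_eq_mul, hd'F, mul_zero,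
        hδ, hD₂F, sub_self]
    · simp only [Derivation.sub_apply, Derivation.smul_apply, smul_eq_mul, hd'x, mul_one]
      exact sub_self _

/-- Algebraic dependence descends along linearly disjoint extensions. -/
private theorem szeroa_dep {k F K M : Type*} [Field k] [Field F] [Field K] [Field M]
    [Algebra k K] [Algebra F M] [Algebra K M]
    (hLD : LinDisj k F K M) {A B : K} (h : Dep F (algebraMap K M A) (algebraMap K M B)) :
    Dep k A B := by
  obtain ⟨f, hf0, hf⟩ := h
  set v : f.support → K := fun m => ∏ i, (![A, B] i) ^ (m.1 i) with hv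
  by_cases hli : LinearIndependent k v
  · exfalso
    have h1 := hLD _ (v ∘ f.support.equivFin.symm)
      (hli.comp _ f.support.equivFin.symm.injective)
    have h2 : LinearIndependent F (fun m : f.support => algebraMap K M (v m)) := by
      have h3 := h1.comp _ f.support.equivFin.injective
      simpa [Function.comp_def] using h3
    have h4 : ∑ m : f.support, coeff m.1 f • algebraMap K M (v m) = 0 := by
      rw [aeval_def, eval₂_eq', ← Finset.sum_coe_sort] at hf
      rw [← hf]
      refine Finset.sum_congr rfl fun m _ => ?_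
      rw [Algebra.smul_def, hv]
      simp [Fin.prod_univ_two]
    have h5 := Fintype.linearIndependent_iff.1 h2 _ h4
    apply hf0
    ext m
    by_cases hm : m ∈ f.support
    · rw [h5 ⟨m, hm⟩, coeff_zero]
    · rw [notMem_support_iff.1 hm, coeff_zero]
  · rw [Fintype.not_linearIndependent_iff] at hli
    obtain ⟨g, hg, i, hi⟩ := hli
    refine ⟨∑ m : f.support, monomial m.1 (g m), ?_, ?_⟩
    · intro h0
      apply hi
      have h1 := congrArg (coeff i.1) h0
      rw [coeff_sum, coeff_zero] at h1
      rw [Finset.sum_eq_single i] at h1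
      · simpa using h1
      · intro b _ hb
        rw [coeff_monomial, if_neg]
        intro h2
        exact hb (Subtype.ext h2)
      · intro h2
        exact absurd (Finset.mem_univ i) h2
    · rw [map_sum, ← hg]
      refine Finset.sum_congr rfl fun m _ => ?_
      rw [aeval_monomial, Algebra.smul_def, hv, Finsupp.prod_fintype]
      intro i
      exact pow_zero _

/-- Z1. The generic combination is independent of everything. -/
theorem generic_proportional {k F K M : Type*} [Field k] [IsAlgClosed k] [CharZero k] [Field F]
    [IsAlgClosed F] [CharZero F] [Field K] [Field M]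
    [Algebra k F] [Algebra k K] [Algebra k M] [Algebra F M] [Algebra K M]
    [IsScalarTower k F M] [IsScalarTower k K M] (hLD : LinDisj k F K M)
    {n : ℕ} (e : Fin n → K)
    (he : LinearIndependent k (Fin.cons (1 : K) e : Fin (n + 1) → K))
    (hind : ∃ a b : Fin n → k, ¬ Dep k (lc e a) (lc e b))
    (c d : Fin n → F) (hc : AlgebraicIndependent k c)
    (hdep : Dep F (lc (fun i => algebraMap K M (e i)) c)
      (lc (fun i => algebraMap K M (e i)) d)) :
    ∃ g : F, ∀ i, d i = g * c i := by
  rcases Nat.eq_zero_or_pos n with rfl | hn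
  · exact ⟨0, fun i => i.elim0⟩
  set e' : Fin n → M := fun i => algebraMap K M (e i) with he'
  set x : M := lc e' c with hx
  set y : M := lc e' d with hy
  have hli := LinDisj.cons_one hLD he
  have hc0 : c ≠ 0 := by
    intro h
    exact hc.ne_zero ⟨0, hn⟩ (congrFun h _)
  have hxF : x ∉ Set.range (algebraMap F M) := fun h => hc0 (eq_zero_of_lc_mem_range hli h)
  have hxT : Transcendental F x := MP60829e.S.transcendental_of_not_mem_range hxF
  have hyalg : IsAlgebraic (IntermediateField.adjoin F ({x} : Set M)) y :=
    (dep_iff_isAlgebraic hxF).1 hdep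
  obtain ⟨g, hgL, hg1, hg2⟩ := szeroa_slope hxT hyalg
  set Fx : IntermediateField F M := IntermediateField.adjoin F ({x} : Set M) with hFx
  set L : IntermediateField F M := IntermediateField.adjoin F ({x, y} : Set M) with hL
  have hle : Fx ≤ L := by
    rw [hFx, IntermediateField.adjoin_le_iff]
    rintro z rfl
    exact IntermediateField.subset_adjoin F _ (by simp)
  have hLalg : ∀ z ∈ L, IsAlgebraic Fx z := by
    intro z hz
    induction hz using IntermediateField.adjoin_induction with
    | mem z hz =>
      rcases hz with rfl | hz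
      · exact isAlgebraic_algebraMap
          (⟨x, IntermediateField.subset_adjoin F _ (by simp)⟩ : Fx)
      · rw [Set.mem_singleton_iff] at hz; rw [hz]; exact hyalg
    | algebraMap a =>
      exact isAlgebraic_algebraMap (algebraMap F Fx a)
    | add a b _ _ ha hb => exact ha.add hb
    | inv a _ ha => exact ha.inv
    | mul a b _ _ ha hb => exact ha.mul hb
  obtain ⟨j0, hj0⟩ : ∃ j0, Transcendental L (e' j0) := by
    by_contra hcon
    push Not at hcon
    have halg : ∀ j, IsAlgebraic Fx (e' j) := by
      intro j
      have h1 : IsAlgebraic L (e' j) := by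
        by_contra h
        exact hcon j h
      let _ : Algebra Fx L := (IntermediateField.inclusion hle).toAlgebra
      have : IsScalarTower Fx L M := IsScalarTower.of_algebraMap_eq' rfl
      have : Algebra.IsAlgebraic Fx L := by
        refine ⟨fun z => ?_⟩
        exact (isAlgebraic_algebraMap_iff (S := L) (A := M) (algebraMap L M).injective).1
          (hLalg z z.2)
      exact h1.restrictScalars Fx
    have hlc : ∀ a : Fin n → k, IsAlgebraic Fx (algebraMap K M (lc e a)) := by
      intro a
      unfold lc
      rw [map_sum]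
      refine Finset.sum_induction _ (IsAlgebraic Fx) (fun _ _ h h' => h.add h') isAlgebraic_zero
        fun i _ => ?_
      rw [map_mul]
      refine IsAlgebraic.mul ?_ (halg i)
      have h1 : algebraMap K M (algebraMap k K (a i)) = algebraMap Fx M
          (algebraMap F Fx (algebraMap k F (a i))) := by
        rw [← IsScalarTower.algebraMap_apply k K M, ← IsScalarTower.algebraMap_apply F Fx M,
          ← IsScalarTower.algebraMap_apply k F M]
      rw [h1]
      exact isAlgebraic_algebraMap _
    obtain ⟨a, b, hab⟩ := hind
    apply hab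
    apply szeroa_dep hLD
    have h1 : Dep F x (algebraMap K M (lc e a)) := (dep_iff_isAlgebraic hxF).2 (hlc a)
    have h2 : Dep F x (algebraMap K M (lc e b)) := (dep_iff_isAlgebraic hxF).2 (hlc b)
    exact Dep.trans hxF h1.symm h2
  have hLchar : CharZero L := charZero_of_injective_algebraMap (algebraMap F L).injective
  obtain ⟨η, hη⟩ := exists_derivation_of_transcendental hj0
  have hηL : ∀ z ∈ L, η z = 0 := fun z hz => η.map_algebraMap ⟨z, hz⟩
  have hηmul : ∀ z ∈ L, ∀ w : M, η (z * w) = z * η w := by
    intro z hz w
    rw [Derivation.leibniz, hηL z hz, smul_zero, add_zero, smul_eq_mul]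
  have hFL : ∀ a : F, algebraMap F M a ∈ L := fun a => L.algebraMap_mem a
  choose D hD using fun j : Fin n =>
    exists_derivation_of_algebraicIndependent hc (Pi.single j (1 : F))
  have key : ∀ j, ∑ i, algebraMap F M (D j (d i)) * η (e' i) = g * η (e' j) := by
    intro j
    obtain ⟨δ, hδK, hδF⟩ := exists_glue hLD (D j)
    have hδlc : ∀ w : Fin n → F, δ (lc e' w) = lc e' (fun i => D j (w i)) := by
      intro w
      unfold lc
      rw [map_sum]
      refine Finset.sum_congr rfl fun i _ => ?_
      rw [Derivation.leibniz, hδK, hδF, smul_zero, zero_add, smul_eq_mul, mul_comm]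
    have hδx : δ x = e' j := by
      rw [hx, hδlc]
      unfold lc
      simp only [hD]
      rw [Finset.sum_eq_single j]
      · rw [Pi.single_eq_same, map_one, one_mul]
      · intro i _ hij
        rw [Pi.single_eq_of_ne hij, map_zero, zero_mul]
      · intro h
        exact absurd (Finset.mem_univ j) h
    have h1 := hg2 ((D j).restrictScalars ℤ) (δ.restrictScalars ℤ) (fun c => hδF c)
    have h2 : δ y - g * δ x ∈ L := h1
    have h3 := hηL _ h2
    rw [map_sub, hδx, hηmul g hgL, hy, hδlc] at h3
    unfold lc at h3
    rw [map_sum] at h3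
    have h4 : ∀ i, η (algebraMap F M (D j (d i)) * e' i)
        = algebraMap F M (D j (d i)) * η (e' i) := fun i => hηmul _ (hFL _) _
    simp only [h4] at h3
    exact sub_eq_zero.1 h3
  set A : Matrix (Fin n) (Fin n) F := fun j i => D j (d i) with hA
  set v : Fin n → M := fun j => η (e' j) with hv
  have hv0 : v ≠ 0 := by
    intro h
    have h1 := congrFun h j0
    rw [hv] at h1
    simp only [hη] at h1
    exact one_ne_zero h1
  have hdet : (Matrix.scalar (Fin n) g - A.map (algebraMap F M)).det = 0 := by
    rw [← Matrix.exists_mulVec_eq_zero_iff]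
    refine ⟨v, hv0, ?_⟩
    funext j
    rw [Matrix.sub_mulVec, Pi.sub_apply, Pi.zero_apply]
    have h1 : (Matrix.scalar (Fin n) g).mulVec v j = g * v j := by
      simp [Matrix.scalar_apply, Matrix.mulVec_diagonal]
    have h2 : (A.map (algebraMap F M)).mulVec v j
        = ∑ i, algebraMap F M (D j (d i)) * η (e' i) := rfl
    rw [h1, h2, key j]
    exact sub_self _
  have hgalg : IsAlgebraic F g := by
    refine ⟨A.charpoly, A.charpoly_monic.ne_zero, ?_⟩
    rw [← Matrix.eval_charpoly, Matrix.charpoly_map] at hdet
    rw [← hdet, Polynomial.eval_map_algebraMap]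
  obtain ⟨g₀, hg₀⟩ : g ∈ Set.range (algebraMap F M) := by
    by_contra h
    exact MP60829e.S.transcendental_of_not_mem_range h hgalg
  refine ⟨g₀, ?_⟩
  have hker : y - algebraMap F M g₀ * x ∈ Set.range (algebraMap F M) := by
    apply mem_range_of_forall_derivation
    intro ξ
    rw [map_sub, Derivation.leibniz, hg1 ξ, Derivation.map_algebraMap, smul_zero, add_zero,
      smul_eq_mul, hg₀, sub_self]
  have hker2 : y - algebraMap F M g₀ * x = lc e' (d + (-g₀) • c) := by
    rw [lc_add, lc_smul, map_neg]
    ring
  rw [hker2] at hker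
  have h0 := eq_zero_of_lc_mem_range hli hker
  intro i
  have h1 := congrFun h0 i
  simp only [Pi.add_apply, Pi.smul_apply, smul_eq_mul, Pi.zero_apply] at h1
  linear_combination h1

end MP60829e.PS
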