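import Mathlib
import Pool.Agent.Lib.MP_60829e_nt.PS.SDegree
import Pool.Agent.Lib.MP_60829e_nt.PS.SZeroA
import Pool.Agent.Lib.MP_60829e_nt.PS.UClosed
import Pool.Agent.Lib.MP_60829e_nt.PS.ULin
import Pool.Agent.Lib.MP_60829e_nt.PS.UPoly

/-! The zero-one law (task Z2). -/

namespace MP60829e.PS

open MvPolynomial Filter

private theorem szero_aeval {I : Type*} (φ : Ultrafilter I) {k : Type*} [Field k] {n : ℕ}
    (c : I → Fin n → k) (p : MvPolynomial (Fin n) k) :
    aeval (fun j => UP.mk φ (fun i => c i j)) p = UP.mk φ (fun i => eval (c i) p) := by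
  induction p using MvPolynomial.induction_on with
  | C a =>
    simp only [aeval_C, eval_C]
    rfl
  | add p q hp hq =>
    rw [map_add, hp, hq, ← map_add]
    congr 1
    funext i
    simp
  | mul_X p j hp =>
    rw [map_mul, hp, aeval_X, ← map_mul]
    congr 1
    funext i
    simp

private theorem szero_filter {k : Type*} [Field k] {n : ℕ} :
    ∃ φ : Ultrafilter {G : MvPolynomial (Fin n) k // G ≠ 0},
      ∀ G₀ : {G : MvPolynomial (Fin n) k // G ≠ 0},
        ∀ᶠ G in (φ : Filter {G : MvPolynomial (Fin n) k // G ≠ 0}), G₀.1 ∣ G.1 := by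
  classical
  set l : Filter {G : MvPolynomial (Fin n) k // G ≠ 0} :=
    ⨅ G₀ : {G : MvPolynomial (Fin n) k // G ≠ 0},
      𝓟 {G : {G : MvPolynomial (Fin n) k // G ≠ 0} | G₀.1 ∣ G.1} with hl
  have : Nonempty {G : MvPolynomial (Fin n) k // G ≠ 0} := ⟨⟨1, one_ne_zero⟩⟩
  have hne : NeBot l := by
    rw [hl]
    refine iInf_neBot_of_directed ?_ ?_
    · intro G₁ G₂
      refine ⟨⟨G₁.1 * G₂.1, mul_ne_zero G₁.2 G₂.2⟩, ?_, ?_⟩
      · simp only [ge_iff_le, le_principal_iff, mem_principal, Set.setOf_subset_setOf]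
        intro G hG
        exact (Dvd.intro _ rfl).trans hG
      · simp only [ge_iff_le, le_principal_iff, mem_principal, Set.setOf_subset_setOf]
        intro G hG
        exact (Dvd.intro_left _ rfl).trans hG
    · intro G₀
      exact principal_neBot_iff.2 ⟨G₀, dvd_rfl⟩
  refine ⟨Ultrafilter.of l, fun G₀ => ?_⟩
  have h1 : {G : {G : MvPolynomial (Fin n) k // G ≠ 0} | G₀.1 ∣ G.1} ∈ l := by
    rw [hl]
    exact mem_iInf_of_mem G₀ (mem_principal_self _)
  exact Ultrafilter.of_le l h1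

/-- Z2. The zero-one law. -/
theorem zero_one {k K : Type*} [Field k] [IsAlgClosed k] [CharZero k] [Field K]
    [Algebra k K] {n : ℕ} (e : Fin n → K)
    (he : LinearIndependent k (Fin.cons (1 : K) e : Fin (n + 1) → K)) :
    (∀ x ∈ Submodule.span k (Set.range e), ∀ y ∈ Submodule.span k (Set.range e), Dep k x y) ∨
    ∃ G : MvPolynomial (Fin n) k, G ≠ 0 ∧ ∀ c : Fin n → k, eval c G ≠ 0 →
      ∀ y ∈ Submodule.span k (Set.range e), Dep k (lc e c) y →
        ∃ a : k, y = algebraMap k K a * lc e c := by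
  classical
  by_contra hcon
  push Not at hcon
  obtain ⟨⟨x₀, hx₀, y₀, hy₀, hxy₀⟩, hG⟩ := hcon
  obtain ⟨a₀, rfl⟩ := mem_span_iff_exists_lc.1 hx₀
  obtain ⟨b₀, rfl⟩ := mem_span_iff_exists_lc.1 hy₀
  have hG' : ∀ G : {G : MvPolynomial (Fin n) k // G ≠ 0}, ∃ c d : Fin n → k,
      eval c G.1 ≠ 0 ∧ Dep k (lc e c) (lc e d) ∧ ∀ a : k, lc e d ≠ algebraMap k K a * lc e c := by
    intro G
    obtain ⟨c, hc, y, hy, hD, hy'⟩ := hG G.1 G.2
    obtain ⟨d, rfl⟩ := mem_span_iff_exists_lc.1 hy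
    exact ⟨c, d, hc, hD, hy'⟩
  choose c d hc hdep hnp using hG'
  obtain ⟨φ, hφ⟩ := szero_filter (k := k) (n := n)
  have : FiniteDimensional k (Submodule.span k (Set.range e)) :=
    FiniteDimensional.span_of_finite _ (Set.finite_range e)
  obtain ⟨C, -, hC⟩ := degree_bound (k := k) (Submodule.span k (Set.range e))
  have hmem : ∀ c : Fin n → k, lc e c ∈ Submodule.span k (Set.range e) :=
    fun c => mem_span_iff_exists_lc.2 ⟨c, rfl⟩
  have hf : ∀ G, ∃ f : MvPolynomial (Fin 2) k, f ≠ 0 ∧ f.totalDegree ≤ C ∧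
      aeval ![lc e (c G), lc e (d G)] f = 0 := fun G => hC _ (hmem _) _ (hmem _) (hdep G)
  choose f hf0 hfC hfe using hf
  let cs : Fin n → UP φ k := fun j => UP.mk φ (fun i => c i j)
  let ds : Fin n → UP φ k := fun j => UP.mk φ (fun i => d i j)
  have hcs : AlgebraicIndependent k cs := by
    rw [algebraicIndependent_iff]
    intro p hp
    by_contra hp0
    rw [szero_aeval φ c p, UP.mk_eq_zero] at hp
    obtain ⟨G, h1, h2⟩ := (hp.and (hφ ⟨p, hp0⟩)).exists
    obtain ⟨q, hq⟩ := h2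
    apply hc G
    change G.1 = p * q at hq
    rw [hq, map_mul, h1, zero_mul]
  obtain ⟨F, hFrep, hFC⟩ := UP.exists_poly φ f C hfC
  have hF0 : F ≠ 0 := (hFrep.ne_zero_iff φ).2 (Eventually.of_forall hf0)
  have hlc : ∀ b : {G : MvPolynomial (Fin n) k // G ≠ 0} → Fin n → k,
      lc (fun j => algebraMap K (UP φ K) (e j)) (fun j => UP.mk φ (fun i => b i j)) =
        UP.mk φ (fun i => lc e (b i)) := fun b => (UP.mem_span_of_rep φ e b).symm
  have hD : Dep (UP φ k) (lc (fun j => algebraMap K (UP φ K) (e j)) cs)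
      (lc (fun j => algebraMap K (UP φ K) (e j)) ds) := by
    refine ⟨F, hF0, ?_⟩
    have hvec : (![lc (fun j => algebraMap K (UP φ K) (e j)) cs,
        lc (fun j => algebraMap K (UP φ K) (e j)) ds] : Fin 2 → UP φ K) =
          fun l => UP.mk φ (fun i => (![lc e (c i), lc e (d i)] : Fin 2 → K) l) := by
      funext l
      fin_cases l
      · exact hlc c
      · exact hlc d
    rw [hvec, hFrep.aeval φ (fun i => ![lc e (c i), lc e (d i)]), UP.mk_eq_zero]
    exact Eventually.of_forall fun i => hfe i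
  obtain ⟨g, hg⟩ := generic_proportional (k := k) (F := UP φ k) (K := K) (M := UP φ K)
    (UP.linDisj φ k K) e he ⟨a₀, b₀, hxy₀⟩ cs ds hcs hD
  obtain ⟨γ, rfl⟩ := UP.mk_surjective φ g
  have h1 : ∀ j, ∀ᶠ G in (φ : Filter {G : MvPolynomial (Fin n) k // G ≠ 0}),
      d G j = γ G * c G j := by
    intro j
    have h2 := hg j
    change UP.mk φ (fun i => d i j) = UP.mk φ γ * UP.mk φ (fun i => c i j) at h2
    rw [← map_mul] at h2
    exact UP.mk_eq_mk.1 h2
  obtain ⟨G, hG1⟩ := (eventually_all.2 h1).exists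
  apply hnp G (γ G)
  have h3 : d G = γ G • c G := funext fun j => by rw [hG1 j]; rfl
  rw [h3, lc_smul]

end MP60829e.PS
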